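import Mathlib

/-!
# Infinite time Turing machines, semidecision times, gaps, admissible ordinals

Definitions used in the statement of the result for MP_a662fc_lc.
-/

namespace Pool.Agent.MPa662fc

open Ordinal

/-! ### Infinite time Turing machines -/

/-- A move of the head. -/
inductive Move
  | left | right | stay

/-- The program of an infinite time Turing machine: finitely many states, among them the start
state, the limit state and the halt state, and a transition table. The table says, for a state and
the three bits under the head (input, work and output tape), the new state, the three bits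
written, and the move of the head. -/
structure Prog where
  Q : Type
  fin : Fintype Q
  start : Q
  lim : Q
  halt : Q
  start_ne : start ≠ halt
  lim_ne : lim ≠ halt
  tr : Q → (Fin 3 → Bool) → Q × (Fin 3 → Bool) × Move

/-- A snapshot: state, position of the head and the contents of the three tapes
(tape 0 is the input tape, tape 1 the work tape, tape 2 the output tape). -/
structure Snap (Q : Type) where
  state : Q
  head : ℕ
  tape : Fin 3 → ℕ → Bool

/-- The initial snapshot on the input `x`. -/
def Prog.init (p : Prog) (x : ℕ → Bool) : Snap p.Q where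
  state := p.start
  head := 0
  tape := fun i n => if i = 0 then x n else false

/-- New position of the head (a left move at the leftmost cell does nothing). -/
def Move.app : Move → ℕ → ℕ
  | .left, n => n - 1
  | .right, n => n + 1
  | .stay, n => n

/-- One step of the computation. -/
def Prog.step (p : Prog) (c : Snap p.Q) : Snap p.Q where
  state := (p.tr c.state (fun i => c.tape i c.head)).1
  head := (p.tr c.state (fun i => c.tape i c.head)).2.2.app c.head
  tape := fun i n =>
    if n = c.head then (p.tr c.state (fun i => c.tape i c.head)).2.1 i else c.tape i n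

open Classical in
/-- The snapshot at stage `α` of the computation of `p` on the input `x`. At limit stages the
machine is in the limit state, the head is on the leftmost cell, and the content of each cell is
the limit inferior of its earlier contents. -/
noncomputable def Prog.run (p : Prog) (x : ℕ → Bool) (α : Ordinal.{0}) : Snap p.Q :=
  Ordinal.limitRecOn (motive := fun _ => Snap p.Q) α (p.init x) (fun _ c => p.step c)
    (fun α _ f =>
      { state := p.lim
        head := 0
        tape := fun i n =>
          decide (∃ β < α, ∀ γ, ∀ h : γ < α, β ≤ γ → (f γ h).tape i n = true) })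

/-- `p` halts on `x` at stage `α`: it has not halted before, and the step performed at stage `α`
is the act of moving to the halt state. -/
def Prog.HaltsAt (p : Prog) (x : ℕ → Bool) (α : Ordinal.{0}) : Prop :=
  (∀ β ≤ α, (p.run x β).state ≠ p.halt) ∧ (p.run x (α + 1)).state = p.halt

/-- The set of inputs on which `p` halts, that is, the set semidecided by `p`. -/
def Prog.dom (p : Prog) : Set (ℕ → Bool) := {x | ∃ α, p.HaltsAt x α}

/-- The decision time of a program: the supremum of its halting times over all inputs on which it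
halts. -/
noncomputable def Prog.decisionTime (p : Prog) : Ordinal.{0} :=
  sSup {α | ∃ x, p.HaltsAt x α}

/-- `s` is the semidecision time of the (semidecidable) set of reals `A`: the least decision time
of a program semideciding `A`. -/
def IsSemidecisionTime (A : Set (ℕ → Bool)) (s : Ordinal.{0}) : Prop :=
  IsLeast {t | ∃ p : Prog, p.dom = A ∧ p.decisionTime = t} s

/-- The class `S` of semidecision times of semidecidable sets. -/
def SemidecisionTimes : Set Ordinal.{0} := {s | ∃ A, IsSemidecisionTime A s}

/-! ### Gaps -/

/-- A gap in `X`: an interval of ordinals containing no element of `X` but bounded above by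
one. -/
def IsGap (X I : Set Ordinal.{0}) : Prop :=
  I.OrdConnected ∧ (∀ a ∈ I, a ∉ X) ∧ ∃ b ∈ X, ∀ a ∈ I, a ≤ b

/-- `β` begins a gap in `X`: it is the least element of a maximal gap. -/
def BeginsGap (X : Set Ordinal.{0}) (β : Ordinal.{0}) : Prop :=
  ∃ I, Maximal (IsGap X) I ∧ IsLeast I β

/-! ### The constructible hierarchy and admissible ordinals -/

/-- Formulas of set theory, with de Bruijn indices: `all φ` says that for all `v₀`, `φ`, and
`ball j φ` says that for all `v₀` in `v_j`, `φ`. -/
inductive Fml
  | mem (i j : ℕ)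
  | eq (i j : ℕ)
  | neg (φ : Fml)
  | and (φ ψ : Fml)
  | all (φ : Fml)
  | ball (j : ℕ) (φ : Fml)

/-- Bounded formulas. -/
def Fml.Delta0 : Fml → Prop
  | .mem _ _ => True
  | .eq _ _ => True
  | .neg φ => φ.Delta0
  | .and φ ψ => φ.Delta0 ∧ ψ.Delta0
  | .all _ => False
  | .ball _ φ => φ.Delta0

/-- `a` put in front of the assignment `v`. -/
def push (a : ZFSet.{0}) (v : ℕ → ZFSet.{0}) : ℕ → ZFSet.{0}
  | 0 => a
  | n + 1 => v n

/-- Satisfaction in the structure `(M, ∈)`. -/
def Sat (M : Set ZFSet.{0}) : Fml → (ℕ → ZFSet.{0}) → Prop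
  | .mem i j, v => v i ∈ v j
  | .eq i j, v => v i = v j
  | .neg φ, v => ¬ Sat M φ v
  | .and φ ψ, v => Sat M φ v ∧ Sat M ψ v
  | .all φ, v => ∀ a ∈ M, Sat M φ (push a v)
  | .ball j φ, v => ∀ a ∈ M, a ∈ v j → Sat M φ (push a v)

/-- The subsets of `M` that are first order definable over `(M, ∈)` with parameters from `M`
(the parameters are listed in `l`; the variable `v₀` is the free one and the variables beyond
the parameters are interpreted as `v₀`). -/
def DefSubsets (M : Set ZFSet.{0}) : Set ZFSet.{0} :=
  {x | (∀ z ∈ x, z ∈ M) ∧ ∃ (φ : Fml) (l : List ZFSet.{0}), (∀ a ∈ l, a ∈ M) ∧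
    ∀ z ∈ M, (z ∈ x ↔ Sat M φ (push z fun n => l.getD n z))}

/-- The levels `L_α` of the constructible hierarchy: `L_α` is the union of the sets of definable
subsets of `L_β` for `β < α`. -/
noncomputable def LL (α : Ordinal.{0}) : Set ZFSet.{0} :=
  {x | ∃ β, ∃ _ : β < α, x ∈ DefSubsets (LL β)}
termination_by α

/-- `M` is a model of Kripke–Platek set theory (for transitive classes `M`, for which
extensionality and the foundation scheme hold automatically). -/
structure KP (M : Set ZFSet.{0}) : Prop where
  nonempty : M.Nonempty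
  ext : ∀ a ∈ M, ∀ b ∈ M, (∀ z ∈ M, z ∈ a ↔ z ∈ b) → a = b
  foundation : ∀ (φ : Fml) (v : ℕ → ZFSet.{0}), (∀ n, v n ∈ M) →
    (∃ a ∈ M, Sat M φ (push a v)) →
    ∃ a ∈ M, Sat M φ (push a v) ∧ ∀ b ∈ M, b ∈ a → ¬ Sat M φ (push b v)
  pairing : ∀ a ∈ M, ∀ b ∈ M, ∃ c ∈ M, a ∈ c ∧ b ∈ c
  union : ∀ a ∈ M, ∃ c ∈ M, ∀ b ∈ M, b ∈ a → ∀ z ∈ M, z ∈ b → z ∈ c
  separation : ∀ φ : Fml, φ.Delta0 → ∀ v : ℕ → ZFSet.{0}, (∀ n, v n ∈ M) → ∀ a ∈ M,
    ∃ c ∈ M, ∀ z ∈ M, (z ∈ c ↔ z ∈ a ∧ Sat M φ (push z v))
  collection : ∀ φ : Fml, φ.Delta0 → ∀ v : ℕ → ZFSet.{0}, (∀ n, v n ∈ M) → ∀ a ∈ M,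
    (∀ z ∈ M, z ∈ a → ∃ w ∈ M, Sat M φ (push w (push z v))) →
    ∃ c ∈ M, ∀ z ∈ M, z ∈ a → ∃ w ∈ M, w ∈ c ∧ Sat M φ (push w (push z v))

/-- An ordinal `α` is admissible if `L_α` is a model of Kripke–Platek set theory. -/
def Admissible (α : Ordinal.{0}) : Prop := KP (LL α)

end Pool.Agent.MPa662fc
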