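import Mathlib
import Pool.Agent.Lib.MP_752584_lc.SD

/-!
# The universal family of closed games over ordinals

A theory is a set `P` of forbidden patterns. A model of `P` on the ordered sum `D a b` of two
ordinals is a function `Y : ℕ → D → D → ℕ × D` such that no forbidden pattern is realized.
`W P a b ξ u` says that the player who tries to show that there is no model wins from the
position `u` (a finite list of facts about `Y`) with rank at most `ξ`.
`Th e` is the `e`-th semidecidable theory.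
-/

namespace Pool.Agent.MPa662fc

open Ordinal Pool.Agent.MP752584

/-- A literal `(k, i, p, q, v, s)`. For `k = 0` it says `Y i x_p x_q = (v, x_s)`, otherwise it says
`x_p < x_q`. -/
abbrev Lit := ℕ × ℕ × ℕ × ℕ × ℕ × ℕ

/-- The literal `Y i x_p x_q = (v, x_s)`. -/
abbrev fa (i p q v s : ℕ) : Lit := (0, i, p, q, v, s)

/-- The literal `x_p < x_q`. -/
abbrev lo (p q : ℕ) : Lit := (1, 0, p, q, 0, 0)

/-- A pattern: a finite conjunction of literals. -/
abbrev Pattern := List Lit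

/-- Computable approximation of the universal theory. -/
def thA (e : ℕ) (π : Pattern) (n : ℕ) : Bool :=
  (Nat.Partrec.Code.evaln n (Denumerable.ofNat Nat.Partrec.Code e) (Encodable.encode π)).isSome

/-- The `e`-th semidecidable theory. -/
def Th (e : ℕ) (π : Pattern) : Prop := ∃ n, thA e π n = true

/-- Elements of the ordered sums. -/
abbrev DD := Bool × Ordinal.{0}

/-- The order of `DD`: first the ordinals with tag `false`, then those with tag `true`. -/
def dlt (s t : DD) : Prop := (s.1 = false ∧ t.1 = true) ∨ (s.1 = t.1 ∧ s.2 < t.2)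

/-- The ordered sum of `a` and `b`. -/
def D (a b : Ordinal.{0}) : Set DD := {s | (s.1 = false → s.2 < a) ∧ (s.1 = true → s.2 < b)}

/-- A fact `(i, s, t, v, c)` says `Y i s t = (v, c)`. -/
abbrev Fact := ℕ × DD × DD × ℕ × DD

/-- A position of the game. -/
abbrev Pos := List Fact

/-- The elements occurring in a position. -/
def elems (u : Pos) : Set DD := {s | ∃ f ∈ u, s = f.2.1 ∨ s = f.2.2.1 ∨ s = f.2.2.2.2}

/-- Truth of a literal under the assignment `g`, with respect to a set of facts. -/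
def LitHolds (F : Fact → Prop) (g : ℕ → DD) (l : Lit) : Prop :=
  (l.1 = 0 → F (l.2.1, g l.2.2.1, g l.2.2.2.1, l.2.2.2.2.1, g l.2.2.2.2.2)) ∧
  (l.1 ≠ 0 → dlt (g l.2.2.1) (g l.2.2.2.1))

/-- A position that is contradictory or realizes a forbidden pattern. -/
def Bad (P : Pattern → Prop) (u : Pos) : Prop :=
  (∃ i s t v c v' c', (i, s, t, v, c) ∈ u ∧ (i, s, t, v', c') ∈ u ∧ (v ≠ v' ∨ c ≠ c')) ∨
  ∃ π, P π ∧ ∃ g : ℕ → DD, (∀ n, g n ∈ elems u) ∧ ∀ l ∈ π, LitHolds (· ∈ u) g l

/-- The refuting player wins from `u` with rank at most `ξ`: the position is bad, or he has a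
query such that after every answer he wins with a smaller rank. -/
inductive W (P : Pattern → Prop) (a b : Ordinal.{0}) : Ordinal.{0} → Pos → Prop
  | bad {ξ : Ordinal.{0}} {u : Pos} : Bad P u → W P a b ξ u
  | ask {ξ : Ordinal.{0}} {u : Pos} (i : ℕ) (s t : DD) (hs : s ∈ D a b) (ht : t ∈ D a b)
      (r : ℕ → DD → Ordinal.{0}) (hr : ∀ v, ∀ c ∈ D a b, r v c < ξ)
      (h : ∀ v, ∀ c ∈ D a b, W P a b (r v c) ((i, s, t, v, c) :: u)) : W P a b ξ u

/-- All elements of the position are in `D a b`. -/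
def Valid (a b : Ordinal.{0}) (u : Pos) : Prop :=
  ∀ f ∈ u, f.2.1 ∈ D a b ∧ f.2.2.1 ∈ D a b ∧ f.2.2.2.2 ∈ D a b

/-- The facts true in `Y`. -/
def holdsY (Y : ℕ → DD → DD → ℕ × DD) (f : Fact) : Prop :=
  Y f.1 f.2.1 f.2.2.1 = (f.2.2.2.1, f.2.2.2.2)

/-- `Y` is a model of the theory `P` on `D a b`. -/
structure IsModel (P : Pattern → Prop) (a b : Ordinal.{0}) (Y : ℕ → DD → DD → ℕ × DD) : Prop where
  mem : ∀ i, ∀ s ∈ D a b, ∀ t ∈ D a b, (Y i s t).2 ∈ D a b
  avoid : ∀ π, P π → ∀ g : ℕ → DD, (∀ n, g n ∈ D a b) → ¬ ∀ l ∈ π, LitHolds (holdsY Y) g l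

/-- The theory `P` has a model on `D a b`. -/
def Model (P : Pattern → Prop) (a b : Ordinal.{0}) : Prop := ∃ Y, IsModel P a b Y

/-- Stage `ξ` adds no new winning position. -/
def Stab (P : Pattern → Prop) (a b ξ : Ordinal.{0}) : Prop :=
  ∀ u, Valid a b u → W P a b ξ u → ∃ ξ' < ξ, W P a b ξ' u

/-- The games over `a + b` with `a, b < κ` stabilise before `κ`. -/
def Clos (κ : Ordinal.{0}) : Prop := ∀ e, ∀ a < κ, ∀ b < κ, ∃ ξ < κ, Stab (Th e) a b ξ

/-- There is a bound `γ₀ < κ` such that for every theory, either it has no model on `κ + γ` for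
all `γ` in `[γ₀, κ)`, or it has a model on `κ + γ` for cofinally many `γ < κ` (here having a model
means that the refuting player does not win). -/
def Bdd (κ : Ordinal.{0}) : Prop :=
  ∃ γ₀ < κ, ∀ e, (∀ γ, γ₀ ≤ γ → γ < κ → ∃ ξ, W (Th e) κ γ ξ []) ∨
    (∀ δ < κ, ∃ γ, δ ≤ γ ∧ γ < κ ∧ ∀ ξ, ¬ W (Th e) κ γ ξ [])

/-- Good ordinals. -/
structure Good (κ : Ordinal.{0}) : Prop where
  pos : 0 < κ
  succ : ∀ a < κ, a + 1 < κ
  clos : Clos κ
  bdd : Bdd κ

/-- The relation enumerated by `Q` with oracle `x`. -/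
def Rel (Q : ℕ × ℕ × List (ℕ × Bool) → Prop) (x : ℕ → Bool) (m n : ℕ) : Prop :=
  ∃ l, Q (m, n, l) ∧ ∀ c ∈ l, x c.1 = c.2

/-- The relation `r` has a ranking function with values below `ρ`. -/
def Ranked (r : ℕ → ℕ → Prop) (ρ : Ordinal.{0}) : Prop :=
  ∃ rk : ℕ → Ordinal.{0}, (∀ m n, r m n → rk m < rk n) ∧ ∀ n, rk n < ρ

/-- The index of the bit saying `m < n` in the order coded by a real. -/
def ltb (m n : ℕ) : ℕ := Nat.pair (Nat.pair 0 (Nat.pair m n)) 0

end Pool.Agent.MPa662fc
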