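import Mathlib
import Pool.Agent.Lib.MP_a662fc_lc.Defs
import Pool.Agent.Lib.MP_a662fc_lc.Fam

/-!
# Intermediate machine models

* `WProg`: machines with one tape of wide cells: a read-only bit `x n`, an array bit `arr n` and
  `k` marks per cell; they never halt, and they start in the state `lim` in which they also are
  at limit stages.
* `Cmd`: programs with registers, which read `x` and `arr` but do not write.
* `startArr F α`: the array at the beginning of block `α` when in each block the operations
  `F 0, F 1, F 2, …` are applied to the array one after the other.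
-/

namespace Pool.Agent.MPa662fc

open Ordinal Pool.Agent.MP752584

/-! ### Wide machines -/

/-- A wide machine. The table says, for a state, the bit of `x`, the bit of the array and the marks
under the head, the new state, the new array bit, the new marks and the move. -/
structure WProg where
  k : ℕ
  Q : Type
  fin : Fintype Q
  lim : Q
  tr : Q → Bool → Bool → (Fin k → Bool) → Q × Bool × (Fin k → Bool) × Move

/-- A snapshot of a wide machine. -/
structure WSnap (k : ℕ) (Q : Type) where
  state : Q
  head : ℕ
  arr : ℕ → Bool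
  mark : ℕ → Fin k → Bool

/-- One step of a wide machine. -/
def WProg.step (w : WProg) (x : ℕ → Bool) (c : WSnap w.k w.Q) : WSnap w.k w.Q :=
  let r := w.tr c.state (x c.head) (c.arr c.head) (c.mark c.head)
  { state := r.1
    head := r.2.2.2.app c.head
    arr := fun n => if n = c.head then r.2.1 else c.arr n
    mark := fun n => if n = c.head then r.2.2.1 else c.mark n }

open Classical in
/-- The snapshot at stage `α` of a wide machine. -/
noncomputable def WProg.run (w : WProg) (x : ℕ → Bool) (α : Ordinal.{0}) : WSnap w.k w.Q :=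
  Ordinal.limitRecOn (motive := fun _ => WSnap w.k w.Q) α
    { state := w.lim, head := 0, arr := fun _ => false, mark := fun _ _ => false }
    (fun _ c => w.step x c)
    (fun α _ f =>
      { state := w.lim
        head := 0
        arr := fun n => decide (∃ β < α, ∀ γ, ∀ h : γ < α, β ≤ γ → (f γ h).arr n = true)
        mark := fun n j =>
          decide (∃ β < α, ∀ γ, ∀ h : γ < α, β ≤ γ → (f γ h).mark n j = true) })

/-! ### Register programs -/

/-- Programs with `k` registers. -/
inductive Cmd (k : ℕ)
  | skip : Cmd k
  | inc (i : Fin k) : Cmd k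
  | dec (i : Fin k) : Cmd k
  | seq (c d : Cmd k) : Cmd k
  | loop (i : Fin k) (c : Cmd k) : Cmd k
  | ifX (i : Fin k) (c d : Cmd k) : Cmd k
  | ifA (i : Fin k) (c d : Cmd k) : Cmd k

/-- `Exec x a c r s`: the program `c`, started with register contents `r`, terminates with
register contents `s`. `loop i c` means: while register `i` is not zero do `c`; `ifX i c d` means:
if the bit of `x` at the index in register `i` is `true` then `c` else `d`, and `ifA` is the
same for the array `a`. -/
inductive Exec {k : ℕ} (x a : ℕ → Bool) : Cmd k → (Fin k → ℕ) → (Fin k → ℕ) → Prop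
  | skip (r) : Exec x a .skip r r
  | inc (i r) : Exec x a (.inc i) r (Function.update r i (r i + 1))
  | dec (i r) : Exec x a (.dec i) r (Function.update r i (r i - 1))
  | seq {c d r s t} : Exec x a c r s → Exec x a d s t → Exec x a (.seq c d) r t
  | loop_done {i c r} : r i = 0 → Exec x a (.loop i c) r r
  | loop_step {i c r s t} : r i ≠ 0 → Exec x a c r s → Exec x a (.loop i c) s t →
      Exec x a (.loop i c) r t
  | ifX_true {i c d r s} : x (r i) = true → Exec x a c r s → Exec x a (.ifX i c d) r s
  | ifX_false {i c d r s} : x (r i) = false → Exec x a d r s → Exec x a (.ifX i c d) r s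
  | ifA_true {i c d r s} : a (r i) = true → Exec x a c r s → Exec x a (.ifA i c d) r s
  | ifA_false {i c d r s} : a (r i) = false → Exec x a d r s → Exec x a (.ifA i c d) r s

/-- Renaming of registers. -/
def Cmd.map {k k' : ℕ} (ρ : Fin k → Fin k') : Cmd k → Cmd k'
  | .skip => .skip
  | .inc i => .inc (ρ i)
  | .dec i => .dec (ρ i)
  | .seq c d => .seq (c.map ρ) (d.map ρ)
  | .loop i c => .loop (ρ i) (c.map ρ)
  | .ifX i c d => .ifX (ρ i) (c.map ρ) (d.map ρ)
  | .ifA i c d => .ifA (ρ i) (c.map ρ) (d.map ρ)

/-- Register contents with `s` in register 0 and zero elsewhere. -/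
def st (k s : ℕ) : Fin (k + 1) → ℕ := fun i => if i = 0 then s else 0

/-- Register contents with `s` in register 0, `v` in register 1 and zero elsewhere. -/
def st2 (k s v : ℕ) : Fin (k + 2) → ℕ := fun i => if i = 0 then s else if i = 1 then v else 0

/-- The write operation: `t = 0`: nothing; `t = 1`: write `false` at `v`; otherwise: write `true`
at `v`. -/
def write (v t : ℕ) (a : ℕ → Bool) : ℕ → Bool :=
  if t = 0 then a else Function.update a v (decide (t ≠ 1))

/-! ### Fragments of wide machines -/

/-- A configuration without the state. -/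
structure TC (k : ℕ) where
  head : ℕ
  arr : ℕ → Bool
  mark : ℕ → Fin k → Bool

/-- A fragment of a wide machine with `k` marks: one entry, and `none` as the only exit. -/
structure Frag (k : ℕ) where
  St : Type
  fin : Fintype St
  entry : St
  tr : St → Bool → Bool → (Fin k → Bool) → Option St × Bool × (Fin k → Bool) × Move

/-- One step of a fragment. -/
def Frag.step {k : ℕ} (F : Frag k) (x : ℕ → Bool) (q : F.St) (c : TC k) : Option F.St × TC k :=
  let r := F.tr q (x c.head) (c.arr c.head) (c.mark c.head)
  (r.1,
    { head := r.2.2.2.app c.head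
      arr := fun n => if n = c.head then r.2.1 else c.arr n
      mark := fun n => if n = c.head then r.2.2.1 else c.mark n })

/-- `F.Runs x q c c'`: started in state `q` and configuration `c`, the fragment reaches its exit
with configuration `c'`, and the array does not change on the way. -/
inductive Frag.Runs {k : ℕ} (F : Frag k) (x : ℕ → Bool) : F.St → TC k → TC k → Prop
  | exit {q : F.St} {c c' : TC k} : F.step x q c = (none, c') → c'.arr = c.arr → F.Runs x q c c'
  | step {q q' : F.St} {c c₁ c' : TC k} : F.step x q c = (some q', c₁) → c₁.arr = c.arr →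
      F.Runs x q' c₁ c' → F.Runs x q c c'

/-- The marks represent the register contents `r`: the first mark in track `i` is at `r i`, and
the last track marks exactly the cell `0`. -/
def RepM {k : ℕ} (mark : ℕ → Fin (k + 1) → Bool) (r : Fin k → ℕ) : Prop :=
  (∀ i : Fin k, mark (r i) i.castSucc = true ∧ ∀ n < r i, mark n i.castSucc = false) ∧
  ∀ n, mark n (Fin.last k) = decide (n = 0)

/-! ### Iteration of operations -/

/-- The array after `s` operations. -/
def blockArr (F : ℕ → (ℕ → Bool) → ℕ → Bool) (a : ℕ → Bool) : ℕ → ℕ → Bool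
  | 0 => a
  | s + 1 => F s (blockArr F a s)

open Classical in
/-- The array at the beginning of block `α`: all `false` at the beginning of block `0`, and
otherwise the limit inferior of the earlier arrays. -/
noncomputable def startArr (F : ℕ → (ℕ → Bool) → ℕ → Bool) (α : Ordinal.{0}) : ℕ → Bool := fun n =>
  decide (∃ β, ∃ _ : β < α, ∃ s : ℕ, ∀ β', ∀ _ : β' < α, ∀ s' : ℕ,
    (β < β' ∨ (β = β' ∧ s ≤ s')) → blockArr F (startArr F β') s' n = true)
termination_by α

/-- A condition: `t = 0`: always true; `t = 1`: the bit of `x` at `u` is `b ≠ 0`; otherwise: the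
bit of `a` at `u` is `b ≠ 0`. -/
def cond (x a : ℕ → Bool) (t u b : ℕ) : Prop :=
  t = 0 ∨ (t = 1 ∧ x u = decide (b ≠ 0)) ∨ (2 ≤ t ∧ a u = decide (b ≠ 0))

open Classical in
/-- The operation number `s` given by `f`: under two conditions write a bit. -/
noncomputable def opF (f : Fin 8 → ℕ → ℕ) (x : ℕ → Bool) (s : ℕ) (a : ℕ → Bool) : ℕ → Bool :=
  if cond x a (f 0 s) (f 1 s) (f 2 s) ∧ cond x a (f 3 s) (f 4 s) (f 5 s) then
    Function.update a (f 6 s) (decide (f 7 s ≠ 0)) else a

/-! ### The operations for a relation -/

/-- The relation with instances `inst`. -/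
def InstRel (inst : ℕ → Option (ℕ × ℕ × List (ℕ × Bool))) (x : ℕ → Bool) (m n : ℕ) : Prop :=
  ∃ k l, inst k = some (m, n, l) ∧ ∀ c ∈ l, x c.1 = c.2

/-- The operation number `s` as an 8-tuple `(t, u, b, t', u', b', v, c)`: if the conditions
`(t, u, b)` and `(t', u', b')` hold, then write the bit `c` at `v`.
Array indices: `0`: flag; `4 n + 1`: `n` has been removed; `4 n + 2`: `n` may be removed;
`4 k + 3`: instance `k` is false; `4`: unused. -/
def opT (inst : ℕ → Option (ℕ × ℕ × List (ℕ × Bool))) (s : ℕ) :
    ℕ × ℕ × ℕ × ℕ × ℕ × ℕ × ℕ × ℕ :=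
  let j := s / 6
  let noop := (0, 0, 0, 0, 0, 0, 4, 0)
  if s % 6 = 0 then (if j = 0 then (0, 0, 0, 0, 0, 0, 0, 1) else noop)
  else if s % 6 = 1 then (2, 4 * j + 2, 1, 0, 0, 0, 4 * j + 1, 1)
  else if s % 6 = 2 then (0, 0, 0, 0, 0, 0, 4 * j + 2, 1)
  else if s % 6 = 3 then (2, 4 * j + 1, 0, 0, 0, 0, 0, 0)
  else if s % 6 = 4 then
    match inst j.unpair.1 with
    | none => noop
    | some (_, _, l) =>
      match l[j.unpair.2]? with
      | none => noop
      | some (i, b) => (1, i, (if b then 0 else 1), 0, 0, 0, 4 * j.unpair.1 + 3, 1)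
  else
    match inst j.unpair.1 with
    | none => noop
    | some (m, n, _) =>
      if m ≤ j ∧ n ≤ j then (2, 4 * j.unpair.1 + 3, 0, 2, 4 * m + 1, 0, 4 * n + 2, 0) else noop

/-- The components of the operations. -/
def opOf (inst : ℕ → Option (ℕ × ℕ × List (ℕ × Bool))) : Fin 8 → ℕ → ℕ
  | 0, s => (opT inst s).1
  | 1, s => (opT inst s).2.1
  | 2, s => (opT inst s).2.2.1
  | 3, s => (opT inst s).2.2.2.1
  | 4, s => (opT inst s).2.2.2.2.1
  | 5, s => (opT inst s).2.2.2.2.2.1
  | 6, s => (opT inst s).2.2.2.2.2.2.1
  | 7, s => (opT inst s).2.2.2.2.2.2.2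

end Pool.Agent.MPa662fc
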