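import Mathlib
import Pool.Agent.Lib.MP_a662fc_lc.Defs
import Pool.Agent.Lib.MP_a662fc_lc.Fam
import Pool.Agent.Lib.MP_a662fc_lc.MDefs

/-!
# Basic lemmas
-/

namespace Pool.Agent.MPa662fc

open Ordinal Pool.Agent.MP752584

/-! ### Ordinals of the form `ω * α + m` -/

theorem split (δ : Ordinal.{0}) : ∃ (α : Ordinal.{0}) (m : ℕ), δ = ω * α + m := by
  obtain ⟨m, hm⟩ := Ordinal.lt_omega0.1 (Ordinal.mod_lt δ Ordinal.omega0_ne_zero)
  exact ⟨δ / ω, m, by rw [← hm, Ordinal.div_add_mod]⟩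

theorem omega_mul_add_lt {α β : Ordinal.{0}} (h : α < β) (m : ℕ) : ω * α + m < ω * β := by
  refine lt_of_lt_of_le ?_ (mul_le_mul_right (Order.add_one_le_of_lt h) ω)
  rw [mul_add_one]
  exact add_lt_add_right (Ordinal.natCast_lt_omega0 m) _

theorem omega_mul_add_lt_iff {α β : Ordinal.{0}} (m : ℕ) : ω * α + m < ω * β ↔ α < β := by
  refine ⟨fun h => ?_, fun h => omega_mul_add_lt h m⟩
  by_contra hle
  rw [not_lt] at hle
  exact absurd (lt_of_le_of_lt le_self_add h) (not_lt.2 (mul_le_mul_right hle ω))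

theorem lt_omega_mul {δ κ : Ordinal.{0}} (h : δ < ω * κ) : ∃ (α : Ordinal.{0}) (m : ℕ),
    α < κ ∧ δ = ω * α + m := by
  obtain ⟨α, m, rfl⟩ := split δ
  exact ⟨α, m, (omega_mul_add_lt_iff m).1 h, rfl⟩

theorem omega_mul_add_inj {α β : Ordinal.{0}} {m n : ℕ} (h : ω * α + m = ω * β + n) :
    α = β ∧ m = n := by
  have h1 : α = β := by
    rcases lt_trichotomy α β with hlt | h | hlt
    · exact absurd h (ne_of_lt (lt_of_lt_of_le (omega_mul_add_lt hlt m) le_self_add))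
    · exact h
    · exact absurd h.symm (ne_of_lt (lt_of_lt_of_le (omega_mul_add_lt hlt n) le_self_add))
  subst h1
  refine ⟨rfl, ?_⟩
  have := add_left_cancel h
  exact_mod_cast this

/-- Comparison of stages. -/
theorem omega_mul_add_le_iff {α β : Ordinal.{0}} {m n : ℕ} :
    ω * α + m ≤ ω * β + n ↔ α < β ∨ (α = β ∧ m ≤ n) := by
  rcases lt_trichotomy α β with hlt | rfl | hlt
  · simp only [hlt, true_or, iff_true]
    exact ((omega_mul_add_lt hlt m).le).trans le_self_add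
  · simp only [lt_irrefl, true_and, false_or]
    rw [add_le_add_iff_left]
    exact_mod_cast Iff.rfl
  · have h1 : ¬ α < β := not_lt.2 hlt.le
    have h2 : α ≠ β := hlt.ne'
    simp only [h1, h2, false_and, or_self, iff_false, not_le]
    exact lt_of_lt_of_le (omega_mul_add_lt hlt n) le_self_add

theorem isSuccLimit_omega_mul {α : Ordinal.{0}} (h : 0 < α) : Order.IsSuccLimit (ω * α) := by
  exact Ordinal.isSuccLimit_mul_left Ordinal.isSuccLimit_omega0 h

theorem omega_mul_add_succ (α : Ordinal.{0}) (m : ℕ) :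
    ω * α + ((m + 1 : ℕ) : Ordinal.{0}) = ω * α + m + 1 := by
  rw [Nat.cast_add, Nat.cast_one, add_assoc]

/-! ### Runs of infinite time Turing machines -/

theorem Prog.run_zero (p : Prog) (x : ℕ → Bool) : p.run x 0 = p.init x := by
  unfold Prog.run
  rw [Ordinal.limitRecOn_zero]

theorem Prog.run_add_one (p : Prog) (x : ℕ → Bool) (α : Ordinal.{0}) :
    p.run x (α + 1) = p.step (p.run x α) := by
  unfold Prog.run
  rw [Ordinal.limitRecOn_add_one]

theorem Prog.run_limit (p : Prog) (x : ℕ → Bool) {α : Ordinal.{0}} (h : Order.IsSuccLimit α) :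
    (p.run x α).state = p.lim ∧ (p.run x α).head = 0 ∧
    ∀ i n, ((p.run x α).tape i n = true ↔
      ∃ β < α, ∀ γ < α, β ≤ γ → (p.run x γ).tape i n = true) := by
  unfold Prog.run
  rw [Ordinal.limitRecOn_limit _ _ _ _ h]
  refine ⟨rfl, rfl, fun i n => ?_⟩
  simp only [decide_eq_true_eq]

/-- The step from stage `m` to stage `m + 1` of block `α`. -/
theorem Prog.run_block_succ (p : Prog) (x : ℕ → Bool) (α : Ordinal.{0}) (m : ℕ) :
    p.run x (ω * α + ((m + 1 : ℕ) : Ordinal.{0})) = p.step (p.run x (ω * α + m)) := by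
  rw [omega_mul_add_succ, Prog.run_add_one]

/-- The beginning of a block. -/
theorem Prog.run_block_limit (p : Prog) (x : ℕ → Bool) {α : Ordinal.{0}} (h : 0 < α) :
    (p.run x (ω * α)).state = p.lim ∧ (p.run x (ω * α)).head = 0 ∧
    ∀ i n, ((p.run x (ω * α)).tape i n = true ↔
      ∃ β < α, ∃ m : ℕ, ∀ β' < α, ∀ m' : ℕ, (β < β' ∨ (β = β' ∧ m ≤ m')) →
        (p.run x (ω * β' + m')).tape i n = true) := by
  obtain ⟨h1, h2, h3⟩ := p.run_limit x (isSuccLimit_omega_mul h)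
  refine ⟨h1, h2, fun i n => ?_⟩
  rw [h3]
  constructor
  · rintro ⟨δ, hδ, H⟩
    obtain ⟨β, m, hβ, rfl⟩ := lt_omega_mul hδ
    exact ⟨β, hβ, m, fun β' hβ' m' hle =>
      H _ (omega_mul_add_lt hβ' m') (omega_mul_add_le_iff.2 hle)⟩
  · rintro ⟨β, hβ, m, H⟩
    refine ⟨ω * β + m, omega_mul_add_lt hβ m, fun γ hγ hle => ?_⟩
    obtain ⟨β', m', hβ', rfl⟩ := lt_omega_mul hγ
    exact H β' hβ' m' (omega_mul_add_le_iff.1 hle)

theorem Prog.HaltsAt.unique {p : Prog} {x : ℕ → Bool} {α β : Ordinal.{0}} (h : p.HaltsAt x α)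
    (h' : p.HaltsAt x β) : α = β := by
  rcases lt_trichotomy α β with hlt | rfl | hlt
  · exact absurd h.2 (h'.1 (α + 1) (Order.add_one_le_of_lt hlt))
  · rfl
  · exact absurd h'.2 (h.1 (β + 1) (Order.add_one_le_of_lt hlt))

/-! ### Runs of wide machines -/

theorem WProg.run_zero (w : WProg) (x : ℕ → Bool) : w.run x 0 =
    { state := w.lim, head := 0, arr := fun _ => false, mark := fun _ _ => false } := by
  unfold WProg.run
  rw [Ordinal.limitRecOn_zero]

theorem WProg.run_add_one (w : WProg) (x : ℕ → Bool) (α : Ordinal.{0}) :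
    w.run x (α + 1) = w.step x (w.run x α) := by
  unfold WProg.run
  rw [Ordinal.limitRecOn_add_one]

theorem WProg.run_limit (w : WProg) (x : ℕ → Bool) {α : Ordinal.{0}} (h : Order.IsSuccLimit α) :
    (w.run x α).state = w.lim ∧ (w.run x α).head = 0 ∧
    (∀ n, ((w.run x α).arr n = true ↔ ∃ β < α, ∀ γ < α, β ≤ γ → (w.run x γ).arr n = true)) ∧
    ∀ n j, ((w.run x α).mark n j = true ↔
      ∃ β < α, ∀ γ < α, β ≤ γ → (w.run x γ).mark n j = true) := by
  unfold WProg.run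
  rw [Ordinal.limitRecOn_limit _ _ _ _ h]
  refine ⟨rfl, rfl, fun n => ?_, fun n j => ?_⟩ <;>
  · simp only [decide_eq_true_eq]

theorem WProg.run_block_succ (w : WProg) (x : ℕ → Bool) (α : Ordinal.{0}) (m : ℕ) :
    w.run x (ω * α + ((m + 1 : ℕ) : Ordinal.{0})) = w.step x (w.run x (ω * α + m)) := by
  rw [omega_mul_add_succ, WProg.run_add_one]

theorem WProg.run_block_limit (w : WProg) (x : ℕ → Bool) {α : Ordinal.{0}} (h : 0 < α) :
    (w.run x (ω * α)).state = w.lim ∧ (w.run x (ω * α)).head = 0 ∧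
    (∀ n, ((w.run x (ω * α)).arr n = true ↔
      ∃ β < α, ∃ m : ℕ, ∀ β' < α, ∀ m' : ℕ, (β < β' ∨ (β = β' ∧ m ≤ m')) →
        (w.run x (ω * β' + m')).arr n = true)) ∧
    ∀ n j, ((w.run x (ω * α)).mark n j = true ↔
      ∃ β < α, ∃ m : ℕ, ∀ β' < α, ∀ m' : ℕ, (β < β' ∨ (β = β' ∧ m ≤ m')) →
        (w.run x (ω * β' + m')).mark n j = true) := by
  obtain ⟨h1, h2, h3, h4⟩ := w.run_limit x (isSuccLimit_omega_mul h)
  refine ⟨h1, h2, fun n => ?_, fun n j => ?_⟩
  · rw [h3]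
    constructor
    · rintro ⟨δ, hδ, H⟩
      obtain ⟨β, m, hβ, rfl⟩ := lt_omega_mul hδ
      exact ⟨β, hβ, m, fun β' hβ' m' hle =>
        H _ (omega_mul_add_lt hβ' m') (omega_mul_add_le_iff.2 hle)⟩
    · rintro ⟨β, hβ, m, H⟩
      refine ⟨ω * β + m, omega_mul_add_lt hβ m, fun γ hγ hle => ?_⟩
      obtain ⟨β', m', hβ', rfl⟩ := lt_omega_mul hγ
      exact H β' hβ' m' (omega_mul_add_le_iff.1 hle)
  · rw [h4]
    constructor
    · rintro ⟨δ, hδ, H⟩
      obtain ⟨β, m, hβ, rfl⟩ := lt_omega_mul hδ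
      exact ⟨β, hβ, m, fun β' hβ' m' hle =>
        H _ (omega_mul_add_lt hβ' m') (omega_mul_add_le_iff.2 hle)⟩
    · rintro ⟨β, hβ, m, H⟩
      refine ⟨ω * β + m, omega_mul_add_lt hβ m, fun γ hγ hle => ?_⟩
      obtain ⟨β', m', hβ', rfl⟩ := lt_omega_mul hγ
      exact H β' hβ' m' (omega_mul_add_le_iff.1 hle)

/-! ### The iteration of operations -/

theorem startArr_iff (F : ℕ → (ℕ → Bool) → ℕ → Bool) (α : Ordinal.{0}) (n : ℕ) :
    startArr F α n = true ↔ ∃ β < α, ∃ s : ℕ, ∀ β' < α, ∀ s' : ℕ,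
      (β < β' ∨ (β = β' ∧ s ≤ s')) → blockArr F (startArr F β') s' n = true := by
  rw [startArr]
  simp only [decide_eq_true_eq, exists_prop]

theorem startArr_zero (F : ℕ → (ℕ → Bool) → ℕ → Bool) (n : ℕ) : startArr F 0 n = false := by
  rw [← Bool.not_eq_true, startArr_iff]
  rintro ⟨β, hβ, _⟩
  exact absurd hβ (not_lt_bot)

/-- At a successor block: the limit inferior over the previous block. -/
theorem startArr_add_one (F : ℕ → (ℕ → Bool) → ℕ → Bool) (α : Ordinal.{0}) (n : ℕ) :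
    startArr F (α + 1) n = true ↔
      ∃ s : ℕ, ∀ s' : ℕ, s ≤ s' → blockArr F (startArr F α) s' n = true := by
  rw [startArr_iff]
  constructor
  · rintro ⟨β, hβ, s, H⟩
    rcases (Order.lt_add_one_iff.1 hβ).lt_or_eq with h | rfl
    · exact ⟨0, fun s' _ => H α (lt_add_one α) s' (Or.inl h)⟩
    · exact ⟨s, fun s' hs' => H β (lt_add_one β) s' (Or.inr ⟨rfl, hs'⟩)⟩
  · rintro ⟨s, H⟩
    refine ⟨α, lt_add_one α, s, fun β' hβ' s' hle => ?_⟩
    rcases hle with h | ⟨rfl, h⟩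
    · exact absurd (Order.lt_add_one_iff.1 hβ') (not_le.2 h)
    · exact H s' h

/-! ### Register programs and games -/

theorem Exec.map {k k' : ℕ} {ρ : Fin k → Fin k'} (hρ : Function.Injective ρ) {x a : ℕ → Bool}
    {c : Cmd k} {r s : Fin k → ℕ} (h : Exec x a c r s) (t : Fin k' → ℕ) (ht : ∀ i, t (ρ i) = r i) :
    ∃ t' : Fin k' → ℕ, Exec x a (c.map ρ) t t' ∧ (∀ i, t' (ρ i) = s i) ∧
      ∀ j, (∀ i, j ≠ ρ i) → t' j = t j := by
  induction h generalizing t with
  | skip r => exact ⟨t, .skip t, ht, fun _ _ => rfl⟩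
  | inc i r =>
    refine ⟨Function.update t (ρ i) (t (ρ i) + 1), .inc _ _, fun i' => ?_, fun j hj => ?_⟩
    · by_cases h : i' = i
      · subst h; simp [ht]
      · rw [Function.update_of_ne (fun h' => h (hρ h')), Function.update_of_ne h, ht]
    · rw [Function.update_of_ne (hj i)]
  | dec i r =>
    refine ⟨Function.update t (ρ i) (t (ρ i) - 1), .dec _ _, fun i' => ?_, fun j hj => ?_⟩
    · by_cases h : i' = i
      · subst h; simp [ht]
      · rw [Function.update_of_ne (fun h' => h (hρ h')), Function.update_of_ne h, ht]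
    · rw [Function.update_of_ne (hj i)]
  | seq _ _ ih1 ih2 =>
    obtain ⟨t1, h1, h2, h3⟩ := ih1 t ht
    obtain ⟨t2, h4, h5, h6⟩ := ih2 t1 h2
    exact ⟨t2, .seq h1 h4, h5, fun j hj => (h6 j hj).trans (h3 j hj)⟩
  | loop_done h => exact ⟨t, .loop_done (by rw [ht]; exact h), ht, fun _ _ => rfl⟩
  | loop_step h _ _ ih1 ih2 =>
    obtain ⟨t1, h1, h2, h3⟩ := ih1 t ht
    obtain ⟨t2, h4, h5, h6⟩ := ih2 t1 h2
    exact ⟨t2, .loop_step (by rw [ht]; exact h) h1 h4, h5, fun j hj => (h6 j hj).trans (h3 j hj)⟩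
  | ifX_true h _ ih =>
    obtain ⟨t1, h1, h2, h3⟩ := ih t ht
    exact ⟨t1, .ifX_true (by rw [ht]; exact h) h1, h2, h3⟩
  | ifX_false h _ ih =>
    obtain ⟨t1, h1, h2, h3⟩ := ih t ht
    exact ⟨t1, .ifX_false (by rw [ht]; exact h) h1, h2, h3⟩
  | ifA_true h _ ih =>
    obtain ⟨t1, h1, h2, h3⟩ := ih t ht
    exact ⟨t1, .ifA_true (by rw [ht]; exact h) h1, h2, h3⟩
  | ifA_false h _ ih =>
    obtain ⟨t1, h1, h2, h3⟩ := ih t ht
    exact ⟨t1, .ifA_false (by rw [ht]; exact h) h1, h2, h3⟩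

theorem W.mono {P : Pattern → Prop} {a b ξ η : Ordinal.{0}} {u : Pos} (h : W P a b ξ u)
    (hξ : ξ ≤ η) : W P a b η u := by
  cases h with
  | bad h => exact .bad h
  | ask i s t hs ht r hr h => exact .ask i s t hs ht r (fun v c hc => (hr v c hc).trans_le hξ) h

theorem W.cases_iff {P : Pattern → Prop} {a b ξ : Ordinal.{0}} {u : Pos} :
    W P a b ξ u ↔ Bad P u ∨ ∃ i, ∃ s ∈ D a b, ∃ t ∈ D a b, ∀ v, ∀ c ∈ D a b,
      ∃ ξ' < ξ, W P a b ξ' ((i, s, t, v, c) :: u) := by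
  constructor
  · intro h
    cases h with
    | bad h => exact Or.inl h
    | ask i s t hs ht r hr h =>
      exact Or.inr ⟨i, s, hs, t, ht, fun v c hc => ⟨r v c, hr v c hc, h v c hc⟩⟩
  · rintro (h | ⟨i, s, hs, t, ht, h⟩)
    · exact .bad h
    · classical
      refine .ask i s t hs ht (fun v c => if hc : c ∈ D a b then (h v c hc).choose else 0) ?_ ?_
      · intro v c hc
        simp only [hc, dif_pos]
        exact (h v c hc).choose_spec.1
      · intro v c hc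
        simp only [hc, dif_pos]
        exact (h v c hc).choose_spec.2

end Pool.Agent.MPa662fc
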