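import Mathlib
import Pool.Agent.Lib.MP_a662fc_lc.Basic

/-!
# The effect of the single operations of the algorithm for a relation
-/

namespace Pool.Agent.MPa662fc

open Ordinal Pool.Agent.MP752584

variable (inst : ℕ → Option (ℕ × ℕ × List (ℕ × Bool))) (x : ℕ → Bool)

theorem algstep_t0 (j : ℕ) : opT inst (6 * j) =
    if j = 0 then (0, 0, 0, 0, 0, 0, 0, 1) else (0, 0, 0, 0, 0, 0, 4, 0) := by
  have h1 : 6 * j / 6 = j := by omega
  have h2 : 6 * j % 6 = 0 := by omega
  simp only [opT, h1, h2, if_true]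

theorem algstep_t1 (j : ℕ) : opT inst (6 * j + 1) = (2, 4 * j + 2, 1, 0, 0, 0, 4 * j + 1, 1) := by
  have h1 : (6 * j + 1) / 6 = j := by omega
  have h2 : (6 * j + 1) % 6 = 1 := by omega
  simp only [opT, h1, h2]
  simp

theorem algstep_t2 (j : ℕ) : opT inst (6 * j + 2) = (0, 0, 0, 0, 0, 0, 4 * j + 2, 1) := by
  have h1 : (6 * j + 2) / 6 = j := by omega
  have h2 : (6 * j + 2) % 6 = 2 := by omega
  simp only [opT, h1, h2]
  simp

theorem algstep_t3 (j : ℕ) : opT inst (6 * j + 3) = (2, 4 * j + 1, 0, 0, 0, 0, 0, 0) := by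
  have h1 : (6 * j + 3) / 6 = j := by omega
  have h2 : (6 * j + 3) % 6 = 3 := by omega
  simp only [opT, h1, h2]
  simp

theorem algstep_t4 (j : ℕ) : opT inst (6 * j + 4) =
    match inst j.unpair.1 with
    | none => (0, 0, 0, 0, 0, 0, 4, 0)
    | some (_, _, l) =>
      match l[j.unpair.2]? with
      | none => (0, 0, 0, 0, 0, 0, 4, 0)
      | some (i, b) => (1, i, (if b then 0 else 1), 0, 0, 0, 4 * j.unpair.1 + 3, 1) := by
  have h1 : (6 * j + 4) / 6 = j := by omega
  have h2 : (6 * j + 4) % 6 = 4 := by omega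
  simp only [opT, h1, h2]
  rcases inst j.unpair.1 with _ | ⟨m, n, l⟩
  · simp
  · simp only [if_neg (by norm_num : ¬ (4 : ℕ) = 0), if_neg (by norm_num : ¬ (4 : ℕ) = 1),
      if_neg (by norm_num : ¬ (4 : ℕ) = 2), if_neg (by norm_num : ¬ (4 : ℕ) = 3), if_true]
    generalize l[j.unpair.2]? = o
    rcases o with _ | ⟨i, b⟩ <;> rfl

theorem algstep_t5 (j : ℕ) : opT inst (6 * j + 5) =
    match inst j.unpair.1 with
    | none => (0, 0, 0, 0, 0, 0, 4, 0)
    | some (m, n, _) =>
      if m ≤ j ∧ n ≤ j then (2, 4 * j.unpair.1 + 3, 0, 2, 4 * m + 1, 0, 4 * n + 2, 0)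
      else (0, 0, 0, 0, 0, 0, 4, 0) := by
  have h1 : (6 * j + 5) / 6 = j := by omega
  have h2 : (6 * j + 5) % 6 = 5 := by omega
  simp only [opT, h1, h2]
  rcases inst j.unpair.1 with _ | ⟨m, n, l⟩ <;> simp

/-- the operation given by a tuple -/
theorem algstep_eq (s : ℕ) (a : ℕ → Bool) {t u b t' u' b' v c : ℕ}
    (h : opT inst s = (t, u, b, t', u', b', v, c)) :
    (cond x a t u b ∧ cond x a t' u' b' →
      opF (opOf inst) x s a = Function.update a v (decide (c ≠ 0))) ∧
    (¬ (cond x a t u b ∧ cond x a t' u' b') → opF (opOf inst) x s a = a) := by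
  have e0 : opOf inst 0 s = t := by rw [opOf, h]
  have e1 : opOf inst 1 s = u := by rw [opOf, h]
  have e2 : opOf inst 2 s = b := by rw [opOf, h]
  have e3 : opOf inst 3 s = t' := by rw [opOf, h]
  have e4 : opOf inst 4 s = u' := by rw [opOf, h]
  have e5 : opOf inst 5 s = b' := by rw [opOf, h]
  have e6 : opOf inst 6 s = v := by rw [opOf, h]
  have e7 : opOf inst 7 s = c := by rw [opOf, h]
  constructor
  · intro hc
    unfold opF
    rw [e0, e1, e2, e3, e4, e5, e6, e7, if_pos hc]
  · intro hc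
    unfold opF
    rw [e0, e1, e2, e3, e4, e5, e6, e7, if_neg hc]

theorem algstep_cond0 (a : ℕ → Bool) (u b : ℕ) : cond x a 0 u b := Or.inl rfl

theorem algstep_cond1 (a : ℕ → Bool) (u b : ℕ) : cond x a 1 u b ↔ x u = decide (b ≠ 0) := by
  unfold cond
  constructor
  · rintro (h | h | h)
    · exact absurd h one_ne_zero
    · exact h.2
    · exact absurd h.1 (by norm_num)
  · exact fun h => Or.inr (Or.inl ⟨rfl, h⟩)

theorem algstep_cond2 (a : ℕ → Bool) (u b : ℕ) : cond x a 2 u b ↔ a u = decide (b ≠ 0) := by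
  unfold cond
  constructor
  · rintro (h | h | h)
    · exact absurd h two_ne_zero
    · exact absurd h.1 (by norm_num)
    · exact h.2
  · exact fun h => Or.inr (Or.inr ⟨le_rfl, h⟩)

/-- an operation changes nothing off its index -/
theorem algstep_off (s : ℕ) (a : ℕ → Bool) {t u b t' u' b' v c : ℕ}
    (h : opT inst s = (t, u, b, t', u', b', v, c)) {i : ℕ} (hi : i ≠ v) :
    opF (opOf inst) x s a i = a i := by
  obtain ⟨h1, h2⟩ := algstep_eq inst x s a h
  by_cases hc : cond x a t u b ∧ cond x a t' u' b'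
  · rw [h1 hc, Function.update_of_ne hi]
  · rw [h2 hc]

/-- the case distinction for the operations -/
theorem algstep_cases (s : ℕ) (a : ℕ → Bool) :
    (s = 0 ∧ opF (opOf inst) x s a = Function.update a 0 true) ∨
    (∃ j, 0 < j ∧ s = 6 * j ∧ opF (opOf inst) x s a = Function.update a 4 false) ∨
    (∃ j, s = 6 * j + 1 ∧ opF (opOf inst) x s a =
      if a (4 * j + 2) = true then Function.update a (4 * j + 1) true else a) ∨
    (∃ j, s = 6 * j + 2 ∧ opF (opOf inst) x s a = Function.update a (4 * j + 2) true) ∨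
    (∃ j, s = 6 * j + 3 ∧ opF (opOf inst) x s a =
      if a (4 * j + 1) = false then Function.update a 0 false else a) ∨
    (∃ j, s = 6 * j + 4 ∧ (opF (opOf inst) x s a = Function.update a 4 false ∨
      opF (opOf inst) x s a = a ∨
      ∃ m n l i b, inst j.unpair.1 = some (m, n, l) ∧ l[j.unpair.2]? = some (i, b) ∧ x i ≠ b ∧
        opF (opOf inst) x s a = Function.update a (4 * j.unpair.1 + 3) true)) ∨
    (∃ j, s = 6 * j + 5 ∧ (opF (opOf inst) x s a = Function.update a 4 false ∨
      opF (opOf inst) x s a = a ∨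
      ∃ m n l, inst j.unpair.1 = some (m, n, l) ∧ m ≤ j ∧ n ≤ j ∧
        a (4 * j.unpair.1 + 3) = false ∧ a (4 * m + 1) = false ∧
        opF (opOf inst) x s a = Function.update a (4 * n + 2) false)) := by
  obtain ⟨j, t, ht, rfl⟩ : ∃ j t, t < 6 ∧ s = 6 * j + t :=
    ⟨s / 6, s % 6, Nat.mod_lt _ (by norm_num), (Nat.div_add_mod s 6).symm⟩
  interval_cases t
  · rcases Nat.eq_zero_or_pos j with rfl | hj
    · refine Or.inl ⟨by norm_num, ?_⟩
      have h := (algstep_eq inst x (6 * 0) a (by rw [algstep_t0, if_pos rfl])).1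
        ⟨algstep_cond0 x a _ _, algstep_cond0 x a _ _⟩
      simpa using h
    · refine Or.inr (Or.inl ⟨j, hj, by omega, ?_⟩)
      have h := (algstep_eq inst x (6 * j) a (by rw [algstep_t0, if_neg hj.ne'])).1
        ⟨algstep_cond0 x a _ _, algstep_cond0 x a _ _⟩
      simpa using h
  · refine Or.inr (Or.inr (Or.inl ⟨j, rfl, ?_⟩))
    obtain ⟨h1, h2⟩ := algstep_eq inst x (6 * j + 1) a (algstep_t1 inst j)
    split_ifs with hc
    · have := h1 ⟨(algstep_cond2 x a _ _).2 (by simpa using hc), algstep_cond0 x a _ _⟩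
      simpa using this
    · exact h2 fun h => hc (by simpa using (algstep_cond2 x a _ _).1 h.1)
  · refine Or.inr (Or.inr (Or.inr (Or.inl ⟨j, rfl, ?_⟩)))
    have h := (algstep_eq inst x (6 * j + 2) a (algstep_t2 inst j)).1
      ⟨algstep_cond0 x a _ _, algstep_cond0 x a _ _⟩
    simpa using h
  · refine Or.inr (Or.inr (Or.inr (Or.inr (Or.inl ⟨j, rfl, ?_⟩))))
    obtain ⟨h1, h2⟩ := algstep_eq inst x (6 * j + 3) a (algstep_t3 inst j)
    split_ifs with hc
    · have := h1 ⟨(algstep_cond2 x a _ _).2 (by simpa using hc), algstep_cond0 x a _ _⟩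
      simpa using this
    · exact h2 fun h => hc (by simpa using (algstep_cond2 x a _ _).1 h.1)
  · refine Or.inr (Or.inr (Or.inr (Or.inr (Or.inr (Or.inl ⟨j, rfl, ?_⟩)))))
    have ht4 := algstep_t4 inst j
    rcases hi : inst j.unpair.1 with _ | ⟨m, n, l⟩
    · rw [hi] at ht4
      left
      have h := (algstep_eq inst x (6 * j + 4) a ht4).1
        ⟨algstep_cond0 x a _ _, algstep_cond0 x a _ _⟩
      simpa using h
    · rw [hi] at ht4
      rcases hl : l[j.unpair.2]? with _ | ⟨i, b⟩
      · simp only [hl] at ht4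
        left
        have h := (algstep_eq inst x (6 * j + 4) a ht4).1
          ⟨algstep_cond0 x a _ _, algstep_cond0 x a _ _⟩
        simpa using h
      · simp only [hl] at ht4
        obtain ⟨h1, h2⟩ := algstep_eq inst x (6 * j + 4) a ht4
        by_cases hx : x i = b
        · right; left
          apply h2
          intro h
          have h3 := (algstep_cond1 x a _ _).1 h.1
          rw [hx] at h3
          cases b <;> simp at h3
        · right; right
          refine ⟨m, n, l, i, b, rfl, hl, hx, ?_⟩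
          have h3 := h1 ⟨(algstep_cond1 x a _ _).2 ?_, algstep_cond0 x a _ _⟩
          · simpa using h3
          · cases b <;> simp at hx ⊢ <;> exact hx
  · refine Or.inr (Or.inr (Or.inr (Or.inr (Or.inr (Or.inr ⟨j, rfl, ?_⟩)))))
    have ht5 := algstep_t5 inst j
    rcases hi : inst j.unpair.1 with _ | ⟨m, n, l⟩
    · rw [hi] at ht5
      left
      have h := (algstep_eq inst x (6 * j + 5) a ht5).1
        ⟨algstep_cond0 x a _ _, algstep_cond0 x a _ _⟩
      simpa using h
    · simp only [hi] at ht5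
      by_cases hmn : m ≤ j ∧ n ≤ j
      · rw [if_pos hmn] at ht5
        obtain ⟨h1, h2⟩ := algstep_eq inst x (6 * j + 5) a ht5
        by_cases hc : a (4 * j.unpair.1 + 3) = false ∧ a (4 * m + 1) = false
        · right; right
          refine ⟨m, n, l, rfl, hmn.1, hmn.2, hc.1, hc.2, ?_⟩
          have h3 := h1 ⟨(algstep_cond2 x a _ _).2 (by simpa using hc.1),
            (algstep_cond2 x a _ _).2 (by simpa using hc.2)⟩
          simpa using h3
        · right; left
          apply h2
          intro h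
          exact hc ⟨by simpa using (algstep_cond2 x a _ _).1 h.1,
            by simpa using (algstep_cond2 x a _ _).1 h.2⟩
      · rw [if_neg hmn] at ht5
        left
        have h := (algstep_eq inst x (6 * j + 5) a ht5).1
          ⟨algstep_cond0 x a _ _, algstep_cond0 x a _ _⟩
        simpa using h

/-! ### The effect on the indices -/

theorem algstep_flag_zero (a : ℕ → Bool) : opF (opOf inst) x 0 a 0 = true := by
  rcases algstep_cases inst x 0 a with ⟨-, h⟩ | ⟨j, hj, h, -⟩ | ⟨j, h, -⟩ | ⟨j, h, -⟩ |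
    ⟨j, h, -⟩ | ⟨j, h, -⟩ | ⟨j, h, -⟩
  · rw [h, Function.update_self]
  all_goals omega

theorem algstep_flag (s : ℕ) (a : ℕ → Bool) (hs : s ≠ 0) :
    opF (opOf inst) x s a 0 = true ↔ a 0 = true ∧ ∀ j, s = 6 * j + 3 → a (4 * j + 1) = true := by
  rcases algstep_cases inst x s a with ⟨h0, -⟩ | ⟨j, hj, h, h'⟩ | ⟨j, h, h'⟩ | ⟨j, h, h'⟩ |
    ⟨j, h, h'⟩ | ⟨j, h, h'⟩ | ⟨j, h, h'⟩
  · exact absurd h0 hs
  · rw [h', Function.update_of_ne (by norm_num)]
    exact ⟨fun h1 => ⟨h1, fun i hi => by omega⟩, fun h1 => h1.1⟩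
  · have e : opF (opOf inst) x s a 0 = a 0 := by
      rw [h']; split_ifs
      · rw [Function.update_of_ne (by omega)]
      · rfl
    rw [e]
    exact ⟨fun h1 => ⟨h1, fun i hi => by omega⟩, fun h1 => h1.1⟩
  · rw [h', Function.update_of_ne (by omega)]
    exact ⟨fun h1 => ⟨h1, fun i hi => by omega⟩, fun h1 => h1.1⟩
  · rw [h']
    by_cases hc : a (4 * j + 1) = false
    · rw [if_pos hc, Function.update_self]
      refine ⟨fun h1 => absurd h1 (by simp), fun h1 => ?_⟩
      have := h1.2 j h
      rw [hc] at this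
      exact absurd this (by simp)
    · rw [if_neg hc]
      refine ⟨fun h1 => ⟨h1, fun i hi => ?_⟩, fun h1 => h1.1⟩
      have : i = j := by omega
      subst this
      simpa using hc
  · have e : opF (opOf inst) x s a 0 = a 0 := by
      rcases h' with h' | h' | ⟨m, n, l, i, b, -, -, -, h'⟩ <;> rw [h']
      · rw [Function.update_of_ne (by norm_num)]
      · rw [Function.update_of_ne (by omega)]
    rw [e]
    exact ⟨fun h1 => ⟨h1, fun i hi => by omega⟩, fun h1 => h1.1⟩
  · have e : opF (opOf inst) x s a 0 = a 0 := by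
      rcases h' with h' | h' | ⟨m, n, l, -, -, -, -, -, h'⟩ <;> rw [h']
      · rw [Function.update_of_ne (by norm_num)]
      · rw [Function.update_of_ne (by omega)]
    rw [e]
    exact ⟨fun h1 => ⟨h1, fun i hi => by omega⟩, fun h1 => h1.1⟩

theorem algstep_R (s : ℕ) (a : ℕ → Bool) (n : ℕ) :
    opF (opOf inst) x s a (4 * n + 1) = true ↔
      a (4 * n + 1) = true ∨ (s = 6 * n + 1 ∧ a (4 * n + 2) = true) := by
  have key : ∀ {P : Prop}, (s ≠ 6 * n + 1) → opF (opOf inst) x s a (4 * n + 1) = a (4 * n + 1) →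
      (opF (opOf inst) x s a (4 * n + 1) = true ↔
      a (4 * n + 1) = true ∨ (s = 6 * n + 1 ∧ a (4 * n + 2) = true)) := by
    intro _ h1 h2
    rw [h2]
    exact ⟨Or.inl, fun h => h.elim id fun h => absurd h.1 h1⟩
  rcases algstep_cases inst x s a with ⟨h, h'⟩ | ⟨j, hj, h, h'⟩ | ⟨j, h, h'⟩ | ⟨j, h, h'⟩ |
    ⟨j, h, h'⟩ | ⟨j, h, h'⟩ | ⟨j, h, h'⟩
  · exact key (P := True) (by omega) (by rw [h', Function.update_of_ne (by omega)])
  · exact key (P := True) (by omega) (by rw [h', Function.update_of_ne (by omega)])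
  · by_cases hjn : j = n
    · subst hjn
      rw [h']
      by_cases hc : a (4 * j + 2) = true
      · rw [if_pos hc, Function.update_self]
        exact ⟨fun _ => Or.inr ⟨h, hc⟩, fun _ => rfl⟩
      · rw [if_neg hc]
        exact ⟨Or.inl, fun h => h.elim id fun h => absurd h.2 hc⟩
    · refine key (P := True) (by omega) ?_
      rw [h']
      split_ifs
      · rw [Function.update_of_ne (by omega)]
      · rfl
  · exact key (P := True) (by omega) (by rw [h', Function.update_of_ne (by omega)])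
  · refine key (P := True) (by omega) ?_
    rw [h']
    split_ifs
    · rw [Function.update_of_ne (by omega)]
    · rfl
  · refine key (P := True) (by omega) ?_
    rcases h' with h' | h' | ⟨m, n, l, i, b, -, -, -, h'⟩ <;> rw [h']
    · rw [Function.update_of_ne (by omega)]
    · rw [Function.update_of_ne (by omega)]
  · refine key (P := True) (by omega) ?_
    rcases h' with h' | h' | ⟨m, n, l, -, -, -, -, -, h'⟩ <;> rw [h']
    · rw [Function.update_of_ne (by omega)]
    · rw [Function.update_of_ne (by omega)]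

/-- `C[k]` becomes true only if a literal of the instance fails -/
theorem algstep_C (s : ℕ) (a : ℕ → Bool) (k : ℕ) :
    opF (opOf inst) x s a (4 * k + 3) = a (4 * k + 3) ∨
      (opF (opOf inst) x s a (4 * k + 3) = true ∧
        ∃ m n l i b, inst k = some (m, n, l) ∧ (i, b) ∈ l ∧ x i ≠ b) := by
  rcases algstep_cases inst x s a with ⟨h, h'⟩ | ⟨j, hj, h, h'⟩ | ⟨j, h, h'⟩ | ⟨j, h, h'⟩ |
    ⟨j, h, h'⟩ | ⟨j, h, h'⟩ | ⟨j, h, h'⟩
  · left; rw [h', Function.update_of_ne (by omega)]
  · left; rw [h', Function.update_of_ne (by omega)]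
  · left; rw [h']; split_ifs
    · rw [Function.update_of_ne (by omega)]
    · rfl
  · left; rw [h', Function.update_of_ne (by omega)]
  · left; rw [h']; split_ifs
    · rw [Function.update_of_ne (by omega)]
    · rfl
  · rcases h' with h' | h' | ⟨m, n, l, i, b, h1, h2, h3, h'⟩
    · left; rw [h', Function.update_of_ne (by omega)]
    · left; rw [h']
    · by_cases hk : k = j.unpair.1
      · right
        refine ⟨by rw [h', hk, Function.update_self], m, n, l, i, b, by rw [hk]; exact h1,
          List.mem_of_getElem? h2, h3⟩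
      · left; rw [h', Function.update_of_ne (by omega)]
  · left
    rcases h' with h' | h' | ⟨m, n, l, -, -, -, -, -, h'⟩ <;> rw [h']
    · rw [Function.update_of_ne (by omega)]
    · rw [Function.update_of_ne (by omega)]

/-- `C[k]` is set when the failing literal is examined -/
theorem algstep_C_set (a : ℕ → Bool) {k r m n i : ℕ} {l : List (ℕ × Bool)} {b : Bool}
    (hk : inst k = some (m, n, l)) (hl : l[r]? = some (i, b)) (hx : x i ≠ b) :
    opF (opOf inst) x (6 * Nat.pair k r + 4) a (4 * k + 3) = true := by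
  have ht4 := algstep_t4 inst (Nat.pair k r)
  simp only [Nat.unpair_pair, hk, hl] at ht4
  obtain ⟨h1, h2⟩ := algstep_eq inst x (6 * Nat.pair k r + 4) a ht4
  rw [h1 ⟨(algstep_cond1 x a _ _).2 ?_, algstep_cond0 x a _ _⟩, Function.update_self]
  · simp
  · cases b <;> simp at hx ⊢ <;> exact hx

/-- the effect on `G[n]` -/
theorem algstep_G (s : ℕ) (a : ℕ → Bool) (n : ℕ) :
    (s = 6 * n + 2 ∧ opF (opOf inst) x s a (4 * n + 2) = true) ∨
    (s ≠ 6 * n + 2 ∧ opF (opOf inst) x s a (4 * n + 2) = a (4 * n + 2)) ∨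
    (opF (opOf inst) x s a (4 * n + 2) = false ∧ ∃ j m l, s = 6 * j + 5 ∧
      inst j.unpair.1 = some (m, n, l) ∧ m ≤ j ∧ n ≤ j ∧
        a (4 * j.unpair.1 + 3) = false ∧ a (4 * m + 1) = false) := by
  rcases algstep_cases inst x s a with ⟨h, h'⟩ | ⟨j, hj, h, h'⟩ | ⟨j, h, h'⟩ | ⟨j, h, h'⟩ |
    ⟨j, h, h'⟩ | ⟨j, h, h'⟩ | ⟨j, h, h'⟩
  · right; left; exact ⟨by omega, by rw [h', Function.update_of_ne (by omega)]⟩
  · right; left; exact ⟨by omega, by rw [h', Function.update_of_ne (by omega)]⟩
  · right; left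
    refine ⟨by omega, ?_⟩
    rw [h']; split_ifs
    · rw [Function.update_of_ne (by omega)]
    · rfl
  · by_cases hjn : j = n
    · left
      exact ⟨by omega, by rw [h', hjn, Function.update_self]⟩
    · right; left; exact ⟨by omega, by rw [h', Function.update_of_ne (by omega)]⟩
  · right; left
    refine ⟨by omega, ?_⟩
    rw [h']; split_ifs
    · rw [Function.update_of_ne (by omega)]
    · rfl
  · right; left
    refine ⟨by omega, ?_⟩
    rcases h' with h' | h' | ⟨m, n', l, i, b, -, -, -, h'⟩ <;> rw [h']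
    · rw [Function.update_of_ne (by omega)]
    · rw [Function.update_of_ne (by omega)]
  · rcases h' with h' | h' | ⟨m, n', l, h1, h2, h3, h4, h5, h'⟩
    · right; left; exact ⟨by omega, by rw [h', Function.update_of_ne (by omega)]⟩
    · right; left; exact ⟨by omega, by rw [h']⟩
    · by_cases hn : n' = n
      · subst hn
        right; right
        exact ⟨by rw [h', Function.update_self], j, m, l, h, h1, h2, h3, h4, h5⟩
      · right; left; exact ⟨by omega, by rw [h', Function.update_of_ne (by omega)]⟩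

/-- `G[n]` is reset if a true instance `(m, n)` has `R[m] = 0` -/
theorem algstep_G_reset (a : ℕ → Bool) {k r m n : ℕ} {l : List (ℕ × Bool)}
    (hk : inst k = some (m, n, l)) (hm : m ≤ Nat.pair k r) (hn : n ≤ Nat.pair k r)
    (hC : a (4 * k + 3) = false) (hR : a (4 * m + 1) = false) :
    opF (opOf inst) x (6 * Nat.pair k r + 5) a (4 * n + 2) = false := by
  have ht5 := algstep_t5 inst (Nat.pair k r)
  simp only [Nat.unpair_pair, hk, hm, hn, and_self, if_true] at ht5
  obtain ⟨h1, h2⟩ := algstep_eq inst x (6 * Nat.pair k r + 5) a ht5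
  rw [h1 ⟨(algstep_cond2 x a _ _).2 (by simpa using hC),
    (algstep_cond2 x a _ _).2 (by simpa using hR)⟩, Function.update_self]
  simp

end Pool.Agent.MPa662fc
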