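import Mathlib
import Pool.Agent.Lib.MP_a662fc_lc.AlgStep

/-!
# Completeness of the algorithm: a ranked relation raises the flag in time
-/

namespace Pool.Agent.MPa662fc

open Ordinal Pool.Agent.MP752584

variable {inst : ℕ → Option (ℕ × ℕ × List (ℕ × Bool))} {x : ℕ → Bool}

/-- an index which is never reset stays true -/
theorem algcomplete_stay {F : ℕ → (ℕ → Bool) → ℕ → Bool} {i : ℕ}
    (hF : ∀ s a, a i = true → F s a i = true) {α : Ordinal.{0}} {s : ℕ}
    (h : blockArr F (startArr F α) s i = true) :
    (∀ s', s ≤ s' → blockArr F (startArr F α) s' i = true) ∧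
    ∀ β, α < β → ∀ s', blockArr F (startArr F β) s' i = true := by
  have h1 : ∀ a : ℕ → Bool, ∀ s, blockArr F a s i = true → ∀ s', s ≤ s' →
      blockArr F a s' i = true := by
    intro a s hs s' hle
    induction s', hle using Nat.le_induction with
    | base => exact hs
    | succ t _ ih => exact hF t _ ih
  refine ⟨h1 _ s h, fun β hβ => ?_⟩
  induction β using Ordinal.induction with
  | h β ih =>
    intro s'
    refine h1 _ 0 ?_ s' (Nat.zero_le _)
    change startArr F β i = true
    rw [startArr_iff]
    refine ⟨α, hβ, s, fun β' hβ' s'' hle => ?_⟩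
    rcases hle with h2 | ⟨rfl, h2⟩
    · exact ih β' hβ' h2 s''
    · exact h1 _ s h s'' h2

theorem algcomplete_R_keep (n s : ℕ) (a : ℕ → Bool) (h : a (4 * n + 1) = true) :
    opF (opOf inst) x s a (4 * n + 1) = true := (algstep_R inst x s a n).2 (Or.inl h)

theorem algcomplete_C_keep (k s : ℕ) (a : ℕ → Bool) (h : a (4 * k + 3) = true) :
    opF (opOf inst) x s a (4 * k + 3) = true := by
  rcases algstep_C inst x s a k with h1 | h1
  · rw [h1]; exact h
  · exact h1.1

/-- false instances are known from block `1` on -/
theorem algcomplete_C {k m n : ℕ} {l : List (ℕ × Bool)} (hk : inst k = some (m, n, l))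
    (hl : ¬ ∀ c ∈ l, x c.1 = c.2) {α : Ordinal.{0}} (hα : 0 < α) (s : ℕ) :
    blockArr (opF (opOf inst) x) (startArr (opF (opOf inst) x) α) s (4 * k + 3) = true := by
  push Not at hl
  obtain ⟨⟨i, b⟩, hc, hx⟩ := hl
  obtain ⟨r, hr⟩ := List.mem_iff_getElem?.1 hc
  have h1 : blockArr (opF (opOf inst) x) (startArr (opF (opOf inst) x) 0)
      (6 * Nat.pair k r + 4 + 1) (4 * k + 3) = true :=
    algstep_C_set inst x _ hk hr hx
  exact (algcomplete_stay (fun s a h => algcomplete_C_keep k s a h) h1).2 α hα s

/-- `R[n]` is true from block `rk n + 2` on -/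
theorem algcomplete_main {rk : ℕ → Ordinal.{0}} (hrk : ∀ m n, InstRel inst x m n → rk m < rk n)
    (n : ℕ) : blockArr (opF (opOf inst) x) (startArr (opF (opOf inst) x) (rk n + 1 + 1))
      (6 * n + 2) (4 * n + 1) = true := by
  induction n using (InvImage.wf rk Ordinal.lt_wf).induction with
  | h n ih =>
    -- the predecessors in block `rk n + 1`
    have hpre : ∀ m, InstRel inst x m n → ∀ s, 6 * m + 2 ≤ s →
        blockArr (opF (opOf inst) x) (startArr (opF (opOf inst) x) (rk n + 1)) s
          (4 * m + 1) = true := by
      intro m hm s hs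
      have h1 := hrk m n hm
      have h2 := ih m h1
      have h3 := algcomplete_stay (fun s a h => algcomplete_R_keep (inst := inst) (x := x) m s a h)
        h2
      have h4 : rk m + 1 + 1 ≤ rk n + 1 := by
        gcongr
        exact Order.add_one_le_of_lt h1
      rcases h4.lt_or_eq with h5 | h5
      · exact h3.2 _ h5 s
      · rw [← h5]; exact h3.1 s hs
    -- `G[n]` is true at late times of block `rk n + 1`
    have hG : ∀ s, 6 * n + 3 ≤ s →
        blockArr (opF (opOf inst) x) (startArr (opF (opOf inst) x) (rk n + 1)) s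
          (4 * n + 2) = true := by
      intro s hs
      induction s, hs using Nat.le_induction with
      | base =>
        change opF (opOf inst) x (6 * n + 2) _ (4 * n + 2) = true
        rcases algstep_G inst x (6 * n + 2) (blockArr (opF (opOf inst) x)
          (startArr (opF (opOf inst) x) (rk n + 1)) (6 * n + 2)) n with h | h | h
        · exact h.2
        · exact absurd rfl h.1
        · obtain ⟨-, j, m, l, h1, -⟩ := h
          omega
      | succ s hs ihs =>
        change opF (opOf inst) x s _ (4 * n + 2) = true
        rcases algstep_G inst x s (blockArr (opF (opOf inst) x)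
          (startArr (opF (opOf inst) x) (rk n + 1)) s) n with h | h | h
        · exact h.2
        · rw [h.2]; exact ihs
        · exfalso
          obtain ⟨-, j, m, l, h1, h2, h3, h4, h5, h6⟩ := h
          by_cases hl : ∀ c ∈ l, x c.1 = c.2
          · have h7 := hpre m ⟨_, l, h2, hl⟩ s (by omega)
            rw [h6] at h7
            exact absurd h7 (by simp)
          · have h7 := algcomplete_C (x := x) h2 hl
              (α := rk n + 1) (lt_of_le_of_lt bot_le (lt_add_one (rk n))) s
            rw [h5] at h7
            exact absurd h7 (by simp)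
    have hstart : startArr (opF (opOf inst) x) (rk n + 1 + 1) (4 * n + 2) = true :=
      (startArr_add_one _ _ _).2 ⟨6 * n + 3, hG⟩
    have hkeep : ∀ s, s ≤ 6 * n + 1 →
        blockArr (opF (opOf inst) x) (startArr (opF (opOf inst) x) (rk n + 1 + 1)) s
          (4 * n + 2) = true := by
      intro s hs
      induction s with
      | zero => exact hstart
      | succ s ihs =>
        change opF (opOf inst) x s _ (4 * n + 2) = true
        rcases algstep_G inst x s (blockArr (opF (opOf inst) x)
          (startArr (opF (opOf inst) x) (rk n + 1 + 1)) s) n with h | h | h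
        · exact h.2
        · rw [h.2]; exact ihs (by omega)
        · obtain ⟨-, j, m, l, h1, -, -, h4, -⟩ := h
          omega
    change opF (opOf inst) x (6 * n + 1) _ (4 * n + 1) = true
    rw [algstep_R]
    exact Or.inr ⟨rfl, hkeep _ le_rfl⟩

theorem alg_complete (inst : ℕ → Option (ℕ × ℕ × List (ℕ × Bool))) (x : ℕ → Bool)
    {ρ : Ordinal.{0}} (h : Ranked (InstRel inst x) ρ) :
    ∃ α ≤ ρ + 3, startArr (opF (opOf inst) x) α 0 = true := by
  obtain ⟨rk, hrk, hρ⟩ := h
  have h1 : ∀ n s, 6 * n + 2 ≤ s →
      blockArr (opF (opOf inst) x) (startArr (opF (opOf inst) x) (ρ + 1)) s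
        (4 * n + 1) = true := by
    intro n s hs
    have h2 := algcomplete_stay (fun s a h => algcomplete_R_keep (inst := inst) (x := x) n s a h)
      (algcomplete_main hrk n)
    have h4 : rk n + 1 + 1 ≤ ρ + 1 := by
      gcongr
      exact Order.add_one_le_of_lt (hρ n)
    rcases h4.lt_or_eq with h5 | h5
    · exact h2.2 _ h5 s
    · rw [← h5]; exact h2.1 s hs
  refine ⟨ρ + 1 + 1, ?_, (startArr_add_one _ _ _).2 ⟨1, fun s hs => ?_⟩⟩
  · rw [add_assoc]
    gcongr
    exact_mod_cast (by norm_num : (1 + 1 : ℕ) ≤ 3)
  · induction s, hs using Nat.le_induction with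
    | base => exact algstep_flag_zero inst x _
    | succ s hs ih =>
      change opF (opOf inst) x s _ 0 = true
      rw [algstep_flag inst x s _ (by omega)]
      exact ⟨ih, fun j hj => h1 j s (by omega)⟩

end Pool.Agent.MPa662fc
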