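import Mathlib
import Pool.Agent.Lib.MP_a662fc_lc.AlgStep

/-!
# Soundness of the algorithm: if the flag is raised then the relation is well-founded
-/

namespace Pool.Agent.MPa662fc

open Ordinal Pool.Agent.MP752584

variable {inst : ℕ → Option (ℕ × ℕ × List (ℕ × Bool))} {x : ℕ → Bool}

/-- Truth at the start of a block: either true at the start of an earlier block, at all times from
its start, or `α` is a successor and truth at all late times of the previous block. -/
theorem algsound_start {F : ℕ → (ℕ → Bool) → ℕ → Bool} {α : Ordinal.{0}} {n : ℕ}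
    (h : startArr F α n = true) : ∃ β < α, ∃ s₀ : ℕ,
      (∀ s, s₀ ≤ s → blockArr F (startArr F β) s n = true) ∧ (s₀ = 0 ∨ α = β + 1) := by
  obtain ⟨β, hβ, s, H⟩ := (startArr_iff F α n).1 h
  rcases (Order.add_one_le_of_lt hβ).lt_or_eq with h1 | h1
  · exact ⟨β + 1, h1, 0, fun s' _ => H _ h1 s' (Or.inl (lt_add_one β)), Or.inl rfl⟩
  · exact ⟨β, hβ, s, fun s' hs' => H β hβ s' (Or.inr ⟨rfl, hs'⟩), Or.inr h1.symm⟩

/-- an instance whose literals hold is never marked false -/
theorem algsound_C {k m n : ℕ} {l : List (ℕ × Bool)} (hk : inst k = some (m, n, l))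
    (hl : ∀ c ∈ l, x c.1 = c.2) (α : Ordinal.{0}) (s : ℕ) :
    blockArr (opF (opOf inst) x) (startArr (opF (opOf inst) x) α) s (4 * k + 3) = false := by
  induction α using Ordinal.induction generalizing s with
  | h α ih =>
    induction s with
    | zero =>
      rw [← Bool.not_eq_true]
      intro h
      obtain ⟨β, hβ, s₀, H, -⟩ := algsound_start h
      have := ih β hβ s₀
      rw [H s₀ le_rfl] at this
      exact absurd this (by simp)
    | succ s ihs =>
      change opF (opOf inst) x s _ (4 * k + 3) = false
      rcases algstep_C inst x s (blockArr (opF (opOf inst) x)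
        (startArr (opF (opOf inst) x) α) s) k with h | ⟨-, m', n', l', i, b, h1, h2, h3⟩
      · rw [h]; exact ihs
      · rw [hk] at h1
        simp only [Option.some.injEq, Prod.mk.injEq] at h1
        obtain ⟨-, -, rfl⟩ := h1
        exact absurd (hl (i, b) h2) h3

/-- before time `6 n + 2`, `G[n]` can only become false -/
theorem algsound_G_mono (a : ℕ → Bool) (n s : ℕ) (hs : s ≤ 6 * n + 2)
    (h : blockArr (opF (opOf inst) x) a s (4 * n + 2) = true) : a (4 * n + 2) = true := by
  induction s with
  | zero => exact h
  | succ s ih =>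
    apply ih (by omega)
    change opF (opOf inst) x s _ (4 * n + 2) = true at h
    rcases algstep_G inst x s (blockArr (opF (opOf inst) x) a s) n with h1 | h1 | h1
    · omega
    · rw [h1.2] at h; exact h
    · rw [h1.1] at h; exact absurd h (by simp)

/-- in a block which starts with correct arrays, the array `R` is correct at all times -/
theorem algsound_R (a : ℕ → Bool) (n : ℕ)
    (ha : a (4 * n + 1) = true → Acc (InstRel inst x) n)
    (hg : a (4 * n + 2) = true → Acc (InstRel inst x) n) (s : ℕ)
    (h : blockArr (opF (opOf inst) x) a s (4 * n + 1) = true) : Acc (InstRel inst x) n := by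
  induction s with
  | zero => exact ha h
  | succ s ih =>
    change opF (opOf inst) x s _ (4 * n + 1) = true at h
    rw [algstep_R] at h
    rcases h with h | ⟨h1, h2⟩
    · exact ih h
    · exact hg (algsound_G_mono a n s (by omega) h2)

theorem algsound_main (α : Ordinal.{0}) :
    (∀ n, startArr (opF (opOf inst) x) α (4 * n + 1) = true → Acc (InstRel inst x) n) ∧
    ∀ n, startArr (opF (opOf inst) x) α (4 * n + 2) = true → Acc (InstRel inst x) n := by
  induction α using Ordinal.induction with
  | h α ih =>
    have hR : ∀ β < α, ∀ n s, blockArr (opF (opOf inst) x) (startArr (opF (opOf inst) x) β) s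
        (4 * n + 1) = true → Acc (InstRel inst x) n := fun β hβ n s =>
      algsound_R _ n ((ih β hβ).1 n) ((ih β hβ).2 n) s
    constructor
    · intro n h
      obtain ⟨β, hβ, s₀, H, -⟩ := algsound_start h
      exact hR β hβ n s₀ (H s₀ le_rfl)
    · intro n h
      obtain ⟨β, hβ, s₀, H, -⟩ := algsound_start h
      refine Acc.intro n fun m hmn => ?_
      obtain ⟨k, l, hk, hl⟩ := hmn
      by_contra hacc
      obtain ⟨r, hr1, hr2, hr3⟩ : ∃ r : ℕ, m ≤ r ∧ n ≤ r ∧ s₀ ≤ r :=
        ⟨max m (max n s₀), le_max_left _ _, (le_max_left _ _).trans (le_max_right _ _),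
          (le_max_right _ _).trans (le_max_right _ _)⟩
      have hle : r ≤ Nat.pair k r := Nat.right_le_pair k r
      have hRm : blockArr (opF (opOf inst) x) (startArr (opF (opOf inst) x) β)
          (6 * Nat.pair k r + 5) (4 * m + 1) = false := by
        rw [← Bool.not_eq_true]
        exact fun h => hacc (hR β hβ m _ h)
      have h1 := algstep_G_reset inst x (blockArr (opF (opOf inst) x)
        (startArr (opF (opOf inst) x) β) (6 * Nat.pair k r + 5)) hk (hr1.trans hle)
        (hr2.trans hle) (algsound_C hk hl β _) hRm
      have h2 := H (6 * Nat.pair k r + 5 + 1) (by omega)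
      change opF (opOf inst) x (6 * Nat.pair k r + 5) _ (4 * n + 2) = true at h2
      rw [h1] at h2
      exact absurd h2 (by simp)

theorem algsound_flag (a : ℕ → Bool) (n s : ℕ) (hs : 6 * n + 4 ≤ s)
    (h : blockArr (opF (opOf inst) x) a s 0 = true) :
    blockArr (opF (opOf inst) x) a (6 * n + 3) (4 * n + 1) = true := by
  induction s with
  | zero => omega
  | succ s ih =>
    change opF (opOf inst) x s _ 0 = true at h
    rw [algstep_flag inst x s _ (by omega)] at h
    rcases Nat.lt_or_ge s (6 * n + 4) with h1 | h1
    · have h2 : s = 6 * n + 3 := by omega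
      subst h2
      exact h.2 n rfl
    · exact ih h1 h.1

theorem alg_sound (inst : ℕ → Option (ℕ × ℕ × List (ℕ × Bool))) (x : ℕ → Bool) {α : Ordinal.{0}}
    (h : startArr (opF (opOf inst) x) α 0 = true) : WellFounded (InstRel inst x) := by
  obtain ⟨β, hβ, s₀, H, -⟩ := algsound_start h
  refine ⟨fun n => ?_⟩
  have h1 := algsound_flag (inst := inst) (x := x) (startArr (opF (opOf inst) x) β) n
    (max s₀ (6 * n + 4)) (le_max_right _ _) (H _ (le_max_left _ _))
  exact algsound_R _ n ((algsound_main β).1 n) ((algsound_main β).2 n) _ h1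

end Pool.Agent.MPa662fc
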