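import Mathlib
import Pool.Agent.Lib.MP_a662fc_lc.Fam
import Pool.Agent.Lib.MP_a662fc_lc.Basic

/-!
# Stabilisation of the games over countable ordinals
-/

namespace Pool.Agent.MPa662fc

open Ordinal Pool.Agent.MP752584 Encodable

theorem stabm_countable_Iio {a : Ordinal.{0}} (ha : a < ω₁) : Countable (Set.Iio a) := by
  rw [← Cardinal.mk_le_aleph0_iff, Cardinal.mk_Iio_ordinal, Cardinal.lift_le_aleph0,
    ← Order.lt_succ_iff, Cardinal.succ_aleph0]
  exact Cardinal.lt_omega_iff_card_lt.1 ha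

theorem stabm_countable_D {a b : Ordinal.{0}} (ha : a < ω₁) (hb : b < ω₁) : Countable (D a b) := by
  have := stabm_countable_Iio (max_lt ha hb)
  have hlt : ∀ s : D a b, s.1.2 < max a b := by
    rintro ⟨⟨t, x⟩, h1, h2⟩
    rcases t with _ | _
    · exact (h1 rfl).trans_le (le_max_left _ _)
    · exact (h2 rfl).trans_le (le_max_right _ _)
  let f : D a b → Bool × Set.Iio (max a b) := fun s => (s.1.1, ⟨s.1.2, hlt s⟩)
  have hf : Function.Injective f := by
    rintro ⟨⟨t, x⟩, hs⟩ ⟨⟨t', x'⟩, hs'⟩ h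
    have h1 : t = t' := congrArg Prod.fst h
    have h2 : x = x' := congrArg (fun q : Bool × Set.Iio (max a b) => q.2.1) h
    subst h1 h2
    rfl
  exact hf.countable

theorem stabm_countable_valid {a b : Ordinal.{0}} (ha : a < ω₁) (hb : b < ω₁) :
    {u : Pos | Valid a b u}.Countable := by
  have := stabm_countable_D ha hb
  let g : List (ℕ × D a b × D a b × ℕ × D a b) → Pos := fun l =>
    l.map fun f => (f.1, f.2.1.1, f.2.2.1.1, f.2.2.2.1, f.2.2.2.2.1)
  refine (Set.countable_range g).mono ?_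
  intro u hu
  induction u with
  | nil => exact ⟨[], rfl⟩
  | cons f u ih =>
    obtain ⟨l, hl⟩ := ih (fun f' hf' => hu f' (by simp [hf']))
    obtain ⟨h1, h2, h3⟩ := hu f (by simp)
    exact ⟨(f.1, ⟨f.2.1, h1⟩, ⟨f.2.2.1, h2⟩, f.2.2.2.1, ⟨f.2.2.2.2, h3⟩) :: l, by
      rw [← hl]
      rfl⟩

theorem exists_stab (P : Pattern → Prop) {a b : Ordinal.{0}} (ha : a < ω₁) (hb : b < ω₁) :
    ∃ ξ < ω₁, Stab P a b ξ := by
  by_contra hcon
  push Not at hcon
  have h : ∀ ξ : Set.Iio (ω₁ : Ordinal.{0}), ∃ u : {u : Pos | Valid a b u},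
      W P a b ξ.1 u.1 ∧ ∀ ξ' < ξ.1, ¬ W P a b ξ' u.1 := by
    rintro ⟨ξ, hξ⟩
    have := hcon ξ hξ
    unfold Stab at this
    push Not at this
    obtain ⟨u, hu, h1, h2⟩ := this
    exact ⟨⟨u, hu⟩, h1, h2⟩
  choose u hu1 hu2 using h
  have hinj : Function.Injective u := by
    intro ξ η he
    rcases lt_trichotomy ξ.1 η.1 with hlt | heq | hlt
    · exact absurd (he ▸ hu1 ξ) (hu2 η ξ.1 hlt)
    · exact Subtype.ext heq
    · exact absurd (he ▸ hu1 η) (hu2 ξ η.1 hlt)
  have := (stabm_countable_valid ha hb).to_subtype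
  have hc : Countable (Set.Iio (ω₁ : Ordinal.{0})) := hinj.countable
  rw [← Cardinal.mk_le_aleph0_iff, Cardinal.mk_Iio_ordinal, Cardinal.lift_le_aleph0,
    Ordinal.card_omega] at hc
  exact absurd hc (not_le.2 Cardinal.aleph0_lt_aleph_one)

theorem Stab.le {P : Pattern → Prop} {a b ξ : Ordinal.{0}} (h : Stab P a b ξ) {η : Ordinal.{0}}
    {u : Pos} (hu : Valid a b u) (hw : W P a b η u) : ∃ ξ' < ξ, W P a b ξ' u := by
  induction hw with
  | bad hb => exact h _ hu (.bad hb)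
  | ask i s t hs ht r hr hw ih =>
    refine h _ hu (W.cases_iff.2 (Or.inr ⟨i, s, hs, t, ht, fun v c hc => ?_⟩))
    refine ih v c hc ?_
    intro f hf
    rw [List.mem_cons] at hf
    rcases hf with rfl | hf
    · exact ⟨hs, ht, hc⟩
    · exact hu f hf

end Pool.Agent.MPa662fc
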