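import Mathlib
import Pool.Agent.Lib.MP_a662fc_lc.StabM

/-!
# Closure points of countably many functions on countable ordinals
-/

namespace Pool.Agent.MPa662fc

open Ordinal Pool.Agent.MP752584 Encodable

theorem closed_succ_lt {a : Ordinal.{0}} (ha : a < ω₁) : a + 1 < ω₁ := by
  rw [← Order.succ_eq_add_one]
  exact (Cardinal.isSuccLimit_omega 1).succ_lt ha

theorem closed_step (F : ℕ → List Ordinal.{0} → Ordinal.{0})
    (hF : ∀ j l, (∀ a ∈ l, a < ω₁) → F j l < ω₁) {α : Ordinal.{0}} (hα : α < ω₁) :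
    ∃ β < ω₁, α < β ∧ ∀ j l, (∀ a ∈ l, a < α) → F j l < β := by
  have := stabm_countable_Iio hα
  let f : ℕ × List (Set.Iio α) → Ordinal.{0} := fun q => F q.1 (q.2.map Subtype.val) + 1
  have hf : ∀ q, f q < ω₁ := by
    intro q
    refine closed_succ_lt (hF _ _ ?_)
    intro a ha
    rw [List.mem_map] at ha
    obtain ⟨b, _, rfl⟩ := ha
    exact b.2.trans hα
  refine ⟨max (α + 1) (⨆ q, f q), max_lt (closed_succ_lt hα) (Ordinal.iSup_lt_omega_one hf),
    lt_of_lt_of_le (lt_add_one α) (le_max_left _ _), fun j l hl => ?_⟩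
  have hb : BddAbove (Set.range f) := Ordinal.bddAbove_of_small
  have h1 : f (j, l.attach.map fun a => ⟨a.1, hl a.1 a.2⟩) ≤ ⨆ q, f q := le_ciSup hb _
  have h2 : f (j, l.attach.map fun a => ⟨a.1, hl a.1 a.2⟩) = F j l + 1 := by
    simp only [f, List.map_map]
    congr 2
    conv_rhs => rw [← List.attach_map_subtype_val l]
    rfl
  rw [h2] at h1
  exact lt_of_lt_of_le (lt_of_lt_of_le (lt_add_one _) h1) (le_max_right _ _)

theorem exists_closed (F : ℕ → List Ordinal.{0} → Ordinal.{0})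
    (hF : ∀ j l, (∀ a ∈ l, a < ω₁) → F j l < ω₁) {θ : Ordinal.{0}} (hθ : θ < ω₁) :
    ∃ κ < ω₁, θ < κ ∧ (∀ a < κ, a + 1 < κ) ∧ ∀ j l, (∀ a ∈ l, a < κ) → F j l < κ := by
  choose g hg1 hg2 hg3 using fun α : Set.Iio (ω₁ : Ordinal.{0}) => closed_step F hF α.2
  let s : ℕ → Set.Iio (ω₁ : Ordinal.{0}) := fun n =>
    Nat.rec ⟨θ, hθ⟩ (fun _ α => ⟨g α, hg1 α⟩) n
  have hs : ∀ n, (s (n + 1)).1 = g (s n) := fun n => rfl
  have hlt : ∀ n, (s n).1 < (s (n + 1)).1 := fun n => hg2 (s n)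
  have hmono : StrictMono fun n => (s n).1 := strictMono_nat_of_lt_succ hlt
  have hb : BddAbove (Set.range fun n => (s n).1) := Ordinal.bddAbove_of_small
  have hle : ∀ n, (s n).1 < ⨆ n, (s n).1 := fun n =>
    lt_of_lt_of_le (hlt n) (le_ciSup hb (n + 1))
  have hex : ∀ a < ⨆ n, (s n).1, ∃ n, a < (s n).1 := fun a ha => exists_lt_of_lt_ciSup ha
  refine ⟨⨆ n, (s n).1, Ordinal.iSup_lt_omega_one fun n => (s n).2, hle 0, ?_, ?_⟩
  · intro a ha
    obtain ⟨n, hn⟩ := hex a ha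
    exact lt_of_le_of_lt (Order.add_one_le_of_lt hn) (hle n)
  · intro j l hl
    have h1 : ∃ n, ∀ a ∈ l, a < (s n).1 := by
      induction l with
      | nil => exact ⟨0, by simp⟩
      | cons b l ih =>
        obtain ⟨n, hn⟩ := ih fun a ha => hl a (by simp [ha])
        obtain ⟨m, hm⟩ := hex b (hl b (by simp))
        refine ⟨max n m, fun a ha => ?_⟩
        rw [List.mem_cons] at ha
        rcases ha with rfl | ha
        · exact hm.trans_le (hmono.monotone (le_max_right _ _))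
        · exact (hn a ha).trans_le (hmono.monotone (le_max_left _ _))
    obtain ⟨n, hn⟩ := h1
    exact (hg3 (s n) j l hn).trans (hle (n + 1))

end Pool.Agent.MPa662fc
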