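import Mathlib.Computability.PartrecBasis
import Pool.Agent.Lib.MP_a662fc_lc.MDefs

/-!
# Computable functions by register programs

Register programs with registers indexed by `ℕ` (`cmdcomp_NC`, `cmdcomp_NE`), compilation of
`Nat.Partrec'` into them, and translation to `Cmd (k + 2)`.
-/

namespace Pool.Agent.MPa662fc

open Ordinal Pool.Agent.MP752584 Encodable

/-- Register programs with registers indexed by `ℕ`. -/
inductive cmdcomp_NC
  | skip : cmdcomp_NC
  | inc (i : ℕ) : cmdcomp_NC
  | dec (i : ℕ) : cmdcomp_NC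
  | seq (c d : cmdcomp_NC) : cmdcomp_NC
  | loop (i : ℕ) (c : cmdcomp_NC) : cmdcomp_NC

/-- Execution. -/
inductive cmdcomp_NE : cmdcomp_NC → (ℕ → ℕ) → (ℕ → ℕ) → Prop
  | skip (r) : cmdcomp_NE .skip r r
  | inc (i r) : cmdcomp_NE (.inc i) r (Function.update r i (r i + 1))
  | dec (i r) : cmdcomp_NE (.dec i) r (Function.update r i (r i - 1))
  | seq {c d r s t} : cmdcomp_NE c r s → cmdcomp_NE d s t → cmdcomp_NE (.seq c d) r t
  | loop_done {i c r} : r i = 0 → cmdcomp_NE (.loop i c) r r
  | loop_step {i c r s t} : r i ≠ 0 → cmdcomp_NE c r s → cmdcomp_NE (.loop i c) s t →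
      cmdcomp_NE (.loop i c) r t

/-- A bound for the registers. -/
def cmdcomp_bd : cmdcomp_NC → ℕ
  | .skip => 0
  | .inc i => i + 1
  | .dec i => i + 1
  | .seq c d => max (cmdcomp_bd c) (cmdcomp_bd d)
  | .loop i c => max (i + 1) (cmdcomp_bd c)

/-- Translation to programs with finitely many registers. -/
def cmdcomp_tr (k : ℕ) : cmdcomp_NC → Cmd (k + 2)
  | .skip => .skip
  | .inc i => .inc (Fin.ofNat (k + 2) i)
  | .dec i => .dec (Fin.ofNat (k + 2) i)
  | .seq c d => .seq (cmdcomp_tr k c) (cmdcomp_tr k d)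
  | .loop i c => .loop (Fin.ofNat (k + 2) i) (cmdcomp_tr k c)

theorem cmdcomp_val {k i : ℕ} (h : i + 1 ≤ k + 2) : ((Fin.ofNat (k + 2) i : Fin (k + 2)) : ℕ) = i :=
  Nat.mod_eq_of_lt h

theorem cmdcomp_upd {k i : ℕ} (h : i + 1 ≤ k + 2) (r : ℕ → ℕ) (v : ℕ) :
    (fun j : Fin (k + 2) => Function.update r i v (j : ℕ)) =
      Function.update (fun j : Fin (k + 2) => r j) (Fin.ofNat (k + 2) i) v := by
  funext j
  by_cases hj : (j : ℕ) = i
  · have : j = Fin.ofNat (k + 2) i := Fin.ext (by rw [cmdcomp_val h, hj])
    rw [this, Function.update_self, cmdcomp_val h, Function.update_self]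
  · have : j ≠ Fin.ofNat (k + 2) i := fun e => hj (by rw [e, cmdcomp_val h])
    rw [Function.update_of_ne this, Function.update_of_ne hj]

theorem cmdcomp_tr_exec {k : ℕ} {x a : ℕ → Bool} {c : cmdcomp_NC} {r s : ℕ → ℕ}
    (h : cmdcomp_NE c r s) (hb : cmdcomp_bd c ≤ k + 2) :
    Exec x a (cmdcomp_tr k c) (fun j => r j) (fun j => s j) := by
  induction h with
  | skip r => exact .skip _
  | inc i r =>
    rw [cmdcomp_upd hb]
    have := Exec.inc (x := x) (a := a) (Fin.ofNat (k + 2) i) (fun j : Fin (k + 2) => r j)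
    simp only [cmdcomp_val hb] at this
    exact this
  | dec i r =>
    rw [cmdcomp_upd hb]
    have := Exec.dec (x := x) (a := a) (Fin.ofNat (k + 2) i) (fun j : Fin (k + 2) => r j)
    simp only [cmdcomp_val hb] at this
    exact this
  | seq _ _ ih1 ih2 =>
    exact .seq (ih1 ((le_max_left _ _).trans hb)) (ih2 ((le_max_right _ _).trans hb))
  | loop_done h =>
    refine .loop_done ?_
    simp only [cmdcomp_val ((le_max_left _ _).trans hb)]
    exact h
  | loop_step h _ _ ih1 ih2 =>
    refine .loop_step ?_ (ih1 ((le_max_right _ _).trans hb)) (ih2 hb)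
    simp only [cmdcomp_val ((le_max_left _ _).trans hb)]
    exact h

/-! ### Building blocks -/

theorem cmdcomp_loop {i : ℕ} {c : cmdcomp_NC} (R : ℕ → ℕ → ℕ) :
    ∀ N : ℕ, (∀ j < N, R j i ≠ 0 ∧ cmdcomp_NE c (R j) (R (j + 1))) → R N i = 0 →
      cmdcomp_NE (.loop i c) (R 0) (R N) := by
  intro N
  induction N generalizing R with
  | zero => intro _ h; exact .loop_done h
  | succ N ih =>
    intro h h0
    exact .loop_step (h 0 N.succ_pos).1 (h 0 N.succ_pos).2
      (ih (fun j => R (j + 1)) (fun j hj => h (j + 1) (Nat.succ_lt_succ hj)) h0)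

theorem cmdcomp_NE.of_eq {c : cmdcomp_NC} {r s s' : ℕ → ℕ} (h : cmdcomp_NE c r s) (e : s = s') :
    cmdcomp_NE c r s' := e ▸ h

/-- Clear a register. -/
def cmdcomp_clr (i : ℕ) : cmdcomp_NC := .loop i (.dec i)

theorem cmdcomp_clr_exec (i : ℕ) (r : ℕ → ℕ) :
    cmdcomp_NE (cmdcomp_clr i) r (Function.update r i 0) := by
  unfold cmdcomp_clr
  have := cmdcomp_loop (i := i) (c := .dec i) (fun j => Function.update r i (r i - j)) (r i)
    (fun j hj => ⟨by simp only [Function.update_self]; omega, by
      have := cmdcomp_NE.dec i (Function.update r i (r i - j))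
      rw [Function.update_self, Function.update_idem] at this
      exact this⟩) (by simp)
  simpa only [Nat.sub_zero, Function.update_eq_self, Nat.sub_self] using this

/-- Move the content of register `i` to register `j` (adding). -/
def cmdcomp_mv (i j : ℕ) : cmdcomp_NC := .loop i (.seq (.dec i) (.inc j))

theorem cmdcomp_mv_exec {i j : ℕ} (hij : i ≠ j) (r : ℕ → ℕ) :
    cmdcomp_NE (cmdcomp_mv i j) r
      (Function.update (Function.update r j (r j + r i)) i 0) := by
  unfold cmdcomp_mv
  have := cmdcomp_loop (i := i) (c := .seq (.dec i) (.inc j))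
    (fun t => Function.update (Function.update r j (r j + t)) i (r i - t)) (r i)
    (fun t ht => ⟨by simp only [Function.update_self]; omega, by
      refine .seq (.dec _ _) ?_
      have := cmdcomp_NE.inc j (Function.update (Function.update (Function.update r j (r j + t)) i
        (r i - t)) i ((Function.update (Function.update r j (r j + t)) i (r i - t)) i - 1))
      convert this using 1
      funext z
      simp only [Function.update_apply]
      split_ifs <;> omega⟩) (by simp)
  have e : Function.update (Function.update r j (r j + 0)) i (r i - 0) = r := by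
    funext z
    simp only [Function.update_apply]
    split_ifs <;> simp_all
  simpa only [e, Nat.sub_self] using this

/-- Copy register `i` to the two registers `j` and `t` (adding), clearing `i`. -/
def cmdcomp_mv2 (i j t : ℕ) : cmdcomp_NC := .loop i (.seq (.dec i) (.seq (.inc j) (.inc t)))

theorem cmdcomp_mv2_exec {i j t : ℕ} (hij : i ≠ j) (hit : i ≠ t) (hjt : j ≠ t) (r : ℕ → ℕ) :
    cmdcomp_NE (cmdcomp_mv2 i j t) r
      (Function.update (Function.update (Function.update r j (r j + r i)) t (r t + r i)) i 0) := by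
  unfold cmdcomp_mv2
  have := cmdcomp_loop (i := i) (c := .seq (.dec i) (.seq (.inc j) (.inc t)))
    (fun u => Function.update (Function.update (Function.update r j (r j + u)) t (r t + u)) i
      (r i - u)) (r i)
    (fun u hu => ⟨by simp only [Function.update_self]; omega, by
      refine .seq (.dec _ _) (.seq (.inc _ _) ?_)
      refine (cmdcomp_NE.inc _ _).of_eq ?_
      funext z
      simp only [Function.update_apply]
      split_ifs <;> omega⟩) (by simp)
  have e : Function.update (Function.update (Function.update r j (r j + 0)) t (r t + 0)) i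
      (r i - 0) = r := by
    funext z
    simp only [Function.update_apply]
    split_ifs <;> simp_all
  simpa only [e, Nat.sub_self] using this

/-- Copy register `i` to `j`, using `t` (which contains zero). -/
def cmdcomp_cp (i j t : ℕ) : cmdcomp_NC :=
  .seq (cmdcomp_clr j) (.seq (cmdcomp_mv2 i j t) (cmdcomp_mv t i))

theorem cmdcomp_cp_exec {i j t : ℕ} (hij : i ≠ j) (hit : i ≠ t) (hjt : j ≠ t) (r : ℕ → ℕ)
    (ht : r t = 0) : cmdcomp_NE (cmdcomp_cp i j t) r (Function.update r j (r i)) := by
  refine .seq (cmdcomp_clr_exec _ _) (.seq (cmdcomp_mv2_exec hij hit hjt _) ?_)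
  have := cmdcomp_mv_exec hit.symm (Function.update (Function.update (Function.update
    (Function.update r j 0) j ((Function.update r j 0) j + (Function.update r j 0) i)) t
    ((Function.update r j 0) t + (Function.update r j 0) i)) i 0)
  convert this using 1
  funext z
  simp only [Function.update_apply]
  split_ifs <;> simp_all

/-! ### Compilation -/

/-- `f` is computed by register programs: for every base `b` (registers `≥ b` are free and zero),
all input registers and every output register. -/
def cmdcomp_C {n : ℕ} (f : List.Vector ℕ n →. ℕ) : Prop :=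
  ∀ (b : ℕ) (I : Fin n → ℕ) (o : ℕ), (∀ i, I i < b) → o < b → (∀ i, I i ≠ o) →
    ∃ c : cmdcomp_NC, ∀ r : ℕ → ℕ, (∀ j, b ≤ j → r j = 0) →
      ∀ y ∈ f (List.Vector.ofFn fun i => r (I i)), cmdcomp_NE c r (Function.update r o y)

theorem cmdcomp_zero : cmdcomp_C (n := 0) ((fun _ => 0 : List.Vector ℕ 0 → ℕ) :) := by
  intro b I o _ _ _
  refine ⟨cmdcomp_clr o, fun r _ y hy => ?_⟩
  rw [PFun.coe_val, Part.mem_some_iff] at hy
  subst hy
  exact cmdcomp_clr_exec _ _

theorem cmdcomp_get {n : ℕ} (i : Fin n) :
    cmdcomp_C (n := n) ((fun v => v.get i : List.Vector ℕ n → ℕ) :) := by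
  intro b I o hI ho hIo
  refine ⟨cmdcomp_cp (I i) o b, fun r hr y hy => ?_⟩
  rw [PFun.coe_val, Part.mem_some_iff] at hy
  subst hy
  rw [List.Vector.get_ofFn]
  exact cmdcomp_cp_exec (hIo i) (hI i).ne ho.ne r (hr b le_rfl)

theorem cmdcomp_succ :
    cmdcomp_C (n := 1) ((fun v => Nat.succ v.head : List.Vector ℕ 1 → ℕ) :) := by
  intro b I o hI ho hIo
  refine ⟨.seq (cmdcomp_cp (I 0) o b) (.inc o), fun r hr y hy => ?_⟩
  rw [PFun.coe_val, Part.mem_some_iff] at hy
  subst hy
  refine .seq (cmdcomp_cp_exec (hIo 0) (hI 0).ne ho.ne r (hr b le_rfl)) ?_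
  have := cmdcomp_NE.inc o (Function.update r o (r (I 0)))
  rw [Function.update_self, Function.update_idem] at this
  simpa [List.Vector.ofFn] using this

theorem cmdcomp_mono {n : ℕ} {f g : List.Vector ℕ n →. ℕ} (hf : cmdcomp_C f)
    (h : ∀ v, ∀ y ∈ g v, y ∈ f v) : cmdcomp_C g := by
  intro b I o hI ho hIo
  obtain ⟨c, hc⟩ := hf b I o hI ho hIo
  exact ⟨c, fun r hr y hy => hc r hr y (h _ _ hy)⟩

theorem cmdcomp_mem_mOfFn : ∀ {n : ℕ} (G : Fin n → Part ℕ) (w : List.Vector ℕ n),
    w ∈ List.Vector.mOfFn G → ∀ i, w.get i ∈ G i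
  | 0, _, _, _, i => i.elim0
  | n + 1, G, w, h, i => by
    simp only [List.Vector.mOfFn, Part.bind_eq_bind, Part.mem_bind_iff, Part.pure_eq_some,
      Part.mem_some_iff] at h
    obtain ⟨a, ha, v, hv, rfl⟩ := h
    induction i using Fin.cases with
    | zero => simpa using ha
    | succ i => simpa using cmdcomp_mem_mOfFn _ v hv i

theorem cmdcomp_clrs (b : ℕ) : ∀ p : ℕ, ∃ c : cmdcomp_NC, ∀ r : ℕ → ℕ,
    cmdcomp_NE c r (fun j => if b ≤ j ∧ j < b + p then 0 else r j)
  | 0 => ⟨.skip, fun r => (cmdcomp_NE.skip r).of_eq (by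
      funext j
      rw [if_neg (by omega)])⟩
  | p + 1 => by
    obtain ⟨c, hc⟩ := cmdcomp_clrs b p
    refine ⟨.seq c (cmdcomp_clr (b + p)), fun r => (cmdcomp_NE.seq (hc r)
      (cmdcomp_clr_exec _ _)).of_eq ?_⟩
    funext j
    simp only [Function.update_apply]
    split_ifs <;> first | rfl | omega

theorem cmdcomp_comp {m n : ℕ} {f : List.Vector ℕ n →. ℕ} (g : Fin n → List.Vector ℕ m →. ℕ)
    (hf : cmdcomp_C f) (hg : ∀ i, cmdcomp_C (g i)) :
    cmdcomp_C (fun v => (List.Vector.mOfFn fun i => g i v) >>= f) := by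
  intro b I o hI ho hIo
  -- the inner functions
  have key : ∀ p : ℕ, p ≤ n → ∃ c : cmdcomp_NC, ∀ r : ℕ → ℕ, (∀ j, b ≤ j → r j = 0) →
      ∀ W : ℕ → ℕ, (∀ i : Fin n, W i ∈ g i (List.Vector.ofFn fun i => r (I i))) →
      cmdcomp_NE c r (fun j => if b ≤ j ∧ j < b + p then W (j - b) else r j) := by
    intro p
    induction p with
    | zero =>
      intro _
      refine ⟨.skip, fun r _ W _ => (cmdcomp_NE.skip r).of_eq ?_⟩
      funext j
      rw [if_neg (by omega)]
    | succ p ih =>
      intro hp
      obtain ⟨c, hc⟩ := ih (by omega)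
      obtain ⟨d, hd⟩ := hg ⟨p, hp⟩ (b + n) I (b + p) (fun i => (hI i).trans_le (by omega))
        (by omega) (fun i => by have := hI i; omega)
      refine ⟨.seq c d, fun r hr W hW => (cmdcomp_NE.seq (hc r hr W hW)
        (hd _ (fun j hj => ?_) (W p) ?_)).of_eq ?_⟩
      · rw [if_neg (by omega)]
        exact hr j (by omega)
      · have : (fun i => if b ≤ I i ∧ I i < b + p then W (I i - b) else r (I i)) =
            fun i => r (I i) := by
          funext i
          rw [if_neg (by have := hI i; omega)]
        rw [this]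
        exact hW ⟨p, hp⟩
      · funext j
        simp only [Function.update_apply]
        split_ifs with h1 h2 h3 h4 <;> first | rfl | omega | (subst h1; congr 1; omega)
  obtain ⟨c1, hc1⟩ := key n le_rfl
  obtain ⟨c2, hc2⟩ := hf (b + n) (fun i => b + i) o (fun i => by have := i.2; omega) (by omega)
    (fun i => by omega)
  obtain ⟨c3, hc3⟩ := cmdcomp_clrs b n
  refine ⟨.seq c1 (.seq c2 c3), fun r hr y hy => ?_⟩
  obtain ⟨w, hw, hy⟩ := Part.mem_bind_iff.1 hy
  have hw' := cmdcomp_mem_mOfFn _ w hw
  let W : ℕ → ℕ := fun j => if h : j < n then w.get ⟨j, h⟩ else 0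
  have hW : ∀ i : Fin n, W i = w.get i := fun i => by simp only [W, i.2, dif_pos]
  refine (cmdcomp_NE.seq (hc1 r hr W (fun i => by rw [hW]; exact hw' i))
    (.seq (hc2 _ (fun j hj => ?_) y ?_) (hc3 _))).of_eq ?_
  · rw [if_neg (by omega)]
    exact hr j (by omega)
  · have : (List.Vector.ofFn fun i : Fin n => if b ≤ b + (i : ℕ) ∧ b + (i : ℕ) < b + n then
        W (b + (i : ℕ) - b) else r (b + i)) = w := by
      apply List.Vector.ext
      intro i
      rw [List.Vector.get_ofFn, if_pos ⟨by omega, by have := i.2; omega⟩, Nat.add_sub_cancel_left,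
        hW]
    rw [this]
    exact hy
  · funext j
    simp only [Function.update_apply]
    split_ifs with h1 h2 h3 <;> first | rfl | omega | skip
    · exact (hr j h1.1).symm

theorem cmdcomp_prec {n : ℕ} {f : List.Vector ℕ n → ℕ} {g : List.Vector ℕ (n + 2) → ℕ}
    (hf : cmdcomp_C (f : List.Vector ℕ n →. ℕ)) (hg : cmdcomp_C (g : List.Vector ℕ (n + 2) →. ℕ)) :
    cmdcomp_C (((fun v : List.Vector ℕ (n + 1) => v.head.rec (f v.tail)
      fun y IH => g (y ::ᵥ IH ::ᵥ v.tail) : List.Vector ℕ (n + 1) → ℕ)) :
      List.Vector ℕ (n + 1) →. ℕ) := by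
  intro b I o hI ho hIo
  let J : Fin (n + 2) → ℕ := Fin.cons (b + 1) (Fin.cons (b + 2) fun i => I i.succ)
  obtain ⟨cf, hcf⟩ := hf (b + 4) (fun i => I i.succ) (b + 2)
    (fun i => (hI _).trans_le (by omega)) (by omega) (fun i => by have := hI i.succ; omega)
  obtain ⟨cg, hcg⟩ := hg (b + 4) J (b + 3)
    (fun i => by
      induction i using Fin.cases with
      | zero => simp [J]
      | succ i =>
        induction i using Fin.cases with
        | zero => simp [J]
        | succ i => have := hI i.succ; simp [J]; omega) (by omega)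
    (fun i => by
      induction i using Fin.cases with
      | zero => simp [J]
      | succ i =>
        induction i using Fin.cases with
        | zero => simp [J]
        | succ i => have := hI i.succ; simp [J]; omega)
  refine ⟨.seq cf (.seq (cmdcomp_cp (I 0) b (b + 3)) (.seq (.loop b
    (.seq (.dec b) (.seq cg (.seq (cmdcomp_clr (b + 2)) (.seq (cmdcomp_mv (b + 3) (b + 2))
      (.inc (b + 1))))))) (.seq (cmdcomp_clr (b + 1)) (.seq (cmdcomp_clr o)
      (cmdcomp_mv (b + 2) o))))), fun r hr y hy => ?_⟩
  rw [PFun.coe_val, Part.mem_some_iff] at hy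
  have hh : (List.Vector.ofFn fun i => r (I i)).head = r (I 0) := rfl
  have ht : (List.Vector.ofFn fun i => r (I i)).tail = List.Vector.ofFn fun i => r (I i.succ) :=
    List.Vector.tail_ofFn _
  rw [hh, ht] at hy
  let v : List.Vector ℕ n := List.Vector.ofFn fun i => r (I i.succ)
  let R : ℕ → ℕ := fun t => t.rec (f v) fun y IH => g (y ::ᵥ IH ::ᵥ v)
  let N := r (I 0)
  let S : ℕ → ℕ → ℕ := fun t j => if j = b then N - t else if j = b + 1 then t else
    if j = b + 2 then R t else r j
  have h1 : cmdcomp_NE cf r (Function.update r (b + 2) (f v)) :=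
    hcf r (fun j hj => hr j (by omega)) (f v) (Part.mem_some _)
  have hI0 := hI 0
  have h2 : cmdcomp_NE (cmdcomp_cp (I 0) b (b + 3)) (Function.update r (b + 2) (f v)) (S 0) := by
    refine (cmdcomp_cp_exec (by omega) (by omega) (by omega) _ ?_).of_eq ?_
    · rw [Function.update_of_ne (by omega)]
      exact hr _ (by omega)
    · funext j
      simp only [Function.update_apply, S, R, N, Nat.sub_zero]
      split_ifs <;> first | rfl | omega | (subst_vars; exact hr _ (by omega))
  have h3 : cmdcomp_NE (.loop b (.seq (.dec b) (.seq cg (.seq (cmdcomp_clr (b + 2))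
      (.seq (cmdcomp_mv (b + 3) (b + 2)) (.inc (b + 1))))))) (S 0) (S N) := by
    refine cmdcomp_loop S N (fun t ht => ⟨?_, ?_⟩) ?_
    · simp only [S, if_true]
      omega
    · refine .seq (.dec _ _) (.seq (hcg _ (fun j hj => ?_) (R (t + 1)) ?_)
        (.seq (cmdcomp_clr_exec _ _) (.seq (cmdcomp_mv_exec (by omega) _)
        ((cmdcomp_NE.inc _ _).of_eq ?_))))
      · simp only [Function.update_apply, S]
        rw [if_neg (by omega), if_neg (by omega), if_neg (by omega), if_neg (by omega)]
        exact hr j (by omega)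
      · rw [PFun.coe_val, Part.mem_some_iff]
        change g (t ::ᵥ R t ::ᵥ v) = _
        congr 1
        apply List.Vector.ext
        intro i
        rw [List.Vector.get_ofFn]
        induction i using Fin.cases with
        | zero =>
          simp [J, S]
        | succ i =>
          induction i using Fin.cases with
          | zero =>
            rw [List.Vector.get_cons_succ]
            simp [J, S]
          | succ i =>
            have := hI i.succ
            simp only [J, S, v, Fin.cons_succ, List.Vector.get_cons_succ, List.Vector.get_ofFn,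
              Function.update_apply]
            rw [if_neg (by omega), if_neg (by omega), if_neg (by omega), if_neg (by omega)]
      · funext j
        have hr3 : r (b + 3) = 0 := hr _ (by omega)
        simp only [Function.update_apply, S]
        split_ifs <;> first | rfl | omega | (subst_vars; simp_all)
    · simp [S]
  refine .seq h1 (.seq h2 (.seq h3 (.seq (cmdcomp_clr_exec _ _) (.seq (cmdcomp_clr_exec _ _)
    ((cmdcomp_mv_exec (by omega) _).of_eq ?_)))))
  have hyR : y = R N := hy
  have hr0 := hr b le_rfl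
  have hr1 := hr (b + 1) (by omega)
  have hr2 := hr (b + 2) (by omega)
  funext j
  simp only [Function.update_apply, S]
  split_ifs <;> first | rfl | omega | (subst_vars; simp_all)

theorem cmdcomp_rfind {n : ℕ} {f : List.Vector ℕ (n + 1) → ℕ}
    (hf : cmdcomp_C (f : List.Vector ℕ (n + 1) →. ℕ)) :
    cmdcomp_C (fun v : List.Vector ℕ n =>
      Nat.rfind fun m => Part.some (decide (f (m ::ᵥ v) = 0))) := by
  intro b I o hI ho hIo
  let J : Fin (n + 1) → ℕ := Fin.cons b I
  obtain ⟨cf, hcf⟩ := hf (b + 2) J (b + 1)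
    (fun i => by
      induction i using Fin.cases with
      | zero => simp [J]
      | succ i => have := hI i; simp [J]; omega) (by omega)
    (fun i => by
      induction i using Fin.cases with
      | zero => simp [J]
      | succ i => have := hI i; simp [J]; omega)
  refine ⟨.seq cf (.seq (.loop (b + 1) (.seq (.inc b) cf)) (.seq (cmdcomp_clr o)
    (cmdcomp_mv b o))), fun r hr y hy => ?_⟩
  replace hy := Nat.mem_rfind.1 hy
  let v : List.Vector ℕ n := List.Vector.ofFn fun i => r (I i)
  have hy0 : f (y ::ᵥ v) = 0 := by simpa using hy.1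
  have hy1 : ∀ m < y, f (m ::ᵥ v) ≠ 0 := fun m hm => by simpa using hy.2 hm
  let S : ℕ → ℕ → ℕ := fun t j => if j = b then t else if j = b + 1 then f (t ::ᵥ v) else r j
  have hv : ∀ (t : ℕ) (s : ℕ → ℕ), s b = t → (∀ j, j < b → s j = r j) →
      (List.Vector.ofFn fun i => s (J i)) = t ::ᵥ v := by
    intro t s hs hs'
    apply List.Vector.ext
    intro i
    rw [List.Vector.get_ofFn]
    induction i using Fin.cases with
    | zero => simpa [J] using hs
    | succ i =>
      simp only [J, v, Fin.cons_succ, List.Vector.get_cons_succ, List.Vector.get_ofFn]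
      exact hs' _ (hI i)
  have hr0 := hr b le_rfl
  have h1 : cmdcomp_NE cf r (S 0) := by
    refine (hcf r (fun j hj => hr j (by omega)) (f (0 ::ᵥ v)) ?_).of_eq ?_
    · rw [hv 0 r hr0 (fun _ _ => rfl)]
      exact Part.mem_some _
    · funext j
      simp only [Function.update_apply, S]
      split_ifs <;> first | rfl | omega | (subst_vars; simp_all)
  have h2 : cmdcomp_NE (.loop (b + 1) (.seq (.inc b) cf)) (S 0) (S y) := by
    refine cmdcomp_loop S y (fun t ht => ⟨?_, ?_⟩) ?_
    · simpa [S] using hy1 t ht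
    · refine .seq (.inc _ _) ((hcf _ (fun j hj => ?_) (f ((t + 1) ::ᵥ v)) ?_).of_eq ?_)
      · simp only [Function.update_apply, S]
        rw [if_neg (by omega), if_neg (by omega), if_neg (by omega)]
        exact hr j (by omega)
      · rw [hv (t + 1) _ (by simp [S]) (fun j hj => by
          simp only [Function.update_apply, S]
          rw [if_neg (by omega), if_neg (by omega), if_neg (by omega)])]
        exact Part.mem_some _
      · funext j
        simp only [Function.update_apply, S]
        split_ifs <;> first | rfl | omega | (subst_vars; simp_all)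
    · simpa [S] using hy0
  refine .seq h1 (.seq h2 (.seq (cmdcomp_clr_exec _ _) ((cmdcomp_mv_exec (by omega) _).of_eq ?_)))
  have hr1 := hr (b + 1) (by omega)
  funext j
  simp only [Function.update_apply, S]
  split_ifs <;> first | rfl | omega | (subst_vars; simp_all)

theorem cmdcomp_prim {n : ℕ} {f : List.Vector ℕ n → ℕ} (h : Nat.Primrec' f) :
    cmdcomp_C (f : List.Vector ℕ n →. ℕ) := by
  induction h with
  | zero => exact cmdcomp_zero
  | succ => exact cmdcomp_succ
  | get i => exact cmdcomp_get i
  | comp g _ _ ihf ihg =>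
    refine cmdcomp_mono (cmdcomp_comp _ ihf ihg) fun v y hy => ?_
    rw [PFun.coe_val, Part.mem_some_iff] at hy
    subst hy
    have e := List.Vector.mOfFn_pure (m := Part) (fun i => g i v)
    simp only [Part.pure_eq_some] at e
    refine Part.mem_bind_iff.2 ⟨List.Vector.ofFn fun i => g i v, ?_, Part.mem_some _⟩
    change _ ∈ (List.Vector.mOfFn fun i => Part.some (g i v))
    rw [e]
    exact Part.mem_some _
  | prec _ _ ihf ihg => exact cmdcomp_prec ihf ihg

theorem cmdcomp_main {n : ℕ} {f : List.Vector ℕ n →. ℕ} (h : Nat.Partrec' f) : cmdcomp_C f := by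
  induction h with
  | prim h => exact cmdcomp_prim h
  | comp g _ _ ihf ihg => exact cmdcomp_comp _ ihf ihg
  | rfind _ ih => exact cmdcomp_rfind ih

theorem cmd_of_computable (f : ℕ → ℕ) (hf : Computable f) : ∃ (k : ℕ) (c : Cmd (k + 2)),
    ∀ x a s, Exec x a c (st (k + 1) s) (st2 k s (f s)) := by
  have h := cmdcomp_main (Nat.Partrec'.part_iff₁.2 (hf : Partrec (f : ℕ →. ℕ)))
  obtain ⟨c, hc⟩ := h 2 (fun _ => 0) 1 (fun _ => by omega) (by omega) (fun _ => by omega)
  refine ⟨cmdcomp_bd c, cmdcomp_tr (cmdcomp_bd c) c, fun x a s => ?_⟩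
  have h1 := hc (fun j => if j = 0 then s else 0) (fun j hj => by
    rw [if_neg (by omega)]) (f s) (by
    simp [List.Vector.ofFn])
  have h2 := cmdcomp_tr_exec (k := cmdcomp_bd c) (x := x) (a := a) h1 (by omega)
  convert h2 using 1
  · funext j
    simp only [st, Fin.ext_iff, Fin.val_zero]
  · funext j
    simp only [st2, Fin.ext_iff, Fin.val_zero, Fin.val_one, Function.update_apply]
    split_ifs <;> first | rfl | omega
end Pool.Agent.MPa662fc
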