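import Mathlib
import Pool.Agent.Lib.MP_a662fc_lc.Defs
import Pool.Agent.Lib.MP_a662fc_lc.MDefs

/-!
# Compilation of register programs to fragments of wide machines
-/

namespace Pool.Agent.MPa662fc

open Ordinal Pool.Agent.MP752584 Encodable

variable {k : ℕ}

/-! ### Combinators -/

/-- one step; the array is not changed -/
def compileOne (f : (Fin k → Bool) → (Fin k → Bool)) (mv : Move) : Frag k where
  St := Unit
  fin := inferInstance
  entry := ()
  tr := fun _ _ a m => (none, a, f m, mv)

/-- composition -/
def compileSeq (F G : Frag k) : Frag k where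
  St := F.St ⊕ G.St
  fin := by
    haveI := F.fin
    haveI := G.fin
    infer_instance
  entry := Sum.inl F.entry
  tr := fun q b a m => match q with
    | Sum.inl q => (some (match (F.tr q b a m).1 with
        | none => Sum.inr G.entry
        | some q' => Sum.inl q'), (F.tr q b a m).2)
    | Sum.inr q => ((match (G.tr q b a m).1 with
        | none => none
        | some q' => some (Sum.inr q')), (G.tr q b a m).2)

/-- while `P` holds at the head do `F` -/
def compileWhile (P : Bool → Bool → (Fin k → Bool) → Bool) (F : Frag k) : Frag k where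
  St := Option F.St
  fin := by
    haveI := F.fin
    infer_instance
  entry := none
  tr := fun q b a m => match q with
    | none => (if P b a m = true then some (some F.entry) else none, a, m, .stay)
    | some q => (some (F.tr q b a m).1, (F.tr q b a m).2)

/-- if `P` holds at the head then `F` else `G` -/
def compileIte (P : Bool → Bool → (Fin k → Bool) → Bool) (F G : Frag k) : Frag k where
  St := Option (F.St ⊕ G.St)
  fin := by
    haveI := F.fin
    haveI := G.fin
    infer_instance
  entry := none
  tr := fun q b a m => match q with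
    | none => (some (some (if P b a m = true then Sum.inl F.entry else Sum.inr G.entry)),
        a, m, .stay)
    | some (Sum.inl q) => ((match (F.tr q b a m).1 with
        | none => none
        | some q' => some (some (Sum.inl q'))), (F.tr q b a m).2)
    | some (Sum.inr q) => ((match (G.tr q b a m).1 with
        | none => none
        | some q' => some (some (Sum.inr q'))), (G.tr q b a m).2)

/-! ### Semantics of the combinators -/

theorem compile_lift {F H : Frag k} (ι : F.St → H.St) (ex : Option H.St)
    (h : ∀ q b a m, H.tr (ι q) b a m = ((match (F.tr q b a m).1 with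
      | none => ex
      | some q' => some (ι q')), (F.tr q b a m).2)) {x : ℕ → Bool} {q : F.St} {c c' : TC k}
    (hr : F.Runs x q c c') {c'' : TC k}
    (hex : (ex = none ∧ c'' = c') ∨ ∃ q', ex = some q' ∧ H.Runs x q' c' c'') :
    H.Runs x (ι q) c c'' := by
  have hs : ∀ q c, H.step x (ι q) c = ((match (F.step x q c).1 with
      | none => ex
      | some q' => some (ι q')), (F.step x q c).2) := by
    intro q c
    unfold Frag.step
    simp only [h]
  induction hr with
  | @exit q c c' h1 h2 =>
    have h3 := hs q c
    rw [h1] at h3
    rcases hex with ⟨h4, h5⟩ | ⟨q', h4, h5⟩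
    · rw [h5]
      exact .exit (by rw [h3, h4]) h2
    · exact .step (by rw [h3, h4]) h2 h5
  | @step q q' c c₁ c' h1 h2 _ ih =>
    have h3 := hs q c
    rw [h1] at h3
    exact .step h3 h2 (ih hex)

theorem compileSeq_runs {F G : Frag k} {x : ℕ → Bool} {c c' c'' : TC k}
    (h1 : F.Runs x F.entry c c') (h2 : G.Runs x G.entry c' c'') :
    (compileSeq F G).Runs x (compileSeq F G).entry c c'' := by
  have hG : (compileSeq F G).Runs x (Sum.inr G.entry) c' c'' :=
    compile_lift (F := G) (H := compileSeq F G) Sum.inr none (fun q b a m => rfl) h2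
      (Or.inl ⟨rfl, rfl⟩)
  exact compile_lift (F := F) (H := compileSeq F G) Sum.inl (some (Sum.inr G.entry))
    (fun q b a m => by
      change (some _, _) = _
      cases (F.tr q b a m).1 <;> rfl) h1 (Or.inr ⟨_, rfl, hG⟩)

theorem compileOne_runs (f : (Fin k → Bool) → (Fin k → Bool)) (mv : Move) (x : ℕ → Bool)
    (c : TC k) : (compileOne f mv).Runs x (compileOne f mv).entry c
      ⟨mv.app c.head, c.arr, fun n => if n = c.head then f (c.mark c.head) else c.mark n⟩ := by
  refine .exit ?_ rfl
  unfold Frag.step compileOne
  simp only [Prod.mk.injEq, true_and, TC.mk.injEq, and_true]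
  funext n
  split_ifs with h
  · rw [h]
  · rfl

theorem compile_same (c : TC k) : (⟨Move.stay.app c.head,
    fun n => if n = c.head then c.arr c.head else c.arr n,
    fun n => if n = c.head then c.mark c.head else c.mark n⟩ : TC k) = c := by
  obtain ⟨h, a, m⟩ := c
  simp only [Move.app, TC.mk.injEq, true_and]
  constructor
  · funext n
    split_ifs with h
    · rw [h]
    · rfl
  · funext n
    split_ifs with h
    · rw [h]
    · rfl

theorem compileWhile_done {P : Bool → Bool → (Fin k → Bool) → Bool} {F : Frag k} {x : ℕ → Bool}
    {c : TC k} (h : P (x c.head) (c.arr c.head) (c.mark c.head) = false) :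
    (compileWhile P F).Runs x (compileWhile P F).entry c c := by
  refine .exit ?_ rfl
  change ((if P (x c.head) (c.arr c.head) (c.mark c.head) = true then some (some F.entry)
    else none), _) = _
  rw [h]
  simp only [Bool.false_eq_true, if_false]
  exact congrArg (Prod.mk none) (compile_same c)

theorem compileWhile_step {P : Bool → Bool → (Fin k → Bool) → Bool} {F : Frag k} {x : ℕ → Bool}
    {c c' c'' : TC k} (h : P (x c.head) (c.arr c.head) (c.mark c.head) = true)
    (h1 : F.Runs x F.entry c c')
    (h2 : (compileWhile P F).Runs x (compileWhile P F).entry c' c'') :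
    (compileWhile P F).Runs x (compileWhile P F).entry c c'' := by
  refine .step (q' := (some F.entry : Option F.St)) (c₁ := c) ?_ rfl ?_
  · change ((if P (x c.head) (c.arr c.head) (c.mark c.head) = true then some (some F.entry)
      else none), _) = _
    rw [h]
    simp only [if_true]
    exact congrArg (Prod.mk (some (some F.entry))) (compile_same c)
  · exact compile_lift (F := F) (H := compileWhile P F) (fun q => (some q : Option F.St))
      (some (none : Option F.St)) (fun q b a m => by
        change (some _, _) = _
        cases (F.tr q b a m).1 <;> rfl) h1 (Or.inr ⟨_, rfl, h2⟩)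

theorem compileIte_true {P : Bool → Bool → (Fin k → Bool) → Bool} {F G : Frag k} {x : ℕ → Bool}
    {c c' : TC k} (h : P (x c.head) (c.arr c.head) (c.mark c.head) = true)
    (h1 : F.Runs x F.entry c c') :
    (compileIte P F G).Runs x (compileIte P F G).entry c c' := by
  refine .step (q' := (some (Sum.inl F.entry) : Option (F.St ⊕ G.St))) (c₁ := c) ?_ rfl ?_
  · change (some (some (if P (x c.head) (c.arr c.head) (c.mark c.head) = true then
      Sum.inl F.entry else Sum.inr G.entry)), _) = _
    rw [h]
    simp only [if_true]
    exact congrArg (Prod.mk (some (some (Sum.inl F.entry)))) (compile_same c)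
  · exact compile_lift (F := F) (H := compileIte P F G)
      (fun q => (some (Sum.inl q) : Option (F.St ⊕ G.St))) none (fun q b a m => rfl) h1
      (Or.inl ⟨rfl, rfl⟩)

theorem compileIte_false {P : Bool → Bool → (Fin k → Bool) → Bool} {F G : Frag k} {x : ℕ → Bool}
    {c c' : TC k} (h : P (x c.head) (c.arr c.head) (c.mark c.head) = false)
    (h1 : G.Runs x G.entry c c') :
    (compileIte P F G).Runs x (compileIte P F G).entry c c' := by
  refine .step (q' := (some (Sum.inr G.entry) : Option (F.St ⊕ G.St))) (c₁ := c) ?_ rfl ?_
  · change (some (some (if P (x c.head) (c.arr c.head) (c.mark c.head) = true then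
      Sum.inl F.entry else Sum.inr G.entry)), _) = _
    rw [h]
    simp only [Bool.false_eq_true, if_false]
    exact congrArg (Prod.mk (some (some (Sum.inr G.entry)))) (compile_same c)
  · exact compile_lift (F := G) (H := compileIte P F G)
      (fun q => (some (Sum.inr q) : Option (F.St ⊕ G.St))) none (fun q b a m => rfl) h1
      (Or.inl ⟨rfl, rfl⟩)

/-! ### The compiler -/

/-- move right until a mark of the track `i` is seen -/
def compileScanR (i : Fin k) : Frag k :=
  compileWhile (fun _ _ m => !(m i)) (compileOne id .right)

/-- move left until a mark of the track `i` is seen -/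
def compileScanL (i : Fin k) : Frag k :=
  compileWhile (fun _ _ m => !(m i)) (compileOne id .left)

/-- the compiled program -/
def compileCmd : Cmd k → Frag (k + 1)
  | .skip => compileOne id .stay
  | .inc i => compileSeq (compileScanR i.castSucc)
      (compileSeq (compileOne (fun m => Function.update m i.castSucc false) .right)
        (compileSeq (compileOne (fun m => Function.update m i.castSucc true) .stay)
          (compileScanL (Fin.last k))))
  | .dec i => compileIte (fun _ _ m => m i.castSucc) (compileOne id .stay)
      (compileSeq (compileScanR i.castSucc)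
        (compileSeq (compileOne (fun m => Function.update m i.castSucc false) .left)
          (compileSeq (compileOne (fun m => Function.update m i.castSucc true) .stay)
            (compileScanL (Fin.last k)))))
  | .seq c d => compileSeq (compileCmd c) (compileCmd d)
  | .loop i c => compileWhile (fun _ _ m => !(m i.castSucc)) (compileCmd c)
  | .ifX i c d => compileSeq (compileScanR i.castSucc)
      (compileIte (fun b _ _ => b) (compileSeq (compileScanL (Fin.last k)) (compileCmd c))
        (compileSeq (compileScanL (Fin.last k)) (compileCmd d)))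
  | .ifA i c d => compileSeq (compileScanR i.castSucc)
      (compileIte (fun _ a _ => a) (compileSeq (compileScanL (Fin.last k)) (compileCmd c))
        (compileSeq (compileScanL (Fin.last k)) (compileCmd d)))

theorem compile_id_step (mv : Move) (x : ℕ → Bool) (c : TC k) :
    (compileOne (k := k) id mv).Runs x (compileOne (k := k) id mv).entry c
      ⟨mv.app c.head, c.arr, c.mark⟩ := by
  have h := compileOne_runs id mv x c
  have h2 : (fun n => if n = c.head then id (c.mark c.head) else c.mark n) = c.mark := by
    funext n
    split_ifs with h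
    · rw [h]; rfl
    · rfl
  rwa [h2] at h

theorem compileScanR_runs (i : Fin k) (x a : ℕ → Bool) (m : ℕ → Fin k → Bool) (t h : ℕ)
    (h1 : m (h + t) i = true) (h2 : ∀ n, h ≤ n → n < h + t → m n i = false) :
    (compileScanR i).Runs x (compileScanR i).entry ⟨h, a, m⟩ ⟨h + t, a, m⟩ := by
  induction t generalizing h with
  | zero =>
    refine compileWhile_done ?_
    simp only
    rw [show m h i = true from h1]
    rfl
  | succ t ih =>
    refine compileWhile_step (c' := ⟨h + 1, a, m⟩) ?_ (compile_id_step .right x ⟨h, a, m⟩) ?_
    · simp only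
      rw [h2 h le_rfl (by omega)]
      rfl
    · have h3 := ih (h + 1) (by rw [show h + 1 + t = h + (t + 1) by ring]; exact h1)
        (fun n hn hn' => h2 n (by omega) (by omega))
      rw [show h + 1 + t = h + (t + 1) by ring] at h3
      exact h3

theorem compileScanL_runs (x a : ℕ → Bool) (m : ℕ → Fin (k + 1) → Bool) (h : ℕ)
    (hm : ∀ n, m n (Fin.last k) = decide (n = 0)) :
    (compileScanL (Fin.last k)).Runs x (compileScanL (Fin.last k)).entry ⟨h, a, m⟩
      ⟨0, a, m⟩ := by
  induction h with
  | zero =>
    refine compileWhile_done ?_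
    simp only
    rw [hm]
    rfl
  | succ t ih =>
    refine compileWhile_step (c' := ⟨t, a, m⟩) ?_ (compile_id_step .left x ⟨t + 1, a, m⟩) ih
    simp only
    rw [hm]
    simp

/-- the marks after the mark of track `i` has been moved -/
theorem compile_rep {mark : ℕ → Fin (k + 1) → Bool} {r : Fin k → ℕ} (h : RepM mark r) (i : Fin k)
    (p : ℕ) (hp : p ≤ r i + 1) (mark₁ mark₂ : ℕ → Fin (k + 1) → Bool)
    (h1 : mark₁ = fun n => if n = r i then Function.update (mark (r i)) i.castSucc false
      else mark n)
    (h2 : mark₂ = fun n => if n = p then Function.update (mark₁ p) i.castSucc true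
      else mark₁ n) : RepM mark₂ (Function.update r i p) := by
  have e1 : ∀ n, mark₂ n i.castSucc = true ↔ (n = p ∨ (n ≠ r i ∧ mark n i.castSucc = true)) := by
    intro n
    rw [h2, h1]
    by_cases hn : n = p
    · simp [hn]
    · by_cases hn' : n = r i
      · have hp' : ¬ r i = p := hn' ▸ hn
        simp [hn', hp']
      · simp [hn, hn']
  have e2 : ∀ n, ∀ j : Fin (k + 1), j ≠ i.castSucc → mark₂ n j = mark n j := by
    intro n j hj
    rw [h2, h1]
    by_cases hn : n = p
    · by_cases hn' : p = r i
      · simp only [hn, hn', if_true, Function.update_of_ne hj]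
      · simp only [hn, if_true, Function.update_of_ne hj, if_neg hn']
    · by_cases hn' : n = r i
      · have hp' : ¬ r i = p := hn' ▸ hn
        simp only [hn', if_neg hp', if_true, Function.update_of_ne hj]
      · simp only [if_neg hn, if_neg hn']
  refine ⟨fun j => ?_, fun n => ?_⟩
  · by_cases hj : j = i
    · subst hj
      rw [Function.update_self]
      refine ⟨(e1 p).2 (Or.inl rfl), fun n hn => ?_⟩
      rw [← Bool.not_eq_true, e1]
      rintro (h3 | ⟨h3, h4⟩)
      · omega
      · rw [(h.1 j).2 n (by omega)] at h4
        exact Bool.false_ne_true h4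
    · rw [Function.update_of_ne hj]
      have hj' : j.castSucc ≠ i.castSucc := fun h' => hj (Fin.castSucc_injective k h')
      refine ⟨by rw [e2 _ _ hj']; exact (h.1 j).1, fun n hn => ?_⟩
      rw [e2 _ _ hj']
      exact (h.1 j).2 n hn
  · rw [e2 n _ (Fin.castSucc_lt_last i).ne']
    exact h.2 n

theorem compile_move {mark : ℕ → Fin (k + 1) → Bool} {r : Fin k → ℕ} (h : RepM mark r) (i : Fin k)
    (x a : ℕ → Bool) (mv : Move) (hp : mv.app (r i) ≤ r i + 1) :
    ∃ mark', RepM mark' (Function.update r i (mv.app (r i))) ∧
      (compileSeq (compileScanR i.castSucc)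
      (compileSeq (compileOne (fun m => Function.update m i.castSucc false) mv)
        (compileSeq (compileOne (fun m => Function.update m i.castSucc true) .stay)
          (compileScanL (Fin.last k))))).Runs x (compileSeq (compileScanR i.castSucc)
      (compileSeq (compileOne (fun m => Function.update m i.castSucc false) mv)
        (compileSeq (compileOne (fun m => Function.update m i.castSucc true) .stay)
          (compileScanL (Fin.last k))))).entry ⟨0, a, mark⟩ ⟨0, a, mark'⟩ := by
  obtain ⟨mark₁, h1⟩ : ∃ mark₁ : ℕ → Fin (k + 1) → Bool, mark₁ = fun n =>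
      if n = r i then Function.update (mark (r i)) i.castSucc false else mark n := ⟨_, rfl⟩
  obtain ⟨p, hpd⟩ : ∃ p, p = mv.app (r i) := ⟨_, rfl⟩
  obtain ⟨mark₂, h2⟩ : ∃ mark₂ : ℕ → Fin (k + 1) → Bool, mark₂ = fun n =>
      if n = p then Function.update (mark₁ p) i.castSucc true else mark₁ n := ⟨_, rfl⟩
  rw [← hpd] at hp ⊢
  have h3 := compile_rep h i p hp mark₁ mark₂ h1 h2
  refine ⟨mark₂, h3, ?_⟩
  have s1 := compileScanR_runs i.castSucc x a mark (r i) 0 (by rw [zero_add]; exact (h.1 i).1)
    (fun n _ hn => (h.1 i).2 n (by rwa [zero_add] at hn))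
  rw [zero_add] at s1
  refine compileSeq_runs s1 (compileSeq_runs (c' := ⟨p, a, mark₁⟩) ?_
    (compileSeq_runs (c' := ⟨p, a, mark₂⟩) ?_ (compileScanL_runs x a mark₂ p h3.2)))
  · have := compileOne_runs (fun m => Function.update m i.castSucc false) mv x
      (⟨r i, a, mark⟩ : TC (k + 1))
    simp only at this
    rw [← h1, ← hpd] at this
    exact this
  · have := compileOne_runs (fun m => Function.update m i.castSucc true) .stay x
      (⟨p, a, mark₁⟩ : TC (k + 1))
    simp only at this
    rw [← h2] at this
    exact this

theorem compile {k : ℕ} (c : Cmd k) : ∃ F : Frag (k + 1), ∀ (x a : ℕ → Bool) (r s : Fin k → ℕ),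
    Exec x a c r s → ∀ mark, RepM mark r → ∃ mark', RepM mark' s ∧
      F.Runs x F.entry ⟨0, a, mark⟩ ⟨0, a, mark'⟩ := by
  refine ⟨compileCmd c, fun x a r s hex => ?_⟩
  have hscan : ∀ (i : Fin k) (r : Fin k → ℕ) (mark : ℕ → Fin (k + 1) → Bool), RepM mark r →
      (compileScanR i.castSucc).Runs x (compileScanR i.castSucc).entry ⟨0, a, mark⟩
        ⟨r i, a, mark⟩ := by
    intro i r mark h
    have s1 := compileScanR_runs i.castSucc x a mark (r i) 0 (by rw [zero_add]; exact (h.1 i).1)
      (fun n _ hn => (h.1 i).2 n (by rwa [zero_add] at hn))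
    rwa [zero_add] at s1
  induction hex with
  | skip r =>
    intro mark h
    exact ⟨mark, h, compile_id_step .stay x ⟨0, a, mark⟩⟩
  | inc i r =>
    intro mark h
    exact compile_move h i x a .right (by simp [Move.app])
  | dec i r =>
    intro mark h
    by_cases h0 : r i = 0
    · refine ⟨mark, ?_, compileIte_true ?_ (compile_id_step .stay x ⟨0, a, mark⟩)⟩
      · rw [h0, zero_tsub, ← h0, Function.update_eq_self]
        exact h
      · have := (h.1 i).1
        rwa [h0] at this
    · obtain ⟨mark', h1, h2⟩ := compile_move h i x a .left (by simp only [Move.app]; omega)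
      refine ⟨mark', h1, compileIte_false ?_ h2⟩
      exact (h.1 i).2 0 (Nat.pos_of_ne_zero h0)
  | seq _ _ ih1 ih2 =>
    intro mark h
    obtain ⟨m1, h1, h2⟩ := ih1 mark h
    obtain ⟨m2, h3, h4⟩ := ih2 m1 h1
    exact ⟨m2, h3, compileSeq_runs h2 h4⟩
  | @loop_done i c r h0 =>
    intro mark h
    refine ⟨mark, h, compileWhile_done ?_⟩
    have := (h.1 i).1
    rw [h0] at this
    simp only
    rw [this]
    rfl
  | @loop_step i c r s t h0 _ _ ih1 ih2 =>
    intro mark h
    obtain ⟨m1, h1, h2⟩ := ih1 mark h
    obtain ⟨m2, h3, h4⟩ := ih2 m1 h1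
    refine ⟨m2, h3, compileWhile_step ?_ h2 h4⟩
    simp only
    rw [(h.1 i).2 0 (Nat.pos_of_ne_zero h0)]
    rfl
  | @ifX_true i c d r s hx _ ih =>
    intro mark h
    obtain ⟨m1, h1, h2⟩ := ih mark h
    exact ⟨m1, h1, compileSeq_runs (hscan i r mark h)
      (compileIte_true hx (compileSeq_runs (compileScanL_runs x a mark (r i) h.2) h2))⟩
  | @ifX_false i c d r s hx _ ih =>
    intro mark h
    obtain ⟨m1, h1, h2⟩ := ih mark h
    exact ⟨m1, h1, compileSeq_runs (hscan i r mark h)
      (compileIte_false hx (compileSeq_runs (compileScanL_runs x a mark (r i) h.2) h2))⟩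
  | @ifA_true i c d r s hx _ ih =>
    intro mark h
    obtain ⟨m1, h1, h2⟩ := ih mark h
    exact ⟨m1, h1, compileSeq_runs (hscan i r mark h)
      (compileIte_true hx (compileSeq_runs (compileScanL_runs x a mark (r i) h.2) h2))⟩
  | @ifA_false i c d r s hx _ ih =>
    intro mark h
    obtain ⟨m1, h1, h2⟩ := ih mark h
    exact ⟨m1, h1, compileSeq_runs (hscan i r mark h)
      (compileIte_false hx (compileSeq_runs (compileScanL_runs x a mark (r i) h.2) h2))⟩

end Pool.Agent.MPa662fc
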