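import Mathlib
import Pool.Agent.Lib.MP_a662fc_lc.Defs
import Pool.Agent.Lib.MP_a662fc_lc.Fam

/-!
# The theory of halting runs of an infinite time Turing machine

A model `Y` of the theory `RunPat p` on `D a b` codes a run of `p` which halts in the last block:
the elements `s` of `D a b` stand for the blocks of `ω` stages, `Y (iSt m) s s` gives the state at
stage `m` of block `s`, and so on. Only the values on the diagonal matter, except for `iW0`.
-/

namespace Pool.Agent.MPa662fc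

open Ordinal Pool.Agent.MP752584 Encodable

/-- State at stage `m` of the block. -/
def iSt (m : ℕ) : ℕ := Nat.pair 0 m

/-- Position of the head at stage `m` of the block. -/
def iHd (m : ℕ) : ℕ := Nat.pair 1 m

/-- Bit in cell `n` of tape `j` at stage `m` of the block. -/
def iCl (j n m : ℕ) : ℕ := Nat.pair 2 (encode (j, n, m))

/-- For a cell with value `1` at the beginning of a block: a stage (block and number) from which
on the value is `1`. -/
def iW1 (j n : ℕ) : ℕ := Nat.pair 3 (encode (j, n))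

/-- For a cell with value `0` at the beginning of block `s`, and an earlier stage `(t, m)`: a
later stage before `s` at which the value is `0`. -/
def iW0 (j n m : ℕ) : ℕ := Nat.pair 4 (encode (j, n, m))

/-- The stage at which the machine halts; the block is the last one. -/
def iTop : ℕ := Nat.pair 5 0

/-- The first block. -/
def iZ : ℕ := Nat.pair 6 0

/-- The `k`-th element of a descending sequence. -/
def iDs (k : ℕ) : ℕ := Nat.pair 7 k

/-- The code of a bit. -/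
def bc (b : Bool) : ℕ := if b then 1 else 0

/-- The code of a state. -/
noncomputable def Prog.code (p : Prog) (q : p.Q) : ℕ :=
  letI := p.fin
  (Fintype.equivFin p.Q q).1

/-- The five literals describing the situation of the head at stage `m` of the block `x₀`. -/
noncomputable def sit (p : Prog) (q : p.Q) (h : ℕ) (b : Fin 3 → Bool) (m : ℕ) : List Lit :=
  [fa (iSt m) 0 0 (p.code q) 1, fa (iHd m) 0 0 h 2, fa (iCl 0 h m) 0 0 (bc (b 0)) 3,
    fa (iCl 1 h m) 0 0 (bc (b 1)) 4, fa (iCl 2 h m) 0 0 (bc (b 2)) 5]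

/-- The forbidden patterns for runs of `p`: codes, steps inside a block, the first block. -/
inductive RunA (p : Prog) : Pattern → Prop
  -- values are codes
  | st (m v : ℕ) (h : ∀ q, v ≠ p.code q) : RunA p [fa (iSt m) 0 0 v 1]
  | cl (j : Fin 3) (n m v : ℕ) (h : 2 ≤ v) : RunA p [fa (iCl j n m) 0 0 v 1]
  -- steps inside a block
  | stepS (q : p.Q) (hq : q ≠ p.halt) (h : ℕ) (b : Fin 3 → Bool) (m v : ℕ)
      (hv : v ≠ p.code (p.tr q b).1) : RunA p (fa (iSt (m + 1)) 0 0 v 6 :: sit p q h b m)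
  | stepH (q : p.Q) (hq : q ≠ p.halt) (h : ℕ) (b : Fin 3 → Bool) (m v : ℕ)
      (hv : v ≠ (p.tr q b).2.2.app h) : RunA p (fa (iHd (m + 1)) 0 0 v 6 :: sit p q h b m)
  | stepC (q : p.Q) (hq : q ≠ p.halt) (h : ℕ) (b : Fin 3 → Bool) (m v : ℕ) (j : Fin 3)
      (hv : v ≠ bc ((p.tr q b).2.1 j)) :
      RunA p (fa (iCl j h (m + 1)) 0 0 v 6 :: sit p q h b m)
  | stepN (q : p.Q) (hq : q ≠ p.halt) (h m n v v' : ℕ) (j : Fin 3) (hn : n ≠ h) (hv : v ≠ v') :
      RunA p [fa (iSt m) 0 0 (p.code q) 1, fa (iHd m) 0 0 h 2, fa (iCl j n m) 0 0 v 3,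
        fa (iCl j n (m + 1)) 0 0 v' 4]
  -- the first block
  | z (v : ℕ) : RunA p [fa iZ 0 0 v 1, lo 2 1]
  | zS (v w : ℕ) (hw : w ≠ p.code p.start) : RunA p [fa iZ 0 0 v 1, fa (iSt 0) 1 1 w 2]
  | zH (v w : ℕ) (hw : w ≠ 0) : RunA p [fa iZ 0 0 v 1, fa (iHd 0) 1 1 w 2]
  | zC (v n w : ℕ) (j : Fin 3) (hj : j ≠ 0) (hw : w ≠ 0) :
      RunA p [fa iZ 0 0 v 1, fa (iCl j n 0) 1 1 w 2]

/-- The forbidden patterns for runs of `p` halting in the last block: limit stages, halting. -/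
inductive RunB (p : Prog) : Pattern → Prop
  -- the beginning of the other blocks
  | lS (w : ℕ) (hw : w ≠ p.code p.lim) : RunB p [lo 1 0, fa (iSt 0) 0 0 w 2]
  | lH (w : ℕ) (hw : w ≠ 0) : RunB p [lo 1 0, fa (iHd 0) 0 0 w 2]
  | l1a (j : Fin 3) (n m : ℕ) :
      RunB p [lo 1 0, fa (iCl j n 0) 0 0 1 2, fa (iW1 j n) 0 0 m 3, lo 0 3]
  | l1b (j : Fin 3) (n m : ℕ) : RunB p [lo 1 0, fa (iCl j n 0) 0 0 1 2, fa (iW1 j n) 0 0 m 0]
  | l1c (j : Fin 3) (n m m' v : ℕ) (hv : v ≠ 1) :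
      RunB p [lo 1 0, fa (iCl j n 0) 0 0 1 2, fa (iW1 j n) 0 0 m 3, lo 3 4, lo 4 0,
        fa (iCl j n m') 4 4 v 5]
  | l1d (j : Fin 3) (n m m' v : ℕ) (hv : v ≠ 1) (hm : m ≤ m') :
      RunB p [lo 1 0, fa (iCl j n 0) 0 0 1 2, fa (iW1 j n) 0 0 m 3, fa (iCl j n m') 3 3 v 5]
  | l0a (j : Fin 3) (n m m' : ℕ) :
      RunB p [lo 1 0, fa (iCl j n 0) 0 0 0 2, fa (iW0 j n m) 0 1 m' 3, lo 0 3]
  | l0b (j : Fin 3) (n m m' : ℕ) :
      RunB p [lo 1 0, fa (iCl j n 0) 0 0 0 2, fa (iW0 j n m) 0 1 m' 0]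
  | l0c (j : Fin 3) (n m m' : ℕ) :
      RunB p [lo 1 0, fa (iCl j n 0) 0 0 0 2, fa (iW0 j n m) 0 1 m' 3, lo 3 1]
  | l0d (j : Fin 3) (n m m' : ℕ) (hm : m' < m) :
      RunB p [lo 1 0, fa (iCl j n 0) 0 0 0 2, fa (iW0 j n m) 0 1 m' 1]
  | l0e (j : Fin 3) (n m m' v : ℕ) (hv : v ≠ 0) :
      RunB p [lo 1 0, fa (iCl j n 0) 0 0 0 2, fa (iW0 j n m) 0 1 m' 3,
        fa (iCl j n m') 3 3 v 4]
  -- halting in the last block
  | top (m : ℕ) : RunB p [fa iTop 0 0 m 1, lo 1 2]
  | topA (m m' : ℕ) (hm : m' ≤ m) :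
      RunB p [fa iTop 0 0 m 1, fa (iSt m') 1 1 (p.code p.halt) 2]
  | topB (m v : ℕ) (hv : v ≠ p.code p.halt) :
      RunB p [fa iTop 0 0 m 1, fa (iSt (m + 1)) 1 1 v 2]
  | topC (m : ℕ) : RunB p [fa (iSt m) 0 0 (p.code p.halt) 2, lo 0 1]

/-- The forbidden patterns for runs of `p` halting in the last block. -/
def RunPat (p : Prog) (π : Pattern) : Prop := RunA p π ∨ RunB p π

/-- The forbidden patterns for runs of `p` halting in the last block, together with a descending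
sequence in the lexicographic product of `ω` and the order coded by the input (with stretch
factor `K`). -/
inductive DescPat (p : Prog) (K : ℕ) : Pattern → Prop
  | run (π : Pattern) (h : RunPat p π) : DescPat p K π
  | d1 (v k n m m' : ℕ) (hm : m ≤ m') :
      DescPat p K [fa iZ 0 0 v 1, fa (iDs k) 1 1 (Nat.pair n m) 2,
        fa (iDs (k + 1)) 1 1 (Nat.pair n m') 3]
  | d2 (v k n m n' m' : ℕ) (hn : n' ≠ n) :
      DescPat p K [fa iZ 0 0 v 1, fa (iDs k) 1 1 (Nat.pair n m) 2,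
        fa (iDs (k + 1)) 1 1 (Nat.pair n' m') 3, fa (iCl 0 (K * ltb n' n) 0) 1 1 0 4]

/-- The position of an element of `D a b` in the order: `ξ` for the elements of the first part
and `a + ξ` for those of the second part. -/
noncomputable def pos (a : Ordinal.{0}) (s : DD) : Ordinal.{0} := if s.1 then a + s.2 else s.2

end Pool.Agent.MPa662fc
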