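import Mathlib
import Pool.Agent.Lib.MP_a662fc_lc.Defs
import Pool.Agent.Lib.MP_a662fc_lc.Fam
import Pool.Agent.Lib.MP_a662fc_lc.Pat

/-!
# A model of `DescPat` gives a halting run on an input with ill-founded order
-/

namespace Pool.Agent.MPa662fc

open Ordinal Pool.Agent.MP752584 Encodable

/-- In a model of `DescPat` the order coded by the input is not well-founded. -/
theorem descsound_not_wf {p : Prog} {K : ℕ} {a b : Ordinal.{0}} {Y : ℕ → DD → DD → ℕ × DD}
    (hY : IsModel (DescPat p K) a b Y) {x : ℕ → Bool} {z : DD} (hz : z ∈ D a b)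
    (hZ : (Y iZ z z).2 = z) (hx : ∀ n, (Y (iCl 0 n 0) z z).1 = bc (x n)) :
    ¬ WellFounded fun m n => x (K * ltb m n) = true := by
  intro hwf
  have hlex : WellFounded (Prod.Lex (fun m n => x (K * ltb m n) = true)
      ((· < ·) : ℕ → ℕ → Prop)) := WellFounded.prod_lex hwf wellFounded_lt
  have hstep : ∀ k, Prod.Lex (fun m n => x (K * ltb m n) = true) ((· < ·) : ℕ → ℕ → Prop)
      (Nat.unpair (Y (iDs (k + 1)) z z).1) (Nat.unpair (Y (iDs k) z z).1) := by
    intro k
    obtain ⟨n, m, h1⟩ : ∃ n m, Nat.unpair (Y (iDs k) z z).1 = (n, m) := ⟨_, _, rfl⟩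
    obtain ⟨n', m', h2⟩ : ∃ n m, Nat.unpair (Y (iDs (k + 1)) z z).1 = (n, m) := ⟨_, _, rfl⟩
    have e1 : (Y (iDs k) z z).1 = Nat.pair n m := by
      rw [← Nat.pair_unpair (Y (iDs k) z z).1, h1]
    have e2 : (Y (iDs (k + 1)) z z).1 = Nat.pair n' m' := by
      rw [← Nat.pair_unpair (Y (iDs (k + 1)) z z).1, h2]
    rw [h1, h2]
    by_cases hn : n' = n
    · subst hn
      by_cases hm : m' < m
      · exact Prod.Lex.right _ hm
      · exfalso
        rw [not_lt] at hm
        let g : ℕ → DD := fun i => if i = 2 then (Y (iDs k) z z).2 else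
          if i = 3 then (Y (iDs (k + 1)) z z).2 else z
        refine hY.avoid _ (DescPat.d1 (Y iZ z z).1 k n' m m' hm) g ?_ ?_
        · intro i
          by_cases hi2 : i = 2
          · simpa [g, hi2] using hY.mem _ z hz z hz
          · by_cases hi3 : i = 3
            · simpa [g, hi3] using hY.mem _ z hz z hz
            · simpa [g, hi2, hi3] using hz
        · intro l hl
          simp only [List.mem_cons, List.not_mem_nil, or_false] at hl
          rcases hl with rfl | rfl | rfl
          · simp [LitHolds, holdsY, g, Prod.ext_iff, hZ]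
          · simp [LitHolds, holdsY, g, Prod.ext_iff, e1]
          · simp [LitHolds, holdsY, g, Prod.ext_iff, e2]
    · by_cases hb : x (K * ltb n' n) = true
      · exact Prod.Lex.left _ _ hb
      · exfalso
        have e3 : (Y (iCl 0 (K * ltb n' n) 0) z z).1 = 0 := by
          rw [hx, bc, if_neg hb]
        let g : ℕ → DD := fun i => if i = 2 then (Y (iDs k) z z).2 else
          if i = 3 then (Y (iDs (k + 1)) z z).2 else
          if i = 4 then (Y (iCl 0 (K * ltb n' n) 0) z z).2 else z
        refine hY.avoid _ (DescPat.d2 (Y iZ z z).1 k n m n' m' hn) g ?_ ?_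
        · intro i
          by_cases hi2 : i = 2
          · simpa [g, hi2] using hY.mem _ z hz z hz
          · by_cases hi3 : i = 3
            · simpa [g, hi3] using hY.mem _ z hz z hz
            · by_cases hi4 : i = 4
              · simpa [g, hi4] using hY.mem _ z hz z hz
              · simpa [g, hi2, hi3, hi4] using hz
        · intro l hl
          simp only [List.mem_cons, List.not_mem_nil, or_false] at hl
          rcases hl with rfl | rfl | rfl | rfl
          · simp [LitHolds, holdsY, g, Prod.ext_iff, hZ]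
          · simp [LitHolds, holdsY, g, Prod.ext_iff, e1]
          · simp [LitHolds, holdsY, g, Prod.ext_iff, e2]
          · simp [LitHolds, holdsY, g, Prod.ext_iff, e3]
  exact (wellFounded_iff_isEmpty_descending_chain.1 hlex).false
    ⟨fun k => Nat.unpair (Y (iDs k) z z).1, hstep⟩

/-- A model of `DescPat` is a model of `RunPat`. -/
theorem descsound_run {p : Prog} {K : ℕ} {a b : Ordinal.{0}} {Y : ℕ → DD → DD → ℕ × DD}
    (hY : IsModel (DescPat p K) a b Y) : IsModel (RunPat p) a b Y :=
  ⟨hY.mem, fun π h => hY.avoid π (DescPat.run π h)⟩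

/-- `desc_sound`, given `run_sound`. -/
theorem descsound_of (p : Prog) (K : ℕ) {α : Ordinal.{0}} {Y : ℕ → DD → DD → ℕ × DD}
    (hrun : IsModel (RunPat p) (α + 1) 0 Y → ∃ (α' : Ordinal.{0}) (x : ℕ → Bool) (m : ℕ) (z : DD),
      α + 1 + 0 = α' + 1 ∧ p.HaltsAt x (ω * α' + m) ∧ z ∈ D (α + 1) 0 ∧ (Y iZ z z).2 = z ∧
      ∀ n, (Y (iCl 0 n 0) z z).1 = bc (x n))
    (hY : IsModel (DescPat p K) (α + 1) 0 Y) :
    ∃ (x : ℕ → Bool) (m : ℕ), p.HaltsAt x (ω * α + m) ∧
      ¬ WellFounded fun m n => x (K * ltb m n) = true := by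
  obtain ⟨α', x, m, z, h1, h2, h3, h4, h5⟩ := hrun (descsound_run hY)
  have hα : α' = α := by
    rw [add_zero] at h1
    exact (Order.succ_injective (by simpa [Order.succ_eq_add_one] using h1)).symm
  subst hα
  exact ⟨x, m, h2, descsound_not_wf hY h3 h4 h5⟩

end Pool.Agent.MPa662fc
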