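import Mathlib
import Pool.Agent.Lib.MP_a662fc_lc.Defs
import Pool.Agent.Lib.MP_a662fc_lc.Fam
import Pool.Agent.Lib.MP_a662fc_lc.Pat
import Pool.Agent.Lib.MP_a662fc_lc.Basic

/-!
# A halting run gives a model of `RunPat`
-/

namespace Pool.Agent.MPa662fc

open Ordinal Pool.Agent.MP752584 Encodable

/-! ### The order `D a b` -/

/-- the element of `D a b` at position `δ` -/
noncomputable def runcomplete_e (a : Ordinal.{0}) (δ : Ordinal.{0}) : DD :=
  open Classical in if δ < a then (false, δ) else (true, δ - a)

theorem runcomplete_pos_e (a δ : Ordinal.{0}) : pos a (runcomplete_e a δ) = δ := by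
  unfold runcomplete_e pos
  split_ifs with h1 h2 h2
  · simp at h2
  · rfl
  · exact Ordinal.add_sub_cancel_of_le (not_lt.1 h1)
  · simp at h2

theorem runcomplete_e_mem {a b δ : Ordinal.{0}} (h : δ < a + b) : runcomplete_e a δ ∈ D a b := by
  unfold runcomplete_e
  split_ifs with h1
  · exact ⟨fun _ => h1, fun h2 => absurd h2 (by simp)⟩
  · refine ⟨fun h2 => absurd h2 (by simp), fun _ => ?_⟩
    have h2 : a + (δ - a) < a + b := by rwa [Ordinal.add_sub_cancel_of_le (not_lt.1 h1)]
    exact (add_lt_add_iff_left a).1 h2

theorem runcomplete_pos_lt {a b : Ordinal.{0}} {s : DD} (h : s ∈ D a b) : pos a s < a + b := by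
  unfold pos
  split_ifs with h1
  · exact (add_lt_add_iff_left a).2 (h.2 h1)
  · exact (h.1 (by simpa using h1)).trans_le le_self_add

theorem runcomplete_dlt {a b : Ordinal.{0}} {s t : DD} (hs : s ∈ D a b)
    (h : dlt s t) : pos a s < pos a t := by
  obtain ⟨s1, s2⟩ := s
  obtain ⟨t1, t2⟩ := t
  rcases h with ⟨h1, h2⟩ | ⟨h1, h2⟩
  · simp only at h1 h2
    subst h1 h2
    have : s2 < a := hs.1 rfl
    exact this.trans_le le_self_add
  · simp only at h1 h2
    subst h1
    cases s1
    · exact h2
    · exact (add_lt_add_iff_left a).2 h2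

theorem runcomplete_code_inj (p : Prog) {q q' : p.Q} (h : p.code q = p.code q') : q = q' := by
  unfold Prog.code at h
  letI := p.fin
  exact (Fintype.equivFin p.Q).injective (Fin.ext h)

theorem runcomplete_bc_inj {b b' : Bool} (h : bc b = bc b') : b = b' := by
  cases b <;> cases b' <;> simp [bc] at h <;> rfl

theorem runcomplete_fa {F : Fact → Prop} {g : ℕ → DD} {i p q v s : ℕ} :
    LitHolds F g (fa i p q v s) ↔ F (i, g p, g q, v, g s) :=
  ⟨fun h => h.1 rfl, fun h => ⟨fun _ => h, fun h' => absurd rfl h'⟩⟩

theorem runcomplete_lo {F : Fact → Prop} {g : ℕ → DD} {p q : ℕ} :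
    LitHolds F g (lo p q) ↔ dlt (g p) (g q) :=
  ⟨fun h => h.2 one_ne_zero, fun h => ⟨fun h' => absurd h' one_ne_zero, fun _ => h⟩⟩

/-! ### The model -/

open Classical in
/-- the witness for a cell with value `1` -/
noncomputable def runcomplete_w1 (p : Prog) (x : ℕ → Bool) (j : Fin 3) (n : ℕ)
    (σ : Ordinal.{0}) : ℕ × Ordinal.{0} :=
  if h : ∃ q : ℕ × Ordinal.{0}, q.2 < σ ∧ ∀ β' < σ, ∀ m' : ℕ,
      (q.2 < β' ∨ (q.2 = β' ∧ q.1 ≤ m')) → (p.run x (ω * β' + m')).tape j n = true
  then h.choose else (0, σ)

open Classical in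
/-- the witness for a cell with value `0` -/
noncomputable def runcomplete_w0 (p : Prog) (x : ℕ → Bool) (j : Fin 3) (n m : ℕ)
    (σ τ : Ordinal.{0}) : ℕ × Ordinal.{0} :=
  if h : ∃ q : ℕ × Ordinal.{0}, q.2 < σ ∧ (τ < q.2 ∨ (τ = q.2 ∧ m ≤ q.1)) ∧
      (p.run x (ω * q.2 + q.1)).tape j n = false
  then h.choose else (0, σ)

/-- the model -/
noncomputable def runcomplete_Y (p : Prog) (x : ℕ → Bool) (a α : Ordinal.{0}) (m₀ : ℕ)
    (i : ℕ) (s t : DD) : ℕ × DD :=
  if i.unpair.1 = 0 then (p.code (p.run x (ω * pos a s + (i.unpair.2 : ℕ))).state, s)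
  else if i.unpair.1 = 1 then ((p.run x (ω * pos a s + (i.unpair.2 : ℕ))).head, s)
  else if i.unpair.1 = 2 then
    let q := ((decode i.unpair.2 : Option (ℕ × ℕ × ℕ)).getD (0, 0, 0))
    (bc ((p.run x (ω * pos a s + (q.2.2 : ℕ))).tape (Fin.ofNat 3 q.1) q.2.1), s)
  else if i.unpair.1 = 3 then
    let q := ((decode i.unpair.2 : Option (ℕ × ℕ)).getD (0, 0))
    let w := runcomplete_w1 p x (Fin.ofNat 3 q.1) q.2 (pos a s)
    (w.1, runcomplete_e a w.2)
  else if i.unpair.1 = 4 then
    let q := ((decode i.unpair.2 : Option (ℕ × ℕ × ℕ)).getD (0, 0, 0))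
    let w := runcomplete_w0 p x (Fin.ofNat 3 q.1) q.2.1 q.2.2 (pos a s) (pos a t)
    (w.1, runcomplete_e a w.2)
  else if i.unpair.1 = 5 then (m₀, runcomplete_e a α)
  else if i.unpair.1 = 6 then (0, runcomplete_e a 0)
  else (0, s)

section
variable (p : Prog) (x : ℕ → Bool) (a α : Ordinal.{0}) (m₀ : ℕ)

theorem runcomplete_St (m : ℕ) (s t : DD) : runcomplete_Y p x a α m₀ (iSt m) s t =
    (p.code (p.run x (ω * pos a s + (m : ℕ))).state, s) := by
  simp [runcomplete_Y, iSt]

theorem runcomplete_Hd (m : ℕ) (s t : DD) : runcomplete_Y p x a α m₀ (iHd m) s t =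
    ((p.run x (ω * pos a s + (m : ℕ))).head, s) := by
  simp [runcomplete_Y, iHd]

theorem runcomplete_Cl (j : Fin 3) (n m : ℕ) (s t : DD) :
    runcomplete_Y p x a α m₀ (iCl j n m) s t =
    (bc ((p.run x (ω * pos a s + (m : ℕ))).tape j n), s) := by
  simp only [runcomplete_Y, iCl, Nat.unpair_pair, encodek, Option.getD_some]
  simp

theorem runcomplete_W1 (j : Fin 3) (n : ℕ) (s t : DD) :
    runcomplete_Y p x a α m₀ (iW1 j n) s t =
    ((runcomplete_w1 p x j n (pos a s)).1,
      runcomplete_e a (runcomplete_w1 p x j n (pos a s)).2) := by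
  simp only [runcomplete_Y, iW1, Nat.unpair_pair, encodek, Option.getD_some]
  simp

theorem runcomplete_W0 (j : Fin 3) (n m : ℕ) (s t : DD) :
    runcomplete_Y p x a α m₀ (iW0 j n m) s t =
    ((runcomplete_w0 p x j n m (pos a s) (pos a t)).1,
      runcomplete_e a (runcomplete_w0 p x j n m (pos a s) (pos a t)).2) := by
  simp only [runcomplete_Y, iW0, Nat.unpair_pair, encodek, Option.getD_some]
  simp

theorem runcomplete_Top (s t : DD) : runcomplete_Y p x a α m₀ iTop s t =
    (m₀, runcomplete_e a α) := by
  simp [runcomplete_Y, iTop]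

theorem runcomplete_Z (s t : DD) : runcomplete_Y p x a α m₀ iZ s t =
    (0, runcomplete_e a 0) := by
  simp [runcomplete_Y, iZ]

end

theorem runcomplete_w1_spec (p : Prog) (x : ℕ → Bool) (j : Fin 3) (n : ℕ) {σ : Ordinal.{0}}
    (hσ : 0 < σ) (h : (p.run x (ω * σ + ((0 : ℕ) : Ordinal.{0}))).tape j n = true) :
    (runcomplete_w1 p x j n σ).2 < σ ∧ ∀ β' < σ, ∀ m' : ℕ,
      ((runcomplete_w1 p x j n σ).2 < β' ∨
        ((runcomplete_w1 p x j n σ).2 = β' ∧ (runcomplete_w1 p x j n σ).1 ≤ m')) →
      (p.run x (ω * β' + m')).tape j n = true := by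
  have hex : ∃ q : ℕ × Ordinal.{0}, q.2 < σ ∧ ∀ β' < σ, ∀ m' : ℕ,
      (q.2 < β' ∨ (q.2 = β' ∧ q.1 ≤ m')) → (p.run x (ω * β' + m')).tape j n = true := by
    rw [Nat.cast_zero, add_zero] at h
    obtain ⟨β, hβ, m, H⟩ := ((p.run_block_limit x hσ).2.2 j n).1 h
    exact ⟨(m, β), hβ, H⟩
  unfold runcomplete_w1
  rw [dif_pos hex]
  exact hex.choose_spec

theorem runcomplete_w0_spec (p : Prog) (x : ℕ → Bool) (j : Fin 3) (n m : ℕ) {σ τ : Ordinal.{0}}
    (hτ : τ < σ) (h : (p.run x (ω * σ + ((0 : ℕ) : Ordinal.{0}))).tape j n = false) :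
    (runcomplete_w0 p x j n m σ τ).2 < σ ∧
      (τ < (runcomplete_w0 p x j n m σ τ).2 ∨ (τ = (runcomplete_w0 p x j n m σ τ).2 ∧
        m ≤ (runcomplete_w0 p x j n m σ τ).1)) ∧
      (p.run x (ω * (runcomplete_w0 p x j n m σ τ).2 +
        (runcomplete_w0 p x j n m σ τ).1)).tape j n = false := by
  have hex : ∃ q : ℕ × Ordinal.{0}, q.2 < σ ∧ (τ < q.2 ∨ (τ = q.2 ∧ m ≤ q.1)) ∧
      (p.run x (ω * q.2 + q.1)).tape j n = false := by
    rw [Nat.cast_zero, add_zero, ← Bool.not_eq_true,
      (p.run_block_limit x (lt_of_le_of_lt (zero_le) hτ)).2.2 j n] at h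
    by_contra hne
    refine h ⟨τ, hτ, m, fun β' hβ' m' hle => ?_⟩
    by_contra hf
    rw [Bool.not_eq_true] at hf
    exact hne ⟨(m', β'), hβ', hle, hf⟩
  unfold runcomplete_w0
  rw [dif_pos hex]
  exact hex.choose_spec

theorem run_complete (p : Prog) {a b α : Ordinal.{0}} {x : ℕ → Bool} {m : ℕ} (h : a + b = α + 1)
    (hx : p.HaltsAt x (ω * α + m)) : ∃ Y, IsModel (RunPat p) a b Y ∧
      (∀ s ∈ D a b, pos a (Y iZ s s).2 = 0) ∧
      ∀ s ∈ D a b, pos a s = 0 → ∀ n, (Y (iCl 0 n 0) s s).1 = bc (x n) := by
  have hle : ∀ {s : DD}, s ∈ D a b → pos a s ≤ α := fun {s} hs => by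
    have := runcomplete_pos_lt hs
    rw [h] at this
    exact Order.lt_add_one_iff.1 this
  have hem : ∀ {δ : Ordinal.{0}}, δ ≤ α → runcomplete_e a δ ∈ D a b := fun {δ} hδ =>
    runcomplete_e_mem (by rw [h]; exact Order.lt_add_one_iff.2 hδ)
  refine ⟨runcomplete_Y p x a α m, ⟨?_, ?_⟩, ?_, ?_⟩
  · -- membership
    intro i s hs t ht
    unfold runcomplete_Y
    have hw1 : ∀ j n, runcomplete_e a (runcomplete_w1 p x j n (pos a s)).2 ∈ D a b := by
      intro j n
      refine hem (le_trans ?_ (hle hs))
      unfold runcomplete_w1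
      split_ifs with h1
      · exact h1.choose_spec.1.le
      · exact le_rfl
    have hw0 : ∀ j n m, runcomplete_e a (runcomplete_w0 p x j n m (pos a s) (pos a t)).2 ∈
        D a b := by
      intro j n m
      refine hem (le_trans ?_ (hle hs))
      unfold runcomplete_w0
      split_ifs with h1
      · exact h1.choose_spec.1.le
      · exact le_rfl
    split_ifs
    · exact hs
    · exact hs
    · exact hs
    · exact hw1 _ _
    · exact hw0 _ _ _
    · exact hem le_rfl
    · exact hem (zero_le)
    · exact hs
  · -- the patterns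
    rintro π (hπ | hπ) g hg hall
    · have hstep : ∀ (q : p.Q) (h : ℕ) (b : Fin 3 → Bool) (m' : ℕ),
          (∀ l ∈ sit p q h b m', LitHolds (holdsY (runcomplete_Y p x a α m)) g l) →
          (p.run x (ω * pos a (g 0) + ((m' + 1 : ℕ) : Ordinal.{0}))).state = (p.tr q b).1 ∧
          (p.run x (ω * pos a (g 0) + ((m' + 1 : ℕ) : Ordinal.{0}))).head =
            (p.tr q b).2.2.app h ∧
          ∀ j, (p.run x (ω * pos a (g 0) + ((m' + 1 : ℕ) : Ordinal.{0}))).tape j h =
            (p.tr q b).2.1 j := by
        intro q h b m' hs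
        simp only [sit, List.forall_mem_cons, List.not_mem_nil, false_implies, implies_true,
          and_true, runcomplete_fa, holdsY, runcomplete_St, runcomplete_Hd] at hs
        obtain ⟨s1, s2, s3, s4, s5⟩ := hs
        have c0 := runcomplete_Cl p x a α m 0 h m' (g 0) (g 0)
        have c1 := runcomplete_Cl p x a α m 1 h m' (g 0) (g 0)
        have c2 := runcomplete_Cl p x a α m 2 h m' (g 0) (g 0)
        have e1 := runcomplete_code_inj p (Prod.mk.inj s1).1
        have e2 := (Prod.mk.inj s2).1
        have e3 : (p.run x (ω * pos a (g 0) + (m' : ℕ))).tape 0 h = b 0 :=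
          runcomplete_bc_inj (Prod.mk.inj (c0.symm.trans s3)).1
        have e4 : (p.run x (ω * pos a (g 0) + (m' : ℕ))).tape 1 h = b 1 :=
          runcomplete_bc_inj (Prod.mk.inj (c1.symm.trans s4)).1
        have e5 : (p.run x (ω * pos a (g 0) + (m' : ℕ))).tape 2 h = b 2 :=
          runcomplete_bc_inj (Prod.mk.inj (c2.symm.trans s5)).1
        have e6 : (fun i => (p.run x (ω * pos a (g 0) + (m' : ℕ))).tape i
            (p.run x (ω * pos a (g 0) + (m' : ℕ))).head) = b := by
          funext i
          rw [e2]
          fin_cases i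
          · exact e3
          · exact e4
          · exact e5
        rw [p.run_block_succ]
        refine ⟨?_, ?_, fun j => ?_⟩
        · rw [Prog.step, e6, e1]
        · rw [Prog.step, e6, e1, e2]
        · rw [Prog.step, e6, e1, e2]
          simp
      cases hπ with
      | st m' v hv =>
        simp only [List.forall_mem_cons, List.not_mem_nil, false_implies, implies_true, and_true,
          runcomplete_fa, holdsY, runcomplete_St] at hall
        exact hv _ (Prod.mk.inj hall).1.symm
      | cl j n m' v hv =>
        simp only [List.forall_mem_cons, List.not_mem_nil, false_implies, implies_true, and_true,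
          runcomplete_fa, holdsY, runcomplete_Cl] at hall
        have := (Prod.mk.inj hall).1
        rw [← this] at hv
        unfold bc at hv
        split_ifs at hv <;> omega
      | stepS q hq h b m' v hv =>
        rw [List.forall_mem_cons] at hall
        obtain ⟨h1, h2⟩ := hall
        rw [runcomplete_fa, holdsY] at h1
        simp only [runcomplete_St] at h1
        exact hv (by rw [← (Prod.mk.inj h1).1, (hstep q h b m' h2).1])
      | stepH q hq h b m' v hv =>
        rw [List.forall_mem_cons] at hall
        obtain ⟨h1, h2⟩ := hall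
        rw [runcomplete_fa, holdsY] at h1
        simp only [runcomplete_Hd] at h1
        exact hv (by rw [← (Prod.mk.inj h1).1, (hstep q h b m' h2).2.1])
      | stepC q hq h b m' v j hv =>
        rw [List.forall_mem_cons] at hall
        obtain ⟨h1, h2⟩ := hall
        rw [runcomplete_fa, holdsY] at h1
        simp only [runcomplete_Cl] at h1
        exact hv (by rw [← (Prod.mk.inj h1).1, (hstep q h b m' h2).2.2])
      | stepN q hq h m' n v v' j hn hv =>
        simp only [List.forall_mem_cons, List.not_mem_nil, false_implies, implies_true, and_true,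
          runcomplete_fa, holdsY, runcomplete_Cl, runcomplete_St, runcomplete_Hd] at hall
        obtain ⟨-, h2, h3, h4⟩ := hall
        have e2 := (Prod.mk.inj h2).1
        have e3 := (Prod.mk.inj h3).1
        have e4 := (Prod.mk.inj h4).1
        rw [p.run_block_succ, Prog.step] at e4
        simp only [e2, if_neg hn] at e4
        exact hv (e3.symm.trans e4)
      | z v =>
        simp only [List.forall_mem_cons, List.not_mem_nil, false_implies, implies_true, and_true,
          runcomplete_fa, runcomplete_lo, holdsY, runcomplete_Z] at hall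
        obtain ⟨h1, h2⟩ := hall
        have e1 := (Prod.mk.inj h1).2
        have e2 := runcomplete_dlt (hg 2) h2
        rw [← e1, runcomplete_pos_e] at e2
        exact absurd e2 not_lt_zero
      | zS v w hw =>
        simp only [List.forall_mem_cons, List.not_mem_nil, false_implies, implies_true, and_true,
          runcomplete_fa, holdsY, runcomplete_Z, runcomplete_St] at hall
        obtain ⟨h1, h2⟩ := hall
        have e1 := (Prod.mk.inj h1).2
        have e2 := (Prod.mk.inj h2).1
        rw [← e1, runcomplete_pos_e, mul_zero, Nat.cast_zero, add_zero, p.run_zero] at e2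
        exact hw e2.symm
      | zH v w hw =>
        simp only [List.forall_mem_cons, List.not_mem_nil, false_implies, implies_true, and_true,
          runcomplete_fa, holdsY, runcomplete_Z, runcomplete_Hd] at hall
        obtain ⟨h1, h2⟩ := hall
        have e1 := (Prod.mk.inj h1).2
        have e2 := (Prod.mk.inj h2).1
        rw [← e1, runcomplete_pos_e, mul_zero, Nat.cast_zero, add_zero, p.run_zero] at e2
        exact hw e2.symm
      | zC v n w j hj hw =>
        simp only [List.forall_mem_cons, List.not_mem_nil, false_implies, implies_true, and_true,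
          runcomplete_fa, holdsY, runcomplete_Z, runcomplete_Cl] at hall
        obtain ⟨h1, h2⟩ := hall
        have e1 := (Prod.mk.inj h1).2
        have e2 := (Prod.mk.inj h2).1
        rw [← e1, runcomplete_pos_e, mul_zero, Nat.cast_zero, add_zero, p.run_zero, Prog.init] at e2
        simp only [if_neg hj] at e2
        exact hw e2.symm
    · cases hπ with
      | lS w hw =>
        simp only [List.forall_mem_cons, List.not_mem_nil, false_implies, implies_true, and_true,
          runcomplete_fa, runcomplete_lo, holdsY, runcomplete_St] at hall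
        obtain ⟨h1, h2⟩ := hall
        have e1 := lt_of_le_of_lt (zero_le) (runcomplete_dlt (hg 1) h1)
        have e2 := (Prod.mk.inj h2).1
        rw [Nat.cast_zero, add_zero, (p.run_block_limit x e1).1] at e2
        exact hw e2.symm
      | lH w hw =>
        simp only [List.forall_mem_cons, List.not_mem_nil, false_implies, implies_true, and_true,
          runcomplete_fa, runcomplete_lo, holdsY, runcomplete_Hd] at hall
        obtain ⟨h1, h2⟩ := hall
        have e1 := lt_of_le_of_lt (zero_le) (runcomplete_dlt (hg 1) h1)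
        have e2 := (Prod.mk.inj h2).1
        rw [Nat.cast_zero, add_zero, (p.run_block_limit x e1).2.1] at e2
        exact hw e2.symm
      | l1a j n m' =>
        simp only [List.forall_mem_cons, List.not_mem_nil, false_implies, implies_true, and_true,
          runcomplete_fa, runcomplete_lo, holdsY, runcomplete_Cl, runcomplete_W1] at hall
        obtain ⟨h1, h2, h3, h4⟩ := hall
        have e1 := lt_of_le_of_lt (zero_le) (runcomplete_dlt (hg 1) h1)
        have e2 := runcomplete_bc_inj (b' := true) ((Prod.mk.inj h2).1)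
        have e3 := runcomplete_w1_spec p x j n e1 e2
        have e4 := runcomplete_dlt (hg 0) h4
        rw [← (Prod.mk.inj h3).2, runcomplete_pos_e] at e4
        exact lt_asymm e3.1 e4
      | l1b j n m' =>
        simp only [List.forall_mem_cons, List.not_mem_nil, false_implies, implies_true, and_true,
          runcomplete_fa, runcomplete_lo, holdsY, runcomplete_Cl, runcomplete_W1] at hall
        obtain ⟨h1, h2, h3⟩ := hall
        have e1 := lt_of_le_of_lt (zero_le) (runcomplete_dlt (hg 1) h1)
        have e2 := runcomplete_bc_inj (b' := true) ((Prod.mk.inj h2).1)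
        have e3 := runcomplete_w1_spec p x j n e1 e2
        have e4 := congrArg (pos a) (Prod.mk.inj h3).2
        rw [runcomplete_pos_e] at e4
        exact e3.1.ne e4
      | l1c j n m' m'' v hv =>
        simp only [List.forall_mem_cons, List.not_mem_nil, false_implies, implies_true, and_true,
          runcomplete_fa, runcomplete_lo, holdsY, runcomplete_Cl, runcomplete_W1] at hall
        obtain ⟨h1, h2, h3, h4, h5, h6⟩ := hall
        have e1 := lt_of_le_of_lt (zero_le) (runcomplete_dlt (hg 1) h1)
        have e2 := runcomplete_bc_inj (b' := true) ((Prod.mk.inj h2).1)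
        have e3 := runcomplete_w1_spec p x j n e1 e2
        have e4 := runcomplete_dlt (hg 3) h4
        have e5 := runcomplete_dlt (hg 4) h5
        rw [← (Prod.mk.inj h3).2, runcomplete_pos_e] at e4
        have e6 := e3.2 _ e5 m'' (Or.inl e4)
        have e7 := (Prod.mk.inj h6).1
        rw [e6] at e7
        exact hv e7.symm
      | l1d j n m' m'' v hv hm =>
        simp only [List.forall_mem_cons, List.not_mem_nil, false_implies, implies_true, and_true,
          runcomplete_fa, runcomplete_lo, holdsY, runcomplete_Cl, runcomplete_W1] at hall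
        obtain ⟨h1, h2, h3, h4⟩ := hall
        have e1 := lt_of_le_of_lt (zero_le) (runcomplete_dlt (hg 1) h1)
        have e2 := runcomplete_bc_inj (b' := true) ((Prod.mk.inj h2).1)
        have e3 := runcomplete_w1_spec p x j n e1 e2
        have e4 := (Prod.mk.inj h4).1
        rw [← (Prod.mk.inj h3).2, runcomplete_pos_e,
          e3.2 _ e3.1 m'' (Or.inr ⟨rfl, by rw [(Prod.mk.inj h3).1]; exact hm⟩)] at e4
        exact hv e4.symm
      | l0a j n m' m'' =>
        simp only [List.forall_mem_cons, List.not_mem_nil, false_implies, implies_true, and_true,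
          runcomplete_fa, runcomplete_lo, holdsY, runcomplete_Cl, runcomplete_W0] at hall
        obtain ⟨h1, h2, h3, h4⟩ := hall
        have e1 := runcomplete_dlt (hg 1) h1
        have e2 := runcomplete_bc_inj (b' := false) ((Prod.mk.inj h2).1)
        have e3 := runcomplete_w0_spec p x j n m' e1 e2
        have e4 := runcomplete_dlt (hg 0) h4
        rw [← (Prod.mk.inj h3).2, runcomplete_pos_e] at e4
        exact lt_asymm e3.1 e4
      | l0b j n m' m'' =>
        simp only [List.forall_mem_cons, List.not_mem_nil, false_implies, implies_true, and_true,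
          runcomplete_fa, runcomplete_lo, holdsY, runcomplete_Cl, runcomplete_W0] at hall
        obtain ⟨h1, h2, h3⟩ := hall
        have e1 := runcomplete_dlt (hg 1) h1
        have e2 := runcomplete_bc_inj (b' := false) ((Prod.mk.inj h2).1)
        have e3 := runcomplete_w0_spec p x j n m' e1 e2
        have e4 := congrArg (pos a) (Prod.mk.inj h3).2
        rw [runcomplete_pos_e] at e4
        exact e3.1.ne e4
      | l0c j n m' m'' =>
        simp only [List.forall_mem_cons, List.not_mem_nil, false_implies, implies_true, and_true,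
          runcomplete_fa, runcomplete_lo, holdsY, runcomplete_Cl, runcomplete_W0] at hall
        obtain ⟨h1, h2, h3, h4⟩ := hall
        have e1 := runcomplete_dlt (hg 1) h1
        have e2 := runcomplete_bc_inj (b' := false) ((Prod.mk.inj h2).1)
        have e3 := runcomplete_w0_spec p x j n m' e1 e2
        have e4 := runcomplete_dlt (hg 3) h4
        rw [← (Prod.mk.inj h3).2, runcomplete_pos_e] at e4
        rcases e3.2.1 with h5 | ⟨h5, -⟩
        · exact lt_asymm h5 e4
        · exact e4.ne h5.symm
      | l0d j n m' m'' hm =>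
        simp only [List.forall_mem_cons, List.not_mem_nil, false_implies, implies_true, and_true,
          runcomplete_fa, runcomplete_lo, holdsY, runcomplete_Cl, runcomplete_W0] at hall
        obtain ⟨h1, h2, h3⟩ := hall
        have e1 := runcomplete_dlt (hg 1) h1
        have e2 := runcomplete_bc_inj (b' := false) ((Prod.mk.inj h2).1)
        have e3 := runcomplete_w0_spec p x j n m' e1 e2
        have e4 := congrArg (pos a) (Prod.mk.inj h3).2
        rw [runcomplete_pos_e] at e4
        have e5 := (Prod.mk.inj h3).1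
        rcases e3.2.1 with h5 | ⟨-, h5⟩
        · exact h5.ne e4.symm
        · rw [e5] at h5
          omega
      | l0e j n m' m'' v hv =>
        simp only [List.forall_mem_cons, List.not_mem_nil, false_implies, implies_true, and_true,
          runcomplete_fa, runcomplete_lo, holdsY, runcomplete_Cl, runcomplete_W0] at hall
        obtain ⟨h1, h2, h3, h4⟩ := hall
        have e1 := runcomplete_dlt (hg 1) h1
        have e2 := runcomplete_bc_inj (b' := false) ((Prod.mk.inj h2).1)
        have e3 := runcomplete_w0_spec p x j n m' e1 e2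
        have e4 := (Prod.mk.inj h4).1
        rw [← (Prod.mk.inj h3).2, runcomplete_pos_e, ← (Prod.mk.inj h3).1, e3.2.2] at e4
        exact hv e4.symm
      | top m' =>
        simp only [List.forall_mem_cons, List.not_mem_nil, false_implies, implies_true, and_true,
          runcomplete_fa, runcomplete_lo, holdsY, runcomplete_Top] at hall
        obtain ⟨h1, h2⟩ := hall
        have e1 := runcomplete_dlt (hg 1) h2
        rw [← (Prod.mk.inj h1).2, runcomplete_pos_e] at e1
        exact absurd e1 (not_lt.2 (hle (hg 2)))
      | topA m' m'' hm =>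
        simp only [List.forall_mem_cons, List.not_mem_nil, false_implies, implies_true, and_true,
          runcomplete_fa, runcomplete_lo, holdsY, runcomplete_Top, runcomplete_St] at hall
        obtain ⟨h1, h2⟩ := hall
        have e1 := (Prod.mk.inj h1)
        have e2 := runcomplete_code_inj p (Prod.mk.inj h2).1
        rw [← e1.2, runcomplete_pos_e] at e2
        refine hx.1 _ (omega_mul_add_le_iff.2 (Or.inr ⟨rfl, ?_⟩)) e2
        rw [e1.1]
        exact hm
      | topB m' v hv =>
        simp only [List.forall_mem_cons, List.not_mem_nil, false_implies, implies_true, and_true,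
          runcomplete_fa, runcomplete_lo, holdsY, runcomplete_Top, runcomplete_St] at hall
        obtain ⟨h1, h2⟩ := hall
        have e1 := (Prod.mk.inj h1)
        have e2 := (Prod.mk.inj h2).1
        rw [← e1.2, runcomplete_pos_e, ← e1.1, omega_mul_add_succ, hx.2] at e2
        exact hv e2.symm
      | topC m' =>
        simp only [List.forall_mem_cons, List.not_mem_nil, false_implies, implies_true, and_true,
          runcomplete_fa, runcomplete_lo, holdsY, runcomplete_St] at hall
        obtain ⟨h1, h2⟩ := hall
        have e1 := runcomplete_code_inj p (Prod.mk.inj h1).1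
        have e2 := (runcomplete_dlt (hg 0) h2).trans_le (hle (hg 1))
        exact hx.1 _ (omega_mul_add_le_iff.2 (Or.inl e2)) e1
  · intro s _
    rw [runcomplete_Z]
    exact runcomplete_pos_e a 0
  · intro s _ h0 n
    have := runcomplete_Cl p x a α m 0 n 0 s s
    rw [show iCl ((0 : Fin 3) : ℕ) n 0 = iCl 0 n 0 from rfl] at this
    rw [this, h0, mul_zero, Nat.cast_zero, add_zero, p.run_zero]
    rfl

end Pool.Agent.MPa662fc
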