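import Mathlib
import Pool.Agent.Lib.MP_a662fc_lc.Defs
import Pool.Agent.Lib.MP_a662fc_lc.Fam
import Pool.Agent.Lib.MP_a662fc_lc.MDefs
import Pool.Agent.Lib.MP_a662fc_lc.Pat
import Pool.Agent.Lib.MP_a662fc_lc.Basic
import Pool.Agent.Lib.MP_a662fc_lc.RunComplete

/-!
# The rank of the descending sequence game

If `p` halts on `x` and `x` codes an order whose order type is at least `τ`, then the refuting
player does not win the game of `DescPat p K` with a rank below `τ`.
-/

namespace Pool.Agent.MPa662fc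

open Ordinal Pool.Agent.MP752584 Encodable

/-- The literal does not mention a symbol of the descending sequence. -/
def descsurvive_NoDs (l : Lit) : Prop := ∀ k, l.2.1 ≠ iDs k

theorem descsurvive_iDs_inj {k k' : ℕ} (h : iDs k = iDs k') : k = k' := by
  simpa [iDs, Nat.pair_eq_pair] using h

theorem descsurvive_iZ (k : ℕ) : iZ ≠ iDs k := by
  simp [iZ, iDs, Nat.pair_eq_pair]

theorem descsurvive_iCl (j n m k : ℕ) : iCl j n m ≠ iDs k := by
  simp [iCl, iDs, Nat.pair_eq_pair]

theorem descsurvive_iSt (m k : ℕ) : iSt m ≠ iDs k := by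
  simp [iSt, iDs, Nat.pair_eq_pair]

theorem descsurvive_iHd (m k : ℕ) : iHd m ≠ iDs k := by
  simp [iHd, iDs, Nat.pair_eq_pair]

theorem descsurvive_iW1 (j n k : ℕ) : iW1 j n ≠ iDs k := by
  simp [iW1, iDs, Nat.pair_eq_pair]

theorem descsurvive_iW0 (j n m k : ℕ) : iW0 j n m ≠ iDs k := by
  simp [iW0, iDs, Nat.pair_eq_pair]

theorem descsurvive_iTop (k : ℕ) : iTop ≠ iDs k := by
  simp [iTop, iDs, Nat.pair_eq_pair]

theorem descsurvive_zero (k : ℕ) : (0 : ℕ) ≠ iDs k := by
  have h : (0 : ℕ) = Nat.pair 0 0 := by simp [Nat.pair]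
  rw [h]
  simp [iDs, Nat.pair_eq_pair]

/-- The patterns of `RunPat` do not mention the descending sequence. -/
theorem descsurvive_run {p : Prog} {π : Pattern} (h : RunPat p π) :
    ∀ l ∈ π, descsurvive_NoDs l := by
  intro l hl k
  have e1 := descsurvive_iZ k
  have e2 := descsurvive_iTop k
  have e3 := descsurvive_zero k
  rcases h with h | h
  all_goals
    cases h
    all_goals
      simp only [List.mem_cons, List.not_mem_nil, or_false, sit, fa, lo] at hl
      rcases hl with rfl | hl | hl | hl | hl | hl | hl | hl | hl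
      all_goals
        first
        | (subst hl; simp only; first
            | exact e1 | exact e2 | exact e3 | exact descsurvive_iCl _ _ _ _
            | exact descsurvive_iSt _ _ | exact descsurvive_iHd _ _ | exact descsurvive_iW1 _ _ _
            | exact descsurvive_iW0 _ _ _ _)
        | (simp only; first
            | exact e1 | exact e2 | exact e3 | exact descsurvive_iCl _ _ _ _
            | exact descsurvive_iSt _ _ | exact descsurvive_iHd _ _ | exact descsurvive_iW1 _ _ _
            | exact descsurvive_iW0 _ _ _ _)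

/-- The fact `f` is true for the model `Y` and the chain `c` of length `N`. -/
def descsurvive_TrueF (Y : ℕ → DD → DD → ℕ × DD) (rep : Ordinal.{0} → ℕ)
    (c : ℕ → Ordinal.{0} × ℕ) (N : ℕ) (f : Fact) : Prop :=
  (∃ k < N, f = (iDs k, (false, 0), (false, 0), Nat.pair (rep (c k).1) (c k).2, (false, 0))) ∨
  ((∀ k, ¬ (f.1 = iDs k ∧ f.2.1 = (false, 0) ∧ f.2.2.1 = (false, 0))) ∧ holdsY Y f)

/-- The sequence `c` up to `N` is a descending sequence in `ω * τ`. -/
def descsurvive_Chain (τ : Ordinal.{0}) (c : ℕ → Ordinal.{0} × ℕ) (N : ℕ) : Prop :=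
  (∀ k < N, (c k).1 < τ) ∧
  ∀ k, k + 1 < N → (c (k + 1)).1 < (c k).1 ∨
    ((c (k + 1)).1 = (c k).1 ∧ (c (k + 1)).2 < (c k).2)

/-- There is room for `ω * ξ` below the chain. -/
def descsurvive_GoodFor (τ : Ordinal.{0}) (c : ℕ → Ordinal.{0} × ℕ) (N : ℕ)
    (ξ : Ordinal.{0}) : Prop :=
  (N = 0 ∧ ξ ≤ τ) ∨ ∃ k, N = k + 1 ∧ ξ ≤ (c k).1

/-- Extension of a chain. -/
theorem descsurvive_extend {τ : Ordinal.{0}} {c : ℕ → Ordinal.{0} × ℕ} {N : ℕ}
    {ξ ξ' : Ordinal.{0}} (hc : descsurvive_Chain τ c N) (hg : descsurvive_GoodFor τ c N ξ)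
    (hξ : ξ' < ξ) {k : ℕ} (hk : N ≤ k) : ∃ c' : ℕ → Ordinal.{0} × ℕ,
      (∀ j < N, c' j = c j) ∧ descsurvive_Chain τ c' (k + 1) ∧
      descsurvive_GoodFor τ c' (k + 1) ξ' := by
  have hτ : ξ' < τ := by
    rcases hg with ⟨_, h⟩ | ⟨j, hj, h⟩
    · exact hξ.trans_le h
    · exact (hξ.trans_le h).trans (hc.1 j (by omega))
  refine ⟨fun j => if j < N then c j else (ξ', k - j), fun j hj => by simp [hj], ⟨?_, ?_⟩, ?_⟩
  · intro j hj
    by_cases h : j < N
    · simp only [h, if_true]
      exact hc.1 j h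
    · simp only [h, if_false]
      exact hτ
  · intro j hj
    by_cases h1 : j + 1 < N
    · have h2 : j < N := by omega
      simp only [h1, h2, if_true]
      exact hc.2 j h1
    · by_cases h2 : j < N
      · simp only [h1, h2, if_true, if_false]
        left
        rcases hg with ⟨h0, _⟩ | ⟨i, hi, h⟩
        · omega
        · have : i = j := by omega
          subst this
          exact hξ.trans_le h
      · simp only [h1, h2, if_false]
        right
        refine ⟨trivial, ?_⟩
        omega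
  · right
    refine ⟨k, rfl, ?_⟩
    have : ¬ k < N := by omega
    simp only [this, if_false]
    exact le_refl _

theorem descsurvive_z_mem {a : Ordinal.{0}} (ha : 0 < a) : ((false, 0) : DD) ∈ D a 0 :=
  ⟨fun _ => ha, fun h => by simp at h⟩

theorem descsurvive_elems {a b : Ordinal.{0}} {u : Pos} (hu : Valid a b u) :
    ∀ s ∈ elems u, s ∈ D a b := by
  rintro s ⟨f, hf, h⟩
  obtain ⟨h1, h2, h3⟩ := hu f hf
  rcases h with rfl | rfl | rfl
  · exact h1
  · exact h2
  · exact h3

/-- A true position is not bad. -/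
theorem descsurvive_not_bad {p : Prog} {K : ℕ} {a τ : Ordinal.{0}} {x : ℕ → Bool}
    {o : ℕ → Ordinal.{0}} (ho : ∀ m n, x (K * ltb m n) = true ↔ o m < o n)
    {rep : Ordinal.{0} → ℕ} (hrep : ∀ ζ < τ, o (rep ζ) = ζ)
    {Y : ℕ → DD → DD → ℕ × DD} (hY : IsModel (RunPat p) a 0 Y)
    (hZ : ∀ s ∈ D a 0, (Y iZ s s).2 = (false, 0))
    (hx : ∀ n, (Y (iCl 0 n 0) (false, 0) (false, 0)).1 = bc (x n))
    {c : ℕ → Ordinal.{0} × ℕ} {N : ℕ} (hc : descsurvive_Chain τ c N) {u : Pos}
    (hu : Valid a 0 u) (ht : ∀ f ∈ u, descsurvive_TrueF Y rep c N f) :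
    ¬ Bad (DescPat p K) u := by
  -- facts about other symbols are facts of `Y`
  have key : ∀ f ∈ u, (∀ k, f.1 ≠ iDs k) → holdsY Y f := by
    intro f hf hne
    rcases ht f hf with ⟨k, _, rfl⟩ | ⟨_, h⟩
    · exact absurd rfl (hne k)
    · exact h
  have keyDs : ∀ k v w, (iDs k, (false, 0), (false, 0), v, w) ∈ u →
      k < N ∧ v = Nat.pair (rep (c k).1) (c k).2 ∧ w = (false, 0) := by
    intro k v w hf
    rcases ht _ hf with ⟨k', hk', h⟩ | ⟨h, _⟩
    · simp only [Prod.mk.injEq] at h
      obtain ⟨h1, -, -, h2, h3⟩ := h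
      have := descsurvive_iDs_inj h1
      subst this
      exact ⟨hk', h2, h3⟩
    · exact absurd ⟨rfl, rfl, rfl⟩ (h k)
  rintro (⟨i, s, t, v, w, v', w', h1, h2, hne⟩ | ⟨π, hπ, g, hg, hl⟩)
  · -- contradictory facts
    by_cases h : ∃ k, i = iDs k ∧ s = (false, 0) ∧ t = (false, 0)
    · obtain ⟨k, rfl, rfl, rfl⟩ := h
      obtain ⟨_, e1, e2⟩ := keyDs k v w h1
      obtain ⟨_, e3, e4⟩ := keyDs k v' w' h2
      rcases hne with hne | hne
      · exact hne (e1.trans e3.symm)
      · exact hne (e2.trans e4.symm)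
    · have aux : ∀ v w, (i, s, t, v, w) ∈ u → Y i s t = (v, w) := by
        intro v w hf
        rcases ht _ hf with ⟨k, _, h'⟩ | ⟨_, h'⟩
        · simp only [Prod.mk.injEq] at h'
          obtain ⟨e1, e2, e3, -, -⟩ := h'
          exact absurd ⟨k, e1, e2, e3⟩ h
        · exact h'
      have e := (aux v w h1).symm.trans (aux v' w' h2)
      simp only [Prod.mk.injEq] at e
      rcases hne with hne | hne
      · exact hne e.1
      · exact hne e.2
  · have hgD : ∀ n, g n ∈ D a 0 := fun n => descsurvive_elems hu _ (hg n)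
    cases hπ with
    | run π h =>
      refine hY.avoid π h g hgD fun l hlπ => ?_
      have hno := descsurvive_run h l hlπ
      obtain ⟨hl1, hl2⟩ := hl l hlπ
      exact ⟨fun h0 => key _ (hl1 h0) (fun k => hno k), hl2⟩
    | d1 v k n m m' hm =>
      have f1 := (hl _ (by simp : fa iZ 0 0 v 1 ∈ _)).1 rfl
      have f2 := (hl _ (by simp : fa (iDs k) 1 1 (Nat.pair n m) 2 ∈ _)).1 rfl
      have f3 := (hl _ (by simp : fa (iDs (k + 1)) 1 1 (Nat.pair n m') 3 ∈ _)).1 rfl
      simp only at f1 f2 f3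
      have hy := key _ f1 (fun k => descsurvive_iZ k)
      have hg1 : g 1 = (false, 0) := by
        have := hZ (g 0) (hgD 0)
        unfold holdsY at hy
        simp only at hy
        rw [hy] at this
        exact this
      rw [hg1] at f2 f3
      obtain ⟨hk, e2, -⟩ := keyDs _ _ _ f2
      obtain ⟨hk', e3, -⟩ := keyDs _ _ _ f3
      rw [Nat.pair_eq_pair] at e2 e3
      have ho1 : o n = (c k).1 := by rw [e2.1]; exact hrep _ (hc.1 k hk)
      have ho2 : o n = (c (k + 1)).1 := by rw [e3.1]; exact hrep _ (hc.1 _ hk')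
      rcases hc.2 k hk' with h | ⟨-, h⟩
      · exact absurd (ho2.symm.trans ho1) (ne_of_lt h)
      · omega
    | d2 v k n m n' m' hn =>
      have f1 := (hl _ (by simp : fa iZ 0 0 v 1 ∈ _)).1 rfl
      have f2 := (hl _ (by simp : fa (iDs k) 1 1 (Nat.pair n m) 2 ∈ _)).1 rfl
      have f3 := (hl _ (by simp : fa (iDs (k + 1)) 1 1 (Nat.pair n' m') 3 ∈ _)).1 rfl
      have f4 := (hl _ (by simp : fa (iCl 0 (K * ltb n' n) 0) 1 1 0 4 ∈ _)).1 rfl
      simp only at f1 f2 f3 f4
      have hy := key _ f1 (fun k => descsurvive_iZ k)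
      have hg1 : g 1 = (false, 0) := by
        have := hZ (g 0) (hgD 0)
        unfold holdsY at hy
        simp only at hy
        rw [hy] at this
        exact this
      rw [hg1] at f2 f3 f4
      obtain ⟨hk, e2, -⟩ := keyDs _ _ _ f2
      obtain ⟨hk', e3, -⟩ := keyDs _ _ _ f3
      rw [Nat.pair_eq_pair] at e2 e3
      have ho1 : o n = (c k).1 := by rw [e2.1]; exact hrep _ (hc.1 k hk)
      have ho2 : o n' = (c (k + 1)).1 := by rw [e3.1]; exact hrep _ (hc.1 _ hk')
      have hlt : o n' < o n := by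
        rw [ho1, ho2]
        rcases hc.2 k hk' with h | ⟨h, -⟩
        · exact h
        · exact absurd (by rw [e2.1, e3.1, h]) hn
      have hb := (ho n' n).2 hlt
      have hy4 := key _ f4 (fun k => descsurvive_iCl _ _ _ _)
      unfold holdsY at hy4
      simp only at hy4
      have := hx (K * ltb n' n)
      rw [hy4, hb] at this
      simp [bc] at this

/-- The refuting player does not win from a true position. -/
theorem descsurvive_claim {p : Prog} {K : ℕ} {a τ : Ordinal.{0}} {x : ℕ → Bool}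
    {o : ℕ → Ordinal.{0}} (ho : ∀ m n, x (K * ltb m n) = true ↔ o m < o n)
    {rep : Ordinal.{0} → ℕ} (hrep : ∀ ζ < τ, o (rep ζ) = ζ) (ha : 0 < a)
    {Y : ℕ → DD → DD → ℕ × DD} (hY : IsModel (RunPat p) a 0 Y)
    (hZ : ∀ s ∈ D a 0, (Y iZ s s).2 = (false, 0))
    (hx : ∀ n, (Y (iCl 0 n 0) (false, 0) (false, 0)).1 = bc (x n)) (ξ' : Ordinal.{0}) :
    ∀ ξ > ξ', ∀ (c : ℕ → Ordinal.{0} × ℕ) (N : ℕ), descsurvive_Chain τ c N →
      descsurvive_GoodFor τ c N ξ → ∀ u : Pos, Valid a 0 u →
      (∀ f ∈ u, descsurvive_TrueF Y rep c N f) → ¬ W (DescPat p K) a 0 ξ' u := by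
  induction ξ' using WellFoundedLT.induction with
  | ind ξ' ih =>
    intro ξ hξ c N hc hg u hu ht hW
    rw [W.cases_iff] at hW
    rcases hW with hW | ⟨i, s, hs, t, hts, h⟩
    · exact descsurvive_not_bad ho hrep hY hZ hx hc hu ht hW
    · have hz := descsurvive_z_mem ha
      by_cases hq : ∃ k, i = iDs k ∧ s = (false, 0) ∧ t = (false, 0)
      · obtain ⟨k, rfl, rfl, rfl⟩ := hq
        by_cases hk : k < N
        · -- the answer is given by the chain
          obtain ⟨ξ'', hlt, hW⟩ := h (Nat.pair (rep (c k).1) (c k).2) (false, 0) hz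
          refine ih ξ'' hlt ξ (hlt.trans hξ) c N hc hg _ ?_ ?_ hW
          · intro f hf
            rcases List.mem_cons.1 hf with rfl | hf
            · exact ⟨hz, hz, hz⟩
            · exact hu f hf
          · intro f hf
            rcases List.mem_cons.1 hf with rfl | hf
            · exact Or.inl ⟨k, hk, rfl⟩
            · exact ht f hf
        · -- extend the chain
          obtain ⟨c', hc', hch, hgd⟩ := descsurvive_extend hc hg hξ (not_lt.1 hk)
          obtain ⟨ξ'', hlt, hW⟩ := h (Nat.pair (rep (c' k).1) (c' k).2) (false, 0) hz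
          refine ih ξ'' hlt ξ' hlt c' (k + 1) hch hgd _ ?_ ?_ hW
          · intro f hf
            rcases List.mem_cons.1 hf with rfl | hf
            · exact ⟨hz, hz, hz⟩
            · exact hu f hf
          · intro f hf
            rcases List.mem_cons.1 hf with rfl | hf
            · exact Or.inl ⟨k, by omega, rfl⟩
            · rcases ht f hf with ⟨j, hj, rfl⟩ | h'
              · exact Or.inl ⟨j, by omega, by rw [hc' j hj]⟩
              · exact Or.inr h'
      · -- the answer is given by the model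
        have hmem := hY.mem i s hs t hts
        obtain ⟨ξ'', hlt, hW⟩ := h (Y i s t).1 (Y i s t).2 hmem
        refine ih ξ'' hlt ξ (hlt.trans hξ) c N hc hg _ ?_ ?_ hW
        · intro f hf
          rcases List.mem_cons.1 hf with rfl | hf
          · exact ⟨hs, hts, hmem⟩
          · exact hu f hf
        · intro f hf
          rcases List.mem_cons.1 hf with rfl | hf
          · exact Or.inr ⟨fun k hk => hq ⟨k, hk⟩, rfl⟩
          · exact ht f hf

theorem desc_survive (p : Prog) (K : ℕ) {α τ : Ordinal.{0}} {x : ℕ → Bool} {m : ℕ}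
    {o : ℕ → Ordinal.{0}} (hx : p.HaltsAt x (ω * α + m))
    (ho : ∀ m n, x (K * ltb m n) = true ↔ o m < o n) (hτ : ∀ ζ < τ, ∃ n, o n = ζ) :
    ∀ ξ < τ, ¬ W (DescPat p K) (α + 1) 0 ξ [] := by
  classical
  intro ξ hξ
  have ha : 0 < α + 1 := by simp
  have hz := descsurvive_z_mem ha
  obtain ⟨Y, hY, h1, h2⟩ := run_complete p (a := α + 1) (b := 0) (by simp) hx
  have hZ : ∀ s ∈ D (α + 1) 0, (Y iZ s s).2 = (false, 0) := by
    intro s hs
    have hm := hY.mem iZ s hs s hs
    have hp := h1 s hs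
    generalize (Y iZ s s).2 = w at hm hp
    obtain ⟨b, ζ⟩ := w
    cases b with
    | true =>
      have := hm.2 rfl
      simp at this
    | false =>
      simp only [pos] at hp
      simp only [Bool.false_eq_true, if_false] at hp
      rw [hp]
  have hX : ∀ n, (Y (iCl 0 n 0) (false, 0) (false, 0)).1 = bc (x n) :=
    h2 (false, 0) hz (by simp [pos])
  let rep : Ordinal.{0} → ℕ := fun ζ => if h : ∃ n, o n = ζ then h.choose else 0
  have hrep : ∀ ζ < τ, o (rep ζ) = ζ := by
    intro ζ hζ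
    have h := hτ ζ hζ
    simp only [rep, h, dif_pos]
    exact h.choose_spec
  refine descsurvive_claim (x := x) (o := o) (τ := τ) ho hrep ha hY hZ hX ξ τ hξ
    (fun _ => (0, 0)) 0 ⟨fun k hk => absurd hk (Nat.not_lt_zero k), fun k hk => ?_⟩
    (Or.inl ⟨rfl, le_refl _⟩) [] (fun f hf => ?_) (fun f hf => ?_)
  · omega
  · simp at hf
  · simp at hf

end Pool.Agent.MPa662fc
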