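import Mathlib
import Pool.Agent.Lib.MP_a662fc_lc.Fam

/-!
# The theory of the rank tables

A function `y : ℕ → ℕ` codes a linear order on `ℕ` (the names of ordinals), the table of the
ranks of all positions of all games over sums of two named ordinals, and witnesses. The axioms
are given by a set `TabV` of forbidden finite partial assignments.
-/

namespace Pool.Agent.MPa662fc

open Ordinal Pool.Agent.MP752584 Encodable

/-- A fact with tagged names in place of elements: the tag of `t` is `t % 2` and the name is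
`t / 2`. -/
abbrev NFact := ℕ × ℕ × ℕ × ℕ × ℕ

/-- A position with tagged names. -/
abbrev NPos := List NFact

/-- The tagged names occurring in a position. -/
def nelems (u : NPos) : List ℕ := u.flatMap fun f => [f.2.1, f.2.2.1, f.2.2.2.2]

/-- `y` avoids all forbidden assignments in `V`. -/
def Avoids (V : List (ℕ × ℕ) → Prop) (y : ℕ → ℕ) : Prop := ∀ L, V L → ¬ ∀ c ∈ L, y c.1 = c.2

/-- Index of the statement `m < n` (the value is `0` iff it is true). -/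
def iLT (m n : ℕ) : ℕ := Nat.pair 0 (Nat.pair m n)

/-- Index of the statement that the rank of `u` in the game `e` over `a + b` is at most `ξ` (value
`0` iff true). -/
def iR (e a b : ℕ) (u : NPos) (ξ : ℕ) : ℕ := Nat.pair 1 (encode (e, a, b, u, ξ))

/-- Index of the justification of a true rank statement. -/
def iJ (e a b : ℕ) (u : NPos) (ξ : ℕ) : ℕ := Nat.pair 2 (encode (e, a, b, u, ξ))

/-- Index of the smaller rank after the answer `(v, c)`. -/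
def iK (e a b : ℕ) (u : NPos) (ξ v c : ℕ) : ℕ := Nat.pair 3 (encode (e, a, b, u, ξ, v, c))

/-- Index of the answer (`Nat.pair v c`) to the query `(i, s, t)` when the rank statement is
false. -/
def iA (e a b : ℕ) (u : NPos) (ξ i s t : ℕ) : ℕ := Nat.pair 4 (encode (e, a, b, u, ξ, i, s, t))

/-- Index of the kind of the ordinal `κ`. -/
def iF (κ : ℕ) : ℕ := Nat.pair 5 κ

/-- Index of the predecessor. -/
def iP (κ : ℕ) : ℕ := Nat.pair 6 κ

/-- Index of the witness `(e, a, b)` that `κ` is not closed. -/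
def iC (κ : ℕ) : ℕ := Nat.pair 7 κ

/-- Index of a position of rank exactly `ξ`. -/
def iU (κ ξ : ℕ) : ℕ := Nat.pair 8 (Nat.pair κ ξ)

/-- Index of the stage at which the game `e` over `κ + γ` is stable. -/
def iS (κ e γ : ℕ) : ℕ := Nat.pair 9 (encode (κ, e, γ))

/-- Index of a smaller rank of `u`. -/
def iT (κ e γ : ℕ) (u : NPos) : ℕ := Nat.pair 10 (encode (κ, e, γ, u))

/-- Index of the witness `(e, γ₁, δ)` that `γ` is not a bound for `κ`. -/
def iN (κ γ : ℕ) : ℕ := Nat.pair 11 (Nat.pair κ γ)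

/-- Index of a rank of the initial position of the game over `κ + γ'`. -/
def iO (κ γ γ' : ℕ) : ℕ := Nat.pair 12 (encode (κ, γ, γ'))

/-- The assignment saying that the tagged name `t` is in `a + b`. -/
def iV (a b t : ℕ) : ℕ := iLT (t / 2) (if t % 2 = 0 then a else b)

/-- The assignment of tagged names to variables given by a list. -/
def gL (L : List ℕ) (n : ℕ) : ℕ := L.getD n (L.headD 0)

/-- The assignment `L` realizes the pattern `π` in the position `u`, except for the comparison of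
names with the same tag. -/
def RealN (π : Pattern) (u : NPos) (L : List ℕ) : Prop :=
  L ≠ [] ∧ (∀ t ∈ L, t ∈ nelems u) ∧ ∀ l ∈ π,
    (l.1 = 0 → (l.2.1, gL L l.2.2.1, gL L l.2.2.2.1, l.2.2.2.2.1, gL L l.2.2.2.2.2) ∈ u) ∧
    (l.1 ≠ 0 → gL L l.2.2.1 % 2 ≤ gL L l.2.2.2.1 % 2)

/-- The comparisons of names with the same tag which are required by the pattern. -/
def ltReq (π : Pattern) (L : List ℕ) : List (ℕ × ℕ) :=
  π.filterMap fun l =>
    if l.1 ≠ 0 ∧ gL L l.2.2.1 % 2 = gL L l.2.2.2.1 % 2 then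
      some (iLT (gL L l.2.2.1 / 2) (gL L l.2.2.2.1 / 2), 0) else none

/-- The position contains two different answers to the same query. -/
def Contra (u : NPos) : Prop :=
  ∃ f ∈ u, ∃ f' ∈ u, f.1 = f'.1 ∧ f.2.1 = f'.2.1 ∧ f.2.2.1 = f'.2.2.1 ∧ f.2.2.2 ≠ f'.2.2.2

/-- The assignments saying that all tagged names in `u` are in `a + b`. -/
def valReq (a b : ℕ) (u : NPos) : List (ℕ × ℕ) := (nelems u).map fun t => (iV a b t, 0)

/-- The forbidden assignments for the linear order and the rank tables. -/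
inductive TabR : List (ℕ × ℕ) → Prop
  -- linear order
  | irrefl (n : ℕ) : TabR [(iLT n n, 0)]
  | trans (l m n v : ℕ) (h : v ≠ 0) : TabR [(iLT l m, 0), (iLT m n, 0), (iLT l n, v)]
  | total (m n v w : ℕ) (h : m ≠ n) (hv : v ≠ 0) (hw : w ≠ 0) : TabR [(iLT m n, v), (iLT n m, w)]
  -- bad positions have all ranks
  | badC (e a b : ℕ) (u : NPos) (ξ v : ℕ) (hv : v ≠ 0) (h : Contra u) : TabR [(iR e a b u ξ, v)]
  | badP (e a b : ℕ) (u : NPos) (ξ v : ℕ) (hv : v ≠ 0) (π : Pattern) (n : ℕ) (L : List ℕ)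
      (h : thA e π n = true) (h' : RealN π u L) : TabR ((iR e a b u ξ, v) :: ltReq π L)
  -- justification of true rank statements
  | j0 (e a b : ℕ) (u : NPos) (ξ w : ℕ) (h : decode (α := Pattern × ℕ × List ℕ) w = none) :
      TabR [(iR e a b u ξ, 0), (iJ e a b u ξ, Nat.pair 0 w)]
  | j0' (e a b : ℕ) (u : NPos) (ξ : ℕ) (π : Pattern) (n : ℕ) (L : List ℕ)
      (h : ¬ (thA e π n = true ∧ RealN π u L)) :
      TabR [(iR e a b u ξ, 0), (iJ e a b u ξ, Nat.pair 0 (encode (π, n, L)))]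
  | j0'' (e a b : ℕ) (u : NPos) (ξ : ℕ) (π : Pattern) (n : ℕ) (L : List ℕ) (i v : ℕ) (hv : v ≠ 0)
      (h : (i, 0) ∈ ltReq π L) :
      TabR [(iR e a b u ξ, 0), (iJ e a b u ξ, Nat.pair 0 (encode (π, n, L))), (i, v)]
  | j1 (e a b : ℕ) (u : NPos) (ξ w : ℕ) (h : ¬ Contra u) :
      TabR [(iR e a b u ξ, 0), (iJ e a b u ξ, Nat.pair 1 w)]
  | j2 (e a b : ℕ) (u : NPos) (ξ w : ℕ) (h : decode (α := ℕ × ℕ × ℕ) w = none) :
      TabR [(iR e a b u ξ, 0), (iJ e a b u ξ, Nat.pair 2 w)]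
  | j2s (e a b : ℕ) (u : NPos) (ξ i s t v : ℕ) (hv : v ≠ 0) :
      TabR [(iR e a b u ξ, 0), (iJ e a b u ξ, Nat.pair 2 (encode (i, s, t))), (iV a b s, v)]
  | j2t (e a b : ℕ) (u : NPos) (ξ i s t v : ℕ) (hv : v ≠ 0) :
      TabR [(iR e a b u ξ, 0), (iJ e a b u ξ, Nat.pair 2 (encode (i, s, t))), (iV a b t, v)]
  | j2k (e a b : ℕ) (u : NPos) (ξ i s t v c ξ' w : ℕ) (hw : w ≠ 0) :
      TabR [(iR e a b u ξ, 0), (iJ e a b u ξ, Nat.pair 2 (encode (i, s, t))), (iV a b c, 0),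
        (iK e a b u ξ v c, ξ'), (iLT ξ' ξ, w)]
  | j2r (e a b : ℕ) (u : NPos) (ξ i s t v c ξ' w : ℕ) (hw : w ≠ 0) :
      TabR [(iR e a b u ξ, 0), (iJ e a b u ξ, Nat.pair 2 (encode (i, s, t))), (iV a b c, 0),
        (iK e a b u ξ v c, ξ'), (iR e a b ((i, s, t, v, c) :: u) ξ', w)]
  | j3 (e a b : ℕ) (u : NPos) (ξ k w : ℕ) (h : 3 ≤ k) :
      TabR [(iR e a b u ξ, 0), (iJ e a b u ξ, Nat.pair k w)]
  -- false rank statements
  | a1 (e a b : ℕ) (u : NPos) (ξ r i s t v c w : ℕ) (hr : r ≠ 0) (hw : w ≠ 0) :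
      TabR [(iR e a b u ξ, r), (iV a b s, 0), (iV a b t, 0), (iA e a b u ξ i s t, Nat.pair v c),
        (iV a b c, w)]
  | a2 (e a b : ℕ) (u : NPos) (ξ r i s t v c ξ' : ℕ) (hr : r ≠ 0) :
      TabR [(iR e a b u ξ, r), (iV a b s, 0), (iV a b t, 0), (iA e a b u ξ i s t, Nat.pair v c),
        (iLT ξ' ξ, 0), (iR e a b ((i, s, t, v, c) :: u) ξ', 0)]

/-- The forbidden assignments for the kinds of ordinals, kinds 0, 1, 2. -/
inductive TabF : List (ℕ × ℕ) → Prop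
  -- kinds of ordinals: zero
  | f0 (κ b : ℕ) : TabF [(iF κ, 0), (iLT b κ, 0)]
  -- successor
  | f1 (κ a v : ℕ) (hv : v ≠ 0) : TabF [(iF κ, 1), (iP κ, a), (iLT a κ, v)]
  | f1' (κ a b : ℕ) : TabF [(iF κ, 1), (iP κ, a), (iLT a b, 0), (iLT b κ, 0)]
  -- not closed
  | f2 (κ c : ℕ) (h : decode (α := ℕ × ℕ × ℕ) c = none) : TabF [(iF κ, 2), (iC κ, c)]
  | f2a (κ e a b v : ℕ) (hv : v ≠ 0) : TabF [(iF κ, 2), (iC κ, encode (e, a, b)), (iLT a κ, v)]
  | f2b (κ e a b v : ℕ) (hv : v ≠ 0) : TabF [(iF κ, 2), (iC κ, encode (e, a, b)), (iLT b κ, v)]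
  | f2u (κ ξ w : ℕ) (h : decode (α := NPos) w = none) :
      TabF [(iF κ, 2), (iLT ξ κ, 0), (iU κ ξ, w)]
  | f2v (κ e a b ξ : ℕ) (u : NPos) (t v : ℕ) (ht : t ∈ nelems u) (hv : v ≠ 0) :
      TabF [(iF κ, 2), (iC κ, encode (e, a, b)), (iLT ξ κ, 0), (iU κ ξ, encode u), (iV a b t, v)]
  | f2r (κ e a b ξ : ℕ) (u : NPos) (v : ℕ) (hv : v ≠ 0) :
      TabF [(iF κ, 2), (iC κ, encode (e, a, b)), (iLT ξ κ, 0), (iU κ ξ, encode u),
        (iR e a b u ξ, v)]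
  | f2m (κ e a b ξ : ℕ) (u : NPos) (ξ' : ℕ) :
      TabF [(iF κ, 2), (iC κ, encode (e, a, b)), (iLT ξ κ, 0), (iU κ ξ, encode u),
        (iLT ξ' ξ, 0), (iR e a b u ξ', 0)]
  -- no other kinds
  | f4 (κ f : ℕ) (h : 4 ≤ f) : TabF [(iF κ, f)]

/-- The forbidden assignments for ordinals of kind 3. -/
inductive TabG : List (ℕ × ℕ) → Prop
  -- all games over `κ + γ` are stable, and `κ` is not bounded
  | f3s (κ e γ ξ : ℕ) (u : NPos) (ξ' v : ℕ) (hv : v ≠ 0) :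
      TabG ([(iF κ, 3), (iLT γ κ, 0), (iS κ e γ, ξ), (iR e κ γ u ξ, 0), (iT κ e γ u, ξ'),
        (iLT ξ' ξ, v)] ++ valReq κ γ u)
  | f3r (κ e γ ξ : ℕ) (u : NPos) (ξ' v : ℕ) (hv : v ≠ 0) :
      TabG ([(iF κ, 3), (iLT γ κ, 0), (iS κ e γ, ξ), (iR e κ γ u ξ, 0), (iT κ e γ u, ξ'),
        (iR e κ γ u ξ', v)] ++ valReq κ γ u)
  | f3n (κ γ c : ℕ) (h : decode (α := ℕ × ℕ × ℕ) c = none) :
      TabG [(iF κ, 3), (iLT γ κ, 0), (iN κ γ, c)]
  | f3a (κ γ e γ₁ δ : ℕ) :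
      TabG [(iF κ, 3), (iLT γ κ, 0), (iN κ γ, encode (e, γ₁, δ)), (iLT γ₁ γ, 0)]
  | f3b (κ γ e γ₁ δ v : ℕ) (hv : v ≠ 0) :
      TabG [(iF κ, 3), (iLT γ κ, 0), (iN κ γ, encode (e, γ₁, δ)), (iLT γ₁ κ, v)]
  | f3c (κ γ e γ₁ δ v : ℕ) (hv : v ≠ 0) :
      TabG [(iF κ, 3), (iLT γ κ, 0), (iN κ γ, encode (e, γ₁, δ)), (iLT δ κ, v)]
  | f3d (κ γ e γ₁ δ ξ : ℕ) :
      TabG [(iF κ, 3), (iLT γ κ, 0), (iN κ γ, encode (e, γ₁, δ)), (iR e κ γ₁ [] ξ, 0)]
  | f3e (κ γ e γ₁ δ γ' w ξ v : ℕ) (hw : w ≠ 0) (hv : v ≠ 0) :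
      TabG [(iF κ, 3), (iLT γ κ, 0), (iN κ γ, encode (e, γ₁, δ)), (iLT γ' κ, 0), (iLT γ' δ, w),
        (iO κ γ γ', ξ), (iR e κ γ' [] ξ, v)]

/-- The forbidden assignments. -/
def TabV (L : List (ℕ × ℕ)) : Prop := TabR L ∨ TabF L ∨ TabG L

end Pool.Agent.MPa662fc
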