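import Mathlib
import Pool.Agent.Lib.MP_a662fc_lc.Tab
import Pool.Agent.Lib.MP_a662fc_lc.Basic

/-!
# Interpretation of the names of a table by ordinals

The definitions `nm`, `trn`, `Names`, and common lemmas for the modules TabRank, TabNotGood and
TabEx.
-/

namespace Pool.Agent.MPa662fc

open Ordinal Pool.Agent.MP752584 Encodable

/-- The element named by a tagged name. -/
noncomputable def nm (o : ℕ → Ordinal.{0}) (t : ℕ) : DD := (decide (t % 2 = 1), o (t / 2))

/-- Replace the tagged names by elements. -/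
noncomputable def trn (o : ℕ → Ordinal.{0}) (u : NPos) : Pos :=
  u.map fun f => (f.1, nm o f.2.1, nm o f.2.2.1, f.2.2.2.1, nm o f.2.2.2.2)

/-- `o` is the interpretation of the names of `y` by ordinals. -/
structure Names (y : ℕ → ℕ) (o : ℕ → Ordinal.{0}) : Prop where
  inj : Function.Injective o
  lt : ∀ m n, y (iLT m n) = 0 ↔ o m < o n
  seg : ∀ n, ∀ ζ < o n, ∃ m, o m = ζ

/-! ### Elements and tagged names -/

theorem nm_inj {o : ℕ → Ordinal.{0}} (ho : Function.Injective o) : Function.Injective (nm o) := by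
  intro s t h
  simp only [nm, Prod.mk.injEq, decide_eq_decide] at h
  have h2 : s / 2 = t / 2 := ho h.2
  have h3 : s % 2 = t % 2 := by
    have := h.1
    omega
  omega

/-- The tagged name `t` names an element of the ordered sum of `o a` and `o b`. -/
theorem nm_mem_D (o : ℕ → Ordinal.{0}) (a b t : ℕ) :
    nm o t ∈ D (o a) (o b) ↔ o (t / 2) < o (if t % 2 = 0 then a else b) := by
  rcases Nat.mod_two_eq_zero_or_one t with h | h <;> simp [nm, D, h]

theorem iV_eq_zero {y : ℕ → ℕ} {o : ℕ → Ordinal.{0}} (ho : ∀ m n, y (iLT m n) = 0 ↔ o m < o n)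
    (a b t : ℕ) : y (iV a b t) = 0 ↔ nm o t ∈ D (o a) (o b) := by
  rw [nm_mem_D, iV, ho]

/-- Every element of the ordered sum has a tagged name, if all smaller ordinals have names. -/
theorem exists_nm {o : ℕ → Ordinal.{0}} {a b : ℕ} (ha : ∀ ζ < o a, ∃ m, o m = ζ)
    (hb : ∀ ζ < o b, ∃ m, o m = ζ) {s : DD} (hs : s ∈ D (o a) (o b)) : ∃ t, nm o t = s := by
  obtain ⟨i, ζ⟩ := s
  cases i with
  | false =>
    obtain ⟨m, rfl⟩ := ha ζ (hs.1 rfl)
    refine ⟨2 * m, ?_⟩
    have h1 : 2 * m % 2 = 0 := by omega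
    have h2 : 2 * m / 2 = m := by omega
    simp [nm, h1, h2]
  | true =>
    obtain ⟨m, rfl⟩ := hb ζ (hs.2 rfl)
    refine ⟨2 * m + 1, ?_⟩
    have h1 : (2 * m + 1) % 2 = 1 := by omega
    have h2 : (2 * m + 1) / 2 = m := by omega
    simp [nm, h1, h2]

theorem dlt_nm (o : ℕ → Ordinal.{0}) (s t : ℕ) :
    dlt (nm o s) (nm o t) ↔ s % 2 < t % 2 ∨ (s % 2 = t % 2 ∧ o (s / 2) < o (t / 2)) := by
  rcases Nat.mod_two_eq_zero_or_one s with h | h <;> rcases Nat.mod_two_eq_zero_or_one t with h' | h' <;>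
    simp [nm, dlt, h, h']

theorem mem_nelems {u : NPos} {t : ℕ} :
    t ∈ nelems u ↔ ∃ f ∈ u, t = f.2.1 ∨ t = f.2.2.1 ∨ t = f.2.2.2.2 := by
  simp [nelems]

theorem mem_elems_trn {o : ℕ → Ordinal.{0}} {u : NPos} {s : DD} :
    s ∈ elems (trn o u) ↔ ∃ t ∈ nelems u, s = nm o t := by
  constructor
  · rintro ⟨f, hf, h⟩
    simp only [trn, List.mem_map] at hf
    obtain ⟨f', hf', rfl⟩ := hf
    rcases h with rfl | rfl | rfl
    · exact ⟨_, mem_nelems.2 ⟨f', hf', Or.inl rfl⟩, rfl⟩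
    · exact ⟨_, mem_nelems.2 ⟨f', hf', Or.inr (Or.inl rfl)⟩, rfl⟩
    · exact ⟨_, mem_nelems.2 ⟨f', hf', Or.inr (Or.inr rfl)⟩, rfl⟩
  · rintro ⟨t, ht, rfl⟩
    obtain ⟨f, hf, h⟩ := mem_nelems.1 ht
    refine ⟨_, List.mem_map.2 ⟨f, hf, rfl⟩, ?_⟩
    rcases h with rfl | rfl | rfl
    · exact Or.inl rfl
    · exact Or.inr (Or.inl rfl)
    · exact Or.inr (Or.inr rfl)

theorem mem_trn {o : ℕ → Ordinal.{0}} (ho : Function.Injective o) {u : NPos} {i s t v c : ℕ} :
    (i, nm o s, nm o t, v, nm o c) ∈ trn o u ↔ (i, s, t, v, c) ∈ u := by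
  constructor
  · intro h
    simp only [trn, List.mem_map, Prod.mk.injEq] at h
    obtain ⟨⟨i', s', t', v', c'⟩, hf', h1, h2, h3, h4, h5⟩ := h
    have h2' := nm_inj ho h2
    have h3' := nm_inj ho h3
    have h5' := nm_inj ho h5
    simp only at h1 h2' h3' h4 h5'
    subst h1 h2' h3' h4 h5'
    exact hf'
  · intro h
    exact List.mem_map.2 ⟨_, h, rfl⟩

theorem trn_cons (o : ℕ → Ordinal.{0}) (i s t v c : ℕ) (u : NPos) :
    trn o ((i, s, t, v, c) :: u) = (i, nm o s, nm o t, v, nm o c) :: trn o u := rfl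

theorem trn_nil (o : ℕ → Ordinal.{0}) : trn o [] = [] := rfl

/-- The position `trn o u` is valid iff all tagged names in `u` are valid. -/
theorem valid_trn {o : ℕ → Ordinal.{0}} {a b : Ordinal.{0}} {u : NPos} :
    Valid a b (trn o u) ↔ ∀ t ∈ nelems u, nm o t ∈ D a b := by
  constructor
  · intro h t ht
    obtain ⟨f, hf, h'⟩ := mem_nelems.1 ht
    have := h _ (List.mem_map.2 ⟨f, hf, rfl⟩)
    rcases h' with rfl | rfl | rfl
    · exact this.1
    · exact this.2.1
    · exact this.2.2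
  · intro h f hf
    simp only [trn, List.mem_map] at hf
    obtain ⟨f', hf', rfl⟩ := hf
    exact ⟨h _ (mem_nelems.2 ⟨f', hf', Or.inl rfl⟩), h _ (mem_nelems.2 ⟨f', hf', Or.inr (Or.inl rfl)⟩),
      h _ (mem_nelems.2 ⟨f', hf', Or.inr (Or.inr rfl)⟩)⟩

/-- Every valid position is of the form `trn o u`, if all elements have names. -/
theorem exists_trn {o : ℕ → Ordinal.{0}} {a b : ℕ} (ha : ∀ ζ < o a, ∃ m, o m = ζ)
    (hb : ∀ ζ < o b, ∃ m, o m = ζ) {u : Pos} (hu : Valid (o a) (o b) u) : ∃ u', trn o u' = u := by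
  induction u with
  | nil => exact ⟨[], rfl⟩
  | cons f u ih =>
    obtain ⟨u', rfl⟩ := ih (fun f' hf' => hu f' (List.mem_cons_of_mem _ hf'))
    obtain ⟨i, s, t, v, c⟩ := f
    have h := hu (i, s, t, v, c) List.mem_cons_self
    obtain ⟨s', rfl⟩ := exists_nm ha hb h.1
    obtain ⟨t', rfl⟩ := exists_nm ha hb h.2.1
    obtain ⟨c', rfl⟩ := exists_nm ha hb h.2.2
    exact ⟨(i, s', t', v, c') :: u', rfl⟩

/-! ### Bad positions -/

theorem mem_ltReq {π : Pattern} {L : List ℕ} {c : ℕ × ℕ} (h : c ∈ ltReq π L) :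
    ∃ m n, c = (iLT m n, 0) := by
  simp only [ltReq, List.mem_filterMap] at h
  obtain ⟨l, _, h⟩ := h
  split_ifs at h with h'
  exact ⟨_, _, (Option.some.inj h).symm⟩

/-- All comparisons in `ltReq π L` are true under the interpretation `o`. -/
def LtTrue (o : ℕ → Ordinal.{0}) (π : Pattern) (L : List ℕ) : Prop :=
  ∀ l ∈ π, l.1 ≠ 0 → gL L l.2.2.1 % 2 = gL L l.2.2.2.1 % 2 →
    o (gL L l.2.2.1 / 2) < o (gL L l.2.2.2.1 / 2)

theorem ltTrue_iff {y : ℕ → ℕ} {o : ℕ → Ordinal.{0}} (ho : ∀ m n, y (iLT m n) = 0 ↔ o m < o n)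
    {π : Pattern} {L : List ℕ} : LtTrue o π L ↔ ∀ c ∈ ltReq π L, y c.1 = c.2 := by
  constructor
  · intro h c hc
    simp only [ltReq, List.mem_filterMap] at hc
    obtain ⟨l, hl, hc⟩ := hc
    split_ifs at hc with h'
    obtain rfl := (Option.some.inj hc).symm
    exact (ho _ _).2 (h l hl h'.1 h'.2)
  · intro h l hl h1 h2
    have hm : (iLT (gL L l.2.2.1 / 2) (gL L l.2.2.2.1 / 2), 0) ∈ ltReq π L := by
      refine List.mem_filterMap.2 ⟨l, hl, ?_⟩
      rw [if_pos ⟨h1, h2⟩]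
    exact (ho _ _).1 (h _ hm)

theorem gL_mem {L : List ℕ} (hL : L ≠ []) (n : ℕ) : gL L n ∈ L := by
  unfold gL
  rcases lt_or_ge n L.length with h | h
  · rw [List.getD_eq_getElem _ _ h]
    exact List.getElem_mem h
  · rw [List.getD_eq_default _ _ h]
    cases L with
    | nil => exact absurd rfl hL
    | cons a L => simp

theorem gL_map_range (t : ℕ → ℕ) {N n : ℕ} (h : n < N) : gL ((List.range N).map t) n = t n := by
  unfold gL
  rw [List.getD_eq_getElem _ _ (by simpa using h)]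
  simp

/-- A bound for the variables in a pattern. -/
def varBound (π : Pattern) : ℕ := (π.map fun l => l.2.2.1 + l.2.2.2.1 + l.2.2.2.2.2).sum + 1

theorem lt_varBound {π : Pattern} {l : Lit} (h : l ∈ π) :
    l.2.2.1 < varBound π ∧ l.2.2.2.1 < varBound π ∧ l.2.2.2.2.2 < varBound π := by
  have : l.2.2.1 + l.2.2.2.1 + l.2.2.2.2.2 ≤
      (π.map fun l => l.2.2.1 + l.2.2.2.1 + l.2.2.2.2.2).sum :=
    List.single_le_sum (fun _ _ => Nat.zero_le _) _ (List.mem_map.2 ⟨l, h, rfl⟩)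
  unfold varBound
  omega

/-- Characterisation of bad positions by names. -/
theorem bad_trn_iff {o : ℕ → Ordinal.{0}} (ho : Function.Injective o) {P : Pattern → Prop}
    {u : NPos} : Bad P (trn o u) ↔ Contra u ∨ ∃ π, P π ∧ ∃ L, RealN π u L ∧ LtTrue o π L := by
  constructor
  · rintro (⟨i, s, t, v, c, v', c', h1, h2, h3⟩ | ⟨π, hπ, g, hg, hl⟩)
    · left
      simp only [trn, List.mem_map, Prod.mk.injEq] at h1 h2
      obtain ⟨⟨i1, s1, t1, v1, c1⟩, hf1, rfl, rfl, rfl, rfl, rfl⟩ := h1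
      obtain ⟨⟨i2, s2, t2, v2, c2⟩, hf2, h4, h5, h6, h7, h8⟩ := h2
      refine ⟨_, hf1, _, hf2, h4.symm, (nm_inj ho h5).symm, (nm_inj ho h6).symm, ?_⟩
      intro h
      simp only [Prod.mk.injEq] at h h4 h5 h6 h7 h8 h3
      obtain ⟨rfl, rfl⟩ := h
      rcases h3 with h3 | h3
      · exact h3 h7
      · exact h3 h8
    · right
      refine ⟨π, hπ, ?_⟩
      choose t ht1 ht2 using fun n => mem_elems_trn.1 (hg n)
      have hg' : ∀ n < varBound π, g n = nm o (gL ((List.range (varBound π)).map t) n) :=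
        fun n hn => by rw [gL_map_range t hn]; exact ht2 n
      refine ⟨(List.range (varBound π)).map t, ⟨?_, ?_, ?_⟩, ?_⟩
      · intro h
        have := congrArg List.length h
        simp [varBound] at this
      · intro s hs
        obtain ⟨n, _, rfl⟩ := List.mem_map.1 hs
        exact ht1 n
      · intro l hlπ
        obtain ⟨b1, b2, b3⟩ := lt_varBound hlπ
        have hll := hl l hlπ
        refine ⟨fun h0 => ?_, fun h0 => ?_⟩
        · have := hll.1 h0
          rw [hg' _ b1, hg' _ b2, hg' _ b3] at this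
          exact (mem_trn ho).1 this
        · have := hll.2 h0
          rw [hg' _ b1, hg' _ b2, dlt_nm] at this
          rcases this with h | h
          · exact h.le
          · exact h.1.le
      · intro l hlπ h0 h1
        obtain ⟨b1, b2, b3⟩ := lt_varBound hlπ
        have := (hl l hlπ).2 h0
        rw [hg' _ b1, hg' _ b2, dlt_nm] at this
        rcases this with h | h
        · exact absurd h1 h.ne
        · exact h.2
  · rintro (⟨f, hf, f', hf', h1, h2, h3, h4⟩ | ⟨π, hπ, L, ⟨hL1, hL2, hL3⟩, hL4⟩)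
    · left
      obtain ⟨i1, s1, t1, v1, c1⟩ := f
      obtain ⟨i2, s2, t2, v2, c2⟩ := f'
      simp only at h1 h2 h3 h4
      subst h1 h2 h3
      refine ⟨i1, nm o s1, nm o t1, v1, nm o c1, v2, nm o c2, (mem_trn ho).2 hf, (mem_trn ho).2 hf', ?_⟩
      by_contra hcon
      push Not at hcon
      exact h4 (Prod.ext hcon.1 (nm_inj ho hcon.2))
    · right
      refine ⟨π, hπ, fun n => nm o (gL L n), fun n => ?_, fun l hl => ⟨fun h0 => ?_, fun h0 => ?_⟩⟩
      · exact mem_elems_trn.2 ⟨_, hL2 _ (gL_mem hL1 n), rfl⟩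
      · exact (mem_trn ho).2 ((hL3 l hl).1 h0)
      · refine (dlt_nm o _ _).2 ?_
        rcases ((hL3 l hl).2 h0).lt_or_eq with h | h
        · exact Or.inl h
        · exact Or.inr ⟨h, hL4 l hl h0 h⟩

end Pool.Agent.MPa662fc
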