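import Mathlib
import Pool.Agent.Lib.MP_a662fc_lc.Names

/-!
# The names of a table are well-ordered
-/

namespace Pool.Agent.MPa662fc

open Ordinal Pool.Agent.MP752584 Encodable

theorem exists_names {y : ℕ → ℕ} (hy : Avoids TabV y)
    (hwf : WellFounded fun m n => y (iLT m n) = 0) : ∃ o, Names y o := by
  have hirr : ∀ n, ¬ y (iLT n n) = 0 := by
    intro n h
    refine hy _ (Or.inl (TabR.irrefl n)) ?_
    intro c hc
    simp only [List.mem_singleton] at hc
    subst hc
    exact h
  have htrans : ∀ l m n, y (iLT l m) = 0 → y (iLT m n) = 0 → y (iLT l n) = 0 := by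
    intro l m n h1 h2
    by_contra h3
    refine hy _ (Or.inl (TabR.trans l m n _ h3)) ?_
    intro c hc
    simp only [List.mem_cons, List.not_mem_nil, or_false] at hc
    rcases hc with rfl | rfl | rfl
    · exact h1
    · exact h2
    · rfl
  have htot : ∀ m n, m ≠ n → y (iLT m n) = 0 ∨ y (iLT n m) = 0 := by
    intro m n hmn
    by_contra h
    push Not at h
    refine hy _ (Or.inl (TabR.total m n _ _ hmn h.1 h.2)) ?_
    intro c hc
    simp only [List.mem_cons, List.not_mem_nil, or_false] at hc
    rcases hc with rfl | rfl
    · rfl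
    · rfl
  let r : ℕ → ℕ → Prop := fun m n => y (iLT m n) = 0
  have : IsWellOrder ℕ r :=
    { wf := hwf
      trichotomous := by
        intro a b hab hba
        by_contra hne
        rcases htot a b hne with h | h
        · exact hab h
        · exact hba h }
  refine ⟨fun n => Ordinal.typein r n, ?_, ?_, ?_⟩
  · intro a b hab
    exact Ordinal.typein_injective r hab
  · intro m n
    exact (Ordinal.typein_lt_typein r).symm
  · intro n ζ hζ
    have h1 : ζ < Ordinal.type r := lt_trans hζ (Ordinal.typein_lt_type r n)
    exact Ordinal.typein_surj r h1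

end Pool.Agent.MPa662fc
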