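import Mathlib
import Pool.Agent.Lib.MP_a662fc_lc.Fam
import Pool.Agent.Lib.MP_a662fc_lc.Tab

/-!
# Forbidden assignments as a well-foundedness condition
-/

namespace Pool.Agent.MPa662fc

open Ordinal Pool.Agent.MP752584 Encodable

/-- The instances of the relation. -/
def exrel_Q (V : List (ℕ × ℕ) → Prop) (q : ℕ × ℕ × List (ℕ × Bool)) : Prop :=
  (∃ L : List (ℕ × ℕ), V L ∧ q = (0, 0, L.map fun c => (Nat.pair c.1 c.2, true))) ∨
  (∃ t : ℕ × ℕ × ℕ, t.2.1 ≠ t.2.2 ∧
    q = (0, 0, [(Nat.pair t.1 t.2.1, true), (Nat.pair t.1 t.2.2, true)])) ∨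
  (∃ t : ℕ × ℕ, q = (3 * t.1 + 1, 3 * t.2 + 1, [(Nat.pair (iLT t.1 t.2) 0, true)])) ∨
  ∃ t : ℕ × ℕ, q = (3 * Nat.pair t.1 (t.2 + 1) + 2, 3 * Nat.pair t.1 t.2 + 2,
    (List.range (t.2 + 1)).map fun w => (Nat.pair t.1 w, false))

theorem exrel_sd1 {V : List (ℕ × ℕ) → Prop} (hV : SD V) :
    SD (fun q : ℕ × ℕ × List (ℕ × Bool) =>
      ∃ L : List (ℕ × ℕ), V L ∧ q = (0, 0, L.map fun c => (Nat.pair c.1 c.2, true))) := by
  refine SD.ex (p := fun (q : ℕ × ℕ × List (ℕ × Bool)) (L : List (ℕ × ℕ)) =>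
    V L ∧ q = (0, 0, L.map fun c => (Nat.pair c.1 c.2, true))) ?_
  refine SD.and (hV.comp Computable.snd) (SD.eq Computable.fst ?_)
  refine Computable.pair (Computable.const 0) (Computable.pair (Computable.const 0) ?_)
  refine Primrec.to_comp ?_
  refine Primrec.list_map Primrec.snd ?_
  refine Primrec₂.pair.comp₂ ?_ (Primrec₂.const true)
  exact Primrec₂.natPair.comp₂ (Primrec.fst.comp Primrec.snd).to₂ (Primrec.snd.comp Primrec.snd).to₂

theorem exrel_sd2 :
    SD (fun q : ℕ × ℕ × List (ℕ × Bool) =>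
      ∃ t : ℕ × ℕ × ℕ, t.2.1 ≠ t.2.2 ∧
        q = (0, 0, [(Nat.pair t.1 t.2.1, true), (Nat.pair t.1 t.2.2, true)])) := by
  refine SD.ex (p := fun (q : ℕ × ℕ × List (ℕ × Bool)) (t : ℕ × ℕ × ℕ) =>
    t.2.1 ≠ t.2.2 ∧ q = (0, 0, [(Nat.pair t.1 t.2.1, true), (Nat.pair t.1 t.2.2, true)])) ?_
  refine SD.and (SD.ne ?_ ?_) (SD.eq Computable.fst ?_)
  · exact Computable.fst.comp (Computable.snd.comp Computable.snd)
  · exact Computable.snd.comp (Computable.snd.comp Computable.snd)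
  refine Computable.pair (Computable.const 0) (Computable.pair (Computable.const 0) ?_)
  refine Primrec.to_comp ?_
  have h1 : Primrec fun z : (ℕ × ℕ × List (ℕ × Bool)) × ℕ × ℕ × ℕ => z.2.1 :=
    Primrec.fst.comp Primrec.snd
  have h2 : Primrec fun z : (ℕ × ℕ × List (ℕ × Bool)) × ℕ × ℕ × ℕ => z.2.2.1 :=
    Primrec.fst.comp (Primrec.snd.comp Primrec.snd)
  have h3 : Primrec fun z : (ℕ × ℕ × List (ℕ × Bool)) × ℕ × ℕ × ℕ => z.2.2.2 :=
    Primrec.snd.comp (Primrec.snd.comp Primrec.snd)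
  refine Primrec.list_cons.comp (Primrec.pair (Primrec₂.natPair.comp h1 h2) (Primrec.const true)) ?_
  exact Primrec.list_cons.comp (Primrec.pair (Primrec₂.natPair.comp h1 h3) (Primrec.const true))
    (Primrec.const [])

theorem exrel_sd3 :
    SD (fun q : ℕ × ℕ × List (ℕ × Bool) =>
      ∃ t : ℕ × ℕ, q = (3 * t.1 + 1, 3 * t.2 + 1, [(Nat.pair (iLT t.1 t.2) 0, true)])) := by
  refine SD.ex (p := fun (q : ℕ × ℕ × List (ℕ × Bool)) (t : ℕ × ℕ) =>
    q = (3 * t.1 + 1, 3 * t.2 + 1, [(Nat.pair (iLT t.1 t.2) 0, true)])) ?_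
  refine SD.eq Computable.fst ?_
  refine Primrec.to_comp ?_
  have h1 : Primrec fun z : (ℕ × ℕ × List (ℕ × Bool)) × ℕ × ℕ => z.2.1 :=
    Primrec.fst.comp Primrec.snd
  have h2 : Primrec fun z : (ℕ × ℕ × List (ℕ × Bool)) × ℕ × ℕ => z.2.2 :=
    Primrec.snd.comp Primrec.snd
  refine Primrec.pair ?_ (Primrec.pair ?_ ?_)
  · exact Primrec.nat_add.comp (Primrec.nat_mul.comp (Primrec.const 3) h1) (Primrec.const 1)
  · exact Primrec.nat_add.comp (Primrec.nat_mul.comp (Primrec.const 3) h2) (Primrec.const 1)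
  · refine Primrec.list_cons.comp (Primrec.pair ?_ (Primrec.const true)) (Primrec.const [])
    refine Primrec₂.natPair.comp ?_ (Primrec.const 0)
    show Primrec fun z : (ℕ × ℕ × List (ℕ × Bool)) × ℕ × ℕ => Nat.pair 0 (Nat.pair z.2.1 z.2.2)
    exact Primrec₂.natPair.comp (Primrec.const 0) (Primrec₂.natPair.comp h1 h2)

theorem exrel_sd4 :
    SD (fun q : ℕ × ℕ × List (ℕ × Bool) =>
      ∃ t : ℕ × ℕ, q = (3 * Nat.pair t.1 (t.2 + 1) + 2, 3 * Nat.pair t.1 t.2 + 2,
        (List.range (t.2 + 1)).map fun w => (Nat.pair t.1 w, false))) := by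
  refine SD.ex (p := fun (q : ℕ × ℕ × List (ℕ × Bool)) (t : ℕ × ℕ) =>
    q = (3 * Nat.pair t.1 (t.2 + 1) + 2, 3 * Nat.pair t.1 t.2 + 2,
        (List.range (t.2 + 1)).map fun w => (Nat.pair t.1 w, false))) ?_
  refine SD.eq Computable.fst ?_
  refine Primrec.to_comp ?_
  have h1 : Primrec fun z : (ℕ × ℕ × List (ℕ × Bool)) × ℕ × ℕ => z.2.1 :=
    Primrec.fst.comp Primrec.snd
  have h2 : Primrec fun z : (ℕ × ℕ × List (ℕ × Bool)) × ℕ × ℕ => z.2.2 :=
    Primrec.snd.comp Primrec.snd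
  have h3 : Primrec fun z : (ℕ × ℕ × List (ℕ × Bool)) × ℕ × ℕ => z.2.2 + 1 :=
    Primrec.succ.comp h2
  refine Primrec.pair ?_ (Primrec.pair ?_ ?_)
  · exact Primrec.nat_add.comp (Primrec.nat_mul.comp (Primrec.const 3)
      (Primrec₂.natPair.comp h1 h3)) (Primrec.const 2)
  · exact Primrec.nat_add.comp (Primrec.nat_mul.comp (Primrec.const 3)
      (Primrec₂.natPair.comp h1 h2)) (Primrec.const 2)
  · refine Primrec.list_map (Primrec.list_range.comp h3) ?_
    refine Primrec₂.pair.comp₂ ?_ (Primrec₂.const false)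
    exact Primrec₂.natPair.comp₂ (h1.comp Primrec.fst).to₂ Primrec₂.right

theorem exrel_sd {V : List (ℕ × ℕ) → Prop} (hV : SD V) : SD (exrel_Q V) :=
  (exrel_sd1 hV).or (exrel_sd2.or (exrel_sd3.or exrel_sd4))

theorem exists_rel {V : List (ℕ × ℕ) → Prop} (hV : SD V) :
    ∃ Q : ℕ × ℕ × List (ℕ × Bool) → Prop, SD Q ∧
      (∀ x, WellFounded (Rel Q x) → ∃ y : ℕ → ℕ, (∀ i v, x (Nat.pair i v) = true ↔ y i = v) ∧
        Avoids V y ∧ WellFounded fun m n => y (iLT m n) = 0) ∧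
      ∀ (x : ℕ → Bool) (y : ℕ → ℕ), (∀ i v, x (Nat.pair i v) = true ↔ y i = v) → Avoids V y →
        ∀ κ, ω ≤ κ → Ranked (fun m n => y (iLT m n) = 0) κ → Ranked (Rel Q x) κ := by
  refine ⟨exrel_Q V, exrel_sd hV, ?_, ?_⟩
  · intro x hwf
    have h00 : ¬ Rel (exrel_Q V) x 0 0 := fun h => (hwf.irrefl).irrefl 0 h
    have huniq : ∀ i v v', x (Nat.pair i v) = true → x (Nat.pair i v') = true → v = v' := by
      intro i v v' hv hv'
      by_contra hne
      refine h00 ⟨_, Or.inr (Or.inl ⟨(i, v, v'), hne, rfl⟩), ?_⟩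
      intro c hc
      simp only [List.mem_cons, List.not_mem_nil, or_false] at hc
      rcases hc with rfl | rfl
      · exact hv
      · exact hv'
    have hex : ∀ i, ∃ v, x (Nat.pair i v) = true := by
      intro i
      by_contra hne
      push Not at hne
      obtain ⟨m, ⟨v, rfl⟩, hmin⟩ := hwf.has_min (Set.range fun v => 3 * Nat.pair i v + 2)
        ⟨_, 0, rfl⟩
      refine hmin _ ⟨v + 1, rfl⟩ ⟨_, Or.inr (Or.inr (Or.inr ⟨(i, v), rfl⟩)), ?_⟩
      intro c hc
      rw [List.mem_map] at hc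
      obtain ⟨w, _, rfl⟩ := hc
      exact Bool.eq_false_iff.2 (hne w)
    choose y hy using hex
    have hxy : ∀ i v, x (Nat.pair i v) = true ↔ y i = v := by
      intro i v
      constructor
      · intro h
        exact huniq i _ _ (hy i) h
      · rintro rfl
        exact hy i
    refine ⟨y, hxy, ?_, ?_⟩
    · intro L hL hall
      refine h00 ⟨_, Or.inl ⟨L, hL, rfl⟩, ?_⟩
      intro c hc
      rw [List.mem_map] at hc
      obtain ⟨d, hd, rfl⟩ := hc
      exact (hxy _ _).2 (hall d hd)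
    · refine Subrelation.wf (r := InvImage (Rel (exrel_Q V) x) fun n => 3 * n + 1) ?_
        (InvImage.wf _ hwf)
      intro m n hmn
      refine ⟨_, Or.inr (Or.inr (Or.inl ⟨(m, n), rfl⟩)), ?_⟩
      intro c hc
      rw [List.mem_singleton] at hc
      subst hc
      exact (hxy _ _).2 hmn
  · intro x y hxy hA κ hκ hR
    obtain ⟨rk, hrk, hlt⟩ := hR
    have h0κ : (0 : Ordinal.{0}) < κ := lt_of_lt_of_le Ordinal.omega0_pos hκ
    refine ⟨fun k => if k % 3 = 1 then rk (k / 3) else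
      if k % 3 = 2 then ((y (k / 3).unpair.1 - (k / 3).unpair.2 : ℕ) : Ordinal.{0}) else 0,
      ?_, ?_⟩
    · rintro m n ⟨l, hQ, hl⟩
      rcases hQ with ⟨L, hL, hq⟩ | ⟨t, ht, hq⟩ | ⟨t, hq⟩ | ⟨t, hq⟩
      · exfalso
        simp only [Prod.mk.injEq] at hq
        obtain ⟨_, _, rfl⟩ := hq
        refine hA L hL fun c hc => (hxy _ _).1 ?_
        exact hl (Nat.pair c.1 c.2, true) (List.mem_map.2 ⟨c, hc, rfl⟩)
      · exfalso
        simp only [Prod.mk.injEq] at hq
        obtain ⟨_, _, rfl⟩ := hq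
        apply ht
        rw [← (hxy t.1 t.2.1).1 (hl (Nat.pair t.1 t.2.1, true) (by simp)),
          ← (hxy t.1 t.2.2).1 (hl (Nat.pair t.1 t.2.2, true) (by simp))]
      · simp only [Prod.mk.injEq] at hq
        obtain ⟨rfl, rfl, rfl⟩ := hq
        have h1 : (3 * t.1 + 1) % 3 = 1 := by omega
        have h2 : (3 * t.2 + 1) % 3 = 1 := by omega
        have h3 : (3 * t.1 + 1) / 3 = t.1 := by omega
        have h4 : (3 * t.2 + 1) / 3 = t.2 := by omega
        simp only [h1, h2, h3, h4, if_true]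
        exact hrk _ _ ((hxy _ _).1 (hl (Nat.pair (iLT t.1 t.2) 0, true) (by simp)))
      · simp only [Prod.mk.injEq] at hq
        obtain ⟨rfl, rfl, rfl⟩ := hq
        have h1 : ∀ k, (3 * k + 2) % 3 = 2 := by intro k; omega
        have h2 : ∀ k, (3 * k + 2) / 3 = k := by intro k; omega
        have h3 : ∀ w ≤ t.2, y t.1 ≠ w := by
          intro w hw he
          have h4 := hl (Nat.pair t.1 w, false)
            (List.mem_map.2 ⟨w, List.mem_range.2 (by omega), rfl⟩)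
          have h5 := (hxy t.1 w).2 he
          simp only at h4
          rw [h5] at h4
          exact Bool.noConfusion h4
        have h4 : t.2 < y t.1 := by
          by_contra h
          exact h3 (y t.1) (by omega) rfl
        simp only [h1, h2, Nat.unpair_pair]
        rw [if_neg (by norm_num), if_pos trivial, if_neg (by norm_num), if_pos trivial]
        rw [Nat.cast_lt]
        omega
    · intro n
      dsimp only
      split_ifs
      · exact hlt _
      · exact lt_of_lt_of_le (Ordinal.natCast_lt_omega0 _) hκ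
      · exact h0κ

end Pool.Agent.MPa662fc
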