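import Mathlib
import Pool.Agent.Lib.MP_a662fc_lc.Fam
import Pool.Agent.Lib.MP_a662fc_lc.Basic

/-!
# The transfer of winning positions from `ω₁ + γ` to `κ + γ`

A Löwenheim-Skolem argument: if `κ` is closed under countably many functions which choose answers
(in positions where the refuting player does not win over `ω₁ + γ`) and queries (where he wins),
then he wins the game over `κ + γ` iff he wins the game over `ω₁ + γ`.
-/

namespace Pool.Agent.MPa662fc

open Ordinal Pool.Agent.MP752584 Encodable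

/-- The part of a position without ordinals. -/
def transfer_skel (u : Pos) : List (ℕ × Bool × Bool × ℕ × Bool) :=
  u.map fun f => (f.1, f.2.1.1, f.2.2.1.1, f.2.2.2.1, f.2.2.2.2.1)

/-- The ordinals of a position. -/
def transfer_ords : Pos → List Ordinal.{0}
  | [] => []
  | f :: u => f.2.1.2 :: f.2.2.1.2 :: f.2.2.2.2.2 :: transfer_ords u

/-- The position with the given skeleton and ordinals. -/
def transfer_build : List (ℕ × Bool × Bool × ℕ × Bool) → List Ordinal.{0} → Pos
  | k :: sk, x :: y :: z :: l =>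
      (k.1, (k.2.1, x), (k.2.2.1, y), k.2.2.2.1, (k.2.2.2.2, z)) :: transfer_build sk l
  | _, _ => []

theorem transfer_build_eq (u : Pos) : transfer_build (transfer_skel u) (transfer_ords u) = u := by
  induction u with
  | nil => rfl
  | cons f u ih =>
    rw [transfer_ords]
    show _ :: transfer_build (transfer_skel u) (transfer_ords u) = _
    rw [ih]

theorem transfer_build_mem {κ : Ordinal.{0}} (sk : List (ℕ × Bool × Bool × ℕ × Bool))
    (l : List Ordinal.{0}) (hl : ∀ a ∈ l, a < κ) :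
    ∀ f ∈ transfer_build sk l, f.2.1.2 < κ ∧ f.2.2.1.2 < κ ∧ f.2.2.2.2.2 < κ := by
  fun_induction transfer_build sk l with
  | case1 k sk x y z l ih =>
    intro f hf
    rw [List.mem_cons] at hf
    rcases hf with rfl | hf
    · exact ⟨hl _ (by simp), hl _ (by simp), hl _ (by simp)⟩
    · exact ih (fun a ha => hl a (by simp [ha])) f hf
  | case2 => intro f hf; simp at hf

theorem transfer_ords_lt {κ : Ordinal.{0}} (u : Pos)
    (h : ∀ f ∈ u, f.2.1.2 < κ ∧ f.2.2.1.2 < κ ∧ f.2.2.2.2.2 < κ) : ∀ a ∈ transfer_ords u, a < κ := by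
  induction u with
  | nil => intro a ha; simp [transfer_ords] at ha
  | cons f u ih =>
    intro a ha
    rw [transfer_ords, List.mem_cons, List.mem_cons, List.mem_cons] at ha
    obtain ⟨h1, h2, h3⟩ := h f (by simp)
    rcases ha with rfl | rfl | rfl | ha
    · exact h1
    · exact h2
    · exact h3
    · exact ih (fun g hg => h g (by simp [hg])) a ha

/-- Elements of `D a b` have ordinals below every `κ ≥ a, b`. -/
theorem transfer_D_lt {a b κ : Ordinal.{0}} (ha : a ≤ κ) (hb : b ≤ κ) {s : DD} (hs : s ∈ D a b) :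
    s.2 < κ := by
  obtain ⟨h1, h2⟩ := hs
  rcases h : s.1 with _ | _
  · exact (h1 h).trans_le ha
  · exact (h2 h).trans_le hb

instance transfer_small (a b : Ordinal.{0}) : Small.{0} (D a b) := by
  let f : D a b → Bool × Set.Iio (max a b) := fun s =>
    (s.1.1, ⟨s.1.2, transfer_D_lt (le_max_left _ _) (le_max_right _ _) s.2⟩)
  have hf : Function.Injective f := by
    rintro ⟨⟨t, x⟩, hs⟩ ⟨⟨t', x'⟩, hs'⟩ h
    have h1 : t = t' := congrArg Prod.fst h
    have h2 : x = x' := congrArg (fun q : Bool × Set.Iio (max a b) => q.2.1) h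
    subst h1 h2
    rfl
  exact small_of_injective hf

/-- If the refuting player wins after every answer, he wins. -/
theorem transfer_ask {P : Pattern → Prop} {a b : Ordinal.{0}} {u : Pos} {i : ℕ} {s t : DD}
    (hs : s ∈ D a b) (ht : t ∈ D a b)
    (h : ∀ v, ∀ c ∈ D a b, ∃ ξ, W P a b ξ ((i, s, t, v, c) :: u)) : ∃ ξ, W P a b ξ u := by
  classical
  choose r hr using fun q : ℕ × D a b => h q.1 q.2.1 q.2.2
  have hb : BddAbove (Set.range fun q => r q + 1) := Ordinal.bddAbove_of_small
  refine ⟨⨆ q, (r q + 1), W.cases_iff.2 (Or.inr ⟨i, s, hs, t, ht, fun v c hc => ?_⟩)⟩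
  refine ⟨r (v, ⟨c, hc⟩), ?_, hr (v, ⟨c, hc⟩)⟩
  have : r (v, ⟨c, hc⟩) + 1 ≤ ⨆ q, (r q + 1) := le_ciSup hb (v, ⟨c, hc⟩)
  exact lt_of_lt_of_le (lt_add_one _) this

/-- `(v, c)` is a surviving answer. -/
def transfer_Ans (P : Pattern → Prop) (γ : Ordinal.{0}) (i : ℕ) (s t : DD) (u : Pos)
    (q : ℕ × DD) : Prop :=
  q.2 ∈ D ω₁ γ ∧ ∀ ξ, ¬ W P ω₁ γ ξ ((i, s, t, q.1, q.2) :: u)

/-- `(i, s, t)` is a winning query. -/
def transfer_Que (P : Pattern → Prop) (γ : Ordinal.{0}) (u : Pos) (q : ℕ × DD × DD) : Prop :=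
  q.2.1 ∈ D ω₁ γ ∧ q.2.2 ∈ D ω₁ γ ∧ ∀ ξ, W P ω₁ γ ξ u → ∀ v, ∀ c ∈ D ω₁ γ,
    ∃ ξ' < ξ, W P ω₁ γ ξ' ((q.1, q.2.1, q.2.2, v, c) :: u)

open Classical in
/-- The ordinals of the chosen answers and queries; the data are coded by a position. -/
noncomputable def transfer_out (P : Pattern → Prop) : ℕ → Pos → Ordinal.{0}
  | _, [] => 0
  | 0, f :: u => if h : ∃ q, transfer_Ans P f.2.2.2.2.2 f.1 f.2.1 f.2.2.1 u q then h.choose.2.2
      else 0
  | 1, f :: u => if h : ∃ q, transfer_Que P f.2.2.2.2.2 u q then h.choose.2.1.2 else 0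
  | _, f :: u => if h : ∃ q, transfer_Que P f.2.2.2.2.2 u q then h.choose.2.2.2 else 0

open Classical in
theorem transfer_out_lt (P : Pattern → Prop) (k : ℕ) (u : Pos)
    (h : ∀ f ∈ u, f.2.1.2 < ω₁ ∧ f.2.2.1.2 < ω₁ ∧ f.2.2.2.2.2 < ω₁) :
    transfer_out P k u < ω₁ := by
  have h0 : (0 : Ordinal.{0}) < ω₁ := Ordinal.omega_pos 1
  rcases u with _ | ⟨f, u⟩
  · simpa [transfer_out] using h0
  have hγ : f.2.2.2.2.2 < ω₁ := (h f (by simp)).2.2
  rcases k with _ | _ | k
  · show (if h : _ then _ else _) < ω₁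
    split_ifs with hq
    · exact transfer_D_lt le_rfl hγ.le hq.choose_spec.1
    · exact h0
  · show (if h : _ then _ else _) < ω₁
    split_ifs with hq
    · exact transfer_D_lt le_rfl hγ.le hq.choose_spec.1
    · exact h0
  · show (if h : _ then _ else _) < ω₁
    split_ifs with hq
    · exact transfer_D_lt le_rfl hγ.le hq.choose_spec.2.1
    · exact h0

/-- `D κ γ ⊆ D ω₁ γ`. -/
theorem transfer_D_mono {κ γ : Ordinal.{0}} (h : κ < ω₁) {s : DD} (hs : s ∈ D κ γ) : s ∈ D ω₁ γ :=
  ⟨fun h1 => (hs.1 h1).trans h, hs.2⟩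

/-- An element of `D ω₁ γ` with ordinal below `κ` is in `D κ γ`. -/
theorem transfer_D_of_lt {κ γ : Ordinal.{0}} {s : DD} (hs : s ∈ D ω₁ γ) (h : s.2 < κ) :
    s ∈ D κ γ :=
  ⟨fun _ => h, hs.2⟩

theorem transfer (P : Pattern → Prop) : ∃ F : ℕ → List Ordinal.{0} → Ordinal.{0},
    (∀ j l, (∀ a ∈ l, a < ω₁) → F j l < ω₁) ∧
    ∀ κ < ω₁, (∀ j l, (∀ a ∈ l, a < κ) → F j l < κ) → ∀ γ < κ,
      ((∃ ξ, W P κ γ ξ []) ↔ ∃ ξ, W P ω₁ γ ξ []) := by
  classical
  let dec : ℕ → ℕ × List (ℕ × Bool × Bool × ℕ × Bool) := fun j =>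
    ((decode j : Option (ℕ × List (ℕ × Bool × Bool × ℕ × Bool))).getD (0, []))
  let F : ℕ → List Ordinal.{0} → Ordinal.{0} := fun j l =>
    transfer_out P (dec j).1 (transfer_build (dec j).2 l)
  refine ⟨F, fun j l hl => transfer_out_lt P _ _ (transfer_build_mem _ l hl), ?_⟩
  intro κ hκ hF γ hγ
  have hout : ∀ (k : ℕ) (u : Pos), (∀ f ∈ u, f.2.1.2 < κ ∧ f.2.2.1.2 < κ ∧ f.2.2.2.2.2 < κ) →
      transfer_out P k u < κ := by
    intro k u hu
    have h1 := hF (encode (k, transfer_skel u)) (transfer_ords u) (transfer_ords_lt u hu)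
    simpa [F, dec, transfer_build_eq] using h1
  have hval : ∀ u : Pos, Valid κ γ u → ∀ f ∈ u,
      f.2.1.2 < κ ∧ f.2.2.1.2 < κ ∧ f.2.2.2.2.2 < κ := by
    intro u hu f hf
    obtain ⟨h1, h2, h3⟩ := hu f hf
    exact ⟨transfer_D_lt le_rfl hγ.le h1, transfer_D_lt le_rfl hγ.le h2,
      transfer_D_lt le_rfl hγ.le h3⟩
  have hκ0 : (0 : Ordinal.{0}) < κ := lt_of_le_of_lt bot_le hγ
  constructor
  · -- the refuting player wins over `κ`
    have key : ∀ ξ u, W P κ γ ξ u → Valid κ γ u → ∃ η, W P ω₁ γ η u := by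
      intro ξ u hw
      induction hw with
      | @bad ξ u h => exact fun _ => ⟨0, .bad h⟩
      | @ask ξ u i s t hs ht r hr h ih =>
        intro hu
        by_contra hcon
        push Not at hcon
        have hex : ∃ q, transfer_Ans P γ i s t u q := by
          by_contra hno
          push Not at hno
          obtain ⟨η, hη⟩ := transfer_ask (P := P) (u := u) (i := i) (transfer_D_mono hκ hs)
            (transfer_D_mono hκ ht) (fun v c hc => by
              by_contra h'
              push Not at h'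
              exact hno (v, c) ⟨hc, h'⟩)
          exact hcon η hη
        have h1 : transfer_out P 0 ((i, s, t, 0, (false, γ)) :: u) < κ := by
          apply hout
          intro f hf
          rw [List.mem_cons] at hf
          rcases hf with rfl | hf
          · exact ⟨transfer_D_lt le_rfl hγ.le hs, transfer_D_lt le_rfl hγ.le ht, hγ⟩
          · exact hval u hu f hf
        have h2 : transfer_out P 0 ((i, s, t, 0, (false, γ)) :: u) = hex.choose.2.2 := by
          unfold transfer_out
          exact dif_pos hex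
        rw [h2] at h1
        obtain ⟨h3, h4⟩ := hex.choose_spec
        have h5 := transfer_D_of_lt h3 h1
        obtain ⟨η, hη⟩ := ih hex.choose.1 hex.choose.2 h5 (by
          intro f hf
          rw [List.mem_cons] at hf
          rcases hf with rfl | hf
          · exact ⟨hs, ht, h5⟩
          · exact hu f hf)
        exact h4 η hη
    rintro ⟨ξ, hξ⟩
    exact key ξ [] hξ (by intro f hf; simp at hf)
  · -- the refuting player wins over `ω₁`
    have key : ∀ (ξ : Ordinal.{0}) (u : Pos), Valid κ γ u → W P ω₁ γ ξ u → W P κ γ ξ u := by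
      intro ξ
      induction ξ using WellFoundedLT.induction with
      | ind ξ ih =>
        intro u hu hw
        by_cases hb : Bad P u
        · exact .bad hb
        have hex : ∃ q, transfer_Que P γ u q := by
          set S : Set Ordinal.{0} := {η | W P ω₁ γ η u} with hS
          have hmem : sInf S ∈ S := csInf_mem ⟨ξ, hw⟩
          rcases W.cases_iff.1 hmem with h | ⟨i, s, hs, t, ht, h⟩
          · exact absurd h hb
          · refine ⟨(i, s, t), hs, ht, fun η hη v c hc => ?_⟩
            obtain ⟨ξ', h1, h2⟩ := h v c hc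
            exact ⟨ξ', lt_of_lt_of_le h1 (csInf_le' hη), h2⟩
        have h1 : ∀ f ∈ ((0, (false, 0), (false, 0), 0, (false, γ)) :: u : Pos),
            f.2.1.2 < κ ∧ f.2.2.1.2 < κ ∧ f.2.2.2.2.2 < κ := by
          intro f hf
          rw [List.mem_cons] at hf
          rcases hf with rfl | hf
          · exact ⟨hκ0, hκ0, hγ⟩
          · exact hval u hu f hf
        have h2 := hout 1 _ h1
        have h3 := hout 2 _ h1
        have h4 : transfer_out P 1 ((0, (false, 0), (false, 0), 0, (false, γ)) :: u) =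
            hex.choose.2.1.2 := by
          unfold transfer_out
          exact dif_pos hex
        have h5 : transfer_out P 2 ((0, (false, 0), (false, 0), 0, (false, γ)) :: u) =
            hex.choose.2.2.2 := by
          unfold transfer_out
          exact dif_pos hex
        rw [h4] at h2
        rw [h5] at h3
        obtain ⟨h6, h7, h8⟩ := hex.choose_spec
        have h9 := transfer_D_of_lt h6 h2
        have h10 := transfer_D_of_lt h7 h3
        refine W.cases_iff.2 (Or.inr ⟨hex.choose.1, hex.choose.2.1, h9, hex.choose.2.2, h10,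
          fun v c hc => ?_⟩)
        obtain ⟨ξ', h11, h12⟩ := h8 ξ hw v c (transfer_D_mono hκ hc)
        refine ⟨ξ', h11, ih ξ' h11 _ ?_ h12⟩
        intro f hf
        rw [List.mem_cons] at hf
        rcases hf with rfl | hf
        · exact ⟨h9, h10, hc⟩
        · exact hu f hf
    rintro ⟨ξ, hξ⟩
    exact ⟨ξ, key ξ [] (by intro f hf; simp at hf) hξ⟩

end Pool.Agent.MPa662fc
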