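import Mathlib
import Pool.Agent.Lib.MP_a662fc_lc.StabM
import Pool.Agent.Lib.MP_a662fc_lc.Closed
import Pool.Agent.Lib.MP_a662fc_lc.Transfer

/-!
# Countable good ordinals exist
-/

namespace Pool.Agent.MPa662fc

open Ordinal Pool.Agent.MP752584 Encodable

theorem exists_good : ∃ κ < ω₁, Good κ := by
  classical
  have h0 : (0 : Ordinal.{0}) < ω₁ := Ordinal.omega_pos 1
  -- bounds for the theories with a bounded set of models
  have hbd : ∀ e, ∃ b < ω₁, (∃ c < ω₁, ∀ γ < ω₁, (∀ ξ, ¬ W (Th e) ω₁ γ ξ []) → γ < c) →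
      ∀ γ < ω₁, (∀ ξ, ¬ W (Th e) ω₁ γ ξ []) → γ < b := by
    intro e
    by_cases h : ∃ c < ω₁, ∀ γ < ω₁, (∀ ξ, ¬ W (Th e) ω₁ γ ξ []) → γ < c
    · obtain ⟨c, hc, h'⟩ := h
      exact ⟨c, hc, fun _ => h'⟩
    · exact ⟨0, h0, fun h' => absurd h' h⟩
  choose b hb1 hb2 using hbd
  set θ : Ordinal.{0} := ⨆ e, b e with hθ
  have hθω : θ < ω₁ := Ordinal.iSup_lt_omega_one hb1
  have hbθ : ∀ e, b e ≤ θ := fun e => le_ciSup Ordinal.bddAbove_of_small e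
  -- the next model
  have hnx : ∀ (e : ℕ) (δ : Ordinal.{0}), ∃ γ : Ordinal.{0}, (δ < ω₁ → γ < ω₁) ∧
      ((∃ γ' < ω₁, δ ≤ γ' ∧ ∀ ξ, ¬ W (Th e) ω₁ γ' ξ []) →
        γ < ω₁ ∧ δ ≤ γ ∧ ∀ ξ, ¬ W (Th e) ω₁ γ ξ []) := by
    intro e δ
    by_cases h : ∃ γ' < ω₁, δ ≤ γ' ∧ ∀ ξ, ¬ W (Th e) ω₁ γ' ξ []
    · obtain ⟨γ, h1, h2, h3⟩ := h
      exact ⟨γ, fun _ => h1, fun _ => ⟨h1, h2, h3⟩⟩
    · exact ⟨0, fun _ => h0, fun h' => absurd h' h⟩
  choose nx hnx1 hnx2 using hnx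
  -- the stabilisation stages
  have hst : ∀ (e : ℕ) (x y : Ordinal.{0}), ∃ ξ < ω₁, x < ω₁ → y < ω₁ → Stab (Th e) x y ξ := by
    intro e x y
    by_cases h : x < ω₁ ∧ y < ω₁
    · obtain ⟨ξ, h1, h2⟩ := exists_stab (Th e) h.1 h.2
      exact ⟨ξ, h1, fun _ _ => h2⟩
    · exact ⟨0, h0, fun h1 h2 => absurd ⟨h1, h2⟩ h⟩
  choose st hst1 hst2 using hst
  choose T hT1 hT2 using fun e => transfer (Th e)
  let F : ℕ → List Ordinal.{0} → Ordinal.{0} := fun j l =>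
    if j.unpair.1 = 0 then T j.unpair.2.unpair.1 j.unpair.2.unpair.2 l
    else if j.unpair.1 = 1 then st j.unpair.2 (l.getD 0 0) (l.getD 1 0)
    else nx j.unpair.2 (l.getD 0 0)
  have hget : ∀ (l : List Ordinal.{0}) (n : ℕ), (∀ a ∈ l, a < ω₁) → l.getD n 0 < ω₁ := by
    intro l n hl
    rw [List.getD_eq_getElem?_getD]
    rcases h : l[n]? with _ | a
    · exact h0
    · exact hl a (List.mem_of_getElem? h)
  obtain ⟨κ, hκ, hθκ, hκs, hκF⟩ := exists_closed F (by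
    intro j l hl
    simp only [F]
    split_ifs
    · exact hT1 _ _ _ hl
    · exact hst1 _ _ _
    · exact hnx1 _ _ (hget l 0 hl)) hθω
  have hκ0 : 0 < κ := lt_of_le_of_lt bot_le hθκ
  have hκT : ∀ e j l, (∀ a ∈ l, a < κ) → T e j l < κ := by
    intro e j l hl
    have := hκF (Nat.pair 0 (Nat.pair e j)) l hl
    simpa [F] using this
  have hκst : ∀ e x y, x < κ → y < κ → st e x y < κ := by
    intro e x y hx hy
    have := hκF (Nat.pair 1 e) [x, y] (by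
      intro a ha
      simp only [List.mem_cons, List.not_mem_nil, or_false] at ha
      rcases ha with rfl | rfl
      · exact hx
      · exact hy)
    simpa [F] using this
  have hκnx : ∀ e δ, δ < κ → nx e δ < κ := by
    intro e δ hδ
    have := hκF (Nat.pair 2 e) [δ] (by
      intro a ha
      simp only [List.mem_cons, List.not_mem_nil, or_false] at ha
      rwa [ha])
    simpa [F] using this
  have htr : ∀ e, ∀ γ < κ, (∃ ξ, W (Th e) κ γ ξ []) ↔ ∃ ξ, W (Th e) ω₁ γ ξ [] :=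
    fun e => hT2 e κ hκ (hκT e)
  refine ⟨κ, hκ, hκ0, hκs, fun e x hx y hy => ⟨st e x y, hκst e x y hx hy,
    hst2 e x y (hx.trans hκ) (hy.trans hκ)⟩, θ, hθκ, fun e => ?_⟩
  by_cases h : ∃ c < ω₁, ∀ γ < ω₁, (∀ ξ, ¬ W (Th e) ω₁ γ ξ []) → γ < c
  · left
    intro γ hγ1 hγ2
    rw [htr e γ hγ2]
    by_contra hcon
    push Not at hcon
    exact absurd (hb2 e h γ (hγ2.trans hκ) hcon) (not_lt.2 ((hbθ e).trans hγ1))
  · right
    intro δ hδ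
    push Not at h
    obtain ⟨γ', h1, h2, h3⟩ := h δ (hδ.trans hκ)
    obtain ⟨h4, h5, h6⟩ := hnx2 e δ ⟨γ', h1, h3, h2⟩
    refine ⟨nx e δ, h5, hκnx e δ hδ, fun ξ hξ => ?_⟩
    obtain ⟨ξ', hξ'⟩ := (htr e _ (hκnx e δ hδ)).1 ⟨ξ, hξ⟩
    exact h6 ξ' hξ'

end Pool.Agent.MPa662fc
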