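import Mathlib
import Pool.Agent.Lib.MP_a662fc_lc.Defs
import Pool.Agent.Lib.MP_a662fc_lc.Fam
import Pool.Agent.Lib.MP_a662fc_lc.MDefs
import Pool.Agent.Lib.MP_a662fc_lc.Basic
import Pool.Agent.Lib.MP_a662fc_lc.Compile

/-!
# The wide machine that executes write operations in blocks of length `ω`
-/

namespace Pool.Agent.MPa662fc

open Ordinal Pool.Agent.MP752584 Encodable

/-! ### Reachability in at least one step, with a condition on the way -/

/-- `c'` is reached from `c` in at least one step, and `P` holds on the way. -/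
def loop_R {S : Type} (T : S → S) (P : S → Prop) (c c' : S) : Prop :=
  ∃ m, 0 < m ∧ T^[m] c = c' ∧ ∀ i ≤ m, P (T^[i] c)

theorem loop_R.trans {S : Type} {T : S → S} {P : S → Prop} {c c' c'' : S} (h : loop_R T P c c')
    (h' : loop_R T P c' c'') : loop_R T P c c'' := by
  obtain ⟨m, hm, h1, h2⟩ := h
  obtain ⟨n, hn, h3, h4⟩ := h'
  refine ⟨n + m, by omega, ?_, fun i hi => ?_⟩
  · rw [Function.iterate_add_apply, h1, h3]
  · rcases le_or_gt i m with h | h
    · exact h2 i h
    · obtain ⟨j, rfl⟩ := Nat.exists_eq_add_of_lt h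
      have : T^[m + j + 1] c = T^[j + 1] c' := by
        rw [← h1, ← Function.iterate_add_apply, show j + 1 + m = m + j + 1 by omega]
      rw [this]
      exact h4 _ (by omega)

theorem loop_R.one {S : Type} {T : S → S} {P : S → Prop} {c c' : S} (h : T c = c') (h0 : P c)
    (h1 : P c') : loop_R T P c c' := by
  refine ⟨1, one_pos, h, fun i hi => ?_⟩
  rcases Nat.le_one_iff_eq_zero_or_eq_one.1 hi with rfl | rfl
  · exact h0
  · rw [Function.iterate_one, h]
    exact h1

theorem loop_R.mono {S : Type} {T : S → S} {P Q : S → Prop} {c c' : S} (h : loop_R T P c c')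
    (hPQ : ∀ c, P c → Q c) : loop_R T Q c c' := by
  obtain ⟨m, hm, h1, h2⟩ := h
  exact ⟨m, hm, h1, fun i hi => hPQ _ (h2 i hi)⟩

/-! ### The abstract loop -/

theorem loop_run_iterate (w : WProg) (x : ℕ → Bool) (α : Ordinal.{0}) (m : ℕ) :
    w.run x (ω * α + m) = (w.step x)^[m] (w.run x (ω * α)) := by
  induction m with
  | zero => simp
  | succ m ih => rw [WProg.run_block_succ, ih, Function.iterate_succ_apply']

theorem loop_find (t : ℕ → ℕ) (ht : StrictMono t) (m : ℕ) (h : t 0 ≤ m) :
    ∃ s, t s ≤ m ∧ m < t (s + 1) := by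
  classical
  have hex : ∃ s, m < t (s + 1) := ⟨m, lt_of_lt_of_le (Nat.lt_succ_self m) (ht.le_apply)⟩
  refine ⟨Nat.find hex, ?_, Nat.find_spec hex⟩
  rcases Nat.eq_zero_or_pos (Nat.find hex) with h0 | h0
  · rw [h0]; exact h
  · have := Nat.find_min hex (Nat.sub_lt h0 one_pos)
    rw [show Nat.find hex - 1 + 1 = Nat.find hex by omega] at this
    omega

/-- A block. -/
theorem loop_block {S : Type} (T : S → S) (arr : S → ℕ → Bool)
    (F : ℕ → (ℕ → Bool) → ℕ → Bool) (I : ℕ → (ℕ → Bool) → S → Prop)
    (h2 : ∀ s a c, I s a c → ∃ m, 0 < m ∧ I (s + 1) (F s a) (T^[m] c) ∧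
      ∀ i ≤ m, arr (T^[i] c) = a ∨ arr (T^[i] c) = F s a)
    (c : S) (a : ℕ → Bool) (h : I 0 a (T c)) :
    ∃ t : ℕ → ℕ, StrictMono t ∧ t 0 = 1 ∧ (∀ s, I s (blockArr F a s) (T^[t s] c)) ∧
      ∀ s m, t s ≤ m → m < t (s + 1) →
        arr (T^[m] c) = blockArr F a s ∨ arr (T^[m] c) = blockArr F a (s + 1) := by
  have key : ∀ s m, I s (blockArr F a s) (T^[m] c) → ∃ m', m < m' ∧
      I (s + 1) (blockArr F a (s + 1)) (T^[m'] c) ∧ ∀ i, m ≤ i → i < m' →
        arr (T^[i] c) = blockArr F a s ∨ arr (T^[i] c) = blockArr F a (s + 1) := by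
    intro s m hm
    obtain ⟨n, hn, h3, h4⟩ := h2 _ _ _ hm
    refine ⟨n + m, by omega, ?_, fun i hi hi' => ?_⟩
    · rw [Function.iterate_add_apply]
      exact h3
    · obtain ⟨j, rfl⟩ := Nat.exists_eq_add_of_le hi
      rw [Nat.add_comm m j, Function.iterate_add_apply]
      exact h4 j (by omega)
  choose f hf1 hf2 hf3 using key
  let u : ∀ s : ℕ, {m : ℕ // I s (blockArr F a s) (T^[m] c)} := fun s =>
    Nat.rec (motive := fun s => {m : ℕ // I s (blockArr F a s) (T^[m] c)}) ⟨1, h⟩
      (fun s p => ⟨f s p.1 p.2, hf2 s p.1 p.2⟩) s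
  refine ⟨fun s => (u s).1, strictMono_nat_of_lt_succ fun s => hf1 s (u s).1 (u s).2, rfl,
    fun s => (u s).2, fun s m h3 h4 => hf3 s (u s).1 (u s).2 m h3 h4⟩

theorem loop_abs (w : WProg) (x : ℕ → Bool) (F : ℕ → (ℕ → Bool) → ℕ → Bool) (bt : Fin w.k)
    (I : ℕ → (ℕ → Bool) → WSnap w.k w.Q → Prop)
    (h1 : ∀ c : WSnap w.k w.Q, c.state = w.lim → c.head = 0 → (∀ n, 0 < n → c.mark n bt = false) →
      I 0 c.arr (w.step x c))
    (h2 : ∀ s a c, I s a c → ∃ m, 0 < m ∧ I (s + 1) (F s a) ((w.step x)^[m] c) ∧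
      ∀ i ≤ m, ((w.step x)^[i] c).arr = a ∨ ((w.step x)^[i] c).arr = F s a)
    (h3 : ∀ s a c, I s a c → c.arr = a ∧ ∀ n, 0 < n → c.mark n bt = false) (α : Ordinal.{0}) :
    (w.run x (ω * α)).state = w.lim ∧ (w.run x (ω * α)).head = 0 ∧
    (w.run x (ω * α)).arr = startArr F α ∧
      ∀ n, 0 < n → (w.run x (ω * α)).mark n bt = false := by
  induction α using WellFoundedLT.induction with
  | _ α ih =>
  rcases eq_or_ne α 0 with rfl | hα
  · rw [mul_zero, WProg.run_zero]
    refine ⟨rfl, rfl, ?_, fun _ _ => rfl⟩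
    funext n
    exact (startArr_zero F n).symm
  · have hpos : 0 < α := pos_iff_ne_zero.2 hα
    obtain ⟨hs, hh, ha, hm⟩ := w.run_block_limit x hpos
    have hblock : ∀ β < α, ∃ t : ℕ → ℕ, StrictMono t ∧ t 0 = 1 ∧
        (∀ s, I s (blockArr F (startArr F β) s) (w.run x (ω * β + t s))) ∧
        ∀ s m, t s ≤ m → m < t (s + 1) →
          (w.run x (ω * β + m)).arr = blockArr F (startArr F β) s ∨
          (w.run x (ω * β + m)).arr = blockArr F (startArr F β) (s + 1) := by
      intro β hβ
      obtain ⟨g1, g2, g3, g4⟩ := ih β hβ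
      have g5 := h1 _ g1 g2 g4
      rw [g3] at g5
      obtain ⟨t, t1, t2, t3, t4⟩ := loop_block (w.step x) (fun c => c.arr) F I h2 _ _ g5
      refine ⟨t, t1, t2, fun s => ?_, fun s m => ?_⟩
      · rw [loop_run_iterate]; exact t3 s
      · rw [loop_run_iterate]; exact t4 s m
    choose! t t1 t2 t3 t4 using hblock
    refine ⟨hs, hh, ?_, ?_⟩
    · funext n
      rw [Bool.eq_iff_iff, ha, startArr_iff]
      constructor
      · rintro ⟨β, hβ, m, H⟩
        refine ⟨β, hβ, m, fun β' hβ' s' hle => ?_⟩
        have := H β' hβ' (t β' s') (by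
          rcases hle with h | ⟨rfl, h⟩
          · exact Or.inl h
          · exact Or.inr ⟨rfl, h.trans (t1 _ hβ).le_apply⟩)
        rw [(h3 _ _ _ (t3 β' hβ' s')).1] at this
        exact this
      · rintro ⟨β, hβ, s, H⟩
        refine ⟨β, hβ, t β s, fun β' hβ' m' hle => ?_⟩
        rcases lt_or_ge m' 1 with hlt | hge
        · have hm' : m' = 0 := by omega
          subst hm'
          have hlt' : β < β' := by
            rcases hle with h | ⟨rfl, h⟩
            · exact h
            · have := (t1 _ hβ).monotone (Nat.zero_le s)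
              rw [t2 _ hβ] at this
              omega
          have := H β' hβ' 0 (Or.inl hlt')
          rw [Nat.cast_zero, add_zero, (ih β' hβ').2.2.1]
          exact this
        · obtain ⟨s', h5, h6⟩ := loop_find (t β') (t1 _ hβ') m' (by rw [t2 _ hβ']; exact hge)
          have hle' : β < β' ∨ (β = β' ∧ s ≤ s') := by
            rcases hle with h | ⟨rfl, h⟩
            · exact Or.inl h
            · refine Or.inr ⟨rfl, ?_⟩
              by_contra hcon
              have := (t1 _ hβ).monotone (show s' + 1 ≤ s by omega)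
              omega
          have hle'' : β < β' ∨ (β = β' ∧ s ≤ s' + 1) := by
            rcases hle' with h | ⟨rfl, h⟩
            · exact Or.inl h
            · exact Or.inr ⟨rfl, by omega⟩
          rcases t4 β' hβ' s' m' h5 h6 with h | h
          · rw [h]; exact H β' hβ' s' hle'
          · rw [h]; exact H β' hβ' (s' + 1) hle''
    · intro n hn
      rw [← Bool.not_eq_true, hm]
      rintro ⟨β, hβ, m, H⟩
      have := H β hβ (t β m) (Or.inr ⟨rfl, (t1 _ hβ).le_apply⟩)
      rw [(h3 _ _ _ (t3 β hβ m)).2 n hn] at this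
      exact absurd this (by decide)

/-! ### The machine -/

/-- The states of the machine: the limit state, the states of the two fragments, and the states
for the write operation. -/
inductive loop_St (A B : Type)
  | lim
  | f (q : A)
  | g (q : B)
  | t0
  | t1
  | s (v : Option Bool)
  | b

theorem loop_finite (A B : Type) [Finite A] [Finite B] : Finite (loop_St A B) := by
  let φ : Option (Option (Option (Option (A ⊕ B ⊕ Option Bool)))) → loop_St A B := fun
    | none => .lim
    | some none => .t0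
    | some (some none) => .t1
    | some (some (some none)) => .b
    | some (some (some (some (Sum.inl q)))) => .f q
    | some (some (some (some (Sum.inr (Sum.inl q))))) => .g q
    | some (some (some (some (Sum.inr (Sum.inr v))))) => .s v
  refine Finite.of_surjective φ fun q => ?_
  cases q with
  | lim => exact ⟨none, rfl⟩
  | f q => exact ⟨some (some (some (some (Sum.inl q)))), rfl⟩
  | g q => exact ⟨some (some (some (some (Sum.inr (Sum.inl q))))), rfl⟩
  | t0 => exact ⟨some none, rfl⟩
  | t1 => exact ⟨some (some none), rfl⟩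
  | s v => exact ⟨some (some (some (some (Sum.inr (Sum.inr v))))), rfl⟩
  | b => exact ⟨some (some (some none)), rfl⟩

/-- The transition table. -/
def loop_tr {k : ℕ} (F G : Frag (k + 3 + 1)) (q : loop_St F.St G.St) (xb ab : Bool)
    (μ : Fin (k + 3 + 1) → Bool) :
    loop_St F.St G.St × Bool × (Fin (k + 3 + 1) → Bool) × Move :=
  match q with
  | .lim => (.f F.entry, ab, fun _ => true, .stay)
  | .f q => ((F.tr q xb ab μ).1.elim .t0 .f, (F.tr q xb ab μ).2)
  | .g q => ((G.tr q xb ab μ).1.elim (.f F.entry) .g, (G.tr q xb ab μ).2)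
  | .t0 => bif μ (Fin.castSucc 2) then (.s none, ab, μ, .stay) else (.t1, ab, μ, .right)
  | .t1 => bif μ (Fin.castSucc 2) then (.s (some false), ab, μ, .left)
      else (.s (some true), ab, μ, .left)
  | .s v => bif μ (Fin.castSucc 1) then (.b, v.getD ab, μ, .stay) else (.s v, ab, μ, .right)
  | .b => bif μ (Fin.last _) then (.g G.entry, ab, μ, .stay) else (.b, ab, μ, .left)

/-- The machine. -/
noncomputable def loop_w {k : ℕ} (F G : Frag (k + 3 + 1)) : WProg where
  k := k + 3 + 1
  Q := loop_St F.St G.St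
  fin :=
    haveI := F.fin
    haveI := G.fin
    haveI := loop_finite F.St G.St
    Fintype.ofFinite _
  lim := .lim
  tr := loop_tr F G

/-- One step. -/
def loop_step {k : ℕ} (F G : Frag (k + 3 + 1)) (x : ℕ → Bool)
    (c : WSnap (k + 3 + 1) (loop_St F.St G.St)) : WSnap (k + 3 + 1) (loop_St F.St G.St) :=
  let r := loop_tr F G c.state (x c.head) (c.arr c.head) (c.mark c.head)
  { state := r.1
    head := r.2.2.2.app c.head
    arr := fun n => if n = c.head then r.2.1 else c.arr n
    mark := fun n => if n = c.head then r.2.2.1 else c.mark n }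

theorem loop_step_eq {k : ℕ} (F G : Frag (k + 3 + 1)) (x : ℕ → Bool) :
    (loop_w F G).step x = loop_step F G x := rfl

/-- A step which writes back what was read. -/
theorem loop_step_same {k : ℕ} (F G : Frag (k + 3 + 1)) (x : ℕ → Bool)
    {q q' : loop_St F.St G.St} {n : ℕ} {a : ℕ → Bool} {μ : ℕ → Fin (k + 3 + 1) → Bool} {mv : Move}
    (h : loop_tr F G q (x n) (a n) (μ n) = (q', a n, μ n, mv)) :
    loop_step F G x ⟨q, n, a, μ⟩ = ⟨q', mv.app n, a, μ⟩ := by
  unfold loop_step
  simp only [h]
  congr 1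
  · funext m
    split
    · next h => rw [h]
    · rfl
  · funext m
    split
    · next h => rw [h]
    · rfl

/-- A step which writes back the marks. -/
theorem loop_step_arr {k : ℕ} (F G : Frag (k + 3 + 1)) (x : ℕ → Bool)
    {q q' : loop_St F.St G.St} {n : ℕ} {a : ℕ → Bool} {μ : ℕ → Fin (k + 3 + 1) → Bool} {mv : Move}
    {v : Bool} (h : loop_tr F G q (x n) (a n) (μ n) = (q', v, μ n, mv)) :
    loop_step F G x ⟨q, n, a, μ⟩ = ⟨q', mv.app n, Function.update a n v, μ⟩ := by
  unfold loop_step
  simp only [h]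
  congr 1
  · funext m
    split
    · next h => rw [h, Function.update_self]
    · next h => rw [Function.update_of_ne h]
  · funext m
    split
    · next h => rw [h]
    · rfl

/-- The first fragment. -/
theorem loop_runs_f {k : ℕ} (F G : Frag (k + 3 + 1)) (x : ℕ → Bool) {q : F.St}
    {c c' : TC (k + 3 + 1)} (h : F.Runs x q c c') :
    loop_R (loop_step F G x) (fun s => s.arr = c.arr) ⟨.f q, c.head, c.arr, c.mark⟩
      ⟨.t0, c'.head, c'.arr, c'.mark⟩ := by
  induction h with
  | @exit q c c' h1 h2 =>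
    refine loop_R.one ?_ rfl h2
    have h3 : (F.tr q (x c.head) (c.arr c.head) (c.mark c.head)).1 = none := by
      have := congrArg Prod.fst h1
      exact this
    have h4 := congrArg Prod.snd h1
    subst h4
    unfold loop_step
    simp only [loop_tr, h3, Frag.step, Option.elim]
  | @step q q' c c₁ c' h1 h2 _ ih =>
    refine loop_R.trans (loop_R.one ?_ rfl ?_) (ih.mono fun s hs => hs.trans h2)
    swap
    · exact h2
    have h3 : (F.tr q (x c.head) (c.arr c.head) (c.mark c.head)).1 = some q' := by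
      have := congrArg Prod.fst h1
      exact this
    have h4 := congrArg Prod.snd h1
    subst h4
    unfold loop_step
    simp only [loop_tr, h3, Frag.step, Option.elim]

/-- The second fragment. -/
theorem loop_runs_g {k : ℕ} (F G : Frag (k + 3 + 1)) (x : ℕ → Bool) {q : G.St}
    {c c' : TC (k + 3 + 1)} (h : G.Runs x q c c') :
    loop_R (loop_step F G x) (fun s => s.arr = c.arr) ⟨.g q, c.head, c.arr, c.mark⟩
      ⟨.f F.entry, c'.head, c'.arr, c'.mark⟩ := by
  induction h with
  | @exit q c c' h1 h2 =>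
    refine loop_R.one ?_ rfl h2
    have h3 : (G.tr q (x c.head) (c.arr c.head) (c.mark c.head)).1 = none := by
      have := congrArg Prod.fst h1
      exact this
    have h4 := congrArg Prod.snd h1
    subst h4
    unfold loop_step
    simp only [loop_tr, h3, Frag.step, Option.elim]
  | @step q q' c c₁ c' h1 h2 _ ih =>
    refine loop_R.trans (loop_R.one ?_ rfl ?_) (ih.mono fun s hs => hs.trans h2)
    swap
    · exact h2
    have h3 : (G.tr q (x c.head) (c.arr c.head) (c.mark c.head)).1 = some q' := by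
      have := congrArg Prod.fst h1
      exact this
    have h4 := congrArg Prod.snd h1
    subst h4
    unfold loop_step
    simp only [loop_tr, h3, Frag.step, Option.elim]

/-! ### The write operation -/

/-- Scanning back to cell `0`. -/
theorem loop_back {k : ℕ} (F G : Frag (k + 3 + 1)) (x a : ℕ → Bool)
    {μ : ℕ → Fin (k + 3 + 1) → Bool} {r : Fin (k + 3) → ℕ} (hμ : RepM μ r) (n : ℕ) :
    loop_R (loop_step F G x) (fun s => s.arr = a) ⟨.b, n, a, μ⟩ ⟨.g G.entry, 0, a, μ⟩ := by
  induction n with
  | zero =>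
    refine loop_R.one (loop_step_same F G x (mv := .stay) ?_) rfl rfl
    have : μ 0 (Fin.last (k + 3)) = true := by rw [hμ.2]; rfl
    simp only [loop_tr, this, cond_true]
  | succ n ih =>
    refine loop_R.trans (loop_R.one (loop_step_same F G x (q' := .b) (mv := .left) ?_) rfl rfl) ih
    have : μ (n + 1) (Fin.last (k + 3)) = false := by rw [hμ.2]; simp
    simp only [loop_tr, this, cond_false]

/-- The array after the write operation with remembered operation `v`. -/
def loop_upd (v : Option Bool) (n : ℕ) (a : ℕ → Bool) : ℕ → Bool :=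
  v.elim a (fun b => Function.update a n b)

/-- Scanning right to the first mark of track `1`. -/
theorem loop_scan {k : ℕ} (F G : Frag (k + 3 + 1)) (x a : ℕ → Bool)
    {μ : ℕ → Fin (k + 3 + 1) → Bool} {r : Fin (k + 3) → ℕ} (hμ : RepM μ r) (v : Option Bool)
    (m n : ℕ) (hm : n + m = r 1) :
    loop_R (loop_step F G x) (fun s => s.arr = a ∨ s.arr = loop_upd v (r 1) a)
      ⟨.s v, n, a, μ⟩ ⟨.b, r 1, loop_upd v (r 1) a, μ⟩ := by
  induction m generalizing n with
  | zero =>
    rw [add_zero] at hm
    subst hm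
    refine loop_R.one ?_ (Or.inl rfl) (Or.inr rfl)
    have h1 : μ (r 1) (Fin.castSucc 1) = true := (hμ.1 1).1
    cases v with
    | none =>
      refine loop_step_same F G x (mv := .stay) ?_
      simp only [loop_tr, h1, cond_true, Option.getD_none]
    | some v =>
      refine loop_step_arr F G x (mv := .stay) ?_
      simp only [loop_tr, h1, cond_true, Option.getD_some]
  | succ m ih =>
    refine loop_R.trans (loop_R.one (loop_step_same F G x (q' := .s v) (mv := .right) ?_)
      (Or.inl rfl) (Or.inl rfl)) (ih (n + 1) (by omega))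
    have h1 : μ n (Fin.castSucc 1) = false := (hμ.1 1).2 n (by omega)
    simp only [loop_tr, h1, cond_false]

/-- The write operation. -/
theorem loop_write {k : ℕ} (F G : Frag (k + 3 + 1)) (x a : ℕ → Bool)
    {μ : ℕ → Fin (k + 3 + 1) → Bool} {r : Fin (k + 3) → ℕ} (hμ : RepM μ r) :
    loop_R (loop_step F G x) (fun s => s.arr = a ∨ s.arr = write (r 1) (r 2) a)
      ⟨.t0, 0, a, μ⟩ ⟨.g G.entry, 0, write (r 1) (r 2) a, μ⟩ := by
  obtain ⟨v, hv1, hv2⟩ : ∃ v : Option Bool, write (r 1) (r 2) a = loop_upd v (r 1) a ∧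
      loop_R (loop_step F G x) (fun s => s.arr = a ∨ s.arr = write (r 1) (r 2) a)
      ⟨.t0, 0, a, μ⟩ ⟨.s v, 0, a, μ⟩ := by
    rcases Nat.lt_or_ge 0 (r 2) with h | h
    · have h1 : μ 0 (Fin.castSucc 2) = false := (hμ.1 2).2 0 h
      have s1 : loop_R (loop_step F G x) (fun s => s.arr = a ∨ s.arr = write (r 1) (r 2) a)
          ⟨.t0, 0, a, μ⟩ ⟨.t1, 1, a, μ⟩ := by
        refine loop_R.one (loop_step_same F G x (mv := .right) ?_) (Or.inl rfl) (Or.inl rfl)
        simp only [loop_tr, h1, cond_false]
      rcases Nat.lt_or_ge 1 (r 2) with h' | h'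
      · have h2 : μ 1 (Fin.castSucc 2) = false := (hμ.1 2).2 1 h'
        refine ⟨some true, ?_, s1.trans ?_⟩
        · have e1 : r 2 ≠ 0 := by omega
          have e2 : r 2 ≠ 1 := by omega
          simp [write, loop_upd, e1, e2]
        · refine loop_R.one (loop_step_same F G x (mv := .left) ?_) (Or.inl rfl) (Or.inl rfl)
          simp only [loop_tr, h2, cond_false]
      · have e2 : r 2 = 1 := by omega
        have h2 : μ 1 (Fin.castSucc 2) = true := by
          have := (hμ.1 2).1
          rw [e2] at this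
          exact this
        refine ⟨some false, ?_, s1.trans ?_⟩
        · simp [write, loop_upd, e2]
        · refine loop_R.one (loop_step_same F G x (mv := .left) ?_) (Or.inl rfl) (Or.inl rfl)
          simp only [loop_tr, h2, cond_true]
    · have e2 : r 2 = 0 := by omega
      have h2 : μ 0 (Fin.castSucc 2) = true := by
        have := (hμ.1 2).1
        rw [e2] at this
        exact this
      refine ⟨none, ?_, ?_⟩
      · simp [write, loop_upd, e2]
      · refine loop_R.one (loop_step_same F G x (mv := .stay) ?_) (Or.inl rfl) (Or.inl rfl)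
        simp only [loop_tr, h2, cond_true]
  refine hv2.trans (loop_R.trans ?_ ((loop_back F G x _ hμ (r 1)).mono fun c hc => Or.inr hc))
  rw [hv1]
  exact loop_scan F G x a hμ v (r 1) 0 (by omega)

/-! ### Cleaning -/

/-- The cleaning program for a list of registers. -/
def loop_clean {k : ℕ} (L : List (Fin (k + 3))) : Cmd (k + 3) :=
  L.foldr (fun i c => .seq (.loop i (.dec i)) c) (.inc 0)

theorem loop_clean_one {k : ℕ} (x a : ℕ → Bool) (i : Fin (k + 3)) (n : ℕ)
    (r : Fin (k + 3) → ℕ) (h : r i = n) :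
    Exec x a (.loop i (.dec i)) r (Function.update r i 0) := by
  induction n generalizing r with
  | zero =>
    have : Function.update r i 0 = r := by rw [← h, Function.update_eq_self]
    rw [this]
    exact .loop_done h
  | succ n ih =>
    refine .loop_step (by omega) (.dec i r) ?_
    have := ih (Function.update r i (r i - 1)) (by rw [Function.update_self]; omega)
    rw [Function.update_idem] at this
    exact this

theorem loop_clean_exec {k : ℕ} (x a : ℕ → Bool) (L : List (Fin (k + 3)))
    (r : Fin (k + 3) → ℕ) : Exec x a (loop_clean L) r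
      (Function.update (fun j => if j ∈ L then 0 else r j) 0
        ((fun j => if j ∈ L then 0 else r j) 0 + 1)) := by
  induction L generalizing r with
  | nil =>
    simp only [List.not_mem_nil, if_false]
    exact .inc 0 r
  | cons i L ih =>
    refine .seq (loop_clean_one x a i _ r rfl) ?_
    have := ih (Function.update r i 0)
    have e : (fun j => if j ∈ L then 0 else Function.update r i 0 j) =
        fun j => if j ∈ i :: L then 0 else r j := by
      funext j
      by_cases h1 : j = i
      · subst h1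
        simp
      · simp [h1]
    rw [e] at this
    exact this

/-- The first step of a block. -/
theorem loop_start {k : ℕ} (F G : Frag (k + 3 + 1)) (x : ℕ → Bool) (q : loop_St F.St G.St) (n : ℕ)
    (a : ℕ → Bool) (μ : ℕ → Fin (k + 3 + 1) → Bool) (h1 : q = .lim) (h2 : n = 0)
    (h3 : ∀ n, 0 < n → μ n (Fin.last (k + 3)) = false) :
    ∃ ν, loop_step F G x ⟨q, n, a, μ⟩ = ⟨.f F.entry, 0, a, ν⟩ ∧ RepM ν (st (k + 2) 0) := by
  subst h1 h2
  refine ⟨fun n => if n = 0 then fun _ => true else μ n, ?_, ?_, ?_⟩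
  · unfold loop_step
    simp only [loop_tr]
    congr 1
    funext m
    split
    · next h => rw [h]
    · rfl
  · intro i
    have : st (k + 2) 0 i = 0 := by simp [st]
    rw [this]
    exact ⟨by simp, fun n hn => absurd hn (Nat.not_lt_zero n)⟩
  · intro n
    by_cases hn : n = 0
    · simp [hn]
    · simp only [if_neg hn, h3 n (Nat.pos_of_ne_zero hn)]
      simp [hn]

theorem loop_machine {k : ℕ} (c : Cmd (k + 3)) (mid : (ℕ → Bool) → (ℕ → Bool) → ℕ → Fin (k + 3) → ℕ)
    (h : ∀ x a s, Exec x a c (st (k + 2) s) (mid x a s)) (h0 : ∀ x a s, mid x a s 0 = s) :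
    ∃ w : WProg, ∀ x α, (w.run x (ω * α)).arr =
      startArr (fun s a => write (mid x a s 1) (mid x a s 2) a) α := by
  obtain ⟨F, hF⟩ := compile c
  obtain ⟨G, hG⟩ := compile (loop_clean ((List.finRange (k + 2)).map Fin.succ))
  refine ⟨loop_w F G, fun x α => ?_⟩
  refine (loop_abs (loop_w F G) x _ (Fin.last (k + 3))
    (fun s a c => ∃ μ, c = ⟨.f F.entry, 0, a, μ⟩ ∧ RepM μ (st (k + 2) s)) ?_ ?_ ?_ α).2.2.1
  · rintro ⟨q, n, a, μ⟩ h1 h2 h3
    exact loop_start F G x q n a μ h1 h2 h3
  · rintro s a c ⟨μ, rfl, hμ⟩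
    rw [loop_step_eq]
    obtain ⟨μ1, h1, h2⟩ := hF x a _ _ (h x a s) μ hμ
    have h3 := loop_clean_exec x (write (mid x a s 1) (mid x a s 2) a)
      ((List.finRange (k + 2)).map Fin.succ) (mid x a s)
    obtain ⟨μ2, h4, h5⟩ := hG x _ _ _ h3 μ1 h1
    have key : loop_R (loop_step F G x)
        (fun c => c.arr = a ∨ c.arr = write (mid x a s 1) (mid x a s 2) a)
        ⟨.f F.entry, 0, a, μ⟩
        ⟨.f F.entry, 0, write (mid x a s 1) (mid x a s 2) a, μ2⟩ := by
      refine ((loop_runs_f F G x h2).mono fun c hc => Or.inl hc).trans ?_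
      refine (loop_write F G x a h1).trans ?_
      exact (loop_runs_g F G x h5).mono fun c hc => Or.inr hc
    obtain ⟨m, hm, h6, h7⟩ := key
    refine ⟨m, hm, ⟨μ2, h6, ?_⟩, h7⟩
    convert h4 using 1
    funext j
    by_cases hj : j = 0
    · subst hj
      simp [st, h0]
    · obtain ⟨i, rfl⟩ := Fin.exists_succ_eq.2 hj
      rw [Function.update_of_ne hj]
      simp [st]
  · rintro s a c ⟨μ, rfl, hμ⟩
    refine ⟨rfl, fun n hn => ?_⟩
    change μ n (Fin.last (k + 3)) = false
    rw [hμ.2]
    simp [Nat.pos_iff_ne_zero.1 hn]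

end Pool.Agent.MPa662fc
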