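import Mathlib
import Pool.Agent.Lib.MP_a662fc_lc.Fam
import Pool.Agent.Lib.MP_a662fc_lc.Basic

/-!
# Models and the refuting player

For countable ordinals `a`, `b` the theory `P` has a model on `D a b` iff the refuting player does
not win the game `W P a b`.
-/

namespace Pool.Agent.MPa662fc

open Ordinal Pool.Agent.MP752584 Encodable

/-- Initial segments of `ω₁` are countable. -/
theorem modeliff_countable_Iio {a : Ordinal.{0}} (ha : a < ω₁) : (Set.Iio a).Countable := by
  rw [← Cardinal.le_aleph0_iff_set_countable, Cardinal.mk_Iio_ordinal]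
  have h1 : a.card < Cardinal.aleph 1 := by
    rw [← Cardinal.lt_ord, Cardinal.ord_aleph]
    exact ha
  have h2 : a.card ≤ Cardinal.aleph0 := Cardinal.lt_aleph_one_iff.1 h1
  simpa using Cardinal.lift_le.{1}.2 h2

theorem modeliff_countable_D {a b : Ordinal.{0}} (ha : a < ω₁) (hb : b < ω₁) :
    (D a b).Countable := by
  have h1 : (Set.univ ×ˢ (Set.Iio (max a b)) : Set (Bool × Ordinal.{0})).Countable :=
    Set.Countable.prod (Set.to_countable _) (modeliff_countable_Iio (max_lt ha hb))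
  refine h1.mono ?_
  rintro ⟨t, x⟩ ⟨hx1, hx2⟩
  refine ⟨Set.mem_univ _, ?_⟩
  rcases t with _ | _
  · exact lt_of_lt_of_le (hx1 rfl) (le_max_left _ _)
  · exact lt_of_lt_of_le (hx2 rfl) (le_max_right _ _)

theorem modeliff_sound {P : Pattern → Prop} {a b : Ordinal.{0}} {Y : ℕ → DD → DD → ℕ × DD}
    (hY : IsModel P a b Y) {ξ : Ordinal.{0}} {u : Pos} (h : W P a b ξ u) :
    Valid a b u → ¬ ∀ f ∈ u, holdsY Y f := by
  induction h with
  | @bad ξ u h =>
    intro hv hu
    rcases h with ⟨i, s, t, v, c, v', c', h1, h2, h3⟩ | ⟨π, hπ, g, hg, hl⟩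
    · have e1 := hu _ h1
      have e2 := hu _ h2
      simp only [holdsY] at e1 e2
      rw [e1] at e2
      simp only [Prod.mk.injEq] at e2
      rcases h3 with h3 | h3
      · exact h3 e2.1
      · exact h3 e2.2
    · refine hY.avoid π hπ g (fun n => ?_) (fun l hlπ => ?_)
      · obtain ⟨f, hf, h⟩ := hg n
        obtain ⟨h1, h2, h3⟩ := hv f hf
        rcases h with h | h | h <;> rw [h] <;> assumption
      · exact ⟨fun h => hu _ ((hl l hlπ).1 h), (hl l hlπ).2⟩
  | @ask ξ u i s t hs ht r hr h ih =>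
    intro hv hu
    refine ih (Y i s t).1 (Y i s t).2 (hY.mem i s hs t ht) ?_ ?_
    · intro f hf
      rcases List.mem_cons.1 hf with rfl | hf
      · exact ⟨hs, ht, hY.mem i s hs t ht⟩
      · exact hv f hf
    · intro f hf
      rcases List.mem_cons.1 hf with rfl | hf
      · rfl
      · exact hu f hf

/-- In a position where the refuting player does not win there is an answer to each query after
which he still does not win. -/
theorem modeliff_step {P : Pattern → Prop} {a b : Ordinal.{0}} (hD : (D a b).Countable) {u : Pos}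
    (hu : ∀ ξ, ¬ W P a b ξ u) (i : ℕ) {s t : DD} (hs : s ∈ D a b) (ht : t ∈ D a b) :
    ∃ v, ∃ c ∈ D a b, ∀ ξ, ¬ W P a b ξ ((i, s, t, v, c) :: u) := by
  by_contra hcon
  push Not at hcon
  have : Countable (D a b) := hD.to_subtype
  choose ρ hρ using fun v => fun c : D a b => hcon v c.1 c.2
  refine hu ((⨆ p : ℕ × D a b, ρ p.1 p.2) + 1) ?_
  rw [W.cases_iff]
  refine Or.inr ⟨i, s, hs, t, ht, fun v c hc => ?_⟩
  exact ⟨ρ v ⟨c, hc⟩, Order.lt_add_one_iff.2
    (Ordinal.le_iSup (fun p : ℕ × D a b => ρ p.1 p.2) (v, ⟨c, hc⟩)), hρ v ⟨c, hc⟩⟩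

theorem modeliff_complete {P : Pattern → Prop} {a b : Ordinal.{0}} (hD : (D a b).Countable)
    (h0 : ∀ ξ, ¬ W P a b ξ []) : Model P a b := by
  classical
  by_cases hne : (D a b).Nonempty
  swap
  · refine ⟨fun _ _ _ => (0, (false, 0)), fun i s hs => absurd ⟨s, hs⟩ hne, ?_⟩
    intro π _ g hg
    exact absurd ⟨g 0, hg 0⟩ hne
  have : Countable (D a b) := hD.to_subtype
  have : Nonempty (D a b) := hne.to_subtype
  obtain ⟨q, hq⟩ := exists_surjective_nat (ℕ × D a b × D a b)
  let C : Type 1 := {u : Pos // Valid a b u ∧ ∀ ξ, ¬ W P a b ξ u}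
  -- one step
  have hstep : ∀ (u : C) (k : ℕ × D a b × D a b), ∃ u' : C, ∃ v, ∃ c,
      u'.1 = (k.1, k.2.1.1, k.2.2.1, v, c) :: u.1 := by
    intro u k
    obtain ⟨v, c, hc, h⟩ := modeliff_step hD u.2.2 k.1 k.2.1.2 k.2.2.2
    refine ⟨⟨(k.1, k.2.1.1, k.2.2.1, v, c) :: u.1, ?_, h⟩, v, c, rfl⟩
    intro f hf
    rcases List.mem_cons.1 hf with rfl | hf
    · exact ⟨k.2.1.2, k.2.2.2, hc⟩
    · exact u.2.1 f hf
  choose nx hnx using hstep
  let us : ℕ → C := fun n => Nat.rec ⟨[], fun f hf => by simp at hf, h0⟩ (fun n u => nx u (q n)) n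
  have hsucc : ∀ n, ∃ v c, (us (n + 1)).1 = ((q n).1, (q n).2.1.1, (q n).2.2.1, v, c) :: (us n).1 :=
    fun n => hnx (us n) (q n)
  have hmono : ∀ m n, m ≤ n → ∀ f ∈ (us m).1, f ∈ (us n).1 := by
    intro m n hmn
    induction hmn with
    | refl => exact fun f hf => hf
    | step _ ih =>
      intro f hf
      obtain ⟨v, c, h⟩ := hsucc _
      rw [h]
      exact List.mem_cons_of_mem _ (ih f hf)
  have hnb : ∀ n, ¬ Bad P (us n).1 := fun n h => (us n).2.2 0 (.bad h)
  have hval : ∀ n, Valid a b (us n).1 := fun n => (us n).2.1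
  let F : Fact → Prop := fun f => ∃ n, f ∈ (us n).1
  have hex : ∀ i, ∀ s ∈ D a b, ∀ t ∈ D a b, ∃ p : ℕ × DD, F (i, s, t, p.1, p.2) := by
    intro i s hs t ht
    obtain ⟨n, hn⟩ := hq (i, ⟨s, hs⟩, ⟨t, ht⟩)
    obtain ⟨v, c, h⟩ := hsucc n
    refine ⟨(v, c), n + 1, ?_⟩
    rw [h, hn]
    exact List.mem_cons_self
  have huniq : ∀ i s t v c v' c', F (i, s, t, v, c) → F (i, s, t, v', c') → v = v' ∧ c = c' := by
    rintro i s t v c v' c' ⟨m, hm⟩ ⟨n, hn⟩
    by_contra hcon
    refine hnb (max m n) (Or.inl ⟨i, s, t, v, c, v', c', hmono _ _ (le_max_left _ _) _ hm,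
      hmono _ _ (le_max_right _ _) _ hn, ?_⟩)
    by_contra h
    push Not at h
    exact hcon h
  let Y : ℕ → DD → DD → ℕ × DD := fun i s t =>
    if h : ∃ p : ℕ × DD, F (i, s, t, p.1, p.2) then h.choose else (0, (false, 0))
  have hY : ∀ i, ∀ s ∈ D a b, ∀ t ∈ D a b, F (i, s, t, (Y i s t).1, (Y i s t).2) := by
    intro i s hs t ht
    have h := hex i s hs t ht
    have e : Y i s t = h.choose := dif_pos h
    rw [e]
    exact h.choose_spec
  refine ⟨Y, ?_, ?_⟩
  · intro i s hs t ht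
    obtain ⟨n, hn⟩ := hY i s hs t ht
    exact (hval n _ hn).2.2
  · intro π hπ g hg hl
    -- every element of `D a b` occurs in some position
    have hel : ∀ d ∈ D a b, ∀ᶠ n in Filter.atTop, d ∈ elems (us n).1 := by
      intro d hd
      obtain ⟨n, hn⟩ := hY 0 d hd d hd
      filter_upwards [Filter.eventually_ge_atTop n] with k hk
      exact ⟨_, hmono n k hk _ hn, Or.inl rfl⟩
    have hfacts : ∀ l ∈ {l : Lit | l ∈ π}, ∀ᶠ n in Filter.atTop,
        (l.1 = 0 → (l.2.1, g l.2.2.1, g l.2.2.2.1, l.2.2.2.2.1, g l.2.2.2.2.2) ∈ (us n).1) ∧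
        g l.2.2.1 ∈ elems (us n).1 ∧ g l.2.2.2.1 ∈ elems (us n).1 ∧
        g l.2.2.2.2.2 ∈ elems (us n).1 := by
      intro l hlπ
      refine Filter.Eventually.and ?_ ((hel _ (hg _)).and ((hel _ (hg _)).and (hel _ (hg _))))
      by_cases h0 : l.1 = 0
      · have h1 := (hl l hlπ).1 h0
        obtain ⟨n, hn⟩ := hY l.2.1 _ (hg l.2.2.1) _ (hg l.2.2.2.1)
        simp only [holdsY] at h1
        rw [h1] at hn
        filter_upwards [Filter.eventually_ge_atTop n] with k hk _
        exact hmono n k hk _ hn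
      · exact Filter.Eventually.of_forall fun n h => absurd h h0
    have hall := (Filter.eventually_all_finite (List.finite_toSet π)).2 hfacts
    obtain ⟨n, hn, hn0⟩ := (hall.and (hel _ (hg 0))).exists
    let g' : ℕ → DD := fun p => if g p ∈ elems (us n).1 then g p else g 0
    have hg' : ∀ p, g' p ∈ elems (us n).1 := by
      intro p
      by_cases h : g p ∈ elems (us n).1
      · simp only [g', h, if_true]
      · simp only [g', h, if_false]
        exact hn0
    have hgg : ∀ p, g p ∈ elems (us n).1 → g' p = g p := fun p h => by simp only [g', h, if_true]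
    refine hnb n (Or.inr ⟨π, hπ, g', hg', fun l hlπ => ?_⟩)
    obtain ⟨h1, h2, h3, h4⟩ := hn l hlπ
    unfold LitHolds
    rw [hgg _ h2, hgg _ h3, hgg _ h4]
    exact ⟨h1, (hl l hlπ).2⟩

theorem model_iff {P : Pattern → Prop} {a b : Ordinal.{0}} (ha : a < ω₁) (hb : b < ω₁) :
    Model P a b ↔ ∀ ξ, ¬ W P a b ξ [] := by
  constructor
  · rintro ⟨Y, hY⟩ ξ h
    exact modeliff_sound hY h (fun f hf => by simp at hf) (fun f hf => by simp at hf)
  · exact modeliff_complete (modeliff_countable_D ha hb)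

end Pool.Agent.MPa662fc
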