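import Mathlib
import Pool.Agent.Lib.MP_a662fc_lc.Defs

/-!
# `L_β` is not admissible for `θ < β < θ + θ`
-/

namespace Pool.Agent.MPa662fc

open Ordinal

theorem nonadm_mem_LL {α : Ordinal.{0}} {x : ZFSet.{0}} :
    x ∈ LL α ↔ ∃ β < α, x ∈ DefSubsets (LL β) := by
  rw [LL]
  simp only [Set.mem_ofPred_eq, exists_prop]

theorem nonadm_mono {α β : Ordinal.{0}} (h : α ≤ β) {x : ZFSet.{0}} (hx : x ∈ LL α) : x ∈ LL β := by
  rw [nonadm_mem_LL] at *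
  obtain ⟨γ, h1, h2⟩ := hx
  exact ⟨γ, h1.trans_le h, h2⟩

theorem nonadm_trans {α : Ordinal.{0}} {x z : ZFSet.{0}} (hx : x ∈ LL α) (hz : z ∈ x) :
    z ∈ LL α := by
  obtain ⟨β, h1, h2⟩ := nonadm_mem_LL.1 hx
  exact nonadm_mono h1.le (h2.1 z hz)

theorem nonadm_rank {α : Ordinal.{0}} : ∀ {x : ZFSet.{0}}, x ∈ LL α → x.rank < α := by
  induction α using WellFoundedLT.induction with
  | _ α ih =>
    intro x hx
    obtain ⟨β, h1, h2⟩ := nonadm_mem_LL.1 hx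
    refine lt_of_le_of_lt ?_ h1
    rw [ZFSet.rank_le_iff]
    intro y hy
    exact ih β h1 (h2.1 y hy)

/-- Disjunction. -/
def nonadm_or (φ ψ : Fml) : Fml := .neg (.and (.neg φ) (.neg ψ))

/-- Existential quantifier. -/
def nonadm_ex (φ : Fml) : Fml := .neg (.all (.neg φ))

/-- Bounded existential quantifier. -/
def nonadm_bex (j : ℕ) (φ : Fml) : Fml := .neg (.ball j (.neg φ))

/-- Implication. -/
def nonadm_imp (φ ψ : Fml) : Fml := .neg (.and φ (.neg ψ))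

theorem nonadm_sat_or (M : Set ZFSet.{0}) (φ ψ : Fml) (v : ℕ → ZFSet.{0}) :
    Sat M (nonadm_or φ ψ) v ↔ Sat M φ v ∨ Sat M ψ v := by
  simp only [nonadm_or, Sat]
  tauto

theorem nonadm_sat_imp (M : Set ZFSet.{0}) (φ ψ : Fml) (v : ℕ → ZFSet.{0}) :
    Sat M (nonadm_imp φ ψ) v ↔ (Sat M φ v → Sat M ψ v) := by
  simp only [nonadm_imp, Sat]
  tauto

theorem nonadm_sat_ex (M : Set ZFSet.{0}) (φ : Fml) (v : ℕ → ZFSet.{0}) :
    Sat M (nonadm_ex φ) v ↔ ∃ a ∈ M, Sat M φ (push a v) := by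
  simp only [nonadm_ex, Sat]
  push Not
  rfl

theorem nonadm_sat_bex (M : Set ZFSet.{0}) (j : ℕ) (φ : Fml) (v : ℕ → ZFSet.{0}) :
    Sat M (nonadm_bex j φ) v ↔ ∃ a ∈ M, a ∈ v j ∧ Sat M φ (push a v) := by
  simp only [nonadm_bex, Sat]
  push Not
  rfl

theorem nonadm_ord_mem (γ : Ordinal.{0}) : γ.toZFSet ∈ LL (γ + 1) := by
  induction γ using WellFoundedLT.induction with
  | _ γ ih =>
    rw [nonadm_mem_LL]
    refine ⟨γ, lt_add_one γ, ?_, ?_⟩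
    · intro z hz
      obtain ⟨δ, hδ, rfl⟩ := Ordinal.mem_toZFSet_iff.1 hz
      exact nonadm_mono (Order.add_one_le_of_lt hδ) (ih δ hδ)
    · refine ⟨.and (.ball 0 (.ball 0 (.mem 0 2))) (.ball 0 (.ball 0 (.ball 0 (.mem 0 2)))), [],
        by simp, fun z hz => ?_⟩
      constructor
      · intro h
        obtain ⟨δ, hδ, rfl⟩ := Ordinal.mem_toZFSet_iff.1 h
        have ho := ZFSet.isOrdinal_toZFSet δ
        refine ⟨fun a _ ha b _ hb => ?_, fun a _ ha b _ hb c _ hc => ?_⟩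
        · exact ho.isTransitive a ha hb
        · exact ho.mem_trans' hc hb ha
      · rintro ⟨h1, h2⟩
        have ho : z.IsOrdinal := by
          refine ⟨fun a ha b hb => ?_, fun {c b a} hc hb ha => ?_⟩
          · exact h1 a (nonadm_trans hz ha) ha b (nonadm_trans (nonadm_trans hz ha) hb) hb
          · exact h2 a (nonadm_trans hz ha) ha b (nonadm_trans (nonadm_trans hz ha) hb) hb c
              (nonadm_trans (nonadm_trans (nonadm_trans hz ha) hb) hc) hc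
        rw [← ho.toZFSet_rank_eq, Ordinal.toZFSet_mem_toZFSet_iff]
        exact nonadm_rank hz

/-- The set `g` of unordered pairs codes a relation between elements `η` of `θ` and sets `ζ`
such that the rank of `ζ` is at least `θ + rank η`. -/
def nonadm_P (θ g : ZFSet.{0}) : Prop :=
  ∀ w ∈ g, ∀ η ∈ w, ∀ ζ ∈ w, η ∈ θ → ζ ∉ θ → (∀ a ∈ θ, a ∈ ζ) ∧
    ∀ η' ∈ η, ∃ w' ∈ g, η' ∈ w' ∧ ∃ ζ' ∈ w', ζ' ∈ ζ ∧ ζ' ∉ θ

/-- The formula for `nonadm_P`, `g` is variable `i` and `θ` is variable `t`. -/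
def nonadm_F (i t : ℕ) : Fml :=
  .ball i (.ball 0 (.ball 1 (nonadm_imp (.and (.mem 1 (t + 3)) (.neg (.mem 0 (t + 3))))
    (.and (.ball (t + 3) (.mem 0 1))
      (.ball 1 (nonadm_bex (i + 4) (.and (.mem 1 0)
        (nonadm_bex 0 (.and (.mem 0 3) (.neg (.mem 0 (t + 6)))))))))))) 

theorem nonadm_sat_F {M : Set ZFSet.{0}} (hM : ∀ x ∈ M, ∀ z ∈ x, z ∈ M) (i t : ℕ)
    (v : ℕ → ZFSet.{0}) (hi : v i ∈ M) (ht : v t ∈ M) :
    Sat M (nonadm_F i t) v ↔ nonadm_P (v t) (v i) := by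
  simp only [nonadm_F, nonadm_P, Sat, nonadm_sat_imp, nonadm_sat_bex, push]
  constructor
  · intro h w hw η hη ζ hζ h1 h2
    have hwM := hM _ hi _ hw
    have hηM := hM _ hwM _ hη
    have hζM := hM _ hwM _ hζ
    obtain ⟨h3, h4⟩ := h w hwM hw η hηM hη ζ hζM hζ ⟨h1, h2⟩
    refine ⟨fun a ha => h3 a (hM _ ht _ ha) ha, fun η' hη' => ?_⟩
    obtain ⟨w', _, h5, h6, ζ', _, h7, h8, h9⟩ := h4 η' (hM _ hηM _ hη') hη'
    exact ⟨w', h5, h6, ζ', h7, h8, h9⟩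
  · intro h w hwM hw η hηM hη ζ hζM hζ ⟨h1, h2⟩
    obtain ⟨h3, h4⟩ := h w hw η hη ζ hζ h1 h2
    refine ⟨fun a _ ha => h3 a ha, fun η' _ hη' => ?_⟩
    obtain ⟨w', h5, h6, ζ', h7, h8, h9⟩ := h4 η' hη'
    exact ⟨w', hM _ hi _ h5, h5, h6, ζ', hM _ (hM _ hi _ h5) _ h7, h7, h8, h9⟩

theorem nonadm_P_rank {θ : Ordinal.{0}} {g : ZFSet.{0}} (hg : nonadm_P θ.toZFSet g)
    (η : ZFSet.{0}) : ∀ w ∈ g, η ∈ w → ∀ ζ ∈ w, η ∈ θ.toZFSet → ζ ∉ θ.toZFSet →
      θ + η.rank ≤ ζ.rank := by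
  induction η using ZFSet.inductionOn with
  | _ η ih =>
    intro w hw hη ζ hζ h1 h2
    obtain ⟨h3, h4⟩ := hg w hw η hη ζ hζ h1 h2
    have hθ : θ ≤ ζ.rank := by
      by_contra hlt
      rw [not_le] at hlt
      have := ZFSet.rank_lt_of_mem (h3 _ (Ordinal.toZFSet_mem_toZFSet_iff.2 hlt))
      rw [Ordinal.rank_toZFSet] at this
      exact lt_irrefl _ this
    obtain ⟨δ, hδ⟩ := exists_add_of_le hθ
    rw [hδ, add_le_add_iff_left, ZFSet.rank_le_iff]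
    intro η' hη'
    obtain ⟨w', h5, h6, ζ', h7, h8, h9⟩ := h4 η' hη'
    have h10 : η' ∈ θ.toZFSet := (ZFSet.isOrdinal_toZFSet θ).isTransitive η h1 hη'
    have h11 := ih η' hη' w' h5 h6 ζ' h7 h10 h9
    have h12 := lt_of_le_of_lt h11 (ZFSet.rank_lt_of_mem h8)
    rw [hδ] at h12
    exact (add_lt_add_iff_left θ).1 h12

theorem nonadm_pair_mem (θ ξ : Ordinal.{0}) :
    ({ξ.toZFSet, (θ + ξ).toZFSet} : ZFSet.{0}) ∈ LL (θ + ξ + 2) := by
  have h1 : ξ.toZFSet ∈ LL (θ + ξ + 1) :=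
    nonadm_mono (add_le_add_left le_add_self 1) (nonadm_ord_mem ξ)
  have h2 : (θ + ξ).toZFSet ∈ LL (θ + ξ + 1) := nonadm_ord_mem _
  rw [nonadm_mem_LL]
  refine ⟨θ + ξ + 1, ?_, ?_, nonadm_or (.eq 0 1) (.eq 0 2), [ξ.toZFSet, (θ + ξ).toZFSet], ?_, ?_⟩
  · rw [show (2 : Ordinal.{0}) = 1 + 1 from one_add_one_eq_two.symm, ← add_assoc]
    exact lt_add_one _
  · intro z hz
    rw [ZFSet.mem_pair] at hz
    rcases hz with rfl | rfl
    · exact h1
    · exact h2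
  · intro a ha
    simp only [List.mem_cons, List.not_mem_nil, or_false] at ha
    rcases ha with rfl | rfl
    · exact h1
    · exact h2
  · intro z _
    rw [nonadm_sat_or, ZFSet.mem_pair]
    rfl

theorem nonadm_witness (θ : Ordinal.{0}) (ξ : Ordinal.{0}) (hξ : ξ < θ) :
    ∃ g ∈ LL (θ + ξ + 5), nonadm_P θ.toZFSet g ∧
      ({ξ.toZFSet, (θ + ξ).toZFSet} : ZFSet.{0}) ∈ g := by
  induction ξ using WellFoundedLT.induction with
  | _ ξ ih =>
    set p : ZFSet.{0} := {ξ.toZFSet, (θ + ξ).toZFSet} with hp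
    have hpM : p ∈ LL (θ + ξ + 4) := by
      refine nonadm_mono (add_le_add_right ?_ _) (nonadm_pair_mem θ ξ)
      norm_num
    have hθM : θ.toZFSet ∈ LL (θ + ξ + 4) := by
      refine nonadm_mono ?_ (nonadm_ord_mem θ)
      calc θ + 1 ≤ θ + ξ + 1 := add_le_add_left le_self_add 1
        _ ≤ θ + ξ + 4 := add_le_add_right (by norm_num) _
    have htr : ∀ x ∈ LL (θ + ξ + 4), ∀ z ∈ x, z ∈ LL (θ + ξ + 4) := fun x hx z hz =>
      nonadm_trans hx hz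
    let Φ : ZFSet.{0} → Prop := fun z => z ∈ LL (θ + ξ + 4) ∧
      (z = p ∨ ∃ g' ∈ LL (θ + ξ + 4), nonadm_P θ.toZFSet g' ∧ z ∈ g')
    let g : ZFSet.{0} := ZFSet.sep Φ (ZFSet.vonNeumann (θ + ξ + 4))
    have hg : ∀ z, z ∈ g ↔ Φ z := by
      intro z
      simp only [g, ZFSet.mem_sep, ZFSet.mem_vonNeumann]
      exact ⟨fun h => h.2, fun h => ⟨nonadm_rank h.1, h⟩⟩
    have hpg : p ∈ g := (hg p).2 ⟨hpM, Or.inl rfl⟩
    have hsub : ∀ g' ∈ LL (θ + ξ + 4), nonadm_P θ.toZFSet g' → ∀ z ∈ g', z ∈ g :=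
      fun g' h1 h2 z hz => (hg z).2 ⟨htr _ h1 _ hz, Or.inr ⟨g', h1, h2, hz⟩⟩
    refine ⟨g, ?_, ?_, hpg⟩
    · rw [nonadm_mem_LL]
      refine ⟨θ + ξ + 4, ?_, fun z hz => ((hg z).1 hz).1, nonadm_or (.eq 0 2)
        (nonadm_ex (.and (nonadm_F 0 2) (.mem 1 0))), [θ.toZFSet, p], ?_, ?_⟩
      · rw [add_lt_add_iff_left]
        norm_num
      · intro a ha
        simp only [List.mem_cons, List.not_mem_nil, or_false] at ha
        rcases ha with rfl | rfl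
        · exact hθM
        · exact hpM
      · intro z hz
        rw [hg, nonadm_sat_or, nonadm_sat_ex]
        simp only [Φ, Sat]
        constructor
        · rintro ⟨_, h | ⟨g', h1, h2, h3⟩⟩
          · exact Or.inl h
          · exact Or.inr ⟨g', h1, (nonadm_sat_F htr 0 2 _ h1 hθM).2 h2, h3⟩
        · rintro (h | ⟨g', h1, h2, h3⟩)
          · exact ⟨hz, Or.inl h⟩
          · exact ⟨hz, Or.inr ⟨g', h1, (nonadm_sat_F htr 0 2 _ h1 hθM).1 h2, h3⟩⟩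
    · intro w hw η hη ζ hζ h1 h2
      rcases ((hg w).1 hw).2 with rfl | ⟨g', h3, h4, h5⟩
      · rw [hp, ZFSet.mem_pair] at hη hζ
        have hη' : η = ξ.toZFSet := by
          rcases hη with h | h
          · exact h
          · rw [h, Ordinal.toZFSet_mem_toZFSet_iff] at h1
            exact absurd h1 (not_lt.2 le_self_add)
        have hζ' : ζ = (θ + ξ).toZFSet := by
          rcases hζ with h | h
          · rw [h, Ordinal.toZFSet_mem_toZFSet_iff] at h2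
            exact absurd hξ h2
          · exact h
        subst hη' hζ'
        refine ⟨fun a ha => Ordinal.toZFSet_monotone le_self_add ha, fun η' hη' => ?_⟩
        obtain ⟨ξ', hξ', rfl⟩ := Ordinal.mem_toZFSet_iff.1 hη'
        obtain ⟨g', h3, h4, h5⟩ := ih ξ' hξ' (hξ'.trans hξ)
        have h3' : g' ∈ LL (θ + ξ + 4) := by
          refine nonadm_mono ?_ h3
          have : θ + ξ' + 5 = θ + (ξ' + 1) + 4 := by
            rw [add_assoc, add_assoc, add_assoc, show (5 : Ordinal.{0}) = 1 + 4 by norm_num]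
          rw [this]
          exact add_le_add_left (add_le_add_right (Order.add_one_le_of_lt hξ') θ) 4
        refine ⟨_, hsub g' h3' h4 _ h5, ZFSet.mem_pair.2 (Or.inl rfl), _,
          ZFSet.mem_pair.2 (Or.inr rfl), ?_, ?_⟩
        · rw [Ordinal.toZFSet_mem_toZFSet_iff]
          exact (add_lt_add_iff_left θ).2 hξ'
        · rw [Ordinal.toZFSet_mem_toZFSet_iff]
          exact not_lt.2 le_self_add
      · obtain ⟨h6, h7⟩ := h4 w h5 η hη ζ hζ h1 h2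
        refine ⟨h6, fun η' hη' => ?_⟩
        obtain ⟨w', h8, h9, h10⟩ := h7 η' hη'
        exact ⟨w', hsub g' h3 h4 _ h8, h9, h10⟩

theorem not_admissible {θ β : Ordinal.{0}} (h1 : θ < β) (h2 : β < θ + θ) : ¬ Admissible β := by
  intro hKP
  have hlim : ∀ δ < β, δ + 1 < β := by
    intro δ hδ
    have hδM : δ.toZFSet ∈ LL β := nonadm_mono (Order.add_one_le_of_lt hδ) (nonadm_ord_mem δ)
    obtain ⟨c, hc, hc', _⟩ := hKP.pairing _ hδM _ hδM
    refine lt_of_le_of_lt ?_ (nonadm_rank hc)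
    rw [Order.add_one_le_iff]
    have := ZFSet.rank_lt_of_mem hc'
    rwa [Ordinal.rank_toZFSet] at this
  obtain ⟨γ, rfl⟩ := exists_add_of_le h1.le
  have hγ : γ < θ := (add_lt_add_iff_left θ).1 h2
  have hγ0 : 0 < γ := by
    rw [pos_iff_ne_zero]
    intro h
    rw [h, add_zero] at h1
    exact absurd h1 (lt_irrefl _)
  have hθM : θ.toZFSet ∈ LL (θ + γ) := nonadm_mono (Order.add_one_le_of_lt h1) (nonadm_ord_mem θ)
  have hγM : γ.toZFSet ∈ LL (θ + γ) :=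
    nonadm_mono (Order.add_one_le_of_lt (hγ.trans h1)) (nonadm_ord_mem γ)
  have htr : ∀ x ∈ LL (θ + γ), ∀ z ∈ x, z ∈ LL (θ + γ) := fun x hx z hz => nonadm_trans hx hz
  let φ : Fml := .and (nonadm_F 0 2) (nonadm_bex 0 (.and (.mem 2 0) (nonadm_bex 0 (.neg (.mem 0 4)))))
  have hφ : φ.Delta0 := by
    simp only [φ, nonadm_F, nonadm_bex, nonadm_imp, Fml.Delta0, and_self]
  have hsat : ∀ (g z : ZFSet.{0}), g ∈ LL (θ + γ) → z ∈ LL (θ + γ) →
      (Sat (LL (θ + γ)) φ (push g (push z fun _ => θ.toZFSet)) ↔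
        nonadm_P θ.toZFSet g ∧ ∃ w ∈ g, z ∈ w ∧ ∃ ζ ∈ w, ζ ∉ θ.toZFSet) := by
    intro g z hg _
    have e1 := nonadm_sat_F htr 0 2 (push g (push z fun _ => θ.toZFSet)) hg hθM
    have e2 : Sat (LL (θ + γ)) φ (push g (push z fun _ => θ.toZFSet)) ↔
        Sat (LL (θ + γ)) (nonadm_F 0 2) (push g (push z fun _ => θ.toZFSet)) ∧
        ∃ w ∈ LL (θ + γ), w ∈ g ∧ z ∈ w ∧ ∃ ζ ∈ LL (θ + γ), ζ ∈ w ∧ ζ ∉ θ.toZFSet := by
      simp only [φ, Sat, nonadm_sat_bex, push]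
    rw [e2, e1]
    refine and_congr Iff.rfl ?_
    constructor
    · rintro ⟨w, _, h3, h4, ζ, _, h5, h6⟩
      exact ⟨w, h3, h4, ζ, h5, h6⟩
    · rintro ⟨w, h3, h4, ζ, h5, h6⟩
      exact ⟨w, htr _ hg _ h3, h3, h4, ζ, htr _ (htr _ hg _ h3) _ h5, h5, h6⟩
  obtain ⟨c, hc, hc'⟩ := hKP.collection φ hφ (fun _ => θ.toZFSet) (fun _ => hθM) _ hγM (by
    intro z hz hz'
    obtain ⟨ξ, hξ, rfl⟩ := Ordinal.mem_toZFSet_iff.1 hz'
    obtain ⟨g, h3, h4, h5⟩ := nonadm_witness θ ξ (hξ.trans hγ)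
    have hg : g ∈ LL (θ + γ) := by
      refine nonadm_mono ?_ h3
      have h0 := hlim _ (hlim _ (hlim _ (hlim _ (hlim _ ((add_lt_add_iff_left θ).2 hξ)))))
      have e : θ + ξ + 5 = θ + ξ + 1 + 1 + 1 + 1 + 1 := by
        rw [add_assoc (θ + ξ), add_assoc (θ + ξ), add_assoc (θ + ξ), add_assoc (θ + ξ)]
        norm_num
      rw [e]
      exact h0.le
    refine ⟨g, hg, (hsat g _ hg hz).2 ⟨h4, _, h5, ZFSet.mem_pair.2 (Or.inl rfl), _,
      ZFSet.mem_pair.2 (Or.inr rfl), ?_⟩⟩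
    rw [Ordinal.toZFSet_mem_toZFSet_iff]
    exact not_lt.2 le_self_add)
  have hkey : ∀ ξ < γ, θ + ξ < c.rank := by
    intro ξ hξ
    have hz' : ξ.toZFSet ∈ γ.toZFSet := Ordinal.toZFSet_mem_toZFSet_iff.2 hξ
    obtain ⟨g, hg, hgc, hs⟩ := hc' ξ.toZFSet (htr _ hγM _ hz') hz'
    obtain ⟨h3, w, h4, h5, ζ, h6, h7⟩ := (hsat g _ hg (htr _ hγM _ hz')).1 hs
    have h8 := nonadm_P_rank h3 ξ.toZFSet w h4 h5 ζ h6
      (Ordinal.toZFSet_mem_toZFSet_iff.2 (hξ.trans hγ)) h7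
    rw [Ordinal.rank_toZFSet] at h8
    exact lt_of_le_of_lt h8 ((ZFSet.rank_lt_of_mem h6).trans
      ((ZFSet.rank_lt_of_mem h4).trans (ZFSet.rank_lt_of_mem hgc)))
  have hcr := nonadm_rank hc
  have hθc : θ ≤ c.rank := by
    have := hkey 0 hγ0
    rw [add_zero] at this
    exact this.le
  obtain ⟨δ, hδ⟩ := exists_add_of_le hθc
  rw [hδ] at hcr
  have := hkey δ ((add_lt_add_iff_left θ).1 hcr)
  rw [← hδ] at this
  exact lt_irrefl _ this

end Pool.Agent.MPa662fc
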