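import Mathlib
import Pool.Agent.Lib.MP_a662fc_lc.Defs
import Pool.Agent.Lib.MP_a662fc_lc.Fam
import Pool.Agent.Lib.MP_a662fc_lc.MDefs
import Pool.Agent.Lib.MP_a662fc_lc.Basic
import Pool.Agent.Lib.MP_a662fc_lc.CmdComp

/-!
# The register program for one conditional write
-/

namespace Pool.Agent.MPa662fc

open Ordinal Pool.Agent.MP752584 Encodable

/-- A program for `f` with any sufficiently large number of registers. -/
theorem opcmd_pad (f : ℕ → ℕ) (hf : Computable f) : ∀ᶠ K : ℕ in Filter.atTop,
    ∃ c : Cmd (K + 2), ∀ x a s, Exec x a c (st (K + 1) s) (st2 K s (f s)) := by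
  obtain ⟨k, c, hc⟩ := cmd_of_computable f hf
  refine Filter.eventually_atTop.2 ⟨k, fun K hK => ?_⟩
  have hle : k + 2 ≤ K + 2 := by omega
  have hinj : Function.Injective (Fin.castLE hle) := Fin.castLE_injective hle
  refine ⟨c.map (Fin.castLE hle), fun x a s => ?_⟩
  obtain ⟨t', h1, h2, h3⟩ := Exec.map hinj (hc x a s) (st (K + 1) s) (fun i => by
    unfold st
    simp only [Fin.ext_iff, Fin.val_castLE, Fin.val_zero])
  have ht : t' = st2 K s (f s) := by
    funext j
    by_cases hj : j.val < k + 2
    · have hj' : j = Fin.castLE hle ⟨j.val, hj⟩ := by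
        apply Fin.ext
        simp
      rw [hj', h2]
      unfold st2
      simp only [Fin.ext_iff, Fin.val_castLE, Fin.val_zero, Fin.val_one]
    · rw [h3 j (fun i hi => hj (by rw [hi]; simp))]
      unfold st st2
      simp only [Fin.ext_iff, Fin.val_zero, Fin.val_one]
      have h0 : j.val ≠ 0 := by omega
      have h1' : j.val ≠ 1 := by omega
      rw [if_neg h0, if_neg h0, if_neg h1']
  rw [← ht]
  exact h1

/-- The renaming: register `0` is kept, the output goes to `o`, and the private registers
to `5, 6, …`. -/
def opcmd_rho (K : ℕ) (o : Fin (K + 5)) (i : Fin (K + 2)) : Fin (K + 5) :=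
  if i.val = 0 then 0 else if i.val = 1 then o else ⟨i.val + 3, by omega⟩

theorem opcmd_rho_val (K : ℕ) (o : Fin (K + 5)) (i : Fin (K + 2)) : (opcmd_rho K o i).val =
    if i.val = 0 then 0 else if i.val = 1 then o.val else i.val + 3 := by
  unfold opcmd_rho
  split_ifs <;> rfl

theorem opcmd_rho_inj (K : ℕ) (o : Fin (K + 5)) (ho : 1 ≤ o.val) (ho' : o.val ≤ 4) :
    Function.Injective (opcmd_rho K o) := by
  intro i j h
  have h' := congrArg Fin.val h
  rw [opcmd_rho_val, opcmd_rho_val] at h'
  apply Fin.ext
  split_ifs at h' <;> omega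

theorem opcmd_prog (K : ℕ) (c : Cmd (K + 2)) (f : ℕ → ℕ)
    (h : ∀ x a s, Exec x a c (st (K + 1) s) (st2 K s (f s))) (o : Fin (K + 5)) (ho : 1 ≤ o.val)
    (ho' : o.val ≤ 4) (x a : ℕ → Bool) (r : Fin (K + 5) → ℕ) (hr : r o = 0)
    (hr' : ∀ i : Fin (K + 5), 5 ≤ i.val → r i = 0) :
    Exec x a (c.map (opcmd_rho K o)) r (Function.update r o (f (r 0))) := by
  obtain ⟨t', h1, h2, h3⟩ := Exec.map (opcmd_rho_inj K o ho ho') (h x a (r 0)) r (fun i => by
    unfold st opcmd_rho
    simp only [Fin.ext_iff, Fin.val_zero]
    by_cases h0 : i.val = 0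
    · rw [if_pos h0, if_pos h0]
    · rw [if_neg h0, if_neg h0]
      by_cases h1 : i.val = 1
      · rw [if_pos h1, hr]
      · rw [if_neg h1]
        exact hr' _ (by simp; omega))
  have ht : t' = Function.update r o (f (r 0)) := by
    funext j
    by_cases hjo : j = o
    · subst hjo
      have := h2 1
      have he : opcmd_rho K j 1 = j := by
        unfold opcmd_rho
        simp
      rw [he] at this
      rw [this, Function.update_self]
      unfold st2
      simp
    · rw [Function.update_of_ne hjo]
      by_cases hj0 : j.val = 0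
      · have := h2 0
        have he : opcmd_rho K o 0 = j := by
          unfold opcmd_rho
          apply Fin.ext
          simp [hj0]
        rw [he] at this
        rw [this]
        unfold st2
        rw [if_pos rfl]
        congr 1
      · by_cases hj5 : 5 ≤ j.val
        · have hlt : j.val - 3 < K + 2 := by omega
          have := h2 ⟨j.val - 3, hlt⟩
          have he : opcmd_rho K o ⟨j.val - 3, hlt⟩ = j := by
            unfold opcmd_rho
            apply Fin.ext
            rw [if_neg (by simp; omega), if_neg (by simp; omega)]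
            simp only
            omega
          rw [he] at this
          rw [this, hr' j hj5]
          unfold st2
          simp only [Fin.ext_iff, Fin.val_zero, Fin.val_one]
          rw [if_neg (by omega), if_neg (by omega)]
        · refine h3 j (fun i hi => ?_)
          unfold opcmd_rho at hi
          split_ifs at hi with h0 h1
          · exact hj0 (by rw [hi]; simp)
          · exact hjo hi
          · apply hj5
            rw [hi]
            simp
            omega
  rw [← ht]
  exact h1

/-- The action code as a function of the four bits. -/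
def opcmd_code (bx ba bx' ba' : Bool) (t b t' b' c : ℕ) : ℕ :=
  if (t = 0 ∨ (t = 1 ∧ bx = decide (b ≠ 0)) ∨ (2 ≤ t ∧ ba = decide (b ≠ 0))) ∧
      (t' = 0 ∨ (t' = 1 ∧ bx' = decide (b' ≠ 0)) ∨ (2 ≤ t' ∧ ba' = decide (b' ≠ 0))) then
    (if c = 0 then 1 else 2) else 0

theorem opcmd_primrec_cond (bx ba : Bool) :
    PrimrecPred fun p : ℕ × ℕ => (p.1 = 0 ∨ (p.1 = 1 ∧ bx = decide (p.2 ≠ 0)) ∨
      (2 ≤ p.1 ∧ ba = decide (p.2 ≠ 0))) := by
  have h0 : ∀ n : ℕ, PrimrecPred fun p : ℕ × ℕ => p.1 = n := fun n =>
    Primrec.eq.comp Primrec.fst (Primrec.const n)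
  have h1 : PrimrecPred fun p : ℕ × ℕ => p.2 = 0 := Primrec.eq.comp Primrec.snd (Primrec.const 0)
  have h2 : PrimrecPred fun p : ℕ × ℕ => 2 ≤ p.1 :=
    Primrec.nat_le.comp (Primrec.const 2) Primrec.fst
  have hb : ∀ b : Bool, PrimrecPred fun p : ℕ × ℕ => b = decide (p.2 ≠ 0) := by
    intro b
    cases b
    · exact h1.of_eq fun p => by simp
    · exact h1.not.of_eq fun p => by simp
  exact (h0 0).or (((h0 1).and (hb bx)).or (h2.and (hb ba)))

theorem opcmd_code_computable (f : Fin 8 → ℕ → ℕ) (hf : ∀ i, Computable (f i))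
    (bx ba bx' ba' : Bool) : Computable fun s =>
      opcmd_code bx ba bx' ba' (f 0 s) (f 2 s) (f 3 s) (f 5 s) (f 7 s) := by
  have h : Primrec fun p : (ℕ × ℕ) × (ℕ × ℕ) × ℕ =>
      opcmd_code bx ba bx' ba' p.1.1 p.1.2 p.2.1.1 p.2.1.2 p.2.2 := by
    unfold opcmd_code
    refine Primrec.ite ?_ ?_ (Primrec.const 0)
    · exact ((opcmd_primrec_cond bx ba).comp Primrec.fst).and
        ((opcmd_primrec_cond bx' ba').comp (Primrec.fst.comp Primrec.snd))
    · exact Primrec.ite (Primrec.eq.comp (Primrec.snd.comp Primrec.snd) (Primrec.const 0))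
        (Primrec.const 1) (Primrec.const 2)
  exact h.to_comp.comp (((hf 0).pair (hf 2)).pair (((hf 3).pair (hf 5)).pair (hf 7)))

/-- The index set of the programs that are needed. -/
abbrev OpcmdIdx := Fin 3 ⊕ (Bool × Bool × Bool × Bool)

/-- The functions that are computed. -/
def opcmd_fun (f : Fin 8 → ℕ → ℕ) : OpcmdIdx → ℕ → ℕ
  | .inl 0, s => f 1 s
  | .inl 1, s => f 4 s
  | .inl 2, s => f 6 s
  | .inr (bx, ba, bx', ba'), s =>
    opcmd_code bx ba bx' ba' (f 0 s) (f 2 s) (f 3 s) (f 5 s) (f 7 s)

theorem opcmd_fun_computable (f : Fin 8 → ℕ → ℕ) (hf : ∀ i, Computable (f i)) (i : OpcmdIdx) :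
    Computable (opcmd_fun f i) := by
  rcases i with i | ⟨bx, ba, bx', ba'⟩
  · fin_cases i
    · exact hf 1
    · exact hf 4
    · exact hf 6
  · exact opcmd_code_computable f hf bx ba bx' ba'

theorem opcmd_exec_if (K : ℕ) {x a : ℕ → Bool} {r s : Fin (K + 5) → ℕ}
    (L : Bool → Bool → Bool → Bool → Cmd (K + 5)) (i j : Fin (K + 5))
    (h : Exec x a (L (x (r i)) (a (r i)) (x (r j)) (a (r j))) r s) :
    Exec x a (.ifX i
      (.ifA i
        (.ifX j
          (.ifA j (L true true true true) (L true true true false))
          (.ifA j (L true true false true) (L true true false false)))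
        (.ifX j
          (.ifA j (L true false true true) (L true false true false))
          (.ifA j (L true false false true) (L true false false false))))
      (.ifA i
        (.ifX j
          (.ifA j (L false true true true) (L false true true false))
          (.ifA j (L false true false true) (L false true false false)))
        (.ifX j
          (.ifA j (L false false true true) (L false false true false))
          (.ifA j (L false false false true) (L false false false false))))) r s := by
  rcases hx : x (r i) with _ | _ <;> rcases ha : a (r i) with _ | _ <;>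
    rcases hx' : x (r j) with _ | _ <;> rcases ha' : a (r j) with _ | _ <;>
    rw [hx, ha, hx', ha'] at h
  all_goals
    first
      | refine Exec.ifX_true hx ?_
      | refine Exec.ifX_false hx ?_
  all_goals
    first
      | refine Exec.ifA_true ha ?_
      | refine Exec.ifA_false ha ?_
  all_goals
    first
      | refine Exec.ifX_true hx' ?_
      | refine Exec.ifX_false hx' ?_
  all_goals
    first
      | exact Exec.ifA_true ha' h
      | exact Exec.ifA_false ha' h

theorem op_cmd (f : Fin 8 → ℕ → ℕ) (hf : ∀ i, Computable (f i)) : ∃ (k : ℕ) (c : Cmd (k + 3))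
    (mid : (ℕ → Bool) → (ℕ → Bool) → ℕ → Fin (k + 3) → ℕ),
    (∀ x a s, Exec x a c (st (k + 2) s) (mid x a s)) ∧ (∀ x a s, mid x a s 0 = s) ∧
    ∀ x a s, write (mid x a s 1) (mid x a s 2) a = opF f x s a := by
  have hall : ∀ᶠ K : ℕ in Filter.atTop, ∀ i : OpcmdIdx, ∃ c : Cmd (K + 2), ∀ x a s,
      Exec x a c (st (K + 1) s) (st2 K s (opcmd_fun f i s)) :=
    Filter.eventually_all.2 fun i => opcmd_pad _ (opcmd_fun_computable f hf i)
  obtain ⟨K, hK⟩ := hall.exists
  choose c hc using hK
  have e1 : (1 : Fin (K + 5)).val = 1 := rfl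
  have e2 : (2 : Fin (K + 5)).val = 2 := by simp
  have e3 : (3 : Fin (K + 5)).val = 3 := by simp
  have e4 : (4 : Fin (K + 5)).val = 4 := by simp
  have n10 : (1 : Fin (K + 5)) ≠ 0 := by rw [Ne, Fin.ext_iff, e1]; simp
  have n20 : (2 : Fin (K + 5)) ≠ 0 := by rw [Ne, Fin.ext_iff, e2]; simp
  have n30 : (3 : Fin (K + 5)) ≠ 0 := by rw [Ne, Fin.ext_iff, e3]; simp
  have n40 : (4 : Fin (K + 5)) ≠ 0 := by rw [Ne, Fin.ext_iff, e4]; simp
  have n12 : (1 : Fin (K + 5)) ≠ 2 := by rw [Ne, Fin.ext_iff, e1, e2]; simp
  have n13 : (1 : Fin (K + 5)) ≠ 3 := by rw [Ne, Fin.ext_iff, e1, e3]; simp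
  have n14 : (1 : Fin (K + 5)) ≠ 4 := by rw [Ne, Fin.ext_iff, e1, e4]; simp
  have n23 : (2 : Fin (K + 5)) ≠ 3 := by rw [Ne, Fin.ext_iff, e2, e3]; simp
  have n24 : (2 : Fin (K + 5)) ≠ 4 := by rw [Ne, Fin.ext_iff, e2, e4]; simp
  have n34 : (3 : Fin (K + 5)) ≠ 4 := by rw [Ne, Fin.ext_iff, e3, e4]; simp
  let r1 : ℕ → Fin (K + 5) → ℕ := fun s => Function.update (st (K + 4) s) 3 (f 1 s)
  let r2 : ℕ → Fin (K + 5) → ℕ := fun s => Function.update (r1 s) 4 (f 4 s)
  let r3 : ℕ → Fin (K + 5) → ℕ := fun s => Function.update (r2 s) 1 (f 6 s)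
  let code : (ℕ → Bool) → (ℕ → Bool) → ℕ → ℕ := fun x a s =>
    opcmd_code (x (f 1 s)) (a (f 1 s)) (x (f 4 s)) (a (f 4 s)) (f 0 s) (f 2 s) (f 3 s) (f 5 s)
      (f 7 s)
  let L : Bool → Bool → Bool → Bool → Cmd (K + 5) := fun bx ba bx' ba' =>
    (c (.inr (bx, ba, bx', ba'))).map (opcmd_rho K 2)
  have hst : ∀ (s : ℕ) (i : Fin (K + 5)), i ≠ 0 → st (K + 4) s i = 0 := fun s i hi => if_neg hi
  have hst0 : ∀ s : ℕ, st (K + 4) s 0 = s := fun s => if_pos rfl
  have hne5 : ∀ i : Fin (K + 5), 5 ≤ i.val → i ≠ 0 ∧ i ≠ 1 ∧ i ≠ 2 ∧ i ≠ 3 ∧ i ≠ 4 := by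
    intro i hi
    refine ⟨?_, ?_, ?_, ?_, ?_⟩ <;> rw [Ne, Fin.ext_iff]
    · rw [Fin.val_zero]; omega
    · rw [e1]; omega
    · rw [e2]; omega
    · rw [e3]; omega
    · rw [e4]; omega
  refine ⟨K + 2, .seq ((c (.inl 0)).map (opcmd_rho K 3)) (.seq ((c (.inl 1)).map (opcmd_rho K 4))
    (.seq ((c (.inl 2)).map (opcmd_rho K 1)) (.ifX 3
      (.ifA 3
        (.ifX 4
          (.ifA 4 (L true true true true) (L true true true false))
          (.ifA 4 (L true true false true) (L true true false false)))
        (.ifX 4
          (.ifA 4 (L true false true true) (L true false true false))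
          (.ifA 4 (L true false false true) (L true false false false))))
      (.ifA 3
        (.ifX 4
          (.ifA 4 (L false true true true) (L false true true false))
          (.ifA 4 (L false true false true) (L false true false false)))
        (.ifX 4
          (.ifA 4 (L false false true true) (L false false true false))
          (.ifA 4 (L false false false true) (L false false false false))))))),
    fun x a s => Function.update (r3 s) 2 (code x a s), ?_, ?_, ?_⟩
  · intro x a s
    have s1 : Exec x a ((c (.inl 0)).map (opcmd_rho K 3)) (st (K + 4) s) (r1 s) := by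
      have := opcmd_prog K (c (.inl 0)) (opcmd_fun f (.inl 0)) (hc (.inl 0)) 3 (by rw [e3]; omega)
        (by rw [e3]; omega) x a (st (K + 4) s) (hst s 3 n30) (fun i hi => hst s i (hne5 i hi).1)
      rw [hst0] at this
      exact this
    have s2 : Exec x a ((c (.inl 1)).map (opcmd_rho K 4)) (r1 s) (r2 s) := by
      have := opcmd_prog K (c (.inl 1)) (opcmd_fun f (.inl 1)) (hc (.inl 1)) 4 (by rw [e4]; omega)
        (by rw [e4]) x a (r1 s)
        (by simp only [r1]; rw [Function.update_of_ne n34.symm]; exact hst s 4 n40)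
        (fun i hi => by
          simp only [r1]
          rw [Function.update_of_ne (hne5 i hi).2.2.2.1]
          exact hst s i (hne5 i hi).1)
      have h0 : r1 s 0 = s := by
        simp only [r1]
        rw [Function.update_of_ne n30.symm]
        exact hst0 s
      rw [h0] at this
      exact this
    have s3 : Exec x a ((c (.inl 2)).map (opcmd_rho K 1)) (r2 s) (r3 s) := by
      have := opcmd_prog K (c (.inl 2)) (opcmd_fun f (.inl 2)) (hc (.inl 2)) 1 (by rw [e1])
        (by rw [e1]; omega) x a (r2 s)
        (by
          simp only [r2, r1]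
          rw [Function.update_of_ne n14, Function.update_of_ne n13]
          exact hst s 1 n10)
        (fun i hi => by
          simp only [r2, r1]
          rw [Function.update_of_ne (hne5 i hi).2.2.2.2, Function.update_of_ne (hne5 i hi).2.2.2.1]
          exact hst s i (hne5 i hi).1)
      have h0 : r2 s 0 = s := by
        simp only [r2, r1]
        rw [Function.update_of_ne n40.symm, Function.update_of_ne n30.symm]
        exact hst0 s
      rw [h0] at this
      exact this
    have v3 : r3 s 3 = f 1 s := by
      simp only [r3, r2, r1]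
      rw [Function.update_of_ne n13.symm, Function.update_of_ne n34, Function.update_self]
    have v4 : r3 s 4 = f 4 s := by
      simp only [r3, r2, r1]
      rw [Function.update_of_ne n14.symm, Function.update_self]
    have s4 : Exec x a (L (x (r3 s 3)) (a (r3 s 3)) (x (r3 s 4)) (a (r3 s 4))) (r3 s)
        (Function.update (r3 s) 2 (code x a s)) := by
      have := opcmd_prog K (c (.inr (x (r3 s 3), a (r3 s 3), x (r3 s 4), a (r3 s 4))))
        (opcmd_fun f (.inr (x (r3 s 3), a (r3 s 3), x (r3 s 4), a (r3 s 4))))
        (hc (.inr (x (r3 s 3), a (r3 s 3), x (r3 s 4), a (r3 s 4)))) 2 (by rw [e2]; omega)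
        (by rw [e2]; omega) x a (r3 s)
        (by
          simp only [r3, r2, r1]
          rw [Function.update_of_ne n12.symm, Function.update_of_ne n24, Function.update_of_ne n23]
          exact hst s 2 n20)
        (fun i hi => by
          simp only [r3, r2, r1]
          rw [Function.update_of_ne (hne5 i hi).2.1, Function.update_of_ne (hne5 i hi).2.2.2.2,
            Function.update_of_ne (hne5 i hi).2.2.2.1]
          exact hst s i (hne5 i hi).1)
      have h0 : r3 s 0 = s := by
        simp only [r3, r2, r1]
        rw [Function.update_of_ne n10.symm, Function.update_of_ne n40.symm,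
          Function.update_of_ne n30.symm]
        exact hst0 s
      rw [h0] at this
      rw [v3, v4] at this ⊢
      exact this
    exact .seq s1 (.seq s2 (.seq s3 (opcmd_exec_if K L 3 4 s4)))
  · intro x a s
    show Function.update (r3 s) 2 (code x a s) 0 = s
    rw [Function.update_of_ne n20.symm]
    simp only [r3, r2, r1]
    rw [Function.update_of_ne n10.symm, Function.update_of_ne n40.symm,
      Function.update_of_ne n30.symm]
    exact hst0 s
  · intro x a s
    show write (Function.update (r3 s) 2 (code x a s) 1) (Function.update (r3 s) 2 (code x a s) 2) a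
      = opF f x s a
    rw [Function.update_of_ne n12, Function.update_self]
    have v1 : r3 s 1 = f 6 s := by
      simp only [r3]
      rw [Function.update_self]
    rw [v1]
    by_cases hcond : cond x a (f 0 s) (f 1 s) (f 2 s) ∧ cond x a (f 3 s) (f 4 s) (f 5 s)
    · by_cases h7 : f 7 s = 0
      · have hcode : code x a s = 1 := by
          simp only [code]
          unfold opcmd_code
          unfold cond at hcond
          rw [if_pos hcond, if_pos h7]
        rw [hcode]
        unfold opF write
        rw [if_neg one_ne_zero, if_pos hcond, h7]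
        simp
      · have hcode : code x a s = 2 := by
          simp only [code]
          unfold opcmd_code
          unfold cond at hcond
          rw [if_pos hcond, if_neg h7]
        rw [hcode]
        unfold opF write
        rw [if_neg two_ne_zero, if_pos hcond]
        simp [h7]
    · have hcode : code x a s = 0 := by
        simp only [code]
        unfold opcmd_code
        unfold cond at hcond
        rw [if_neg hcond]
      rw [hcode]
      unfold opF write
      rw [if_pos rfl, if_neg hcond]

end Pool.Agent.MPa662fc
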