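import Mathlib
import Pool.Agent.Lib.MP_a662fc_lc.MDefs

/-!
# Computability of the operations and of the instances
-/

namespace Pool.Agent.MPa662fc

open Ordinal Pool.Agent.MP752584 Encodable

theorem opcomp_ite {α σ : Type*} [Primcodable α] [Primcodable σ] {c : α → Prop}
    [DecidablePred c] {f g : α → σ} (hc : PrimrecPred c) (hf : Computable f)
    (hg : Computable g) : Computable fun a => if c a then f a else g a :=
  (Computable.cond hc.decide.to_comp hf hg).of_eq fun a => by
    by_cases h : c a <;> simp [h]

/-- Tuples of eight numbers. -/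
abbrev opcompT := ℕ × ℕ × ℕ × ℕ × ℕ × ℕ × ℕ × ℕ

theorem opcomp_tup {α : Type*} [Primcodable α] {f0 f1 f2 f3 f4 f5 f6 f7 : α → ℕ}
    (h0 : Computable f0) (h1 : Computable f1) (h2 : Computable f2) (h3 : Computable f3)
    (h4 : Computable f4) (h5 : Computable f5) (h6 : Computable f6) (h7 : Computable f7) :
    Computable fun a => ((f0 a, f1 a, f2 a, f3 a, f4 a, f5 a, f6 a, f7 a) : opcompT) :=
  h0.pair (h1.pair (h2.pair (h3.pair (h4.pair (h5.pair (h6.pair h7))))))

theorem opcomp_lin (a b : ℕ) : Primrec fun j : ℕ => a * j + b :=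
  Primrec.nat_add.comp (Primrec.nat_mul.comp (Primrec.const a) Primrec.id) (Primrec.const b)

/-- The tuple doing nothing. -/
def opcompNoop : opcompT := (0, 0, 0, 0, 0, 0, 4, 0)

/-- The operation of kind 4. -/
def opcomp4 (inst : ℕ → Option (ℕ × ℕ × List (ℕ × Bool))) (j : ℕ) : opcompT :=
  Option.casesOn (inst j.unpair.1) opcompNoop fun t =>
    Option.casesOn (t.2.2[j.unpair.2]?) opcompNoop fun p =>
      (1, p.1, (bif p.2 then 0 else 1), 0, 0, 0, 4 * j.unpair.1 + 3, 1)

/-- The operation of kind 5. -/
def opcomp5 (inst : ℕ → Option (ℕ × ℕ × List (ℕ × Bool))) (j : ℕ) : opcompT :=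
  Option.casesOn (inst j.unpair.1) opcompNoop fun t =>
    if t.1 ≤ j then (if t.2.1 ≤ j then
      (2, 4 * j.unpair.1 + 3, 0, 2, 4 * t.1 + 1, 0, 4 * t.2.1 + 2, 0) else opcompNoop)
    else opcompNoop

theorem opcomp4_comp {inst : ℕ → Option (ℕ × ℕ × List (ℕ × Bool))} (h : Computable inst) :
    Computable (opcomp4 inst) := by
  have hu1 : Computable fun j : ℕ => j.unpair.1 := Computable.fst.comp Computable.unpair
  have hu2 : Computable fun j : ℕ => j.unpair.2 := Computable.snd.comp Computable.unpair
  refine Computable.option_casesOn (h.comp hu1) (Computable.const _) ?_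
  show Computable fun x : ℕ × (ℕ × ℕ × List (ℕ × Bool)) => _
  refine Computable.option_casesOn ?_ (Computable.const _) ?_
  · exact Computable.list_getElem?.comp
      (Computable.snd.comp (Computable.snd.comp Computable.snd)) (hu2.comp Computable.fst)
  · show Computable fun x : (ℕ × (ℕ × ℕ × List (ℕ × Bool))) × (ℕ × Bool) => _
    refine opcomp_tup (Computable.const _) (Computable.fst.comp Computable.snd) ?_
      (Computable.const _) (Computable.const _) (Computable.const _) ?_ (Computable.const _)
    · exact Computable.cond (Computable.snd.comp Computable.snd) (Computable.const _)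
        (Computable.const _)
    · exact (opcomp_lin 4 3).to_comp.comp (hu1.comp (Computable.fst.comp Computable.fst))

theorem opcomp5_comp {inst : ℕ → Option (ℕ × ℕ × List (ℕ × Bool))} (h : Computable inst) :
    Computable (opcomp5 inst) := by
  have hu1 : Computable fun j : ℕ => j.unpair.1 := Computable.fst.comp Computable.unpair
  refine Computable.option_casesOn (h.comp hu1) (Computable.const _) ?_
  show Computable fun x : ℕ × (ℕ × ℕ × List (ℕ × Bool)) => _
  refine opcomp_ite ?_ (opcomp_ite ?_ ?_ (Computable.const _)) (Computable.const _)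
  · exact Primrec.nat_le.comp (Primrec.fst.comp Primrec.snd) Primrec.fst
  · exact Primrec.nat_le.comp (Primrec.fst.comp (Primrec.snd.comp Primrec.snd)) Primrec.fst
  · refine opcomp_tup (Computable.const _) ?_ (Computable.const _)
      (Computable.const _) ?_ (Computable.const _) ?_ (Computable.const _)
    · exact (opcomp_lin 4 3).to_comp.comp (hu1.comp Computable.fst)
    · exact (opcomp_lin 4 1).to_comp.comp (Computable.fst.comp Computable.snd)
    · exact (opcomp_lin 4 2).to_comp.comp (Computable.fst.comp (Computable.snd.comp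
        Computable.snd))

theorem opcomp_opT {inst : ℕ → Option (ℕ × ℕ × List (ℕ × Bool))} (h : Computable inst) :
    Computable (opT inst) := by
  have hd : Computable fun s : ℕ => s / 6 :=
    (Primrec.nat_div.comp Primrec.id (Primrec.const 6)).to_comp
  have hm : ∀ r, PrimrecPred fun s : ℕ => s % 6 = r := fun r =>
    Primrec.eq.comp (Primrec.nat_mod.comp Primrec.id (Primrec.const 6)) (Primrec.const r)
  have c0 : ∀ {n : ℕ}, Computable fun _ : ℕ => n := fun {n} => Computable.const n
  have lin : ∀ a b : ℕ, Computable fun s : ℕ => a * (s / 6) + b := fun a b =>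
    (opcomp_lin a b).to_comp.comp hd
  have key : Computable fun s : ℕ =>
      (if s % 6 = 0 then (if s / 6 = 0 then ((0, 0, 0, 0, 0, 0, 0, 1) : opcompT) else opcompNoop)
      else if s % 6 = 1 then (2, 4 * (s / 6) + 2, 1, 0, 0, 0, 4 * (s / 6) + 1, 1)
      else if s % 6 = 2 then (0, 0, 0, 0, 0, 0, 4 * (s / 6) + 2, 1)
      else if s % 6 = 3 then (2, 4 * (s / 6) + 1, 0, 0, 0, 0, 0, 0)
      else if s % 6 = 4 then opcomp4 inst (s / 6) else opcomp5 inst (s / 6)) := by
    refine opcomp_ite (hm 0) (opcomp_ite ?_ (Computable.const _) (Computable.const _)) ?_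
    · exact Primrec.eq.comp (Primrec.nat_div.comp Primrec.id (Primrec.const 6)) (Primrec.const 0)
    refine opcomp_ite (hm 1) (opcomp_tup c0 (lin 4 2) c0 c0 c0 c0 (lin 4 1) c0) ?_
    refine opcomp_ite (hm 2) (opcomp_tup c0 c0 c0 c0 c0 c0 (lin 4 2) c0) ?_
    refine opcomp_ite (hm 3) (opcomp_tup c0 (lin 4 1) c0 c0 c0 c0 c0 c0) ?_
    exact opcomp_ite (hm 4) ((opcomp4_comp h).comp hd) ((opcomp5_comp h).comp hd)
  refine key.of_eq fun s => ?_
  unfold opT opcomp4 opcomp5 opcompNoop
  simp only
  split_ifs <;> try rfl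
  · rcases inst (s / 6).unpair.1 with _ | ⟨m, n, l⟩
    · rfl
    · simp only
      rcases l[(s / 6).unpair.2]? with _ | ⟨i, b⟩
      · rfl
      · cases b <;> rfl
  · rcases inst (s / 6).unpair.1 with _ | ⟨m, n, l⟩
    · rfl
    · simp only
      by_cases h1 : m ≤ s / 6 <;> by_cases h2 : n ≤ s / 6 <;> simp [h1, h2]

theorem opOf_computable {inst : ℕ → Option (ℕ × ℕ × List (ℕ × Bool))} (h : Computable inst)
    (i : Fin 8) : Computable (opOf inst i) := by
  have H := opcomp_opT h
  have H1 := Computable.snd.comp H
  have H2 := Computable.snd.comp H1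
  have H3 := Computable.snd.comp H2
  have H4 := Computable.snd.comp H3
  have H5 := Computable.snd.comp H4
  have H6 := Computable.snd.comp H5
  fin_cases i
  · exact Computable.fst.comp H
  · exact Computable.fst.comp H1
  · exact Computable.fst.comp H2
  · exact Computable.fst.comp H3
  · exact Computable.fst.comp H4
  · exact Computable.fst.comp H5
  · exact Computable.fst.comp H6
  · exact Computable.snd.comp H6

theorem exists_inst {Q : ℕ × ℕ × List (ℕ × Bool) → Prop} (hQ : SD Q) :
    ∃ inst : ℕ → Option (ℕ × ℕ × List (ℕ × Bool)), Computable inst ∧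
      ∀ x m n, InstRel inst x m n ↔ Rel Q x m n := by
  obtain ⟨g, hg, hgQ⟩ := hQ
  refine ⟨fun k => (decode (α := ℕ × ℕ × List (ℕ × Bool)) k.unpair.1).bind
      (fun t => bif g t k.unpair.2 then some t else none), ?_, ?_⟩
  · refine Computable.option_bind ?_ ?_
    · exact Computable.decode.comp (Computable.fst.comp Computable.unpair)
    · refine Computable.cond ?_ (Computable.option_some.comp Computable.snd)
        (Computable.const none)
      exact hg.comp Computable.snd (Computable.snd.comp
        (Computable.unpair.comp Computable.fst))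
  · intro x m n
    unfold InstRel Rel
    constructor
    · rintro ⟨k, l, hk, hl⟩
      refine ⟨l, ?_, hl⟩
      rw [hgQ]
      simp only [Option.bind_eq_some_iff] at hk
      obtain ⟨t, ht, h2⟩ := hk
      refine ⟨k.unpair.2, ?_⟩
      cases hb : g t k.unpair.2 with
      | false => simp [hb] at h2
      | true =>
        simp [hb] at h2
        rw [← h2, hb]
    · rintro ⟨l, hQl, hl⟩
      obtain ⟨N, hN⟩ := (hgQ _).1 hQl
      refine ⟨Nat.pair (encode ((m, n, l) : ℕ × ℕ × List (ℕ × Bool))) N, l, ?_, hl⟩
      simp only [Nat.unpair_pair, encodek, Option.bind_some]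
      rw [hN]; rfl

end Pool.Agent.MPa662fc
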