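import Mathlib
import Pool.Agent.Lib.MP_a662fc_lc.Defs
import Pool.Agent.Lib.MP_a662fc_lc.Fam
import Pool.Agent.Lib.MP_a662fc_lc.Pat
import Pool.Agent.Lib.MP_a662fc_lc.Basic
import Pool.Agent.Lib.MP_a662fc_lc.RunComplete

/-!
# A model of `RunPat` gives a halting run
-/

namespace Pool.Agent.MPa662fc

open Ordinal Pool.Agent.MP752584 Encodable

theorem runsound_av {P : Pattern → Prop} {a b : Ordinal.{0}} {Y : ℕ → DD → DD → ℕ × DD}
    (hY : IsModel P a b Y) {e : DD} (he : e ∈ D a b) (π : Pattern) (hπ : P π) (l : List DD)
    (hl : ∀ s ∈ l, s ∈ D a b)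
    (h : ∀ c ∈ π, LitHolds (holdsY Y) (fun n => l.getD n e) c) : False := by
  refine hY.avoid π hπ (fun n => l.getD n e) (fun n => ?_) h
  show l.getD n e ∈ D a b
  rw [List.getD_eq_getElem?_getD]
  rcases hn : l[n]? with _ | s
  · simpa using he
  · simpa using hl s (List.mem_of_getElem? hn)

theorem runsound_tri (s t : DD) : dlt s t ∨ s = t ∨ dlt t s := by
  obtain ⟨s1, s2⟩ := s
  obtain ⟨t1, t2⟩ := t
  rcases lt_trichotomy s2 t2 with h | h | h <;> cases s1 <;> cases t1 <;> simp [dlt, h]

theorem runsound_dlt {a b : Ordinal.{0}} {s t : DD} (ht : t ∈ D a b)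
    (h : pos a s < pos a t) : dlt s t := by
  rcases runsound_tri s t with h1 | h1 | h1
  · exact h1
  · rw [h1] at h
    exact absurd h (lt_irrefl _)
  · exact absurd (runcomplete_dlt ht h1) (not_lt.2 h.le)

theorem runsound_inj {a b : Ordinal.{0}} {s t : DD} (hs : s ∈ D a b) (ht : t ∈ D a b)
    (h : pos a s = pos a t) : s = t := by
  rcases runsound_tri s t with h1 | h1 | h1
  · exact absurd (runcomplete_dlt hs h1) (by rw [h]; exact lt_irrefl _)
  · exact h1
  · exact absurd (runcomplete_dlt ht h1) (by rw [h]; exact lt_irrefl _)

section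

variable {p : Prog} {a b : Ordinal.{0}} {Y : ℕ → DD → DD → ℕ × DD}

/-- The values of `Y` at stage `m` of block `s` are those of the run on the input `x`. -/
def runsound_corr (p : Prog) (a : Ordinal.{0}) (Y : ℕ → DD → DD → ℕ × DD) (x : ℕ → Bool) (s : DD)
    (m : ℕ) : Prop :=
  (Y (iSt m) s s).1 = p.code (p.run x (ω * pos a s + m)).state ∧
  (Y (iHd m) s s).1 = (p.run x (ω * pos a s + m)).head ∧
  ∀ (j : Fin 3) (n : ℕ), (Y (iCl j n m) s s).1 = bc ((p.run x (ω * pos a s + m)).tape j n)

theorem runsound_cl (hY : IsModel (RunPat p) a b Y) {s : DD} (hs : s ∈ D a b) (j : Fin 3)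
    (n m : ℕ) : (Y (iCl j n m) s s).1 < 2 := by
  by_contra h
  rw [not_lt] at h
  refine runsound_av hY hs _ (Or.inl (RunA.cl j n m _ h)) [s, (Y (iCl j n m) s s).2] ?_ ?_
  · simp [hs, hY.mem]
  · simp [runcomplete_fa, holdsY]

theorem runsound_step (hY : IsModel (RunPat p) a b Y) {x : ℕ → Bool} {s : DD} (hs : s ∈ D a b)
    {m : ℕ} (h : runsound_corr p a Y x s m)
    (hh : (p.run x (ω * pos a s + m)).state ≠ p.halt) : runsound_corr p a Y x s (m + 1) := by
  obtain ⟨h1, h2, h3⟩ := h
  have hrun := p.run_block_succ x (pos a s) m
  set R := p.run x (ω * pos a s + m) with hR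
  have hm : ∀ i, (Y i s s).2 ∈ D a b := fun i => hY.mem i s hs s hs
  refine ⟨?_, ?_, ?_⟩
  · rw [hrun]
    by_contra hv
    refine runsound_av hY hs _ (Or.inl (RunA.stepS R.state hh R.head
      (fun i => R.tape i R.head) m _ hv))
      [s, (Y (iSt m) s s).2, (Y (iHd m) s s).2, (Y (iCl 0 R.head m) s s).2,
        (Y (iCl 1 R.head m) s s).2, (Y (iCl 2 R.head m) s s).2, (Y (iSt (m + 1)) s s).2] ?_ ?_
    · simp [hs, hm]
    · simp only [sit, List.forall_mem_cons, runcomplete_fa, holdsY, List.getD_cons_zero,
        List.getD_cons_succ, List.not_mem_nil, false_imp_iff, implies_true, and_true, Prod.ext_iff,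
        true_and]
      exact ⟨h1, h2, h3 0 R.head, h3 1 R.head, h3 2 R.head⟩
  · rw [hrun]
    by_contra hv
    refine runsound_av hY hs _ (Or.inl (RunA.stepH R.state hh R.head
      (fun i => R.tape i R.head) m _ hv))
      [s, (Y (iSt m) s s).2, (Y (iHd m) s s).2, (Y (iCl 0 R.head m) s s).2,
        (Y (iCl 1 R.head m) s s).2, (Y (iCl 2 R.head m) s s).2, (Y (iHd (m + 1)) s s).2] ?_ ?_
    · simp [hs, hm]
    · simp only [sit, List.forall_mem_cons, runcomplete_fa, holdsY, List.getD_cons_zero,
        List.getD_cons_succ, List.not_mem_nil, false_imp_iff, implies_true, and_true, Prod.ext_iff,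
        true_and]
      exact ⟨h1, h2, h3 0 R.head, h3 1 R.head, h3 2 R.head⟩
  · intro j n
    rw [hrun]
    by_contra hv
    by_cases hn : n = R.head
    · subst hn
      have hv' : (Y (iCl j R.head (m + 1)) s s).1 ≠
          bc ((p.tr R.state fun i => R.tape i R.head).2.1 j) := by
        intro h
        apply hv
        rw [h]
        simp [Prog.step]
      refine runsound_av hY hs _ (Or.inl (RunA.stepC R.state hh R.head
        (fun i => R.tape i R.head) m _ j hv'))
        [s, (Y (iSt m) s s).2, (Y (iHd m) s s).2, (Y (iCl 0 R.head m) s s).2,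
          (Y (iCl 1 R.head m) s s).2, (Y (iCl 2 R.head m) s s).2,
          (Y (iCl j R.head (m + 1)) s s).2] ?_ ?_
      · simp [hs, hm]
      · simp only [sit, List.forall_mem_cons, runcomplete_fa, holdsY, List.getD_cons_zero,
          List.getD_cons_succ, List.not_mem_nil, false_imp_iff, implies_true, and_true,
          Prod.ext_iff, true_and]
        exact ⟨h1, h2, h3 0 R.head, h3 1 R.head, h3 2 R.head⟩
    · have hv' : (Y (iCl j n m) s s).1 ≠ (Y (iCl j n (m + 1)) s s).1 := by
        intro h
        apply hv
        rw [← h, h3 j n]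
        simp [Prog.step, hn]
      refine runsound_av hY hs _ (Or.inl (RunA.stepN R.state hh R.head m n _ _ j hn hv'))
        [s, (Y (iSt m) s s).2, (Y (iHd m) s s).2, (Y (iCl j n m) s s).2,
          (Y (iCl j n (m + 1)) s s).2] ?_ ?_
      · simp [hs, hm]
      · simp only [List.forall_mem_cons, runcomplete_fa, holdsY, List.getD_cons_zero,
          List.getD_cons_succ, List.not_mem_nil, false_imp_iff, implies_true, and_true,
          Prod.ext_iff, true_and]
        exact ⟨h1, h2⟩

theorem runsound_limit (hY : IsModel (RunPat p) a b Y) {x : ℕ → Bool} {s z : DD}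
    (hs : s ∈ D a b) (hz : z ∈ D a b) (hzs : dlt z s)
    (ih : ∀ r ∈ D a b, pos a r < pos a s → ∀ m, runsound_corr p a Y x r m) :
    runsound_corr p a Y x s 0 := by
  have hpos : 0 < pos a s := lt_of_le_of_lt bot_le (runcomplete_dlt hz hzs)
  obtain ⟨h1, h2, h3⟩ := p.run_block_limit x hpos
  have hm : ∀ i, (Y i s s).2 ∈ D a b := fun i => hY.mem i s hs s hs
  unfold runsound_corr
  rw [Nat.cast_zero, add_zero]
  refine ⟨?_, ?_, ?_⟩
  · rw [h1]
    by_contra hv
    refine runsound_av hY hs _ (Or.inr (RunB.lS _ hv)) [s, z, (Y (iSt 0) s s).2] ?_ ?_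
    · simp [hs, hz, hm]
    · simp only [List.forall_mem_cons, runcomplete_fa, runcomplete_lo, holdsY,
        List.getD_cons_zero, List.getD_cons_succ, List.not_mem_nil, false_imp_iff, implies_true,
        and_true, Prod.ext_iff]
      exact hzs
  · rw [h2]
    by_contra hv
    refine runsound_av hY hs _ (Or.inr (RunB.lH _ hv)) [s, z, (Y (iHd 0) s s).2] ?_ ?_
    · simp [hs, hz, hm]
    · simp only [List.forall_mem_cons, runcomplete_fa, runcomplete_lo, holdsY,
        List.getD_cons_zero, List.getD_cons_succ, List.not_mem_nil, false_imp_iff, implies_true,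
        and_true, Prod.ext_iff]
      exact hzs
  · intro j n
    have hlt := runsound_cl hY hs j n 0
    have hcases : (Y (iCl j n 0) s s).1 = 1 ∨ (Y (iCl j n 0) s s).1 = 0 := by omega
    rcases hcases with hv | hv
    · -- value one
      have e1 : Y (iCl j n 0) s s = (1, (Y (iCl j n 0) s s).2) := Prod.ext hv rfl
      obtain ⟨m₁, u, hw⟩ : ∃ m₁ u, Y (iW1 j n) s s = (m₁, u) := ⟨_, _, rfl⟩
      have hu : u ∈ D a b := by
        have := hm (iW1 j n)
        rwa [hw] at this
      have hus : dlt u s := by
        rcases runsound_tri u s with h | h | h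
        · exact h
        · exfalso
          subst h
          refine runsound_av hY hs _ (Or.inr (RunB.l1b j n m₁)) [u, z, (Y (iCl j n 0) u u).2] ?_ ?_
          · simp [hs, hz, hm]
          · simp only [List.forall_mem_cons, runcomplete_fa, runcomplete_lo, holdsY,
              List.getD_cons_zero, List.getD_cons_succ, List.not_mem_nil, false_imp_iff,
              implies_true, and_true]
            exact ⟨hzs, e1, hw⟩
        · exfalso
          refine runsound_av hY hs _ (Or.inr (RunB.l1a j n m₁))
            [s, z, (Y (iCl j n 0) s s).2, u] ?_ ?_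
          · simp [hs, hz, hm, hu]
          · simp only [List.forall_mem_cons, runcomplete_fa, runcomplete_lo, holdsY,
              List.getD_cons_zero, List.getD_cons_succ, List.not_mem_nil, false_imp_iff,
              implies_true, and_true]
            exact ⟨hzs, e1, hw, h⟩
      have hps := runcomplete_dlt hu hus
      have : (p.run x (ω * pos a s)).tape j n = true := by
        rw [h3 j n]
        refine ⟨pos a u, hps, m₁, fun β' hβ' m' hle => ?_⟩
        have hβ'' : β' < a + b := hβ'.trans (runcomplete_pos_lt hs)
        set r := runcomplete_e a β' with hr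
        have hrD : r ∈ D a b := runcomplete_e_mem hβ''
        have hpr : pos a r = β' := runcomplete_pos_e a β'
        have hc := (ih r hrD (by rw [hpr]; exact hβ') m').2.2 j n
        rw [hpr] at hc
        have hone : (Y (iCl j n m') r r).1 = 1 := by
          by_contra hne
          rcases hle with hlt' | ⟨heq, hmm⟩
          · have hur : dlt u r := runsound_dlt hrD (by rw [hpr]; exact hlt')
            have hrs : dlt r s := runsound_dlt hs (by rw [hpr]; exact hβ')
            refine runsound_av hY hs _ (Or.inr (RunB.l1c j n m₁ m' _ hne))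
              [s, z, (Y (iCl j n 0) s s).2, u, r, (Y (iCl j n m') r r).2] ?_ ?_
            · simp [hs, hz, hm, hu, hrD, hY.mem _ r hrD r hrD]
            · simp only [List.forall_mem_cons, runcomplete_fa, runcomplete_lo, holdsY,
                List.getD_cons_zero, List.getD_cons_succ, List.not_mem_nil, false_imp_iff,
                implies_true, and_true]
              exact ⟨hzs, e1, hw, hur, hrs⟩
          · have hur : u = r := runsound_inj hu hrD (by rw [hpr]; exact heq)
            subst hur
            refine runsound_av hY hs _ (Or.inr (RunB.l1d j n m₁ m' _ hne hmm))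
              [s, z, (Y (iCl j n 0) s s).2, r, r, (Y (iCl j n m') r r).2] ?_ ?_
            · simp [hs, hz, hm, hu, hY.mem _ r hrD r hrD]
            · simp only [List.forall_mem_cons, runcomplete_fa, runcomplete_lo, holdsY,
                List.getD_cons_zero, List.getD_cons_succ, List.not_mem_nil, false_imp_iff,
                implies_true, and_true]
              exact ⟨hzs, e1, hw⟩
        rw [hone] at hc
        cases hb : (p.run x (ω * β' + m')).tape j n
        · rw [hb] at hc
          simp [bc] at hc
        · rfl
      rw [this, hv]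
      rfl
    · -- value zero
      have e1 : Y (iCl j n 0) s s = (0, (Y (iCl j n 0) s s).2) := Prod.ext hv rfl
      have : (p.run x (ω * pos a s)).tape j n = false := by
        rw [← Bool.not_eq_true, h3 j n]
        rintro ⟨β, hβ, m, H⟩
        have hβ'' : β < a + b := hβ.trans (runcomplete_pos_lt hs)
        set r := runcomplete_e a β with hr
        have hrD : r ∈ D a b := runcomplete_e_mem hβ''
        have hpr : pos a r = β := runcomplete_pos_e a β
        have hrs : dlt r s := runsound_dlt hs (by rw [hpr]; exact hβ)
        obtain ⟨m', u, hw⟩ : ∃ m' u, Y (iW0 j n m) s r = (m', u) := ⟨_, _, rfl⟩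
        have hu : u ∈ D a b := by
          have := hY.mem (iW0 j n m) s hs r hrD
          rwa [hw] at this
        have hus : dlt u s := by
          rcases runsound_tri u s with h | h | h
          · exact h
          · exfalso
            subst h
            refine runsound_av hY hs _ (Or.inr (RunB.l0b j n m m')) [u, r, (Y (iCl j n 0) u u).2] ?_ ?_
            · simp [hs, hrD, hm]
            · simp only [List.forall_mem_cons, runcomplete_fa, runcomplete_lo, holdsY,
                List.getD_cons_zero, List.getD_cons_succ, List.not_mem_nil, false_imp_iff,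
                implies_true, and_true]
              exact ⟨hrs, e1, hw⟩
          · exfalso
            refine runsound_av hY hs _ (Or.inr (RunB.l0a j n m m'))
              [s, r, (Y (iCl j n 0) s s).2, u] ?_ ?_
            · simp [hs, hrD, hm, hu]
            · simp only [List.forall_mem_cons, runcomplete_fa, runcomplete_lo, holdsY,
                List.getD_cons_zero, List.getD_cons_succ, List.not_mem_nil, false_imp_iff,
                implies_true, and_true]
              exact ⟨hrs, e1, hw, h⟩
        have hps := runcomplete_dlt hu hus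
        have hcl : (Y (iCl j n m') u u).1 = 0 := by
          by_contra hne
          refine runsound_av hY hs _ (Or.inr (RunB.l0e j n m m' _ hne))
            [s, r, (Y (iCl j n 0) s s).2, u, (Y (iCl j n m') u u).2] ?_ ?_
          · simp [hs, hrD, hm, hu, hY.mem _ u hu u hu]
          · simp only [List.forall_mem_cons, runcomplete_fa, runcomplete_lo, holdsY,
              List.getD_cons_zero, List.getD_cons_succ, List.not_mem_nil, false_imp_iff,
              implies_true, and_true]
            exact ⟨hrs, e1, hw⟩
        have hle : β < pos a u ∨ (β = pos a u ∧ m ≤ m') := by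
          rcases runsound_tri r u with h | h | h
          · left
            have := runcomplete_dlt hrD h
            rwa [hpr] at this
          · right
            subst h
            refine ⟨hpr.symm, ?_⟩
            by_contra hlt'
            rw [not_le] at hlt'
            refine runsound_av hY hs _ (Or.inr (RunB.l0d j n m m' hlt'))
              [s, r, (Y (iCl j n 0) s s).2] ?_ ?_
            · simp [hs, hrD, hm]
            · simp only [List.forall_mem_cons, runcomplete_fa, runcomplete_lo, holdsY,
                List.getD_cons_zero, List.getD_cons_succ, List.not_mem_nil, false_imp_iff,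
                implies_true, and_true]
              exact ⟨hrs, e1, hw⟩
          · exfalso
            refine runsound_av hY hs _ (Or.inr (RunB.l0c j n m m'))
              [s, r, (Y (iCl j n 0) s s).2, u] ?_ ?_
            · simp [hs, hrD, hm, hu]
            · simp only [List.forall_mem_cons, runcomplete_fa, runcomplete_lo, holdsY,
                List.getD_cons_zero, List.getD_cons_succ, List.not_mem_nil, false_imp_iff,
                implies_true, and_true]
              exact ⟨hrs, e1, hw, h⟩
        have hc := (ih u hu hps m').2.2 j n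
        rw [hcl, H (pos a u) hps m' hle] at hc
        simp [bc] at hc
      rw [this, hv]
      rfl

end

theorem run_sound (p : Prog) {a b : Ordinal.{0}} (ha : 0 < a) {Y : ℕ → DD → DD → ℕ × DD}
    (hY : IsModel (RunPat p) a b Y) : ∃ (α : Ordinal.{0}) (x : ℕ → Bool) (m : ℕ) (z : DD),
      a + b = α + 1 ∧ p.HaltsAt x (ω * α + m) ∧ z ∈ D a b ∧ (Y iZ z z).2 = z ∧
      ∀ n, (Y (iCl 0 n 0) z z).1 = bc (x n) := by
  classical
  set e : DD := (false, 0) with he
  have heD : e ∈ D a b := ⟨fun _ => ha, fun h => absurd h (by simp [he])⟩
  -- the first block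
  set z : DD := (Y iZ e e).2 with hz
  have hzD : z ∈ D a b := hY.mem iZ e heD e heD
  have hzmin' : ∀ c ∈ D a b, ∀ s ∈ D a b, ¬ dlt s (Y iZ c c).2 := by
    intro c hc s hs hlt
    refine runsound_av hY heD _ (Or.inl (RunA.z (Y iZ c c).1)) [c, (Y iZ c c).2, s] ?_ ?_
    · simp [hc, hs, hY.mem iZ c hc c hc]
    · simp only [List.forall_mem_cons, runcomplete_fa, runcomplete_lo, holdsY,
        List.getD_cons_zero, List.getD_cons_succ, List.not_mem_nil, false_imp_iff, implies_true,
        and_true]
      exact ⟨trivial, hlt⟩
  have hzmin : ∀ s ∈ D a b, ¬ dlt s z := hzmin' e heD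
  have hzz : (Y iZ z z).2 = z := by
    rcases runsound_tri (Y iZ z z).2 z with h | h | h
    · exact absurd h (hzmin _ (hY.mem iZ z hzD z hzD))
    · exact h
    · exact absurd h (hzmin' z hzD z hzD)
  have hz0 : pos a z = 0 := by
    by_contra hne
    have hpe : pos a e = 0 := by simp [pos, he]
    exact hzmin e heD (runsound_dlt hzD (by rw [hpe]; exact pos_iff_ne_zero.2 hne))
  -- the last block
  obtain ⟨m₀, t, ht⟩ : ∃ m₀ t, Y iTop e e = (m₀, t) := ⟨_, _, rfl⟩
  have htD : t ∈ D a b := by
    have := hY.mem iTop e heD e heD
    rwa [ht] at this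
  have htmax : ∀ s ∈ D a b, ¬ dlt t s := by
    intro s hs hlt
    refine runsound_av hY heD _ (Or.inr (RunB.top m₀)) [e, t, s] ?_ ?_
    · simp [heD, hs, htD]
    · simp only [List.forall_mem_cons, runcomplete_fa, runcomplete_lo, holdsY,
        List.getD_cons_zero, List.getD_cons_succ, List.not_mem_nil, false_imp_iff, implies_true,
        and_true]
      exact ⟨ht, hlt⟩
  have htpos : ∀ s ∈ D a b, pos a s ≤ pos a t := by
    intro s hs
    by_contra hlt
    rw [not_le] at hlt
    exact htmax s hs (runsound_dlt hs hlt)
  have hab : a + b = pos a t + 1 := by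
    apply le_antisymm
    · by_contra hlt
      rw [not_le] at hlt
      have h1 := htpos _ (runcomplete_e_mem hlt)
      rw [runcomplete_pos_e] at h1
      exact absurd (lt_add_one (pos a t)) (not_lt.2 h1)
    · exact Order.add_one_le_of_lt (runcomplete_pos_lt htD)
  -- the input
  let x : ℕ → Bool := fun n => decide ((Y (iCl 0 n 0) z z).1 = 1)
  have hx : ∀ n, (Y (iCl 0 n 0) z z).1 = bc (x n) := by
    intro n
    have hlt : (Y (iCl 0 n 0) z z).1 < 2 := runsound_cl hY hzD 0 n 0
    rcases (by omega : (Y (iCl 0 n 0) z z).1 = 1 ∨ (Y (iCl 0 n 0) z z).1 = 0) with h | h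
    · simp [x, h, bc]
    · simp [x, h, bc]
  -- no halting before
  have hnh : ∀ s ∈ D a b, ∀ m, runsound_corr p a Y x s m →
      (pos a s < pos a t ∨ (pos a s = pos a t ∧ m ≤ m₀)) →
      (p.run x (ω * pos a s + m)).state ≠ p.halt := by
    intro s hs m hc hlt hhalt
    have e1 : Y (iSt m) s s = (p.code p.halt, (Y (iSt m) s s).2) :=
      Prod.ext (by rw [hc.1, hhalt]) rfl
    rcases hlt with hlt | ⟨heq, hle⟩
    · refine runsound_av hY heD _ (Or.inr (RunB.topC m)) [s, t, (Y (iSt m) s s).2] ?_ ?_
      · simp [hs, htD, hY.mem _ s hs s hs]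
      · simp only [List.forall_mem_cons, runcomplete_fa, runcomplete_lo, holdsY,
          List.getD_cons_zero, List.getD_cons_succ, List.not_mem_nil, false_imp_iff, implies_true,
          and_true]
        exact ⟨e1, runsound_dlt htD hlt⟩
    · have hst : s = t := runsound_inj hs htD heq
      subst hst
      refine runsound_av hY heD _ (Or.inr (RunB.topA m₀ m hle)) [e, s, (Y (iSt m) s s).2] ?_ ?_
      · simp [hs, heD, hY.mem _ s hs s hs]
      · simp only [List.forall_mem_cons, runcomplete_fa, runcomplete_lo, holdsY,
          List.getD_cons_zero, List.getD_cons_succ, List.not_mem_nil, false_imp_iff, implies_true,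
          and_true]
        exact ⟨ht, e1⟩
  -- the correspondence
  have key : ∀ δ : Ordinal.{0}, ∀ s ∈ D a b, pos a s = δ → ∀ m,
      (pos a s < pos a t ∨ (pos a s = pos a t ∧ m ≤ m₀ + 1)) → runsound_corr p a Y x s m := by
    intro δ
    induction δ using WellFoundedLT.induction with
    | _ δ ih =>
      intro s hs hδ m
      induction m with
      | zero =>
        intro _
        rcases eq_or_ne (pos a s) 0 with h0 | h0
        · have hsz : s = z := runsound_inj hs hzD (by rw [h0, hz0])
          subst hsz
          unfold runsound_corr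
          rw [h0, mul_zero, Nat.cast_zero, add_zero, p.run_zero]
          refine ⟨?_, ?_, ?_⟩
          · by_contra hv
            refine runsound_av hY heD _ (Or.inl (RunA.zS (Y iZ e e).1 _ hv))
              [e, z, (Y (iSt 0) z z).2] ?_ ?_
            · simp [heD, hzD, hY.mem _ z hzD z hzD]
            · simp only [List.forall_mem_cons, runcomplete_fa, runcomplete_lo, holdsY,
                List.getD_cons_zero, List.getD_cons_succ, List.not_mem_nil, false_imp_iff,
                implies_true, and_true]
              exact rfl
          · by_contra hv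
            refine runsound_av hY heD _ (Or.inl (RunA.zH (Y iZ e e).1 _ hv))
              [e, z, (Y (iHd 0) z z).2] ?_ ?_
            · simp [heD, hzD, hY.mem _ z hzD z hzD]
            · simp only [List.forall_mem_cons, runcomplete_fa, runcomplete_lo, holdsY,
                List.getD_cons_zero, List.getD_cons_succ, List.not_mem_nil, false_imp_iff,
                implies_true, and_true]
              exact rfl
          · intro j n
            by_cases hj : j = 0
            · subst hj
              have := hx n
              simpa [Prog.init] using this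
            · have : (p.init x).tape j n = false := by simp [Prog.init, hj]
              rw [this]
              by_contra hv
              refine runsound_av hY heD _ (Or.inl (RunA.zC (Y iZ e e).1 n _ j hj hv))
                [e, z, (Y (iCl j n 0) z z).2] ?_ ?_
              · simp [heD, hzD, hY.mem _ z hzD z hzD]
              · simp only [List.forall_mem_cons, runcomplete_fa, runcomplete_lo, holdsY,
                  List.getD_cons_zero, List.getD_cons_succ, List.not_mem_nil, false_imp_iff,
                  implies_true, and_true]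
                exact rfl
        · refine runsound_limit hY hs hzD (runsound_dlt hs ?_) fun r hr hlt m => ?_
          · rw [hz0]
            exact pos_iff_ne_zero.2 h0
          · exact ih (pos a r) (hδ ▸ hlt) r hr rfl m (Or.inl (hlt.trans_le (htpos s hs)))
      | succ m ihm =>
        intro hact
        have hact' : pos a s < pos a t ∨ (pos a s = pos a t ∧ m ≤ m₀) := by
          rcases hact with h | ⟨h, h'⟩
          · exact Or.inl h
          · exact Or.inr ⟨h, by omega⟩
        have hc := ihm (by
          rcases hact' with h | ⟨h, h'⟩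
          · exact Or.inl h
          · exact Or.inr ⟨h, by omega⟩)
        exact runsound_step hY hs hc (hnh s hs m hc hact')
  refine ⟨pos a t, x, m₀, z, hab, ⟨fun β hβ => ?_, ?_⟩, hzD, hzz, hx⟩
  · obtain ⟨δ, m, rfl⟩ := split β
    have hle := omega_mul_add_le_iff.1 hβ
    have hδ : δ < a + b := by
      rw [hab, Order.lt_add_one_iff]
      rcases hle with h | ⟨h, _⟩
      · exact h.le
      · exact h.le
    have hsD := runcomplete_e_mem hδ
    have hps := runcomplete_pos_e a δ
    have h1 : pos a (runcomplete_e a δ) < pos a t ∨
        (pos a (runcomplete_e a δ) = pos a t ∧ m ≤ m₀) := by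
      rw [hps]
      exact hle
    have hc := key δ _ hsD hps m (by
      rcases h1 with h | ⟨h, h'⟩
      · exact Or.inl h
      · exact Or.inr ⟨h, by omega⟩)
    have := hnh _ hsD m hc h1
    rwa [hps] at this
  · have hc := key (pos a t) t htD rfl (m₀ + 1) (Or.inr ⟨rfl, le_rfl⟩)
    rw [← omega_mul_add_succ]
    by_contra hne
    have hv : (Y (iSt (m₀ + 1)) t t).1 ≠ p.code p.halt := by
      intro h
      exact hne (runcomplete_code_inj p (hc.1.symm.trans h))
    refine runsound_av hY heD _ (Or.inr (RunB.topB m₀ _ hv)) [e, t, (Y (iSt (m₀ + 1)) t t).2] ?_ ?_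
    · simp [heD, htD, hY.mem _ t htD t htD]
    · simp only [List.forall_mem_cons, runcomplete_fa, runcomplete_lo, holdsY,
        List.getD_cons_zero, List.getD_cons_succ, List.not_mem_nil, false_imp_iff,
        implies_true, and_true]
      exact ht

end Pool.Agent.MPa662fc
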