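import Mathlib
import Pool.Agent.Lib.MP_a662fc_lc.Defs
import Pool.Agent.Lib.MP_a662fc_lc.Fam
import Pool.Agent.Lib.MP_a662fc_lc.Pat

/-!
# The theories `RunB` and `DescPat` are semidecidable
-/

namespace Pool.Agent.MPa662fc

open Ordinal Pool.Agent.MP752584 Encodable

variable {T : Type} [Primcodable T]

/-- A family of patterns with a semidecidable side condition. -/
theorem sdrunb_fam {c : T → Prop} (hc : SD c) {f : T → Pattern} (hf : Primrec f) :
    SD (fun π : Pattern => ∃ t, c t ∧ π = f t) := by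
  refine SD.ex (p := fun (π : Pattern) (t : T) => c t ∧ π = f t) ?_
  exact (hc.comp Computable.snd).and (SD.eq Computable.fst (hf.to_comp.comp Computable.snd))

theorem sdrunb_fam' {f : T → Pattern} (hf : Primrec f) :
    SD (fun π : Pattern => ∃ t, π = f t) := by
  refine SD.ex (p := fun (π : Pattern) (t : T) => π = f t) ?_
  exact SD.eq Computable.fst (hf.to_comp.comp Computable.snd)

theorem sdrunb_id : Primrec fun t : T => t := Primrec.id

theorem sdrunb_nil : Primrec fun _ : T => ([] : Pattern) := Primrec.const _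

theorem sdrunb_fa {i v : T → ℕ} (hi : Primrec i) (hv : Primrec v) {p q s : ℕ}
    {L : T → Pattern} (hL : Primrec L) :
    Primrec fun t => fa (i t) p q (v t) s :: L t := by
  refine Primrec.list_cons.comp ?_ hL
  exact Primrec.pair (Primrec.const 0) (Primrec.pair hi (Primrec.pair (Primrec.const p)
    (Primrec.pair (Primrec.const q) (Primrec.pair hv (Primrec.const s)))))

theorem sdrunb_lo {p q : ℕ} {L : T → Pattern} (hL : Primrec L) :
    Primrec fun t => lo p q :: L t :=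
  Primrec.list_cons.comp (Primrec.const _) hL

theorem sdrunb_st {m : T → ℕ} (hm : Primrec m) : Primrec fun t => iSt (m t) :=
  Primrec₂.natPair.comp (Primrec.const 0) hm

theorem sdrunb_ds {m : T → ℕ} (hm : Primrec m) : Primrec fun t => iDs (m t) :=
  Primrec₂.natPair.comp (Primrec.const 7) hm

theorem sdrunb_cl {j n m : T → ℕ} (hj : Primrec j) (hn : Primrec n) (hm : Primrec m) :
    Primrec fun t => iCl (j t) (n t) (m t) :=
  Primrec₂.natPair.comp (Primrec.const 2) (Primrec.encode.comp (Primrec.pair hj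
    (Primrec.pair hn hm)))

theorem sdrunb_w1 {j n : T → ℕ} (hj : Primrec j) (hn : Primrec n) :
    Primrec fun t => iW1 (j t) (n t) :=
  Primrec₂.natPair.comp (Primrec.const 3) (Primrec.encode.comp (Primrec.pair hj hn))

theorem sdrunb_w0 {j n m : T → ℕ} (hj : Primrec j) (hn : Primrec n) (hm : Primrec m) :
    Primrec fun t => iW0 (j t) (n t) (m t) :=
  Primrec₂.natPair.comp (Primrec.const 4) (Primrec.encode.comp (Primrec.pair hj
    (Primrec.pair hn hm)))

theorem sdrunb_ne {f g : T → ℕ} (hf : Primrec f) (hg : Primrec g) :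
    SD fun t => f t ≠ g t := SD.ne hf.to_comp hg.to_comp

theorem sdrunb_le {f g : T → ℕ} (hf : Primrec f) (hg : Primrec g) :
    SD fun t => f t ≤ g t := SD.le hf.to_comp hg.to_comp

theorem sdrunb_lt {f g : T → ℕ} (hf : Primrec f) (hg : Primrec g) :
    SD fun t => f t < g t := SD.lt hf.to_comp hg.to_comp

theorem sdrunb_succ {m : T → ℕ} (hm : Primrec m) : Primrec fun t => m t + 1 :=
  Primrec.succ.comp hm

theorem sdrunb_pair {m n : T → ℕ} (hm : Primrec m) (hn : Primrec n) :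
    Primrec fun t => Nat.pair (m t) (n t) := Primrec₂.natPair.comp hm hn

theorem sdrunb_ltb {m n : T → ℕ} (hm : Primrec m) (hn : Primrec n) :
    Primrec fun t => ltb (m t) (n t) :=
  Primrec₂.natPair.comp (Primrec₂.natPair.comp (Primrec.const 0)
    (Primrec₂.natPair.comp hm hn)) (Primrec.const 0)

theorem sdrunb_mul {K : ℕ} {m : T → ℕ} (hm : Primrec m) : Primrec fun t => K * m t :=
  Primrec.nat_mul.comp (Primrec.const K) hm

theorem sdrunb_fst {A B : Type} [Primcodable A] [Primcodable B] {f : T → A × B}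
    (hf : Primrec f) : Primrec fun t => (f t).1 := Primrec.fst.comp hf

theorem sdrunb_snd {A B : Type} [Primcodable A] [Primcodable B] {f : T → A × B}
    (hf : Primrec f) : Primrec fun t => (f t).2 := Primrec.snd.comp hf

theorem sd_runB (p : Prog) : SD (RunB p) := by
  have hJ : ∀ j : Fin 3, SD (fun π : Pattern =>
      (∃ t : ℕ × ℕ,
        π = [lo 1 0, fa (iCl j t.1 0) 0 0 1 2, fa (iW1 j t.1) 0 0 t.2 3, lo 0 3]) ∨
      (∃ t : ℕ × ℕ,
        π = [lo 1 0, fa (iCl j t.1 0) 0 0 1 2, fa (iW1 j t.1) 0 0 t.2 0]) ∨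
      (∃ t : ℕ × ℕ × ℕ × ℕ, t.2.2.2 ≠ 1 ∧
        π = [lo 1 0, fa (iCl j t.1 0) 0 0 1 2, fa (iW1 j t.1) 0 0 t.2.1 3, lo 3 4, lo 4 0,
          fa (iCl j t.1 t.2.2.1) 4 4 t.2.2.2 5]) ∨
      (∃ t : ℕ × ℕ × ℕ × ℕ, (t.2.2.2 ≠ 1 ∧ t.2.1 ≤ t.2.2.1) ∧
        π = [lo 1 0, fa (iCl j t.1 0) 0 0 1 2, fa (iW1 j t.1) 0 0 t.2.1 3,
          fa (iCl j t.1 t.2.2.1) 3 3 t.2.2.2 5]) ∨
      (∃ t : ℕ × ℕ × ℕ,
        π = [lo 1 0, fa (iCl j t.1 0) 0 0 0 2, fa (iW0 j t.1 t.2.1) 0 1 t.2.2 3, lo 0 3]) ∨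
      (∃ t : ℕ × ℕ × ℕ,
        π = [lo 1 0, fa (iCl j t.1 0) 0 0 0 2, fa (iW0 j t.1 t.2.1) 0 1 t.2.2 0]) ∨
      (∃ t : ℕ × ℕ × ℕ,
        π = [lo 1 0, fa (iCl j t.1 0) 0 0 0 2, fa (iW0 j t.1 t.2.1) 0 1 t.2.2 3, lo 3 1]) ∨
      (∃ t : ℕ × ℕ × ℕ, t.2.2 < t.2.1 ∧
        π = [lo 1 0, fa (iCl j t.1 0) 0 0 0 2, fa (iW0 j t.1 t.2.1) 0 1 t.2.2 1]) ∨
      (∃ t : ℕ × ℕ × ℕ × ℕ, t.2.2.2 ≠ 0 ∧
        π = [lo 1 0, fa (iCl j t.1 0) 0 0 0 2, fa (iW0 j t.1 t.2.1) 0 1 t.2.2.1 3,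
          fa (iCl j t.1 t.2.2.1) 3 3 t.2.2.2 4])) := by
    intro j
    refine SD.or ?_ (SD.or ?_ (SD.or ?_ (SD.or ?_ (SD.or ?_ (SD.or ?_ (SD.or ?_ (SD.or ?_ ?_)))))))
    all_goals repeat' first
      | with_reducible exact sdrunb_id
      | with_reducible refine sdrunb_fst ?_
      | with_reducible refine sdrunb_snd ?_
      | with_reducible exact sdrunb_nil
      | with_reducible refine sdrunb_fa ?_ ?_ ?_
      | with_reducible refine sdrunb_lo ?_
      | with_reducible refine sdrunb_st ?_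
      | with_reducible refine sdrunb_ds ?_
      | with_reducible refine sdrunb_cl ?_ ?_ ?_
      | with_reducible refine sdrunb_w1 ?_ ?_
      | with_reducible refine sdrunb_w0 ?_ ?_ ?_
      | with_reducible refine sdrunb_pair ?_ ?_
      | with_reducible refine sdrunb_ltb ?_ ?_
      | with_reducible refine sdrunb_mul ?_
      | with_reducible exact Primrec.const _
      | with_reducible refine sdrunb_succ ?_
      | with_reducible refine sdrunb_fam ?_ ?_
      | with_reducible refine sdrunb_fam' ?_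
      | with_reducible refine sdrunb_ne ?_ ?_
      | with_reducible refine sdrunb_le ?_ ?_
      | with_reducible refine sdrunb_lt ?_ ?_
      | with_reducible refine SD.and ?_ ?_
  have hN : SD (fun π : Pattern =>
      (∃ w : ℕ, w ≠ p.code p.lim ∧ π = [lo 1 0, fa (iSt 0) 0 0 w 2]) ∨
      (∃ w : ℕ, w ≠ 0 ∧ π = [lo 1 0, fa (iHd 0) 0 0 w 2]) ∨
      (∃ m : ℕ, π = [fa iTop 0 0 m 1, lo 1 2]) ∨
      (∃ t : ℕ × ℕ, t.2 ≤ t.1 ∧
        π = [fa iTop 0 0 t.1 1, fa (iSt t.2) 1 1 (p.code p.halt) 2]) ∨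
      (∃ t : ℕ × ℕ, t.2 ≠ p.code p.halt ∧
        π = [fa iTop 0 0 t.1 1, fa (iSt (t.1 + 1)) 1 1 t.2 2]) ∨
      (∃ m : ℕ, π = [fa (iSt m) 0 0 (p.code p.halt) 2, lo 0 1])) := by
    refine SD.or ?_ (SD.or ?_ (SD.or ?_ (SD.or ?_ (SD.or ?_ ?_))))
    all_goals repeat' first
      | with_reducible exact sdrunb_id
      | with_reducible refine sdrunb_fst ?_
      | with_reducible refine sdrunb_snd ?_
      | with_reducible exact sdrunb_nil
      | with_reducible refine sdrunb_fa ?_ ?_ ?_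
      | with_reducible refine sdrunb_lo ?_
      | with_reducible refine sdrunb_st ?_
      | with_reducible refine sdrunb_ds ?_
      | with_reducible refine sdrunb_cl ?_ ?_ ?_
      | with_reducible refine sdrunb_w1 ?_ ?_
      | with_reducible refine sdrunb_w0 ?_ ?_ ?_
      | with_reducible refine sdrunb_pair ?_ ?_
      | with_reducible refine sdrunb_ltb ?_ ?_
      | with_reducible refine sdrunb_mul ?_
      | with_reducible exact Primrec.const _
      | with_reducible refine sdrunb_succ ?_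
      | with_reducible refine sdrunb_fam ?_ ?_
      | with_reducible refine sdrunb_fam' ?_
      | with_reducible refine sdrunb_ne ?_ ?_
      | with_reducible refine sdrunb_le ?_ ?_
      | with_reducible refine sdrunb_lt ?_ ?_
      | with_reducible refine SD.and ?_ ?_
  refine (hN.or (SD.ex_finset (Finset.univ : Finset (Fin 3)) fun j _ => hJ j)).of_eq fun π => ?_
  constructor
  · rintro ((⟨w, hw, rfl⟩ | ⟨w, hw, rfl⟩ | ⟨m, rfl⟩ | ⟨t, ht, rfl⟩ | ⟨t, ht, rfl⟩ | ⟨m, rfl⟩) |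
      ⟨j, -, h⟩)
    · exact .lS w hw
    · exact .lH w hw
    · exact .top m
    · exact .topA _ _ ht
    · exact .topB _ _ ht
    · exact .topC m
    · rcases h with ⟨t, rfl⟩ | ⟨t, rfl⟩ | ⟨t, ht, rfl⟩ | ⟨t, ht, rfl⟩ | ⟨t, rfl⟩ | ⟨t, rfl⟩ |
        ⟨t, rfl⟩ | ⟨t, ht, rfl⟩ | ⟨t, ht, rfl⟩
      · exact .l1a j _ _
      · exact .l1b j _ _
      · exact .l1c j _ _ _ _ ht
      · exact .l1d j _ _ _ _ ht.1 ht.2
      · exact .l0a j _ _ _
      · exact .l0b j _ _ _
      · exact .l0c j _ _ _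
      · exact .l0d j _ _ _ ht
      · exact .l0e j _ _ _ _ ht
  · intro h
    cases h with
    | lS w hw => exact Or.inl (Or.inl ⟨w, hw, rfl⟩)
    | lH w hw => exact Or.inl (Or.inr (Or.inl ⟨w, hw, rfl⟩))
    | top m => exact Or.inl (Or.inr (Or.inr (Or.inl ⟨m, rfl⟩)))
    | topA m m' hm => exact Or.inl (Or.inr (Or.inr (Or.inr (Or.inl ⟨(m, m'), hm, rfl⟩))))
    | topB m v hv => exact Or.inl (Or.inr (Or.inr (Or.inr (Or.inr (Or.inl ⟨(m, v), hv, rfl⟩)))))
    | topC m => exact Or.inl (Or.inr (Or.inr (Or.inr (Or.inr (Or.inr ⟨m, rfl⟩)))))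
    | l1a j n m =>
      exact Or.inr ⟨j, Finset.mem_univ _, Or.inl ⟨(n, m), rfl⟩⟩
    | l1b j n m =>
      exact Or.inr ⟨j, Finset.mem_univ _, Or.inr (Or.inl ⟨(n, m), rfl⟩)⟩
    | l1c j n m m' v hv =>
      exact Or.inr ⟨j, Finset.mem_univ _, Or.inr (Or.inr (Or.inl ⟨(n, m, m', v), hv, rfl⟩))⟩
    | l1d j n m m' v hv hm =>
      exact Or.inr ⟨j, Finset.mem_univ _,
        Or.inr (Or.inr (Or.inr (Or.inl ⟨(n, m, m', v), ⟨hv, hm⟩, rfl⟩)))⟩
    | l0a j n m m' =>
      exact Or.inr ⟨j, Finset.mem_univ _,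
        Or.inr (Or.inr (Or.inr (Or.inr (Or.inl ⟨(n, m, m'), rfl⟩))))⟩
    | l0b j n m m' =>
      exact Or.inr ⟨j, Finset.mem_univ _,
        Or.inr (Or.inr (Or.inr (Or.inr (Or.inr (Or.inl ⟨(n, m, m'), rfl⟩)))))⟩
    | l0c j n m m' =>
      exact Or.inr ⟨j, Finset.mem_univ _,
        Or.inr (Or.inr (Or.inr (Or.inr (Or.inr (Or.inr (Or.inl ⟨(n, m, m'), rfl⟩))))))⟩
    | l0d j n m m' hm =>
      exact Or.inr ⟨j, Finset.mem_univ _,
        Or.inr (Or.inr (Or.inr (Or.inr (Or.inr (Or.inr (Or.inr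
          (Or.inl ⟨(n, m, m'), hm, rfl⟩)))))))⟩
    | l0e j n m m' v hv =>
      exact Or.inr ⟨j, Finset.mem_univ _,
        Or.inr (Or.inr (Or.inr (Or.inr (Or.inr (Or.inr (Or.inr
          (Or.inr ⟨(n, m, m', v), hv, rfl⟩)))))))⟩

theorem sd_descPat (p : Prog) (K : ℕ) (h : SD (RunPat p)) : SD (DescPat p K) := by
  have h1 : SD (fun π : Pattern =>
      (∃ t : ℕ × ℕ × ℕ × ℕ × ℕ, t.2.2.2.1 ≤ t.2.2.2.2 ∧
        π = [fa iZ 0 0 t.1 1, fa (iDs t.2.1) 1 1 (Nat.pair t.2.2.1 t.2.2.2.1) 2,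
          fa (iDs (t.2.1 + 1)) 1 1 (Nat.pair t.2.2.1 t.2.2.2.2) 3]) ∨
      (∃ t : ℕ × ℕ × ℕ × ℕ × ℕ × ℕ, t.2.2.2.2.1 ≠ t.2.2.1 ∧
        π = [fa iZ 0 0 t.1 1, fa (iDs t.2.1) 1 1 (Nat.pair t.2.2.1 t.2.2.2.1) 2,
          fa (iDs (t.2.1 + 1)) 1 1 (Nat.pair t.2.2.2.2.1 t.2.2.2.2.2) 3,
          fa (iCl 0 (K * ltb t.2.2.2.2.1 t.2.2.1) 0) 1 1 0 4])) := by
    refine SD.or ?_ ?_
    all_goals repeat' first
      | with_reducible exact sdrunb_id
      | with_reducible refine sdrunb_fst ?_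
      | with_reducible refine sdrunb_snd ?_
      | with_reducible exact sdrunb_nil
      | with_reducible refine sdrunb_fa ?_ ?_ ?_
      | with_reducible refine sdrunb_lo ?_
      | with_reducible refine sdrunb_st ?_
      | with_reducible refine sdrunb_ds ?_
      | with_reducible refine sdrunb_cl ?_ ?_ ?_
      | with_reducible refine sdrunb_w1 ?_ ?_
      | with_reducible refine sdrunb_w0 ?_ ?_ ?_
      | with_reducible refine sdrunb_pair ?_ ?_
      | with_reducible refine sdrunb_ltb ?_ ?_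
      | with_reducible refine sdrunb_mul ?_
      | with_reducible exact Primrec.const _
      | with_reducible refine sdrunb_succ ?_
      | with_reducible refine sdrunb_fam ?_ ?_
      | with_reducible refine sdrunb_fam' ?_
      | with_reducible refine sdrunb_ne ?_ ?_
      | with_reducible refine sdrunb_le ?_ ?_
      | with_reducible refine sdrunb_lt ?_ ?_
      | with_reducible refine SD.and ?_ ?_
  refine (h.or h1).of_eq fun π => ?_
  constructor
  · rintro (h | ⟨t, ht, rfl⟩ | ⟨t, ht, rfl⟩)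
    · exact .run π h
    · exact .d1 _ _ _ _ _ ht
    · exact .d2 _ _ _ _ _ _ ht
  · intro h
    cases h with
    | run π h => exact Or.inl h
    | d1 v k n m m' hm => exact Or.inr (Or.inl ⟨(v, k, n, m, m'), hm, rfl⟩)
    | d2 v k n m n' m' hn => exact Or.inr (Or.inr ⟨(v, k, n, m, n', m'), hn, rfl⟩)

end Pool.Agent.MPa662fc
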