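import Mathlib
import Pool.Agent.Lib.MP_a662fc_lc.Tab

/-!
# Primitive recursiveness of the basic functions of the theory of rank tables
-/

namespace Pool.Agent.MPa662fc

open Ordinal Pool.Agent.MP752584 Encodable

theorem tabprim_gL : Primrec₂ gL := by
  have h : Primrec₂ fun (L : List ℕ) (n : ℕ) => (L[n]?).getD ((L.head?).getD 0) := by
    refine Primrec₂.mk ?_
    refine Primrec.option_getD.comp (Primrec.list_getElem?.comp Primrec.fst Primrec.snd) ?_
    exact Primrec.option_getD.comp (Primrec.list_head?.comp Primrec.fst) (Primrec.const 0)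
  refine h.of_eq fun L n => ?_
  cases L <;> simp [gL, List.getD_eq_getElem?_getD]

theorem tabprim_l3 {α : Type*} [Primcodable α] {f g h : α → ℕ} (hf : Primrec f) (hg : Primrec g)
    (hh : Primrec h) : Primrec fun a => [f a, g a, h a] :=
  Primrec.list_cons.comp hf (Primrec.list_cons.comp hg (Primrec.list_cons.comp hh
    (Primrec.const [])))

theorem primrec_nelems : Primrec nelems := by
  unfold nelems
  refine Primrec.list_flatMap Primrec.id ?_
  refine Primrec₂.mk ?_
  refine tabprim_l3 ?_ ?_ ?_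
  · exact Primrec.fst.comp (Primrec.snd.comp Primrec.snd)
  · exact Primrec.fst.comp (Primrec.snd.comp (Primrec.snd.comp Primrec.snd))
  · exact Primrec.snd.comp (Primrec.snd.comp (Primrec.snd.comp (Primrec.snd.comp Primrec.snd)))

/-- Two facts contradict each other. -/
theorem tabprim_contra : PrimrecRel fun (f' f : NFact) =>
    f.1 = f'.1 ∧ f.2.1 = f'.2.1 ∧ f.2.2.1 = f'.2.2.1 ∧ f.2.2.2 ≠ f'.2.2.2 := by
  have e1 : Primrec fun p : NFact × NFact => p.1.1 := Primrec.fst.comp Primrec.fst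
  have e2 : Primrec fun p : NFact × NFact => p.2.1 := Primrec.fst.comp Primrec.snd
  have f1 : Primrec fun p : NFact × NFact => p.1.2 := Primrec.snd.comp Primrec.fst
  have f2 : Primrec fun p : NFact × NFact => p.2.2 := Primrec.snd.comp Primrec.snd
  refine (PrimrecPred.and (Primrec.eq.comp e2 e1) (PrimrecPred.and
    (Primrec.eq.comp (Primrec.fst.comp f2) (Primrec.fst.comp f1)) (PrimrecPred.and
    (Primrec.eq.comp (Primrec.fst.comp (Primrec.snd.comp f2))
      (Primrec.fst.comp (Primrec.snd.comp f1))) (PrimrecPred.not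
    (Primrec.eq.comp (Primrec.snd.comp (Primrec.snd.comp f2))
      (Primrec.snd.comp (Primrec.snd.comp f1))))))).primrecRel

theorem primrecPred_contra : PrimrecPred Contra := by
  have h1 : PrimrecRel fun (f : NFact) (u : NPos) => ∃ f' ∈ u, f.1 = f'.1 ∧ f.2.1 = f'.2.1 ∧
      f.2.2.1 = f'.2.2.1 ∧ f.2.2.2 ≠ f'.2.2.2 :=
    (PrimrecRel.exists_mem_list tabprim_contra).swap
  exact (PrimrecRel.exists_mem_list h1).comp Primrec.id Primrec.id

theorem tabprim_iLT : Primrec₂ iLT := by
  refine Primrec₂.mk ?_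
  exact Primrec₂.natPair.comp (Primrec.const 0) (Primrec₂.natPair.comp Primrec.fst Primrec.snd)

/-- Membership in a list. -/
theorem tabprim_mem {α : Type*} [Primcodable α] :
    PrimrecRel fun (a : α) (L : List α) => a ∈ L := by
  have h := (PrimrecRel.exists_mem_list (R := fun (a b : α) => a = b) Primrec.eq).swap
  exact h.of_eq fun a L => by simp [Function.swap]

/-- The condition on a literal in `RealN`. -/
theorem tabprim_lit : PrimrecRel fun (l : Lit) (p : NPos × List ℕ) =>
    (l.1 = 0 → (l.2.1, gL p.2 l.2.2.1, gL p.2 l.2.2.2.1, l.2.2.2.2.1, gL p.2 l.2.2.2.2.2) ∈ p.1) ∧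
    (l.1 ≠ 0 → gL p.2 l.2.2.1 % 2 ≤ gL p.2 l.2.2.2.1 % 2) := by
  have hl : Primrec fun q : Lit × NPos × List ℕ => q.1 := Primrec.fst
  have hu : Primrec fun q : Lit × NPos × List ℕ => q.2.1 := Primrec.fst.comp Primrec.snd
  have hL : Primrec fun q : Lit × NPos × List ℕ => q.2.2 := Primrec.snd.comp Primrec.snd
  have h0 : Primrec fun q : Lit × NPos × List ℕ => q.1.1 := Primrec.fst.comp hl
  have s1 : Primrec fun q : Lit × NPos × List ℕ => q.1.2 := Primrec.snd.comp hl
  have s2 : Primrec fun q : Lit × NPos × List ℕ => q.1.2.2 := Primrec.snd.comp s1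
  have s3 : Primrec fun q : Lit × NPos × List ℕ => q.1.2.2.2 := Primrec.snd.comp s2
  have s4 : Primrec fun q : Lit × NPos × List ℕ => q.1.2.2.2.2 := Primrec.snd.comp s3
  have g2 : Primrec fun q : Lit × NPos × List ℕ => gL q.2.2 q.1.2.2.1 :=
    tabprim_gL.comp hL (Primrec.fst.comp s2)
  have g3 : Primrec fun q : Lit × NPos × List ℕ => gL q.2.2 q.1.2.2.2.1 :=
    tabprim_gL.comp hL (Primrec.fst.comp s3)
  have g5 : Primrec fun q : Lit × NPos × List ℕ => gL q.2.2 q.1.2.2.2.2.2 :=
    tabprim_gL.comp hL (Primrec.snd.comp s4)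
  have hz : PrimrecPred fun q : Lit × NPos × List ℕ => q.1.1 = 0 :=
    Primrec.eq.comp h0 (Primrec.const 0)
  have hm : PrimrecPred fun q : Lit × NPos × List ℕ => ((q.1.2.1, gL q.2.2 q.1.2.2.1,
      gL q.2.2 q.1.2.2.2.1, q.1.2.2.2.2.1, gL q.2.2 q.1.2.2.2.2.2) : NFact) ∈ q.2.1 :=
    tabprim_mem.comp (Primrec.pair (Primrec.fst.comp s1) (Primrec.pair g2 (Primrec.pair g3
      (Primrec.pair (Primrec.fst.comp s4) g5)))) hu
  have hle : PrimrecPred fun q : Lit × NPos × List ℕ =>
      gL q.2.2 q.1.2.2.1 % 2 ≤ gL q.2.2 q.1.2.2.2.1 % 2 :=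
    Primrec.nat_le.comp (Primrec.nat_mod.comp g2 (Primrec.const 2))
      (Primrec.nat_mod.comp g3 (Primrec.const 2))
  have := ((hz.not.or hm).and (hz.or hle)).primrecRel (α := Lit) (β := NPos × List ℕ)
  refine this.of_eq fun l p => ?_
  constructor
  · rintro ⟨h1, h2⟩
    exact ⟨fun h => h1.resolve_left (not_not.2 h), fun h => h2.resolve_left h⟩
  · rintro ⟨h1, h2⟩
    by_cases h : l.1 = 0
    · exact ⟨Or.inr (h1 h), Or.inl h⟩
    · exact ⟨Or.inl h, Or.inr (h2 h)⟩

theorem primrecPred_realN :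
    PrimrecPred fun t : Pattern × NPos × List ℕ => RealN t.1 t.2.1 t.2.2 := by
  unfold RealN
  have hu : Primrec fun t : Pattern × NPos × List ℕ => t.2.1 := Primrec.fst.comp Primrec.snd
  have hL : Primrec fun t : Pattern × NPos × List ℕ => t.2.2 := Primrec.snd.comp Primrec.snd
  have h1 : PrimrecPred fun t : Pattern × NPos × List ℕ => ¬ t.2.2 = [] :=
    (Primrec.eq.comp hL (Primrec.const [])).not
  have h2 : PrimrecPred fun t : Pattern × NPos × List ℕ => ∀ a ∈ t.2.2, a ∈ nelems t.2.1 :=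
    (PrimrecRel.forall_mem_list (tabprim_mem (α := ℕ))).comp hL (primrec_nelems.comp hu)
  have h3 := (PrimrecRel.forall_mem_list tabprim_lit).comp
    (Primrec.fst (α := Pattern) (β := NPos × List ℕ)) Primrec.snd
  exact h1.and (h2.and h3)

theorem primrec_ltReq : Primrec₂ ltReq := by
  unfold ltReq
  refine Primrec₂.mk ?_
  refine Primrec.listFilterMap Primrec.fst ?_
  refine Primrec₂.mk ?_
  have hl : Primrec fun q : (Pattern × List ℕ) × Lit => q.2 := Primrec.snd
  have hL : Primrec fun q : (Pattern × List ℕ) × Lit => q.1.2 := Primrec.snd.comp Primrec.fst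
  have s1 : Primrec fun q : (Pattern × List ℕ) × Lit => q.2.2 := Primrec.snd.comp hl
  have s2 : Primrec fun q : (Pattern × List ℕ) × Lit => q.2.2.2 := Primrec.snd.comp s1
  have s3 : Primrec fun q : (Pattern × List ℕ) × Lit => q.2.2.2.2 := Primrec.snd.comp s2
  have g2 : Primrec fun q : (Pattern × List ℕ) × Lit => gL q.1.2 q.2.2.2.1 :=
    tabprim_gL.comp hL (Primrec.fst.comp s2)
  have g3 : Primrec fun q : (Pattern × List ℕ) × Lit => gL q.1.2 q.2.2.2.2.1 :=
    tabprim_gL.comp hL (Primrec.fst.comp s3)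
  have c2 := Primrec.const (α := (Pattern × List ℕ) × Lit) 2
  refine Primrec.ite (PrimrecPred.and (PrimrecPred.not (Primrec.eq.comp (Primrec.fst.comp hl)
    (Primrec.const 0))) (Primrec.eq.comp (Primrec.nat_mod.comp g2 c2)
    (Primrec.nat_mod.comp g3 c2))) ?_ (Primrec.const none)
  exact Primrec.option_some.comp (Primrec.pair (tabprim_iLT.comp (Primrec.nat_div.comp g2 c2)
    (Primrec.nat_div.comp g3 c2)) (Primrec.const 0))

theorem tabprim_iV : Primrec fun t : ℕ × ℕ × ℕ => iV t.1 t.2.1 t.2.2 := by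
  unfold iV
  have ht : Primrec fun t : ℕ × ℕ × ℕ => t.2.2 := Primrec.snd.comp Primrec.snd
  refine tabprim_iLT.comp (Primrec.nat_div.comp ht (Primrec.const 2)) ?_
  refine Primrec.ite (Primrec.eq.comp (Primrec.nat_mod.comp ht (Primrec.const 2))
    (Primrec.const 0)) Primrec.fst (Primrec.fst.comp Primrec.snd)

theorem primrec_valReq : Primrec fun t : ℕ × ℕ × NPos => valReq t.1 t.2.1 t.2.2 := by
  unfold valReq
  refine Primrec.list_map (primrec_nelems.comp (Primrec.snd.comp Primrec.snd)) ?_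
  refine Primrec₂.mk ?_
  refine Primrec.pair ?_ (Primrec.const 0)
  exact tabprim_iV.comp (Primrec.pair (Primrec.fst.comp Primrec.fst)
    (Primrec.pair (Primrec.fst.comp (Primrec.snd.comp Primrec.fst)) Primrec.snd))

end Pool.Agent.MPa662fc
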