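import Mathlib
import Pool.Agent.Lib.MP_a662fc_lc.Tab
import Pool.Agent.Lib.MP_a662fc_lc.TabPrim

/-!
# The theories of the kinds of ordinals are semidecidable
-/

namespace Pool.Agent.MPa662fc

open Ordinal Pool.Agent.MP752584 Encodable

section

variable {α : Type*} [Primcodable α]

theorem sdtabf_ex {σ : Type*} [Primcodable σ] {β : Type*} [Primcodable β] {side : σ → Prop}
    (hs : SD side) {f : σ → β} (hf : Primrec f) : SD fun L : β => ∃ t, side t ∧ L = f t := by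
  refine SD.ex (p := fun L t => side t ∧ L = f t) ?_
  refine SD.and (hs.comp Computable.snd) ?_
  exact SD.of_primrecPred (Primrec.eq.comp Primrec.fst (hf.comp Primrec.snd))

theorem sdtabf_cons {i v : α → ℕ} {l : α → List (ℕ × ℕ)} (hi : Primrec i) (hv : Primrec v)
    (hl : Primrec l) : Primrec fun a => (i a, v a) :: l a :=
  Primrec.list_cons.comp (Primrec.pair hi hv) hl

theorem sdtabf_nil : Primrec fun _ : α => ([] : List (ℕ × ℕ)) := Primrec.const []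

theorem sdtabf_pair {f g : α → ℕ} (hf : Primrec f) (hg : Primrec g) :
    Primrec fun a => Nat.pair (f a) (g a) := Primrec₂.natPair.comp hf hg

theorem sdtabf_LT {m n : α → ℕ} (hm : Primrec m) (hn : Primrec n) :
    Primrec fun a => iLT (m a) (n a) := tabprim_iLT.comp hm hn

theorem sdtabf_V {f g h : α → ℕ} (hf : Primrec f) (hg : Primrec g) (hh : Primrec h) :
    Primrec fun a => iV (f a) (g a) (h a) := tabprim_iV.comp (Primrec.pair hf (Primrec.pair hg hh))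

theorem sdtabf_enc3 {f g h : α → ℕ} (hf : Primrec f) (hg : Primrec g) (hh : Primrec h) :
    Primrec fun a => encode (f a, g a, h a) :=
  Primrec.encode.comp (Primrec.pair hf (Primrec.pair hg hh))

theorem sdtabf_encu {u : α → NPos} (hu : Primrec u) : Primrec fun a => encode (u a) :=
  Primrec.encode.comp hu

theorem sdtabf_R {e a b ξ : α → ℕ} {u : α → NPos} (he : Primrec e) (ha : Primrec a)
    (hb : Primrec b) (hu : Primrec u) (hξ : Primrec ξ) :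
    Primrec fun x => iR (e x) (a x) (b x) (u x) (ξ x) :=
  sdtabf_pair (Primrec.const 1) (Primrec.encode.comp (Primrec.pair he (Primrec.pair ha
    (Primrec.pair hb (Primrec.pair hu hξ)))))

theorem sdtabf_F {f : α → ℕ} (hf : Primrec f) : Primrec fun a => iF (f a) :=
  sdtabf_pair (Primrec.const 5) hf

theorem sdtabf_P {f : α → ℕ} (hf : Primrec f) : Primrec fun a => iP (f a) :=
  sdtabf_pair (Primrec.const 6) hf

theorem sdtabf_C {f : α → ℕ} (hf : Primrec f) : Primrec fun a => iC (f a) :=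
  sdtabf_pair (Primrec.const 7) hf

theorem sdtabf_U {f g : α → ℕ} (hf : Primrec f) (hg : Primrec g) :
    Primrec fun a => iU (f a) (g a) :=
  sdtabf_pair (Primrec.const 8) (sdtabf_pair hf hg)

theorem sdtabf_S {f g h : α → ℕ} (hf : Primrec f) (hg : Primrec g) (hh : Primrec h) :
    Primrec fun a => iS (f a) (g a) (h a) :=
  sdtabf_pair (Primrec.const 9) (sdtabf_enc3 hf hg hh)

theorem sdtabf_T {f g h : α → ℕ} {u : α → NPos} (hf : Primrec f) (hg : Primrec g)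
    (hh : Primrec h) (hu : Primrec u) : Primrec fun a => iT (f a) (g a) (h a) (u a) :=
  sdtabf_pair (Primrec.const 10) (Primrec.encode.comp (Primrec.pair hf (Primrec.pair hg
    (Primrec.pair hh hu))))

theorem sdtabf_N {f g : α → ℕ} (hf : Primrec f) (hg : Primrec g) :
    Primrec fun a => iN (f a) (g a) :=
  sdtabf_pair (Primrec.const 11) (sdtabf_pair hf hg)

theorem sdtabf_O {f g h : α → ℕ} (hf : Primrec f) (hg : Primrec g) (hh : Primrec h) :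
    Primrec fun a => iO (f a) (g a) (h a) :=
  sdtabf_pair (Primrec.const 12) (sdtabf_enc3 hf hg hh)

theorem sdtabf_append {l m : α → List (ℕ × ℕ)} (hl : Primrec l) (hm : Primrec m) :
    Primrec fun a => l a ++ m a := Primrec.list_append.comp hl hm

theorem sdtabf_valReq {f g : α → ℕ} {u : α → NPos} (hf : Primrec f) (hg : Primrec g)
    (hu : Primrec u) : Primrec fun a => valReq (f a) (g a) (u a) :=
  primrec_valReq.comp (Primrec.pair hf (Primrec.pair hg hu))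

theorem sdtabf_ne {v : α → ℕ} (hv : Primrec v) : PrimrecPred fun a => v a ≠ 0 :=
  (Primrec.eq.comp hv (Primrec.const 0)).not

theorem sdtabf_none {β : Type*} [Primcodable β] {c : α → ℕ} (hc : Primrec c) :
    PrimrecPred fun a => decode (α := β) (c a) = none :=
  Primrec.eq.comp (Primrec.decode.comp hc) (Primrec.const none)

end

theorem sdtabf_tabF_f0 : SD fun L : List (ℕ × ℕ) => ∃ t : ℕ × ℕ, (True) ∧ L = [(iF t.1, 0), (iLT t.2 t.1, 0)] := by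
  refine sdtabf_ex (side := fun t : ℕ × ℕ => True) ?_ (f := fun t : ℕ × ℕ => [(iF t.1, 0), (iLT t.2 t.1, 0)]) ?_
  · exact SD.const True
  · exact (sdtabf_cons (sdtabf_F Primrec.fst) (Primrec.const 0) (sdtabf_cons (sdtabf_LT Primrec.snd Primrec.fst) (Primrec.const 0) sdtabf_nil))

theorem sdtabf_tabF_f1 : SD fun L : List (ℕ × ℕ) => ∃ t : ℕ × ℕ × ℕ, (t.2.2 ≠ 0) ∧ L = [(iF t.1, 1), (iP t.1, t.2.1), (iLT t.2.1 t.1, t.2.2)] := by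
  refine sdtabf_ex (side := fun t : ℕ × ℕ × ℕ => t.2.2 ≠ 0) ?_ (f := fun t : ℕ × ℕ × ℕ => [(iF t.1, 1), (iP t.1, t.2.1), (iLT t.2.1 t.1, t.2.2)]) ?_
  · exact SD.of_primrecPred (sdtabf_ne (Primrec.snd.comp Primrec.snd))
  · exact (sdtabf_cons (sdtabf_F Primrec.fst) (Primrec.const 1) (sdtabf_cons (sdtabf_P Primrec.fst) (Primrec.fst.comp Primrec.snd) (sdtabf_cons (sdtabf_LT (Primrec.fst.comp Primrec.snd) Primrec.fst) (Primrec.snd.comp Primrec.snd) sdtabf_nil)))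

theorem sdtabf_tabF_f1p : SD fun L : List (ℕ × ℕ) => ∃ t : ℕ × ℕ × ℕ, (True) ∧ L = [(iF t.1, 1), (iP t.1, t.2.1), (iLT t.2.1 t.2.2, 0), (iLT t.2.2 t.1, 0)] := by
  refine sdtabf_ex (side := fun t : ℕ × ℕ × ℕ => True) ?_ (f := fun t : ℕ × ℕ × ℕ => [(iF t.1, 1), (iP t.1, t.2.1), (iLT t.2.1 t.2.2, 0), (iLT t.2.2 t.1, 0)]) ?_
  · exact SD.const True
  · exact (sdtabf_cons (sdtabf_F Primrec.fst) (Primrec.const 1) (sdtabf_cons (sdtabf_P Primrec.fst) (Primrec.fst.comp Primrec.snd) (sdtabf_cons (sdtabf_LT (Primrec.fst.comp Primrec.snd) (Primrec.snd.comp Primrec.snd)) (Primrec.const 0) (sdtabf_cons (sdtabf_LT (Primrec.snd.comp Primrec.snd) Primrec.fst) (Primrec.const 0) sdtabf_nil))))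

theorem sdtabf_tabF_f2 : SD fun L : List (ℕ × ℕ) => ∃ t : ℕ × ℕ, (decode (α := ℕ × ℕ × ℕ) t.2 = none) ∧ L = [(iF t.1, 2), (iC t.1, t.2)] := by
  refine sdtabf_ex (side := fun t : ℕ × ℕ => decode (α := ℕ × ℕ × ℕ) t.2 = none) ?_ (f := fun t : ℕ × ℕ => [(iF t.1, 2), (iC t.1, t.2)]) ?_
  · exact SD.of_primrecPred (sdtabf_none Primrec.snd)
  · exact (sdtabf_cons (sdtabf_F Primrec.fst) (Primrec.const 2) (sdtabf_cons (sdtabf_C Primrec.fst) Primrec.snd sdtabf_nil))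

theorem sdtabf_tabF_f2a : SD fun L : List (ℕ × ℕ) => ∃ t : ℕ × ℕ × ℕ × ℕ × ℕ, (t.2.2.2.2 ≠ 0) ∧ L = [(iF t.1, 2), (iC t.1, encode (t.2.1, t.2.2.1, t.2.2.2.1)), (iLT t.2.2.1 t.1, t.2.2.2.2)] := by
  refine sdtabf_ex (side := fun t : ℕ × ℕ × ℕ × ℕ × ℕ => t.2.2.2.2 ≠ 0) ?_ (f := fun t : ℕ × ℕ × ℕ × ℕ × ℕ => [(iF t.1, 2), (iC t.1, encode (t.2.1, t.2.2.1, t.2.2.2.1)), (iLT t.2.2.1 t.1, t.2.2.2.2)]) ?_
  · exact SD.of_primrecPred (sdtabf_ne (Primrec.snd.comp (Primrec.snd.comp (Primrec.snd.comp Primrec.snd))))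
  · exact (sdtabf_cons (sdtabf_F Primrec.fst) (Primrec.const 2) (sdtabf_cons (sdtabf_C Primrec.fst) (sdtabf_enc3 (Primrec.fst.comp Primrec.snd) (Primrec.fst.comp (Primrec.snd.comp Primrec.snd)) (Primrec.fst.comp (Primrec.snd.comp (Primrec.snd.comp Primrec.snd)))) (sdtabf_cons (sdtabf_LT (Primrec.fst.comp (Primrec.snd.comp Primrec.snd)) Primrec.fst) (Primrec.snd.comp (Primrec.snd.comp (Primrec.snd.comp Primrec.snd))) sdtabf_nil)))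

theorem sdtabf_tabF_f2b : SD fun L : List (ℕ × ℕ) => ∃ t : ℕ × ℕ × ℕ × ℕ × ℕ, (t.2.2.2.2 ≠ 0) ∧ L = [(iF t.1, 2), (iC t.1, encode (t.2.1, t.2.2.1, t.2.2.2.1)), (iLT t.2.2.2.1 t.1, t.2.2.2.2)] := by
  refine sdtabf_ex (side := fun t : ℕ × ℕ × ℕ × ℕ × ℕ => t.2.2.2.2 ≠ 0) ?_ (f := fun t : ℕ × ℕ × ℕ × ℕ × ℕ => [(iF t.1, 2), (iC t.1, encode (t.2.1, t.2.2.1, t.2.2.2.1)), (iLT t.2.2.2.1 t.1, t.2.2.2.2)]) ?_
  · exact SD.of_primrecPred (sdtabf_ne (Primrec.snd.comp (Primrec.snd.comp (Primrec.snd.comp Primrec.snd))))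
  · exact (sdtabf_cons (sdtabf_F Primrec.fst) (Primrec.const 2) (sdtabf_cons (sdtabf_C Primrec.fst) (sdtabf_enc3 (Primrec.fst.comp Primrec.snd) (Primrec.fst.comp (Primrec.snd.comp Primrec.snd)) (Primrec.fst.comp (Primrec.snd.comp (Primrec.snd.comp Primrec.snd)))) (sdtabf_cons (sdtabf_LT (Primrec.fst.comp (Primrec.snd.comp (Primrec.snd.comp Primrec.snd))) Primrec.fst) (Primrec.snd.comp (Primrec.snd.comp (Primrec.snd.comp Primrec.snd))) sdtabf_nil)))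

theorem sdtabf_tabF_f2u : SD fun L : List (ℕ × ℕ) => ∃ t : ℕ × ℕ × ℕ, (decode (α := NPos) t.2.2 = none) ∧ L = [(iF t.1, 2), (iLT t.2.1 t.1, 0), (iU t.1 t.2.1, t.2.2)] := by
  refine sdtabf_ex (side := fun t : ℕ × ℕ × ℕ => decode (α := NPos) t.2.2 = none) ?_ (f := fun t : ℕ × ℕ × ℕ => [(iF t.1, 2), (iLT t.2.1 t.1, 0), (iU t.1 t.2.1, t.2.2)]) ?_
  · exact SD.of_primrecPred (sdtabf_none (Primrec.snd.comp Primrec.snd))
  · exact (sdtabf_cons (sdtabf_F Primrec.fst) (Primrec.const 2) (sdtabf_cons (sdtabf_LT (Primrec.fst.comp Primrec.snd) Primrec.fst) (Primrec.const 0) (sdtabf_cons (sdtabf_U Primrec.fst (Primrec.fst.comp Primrec.snd)) (Primrec.snd.comp Primrec.snd) sdtabf_nil)))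

theorem sdtabf_tabF_f2v : SD fun L : List (ℕ × ℕ) => ∃ t : ℕ × ℕ × ℕ × ℕ × ℕ × NPos × ℕ × ℕ, (t.2.2.2.2.2.2.1 ∈ nelems t.2.2.2.2.2.1 ∧ t.2.2.2.2.2.2.2 ≠ 0) ∧ L = [(iF t.1, 2), (iC t.1, encode (t.2.1, t.2.2.1, t.2.2.2.1)), (iLT t.2.2.2.2.1 t.1, 0), (iU t.1 t.2.2.2.2.1, encode t.2.2.2.2.2.1), (iV t.2.2.1 t.2.2.2.1 t.2.2.2.2.2.2.1, t.2.2.2.2.2.2.2)] := by
  refine sdtabf_ex (side := fun t : ℕ × ℕ × ℕ × ℕ × ℕ × NPos × ℕ × ℕ => t.2.2.2.2.2.2.1 ∈ nelems t.2.2.2.2.2.1 ∧ t.2.2.2.2.2.2.2 ≠ 0) ?_ (f := fun t : ℕ × ℕ × ℕ × ℕ × ℕ × NPos × ℕ × ℕ => [(iF t.1, 2), (iC t.1, encode (t.2.1, t.2.2.1, t.2.2.2.1)), (iLT t.2.2.2.2.1 t.1, 0), (iU t.1 t.2.2.2.2.1, encode t.2.2.2.2.2.1), (iV t.2.2.1 t.2.2.2.1 t.2.2.2.2.2.2.1, t.2.2.2.2.2.2.2)]) ?_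
  · exact SD.of_primrecPred (PrimrecPred.and (tabprim_mem.comp (Primrec.fst.comp (Primrec.snd.comp (Primrec.snd.comp (Primrec.snd.comp (Primrec.snd.comp (Primrec.snd.comp Primrec.snd)))))) (primrec_nelems.comp (Primrec.fst.comp (Primrec.snd.comp (Primrec.snd.comp (Primrec.snd.comp (Primrec.snd.comp Primrec.snd))))))) (sdtabf_ne (Primrec.snd.comp (Primrec.snd.comp (Primrec.snd.comp (Primrec.snd.comp (Primrec.snd.comp (Primrec.snd.comp Primrec.snd))))))))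
  · exact (sdtabf_cons (sdtabf_F Primrec.fst) (Primrec.const 2) (sdtabf_cons (sdtabf_C Primrec.fst) (sdtabf_enc3 (Primrec.fst.comp Primrec.snd) (Primrec.fst.comp (Primrec.snd.comp Primrec.snd)) (Primrec.fst.comp (Primrec.snd.comp (Primrec.snd.comp Primrec.snd)))) (sdtabf_cons (sdtabf_LT (Primrec.fst.comp (Primrec.snd.comp (Primrec.snd.comp (Primrec.snd.comp Primrec.snd)))) Primrec.fst) (Primrec.const 0) (sdtabf_cons (sdtabf_U Primrec.fst (Primrec.fst.comp (Primrec.snd.comp (Primrec.snd.comp (Primrec.snd.comp Primrec.snd))))) (sdtabf_encu (Primrec.fst.comp (Primrec.snd.comp (Primrec.snd.comp (Primrec.snd.comp (Primrec.snd.comp Primrec.snd)))))) (sdtabf_cons (sdtabf_V (Primrec.fst.comp (Primrec.snd.comp Primrec.snd)) (Primrec.fst.comp (Primrec.snd.comp (Primrec.snd.comp Primrec.snd))) (Primrec.fst.comp (Primrec.snd.comp (Primrec.snd.comp (Primrec.snd.comp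 (Primrec.snd.comp (Primrec.snd.comp Primrec.snd))))))) (Primrec.snd.comp (Primrec.snd.comp (Primrec.snd.comp (Primrec.snd.comp (Primrec.snd.comp (Primrec.snd.comp Primrec.snd)))))) sdtabf_nil)))))

theorem sdtabf_tabF_f2r : SD fun L : List (ℕ × ℕ) => ∃ t : ℕ × ℕ × ℕ × ℕ × ℕ × NPos × ℕ, (t.2.2.2.2.2.2 ≠ 0) ∧ L = [(iF t.1, 2), (iC t.1, encode (t.2.1, t.2.2.1, t.2.2.2.1)), (iLT t.2.2.2.2.1 t.1, 0), (iU t.1 t.2.2.2.2.1, encode t.2.2.2.2.2.1), (iR t.2.1 t.2.2.1 t.2.2.2.1 t.2.2.2.2.2.1 t.2.2.2.2.1, t.2.2.2.2.2.2)] := by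
  refine sdtabf_ex (side := fun t : ℕ × ℕ × ℕ × ℕ × ℕ × NPos × ℕ => t.2.2.2.2.2.2 ≠ 0) ?_ (f := fun t : ℕ × ℕ × ℕ × ℕ × ℕ × NPos × ℕ => [(iF t.1, 2), (iC t.1, encode (t.2.1, t.2.2.1, t.2.2.2.1)), (iLT t.2.2.2.2.1 t.1, 0), (iU t.1 t.2.2.2.2.1, encode t.2.2.2.2.2.1), (iR t.2.1 t.2.2.1 t.2.2.2.1 t.2.2.2.2.2.1 t.2.2.2.2.1, t.2.2.2.2.2.2)]) ?_
  · exact SD.of_primrecPred (sdtabf_ne (Primrec.snd.comp (Primrec.snd.comp (Primrec.snd.comp (Primrec.snd.comp (Primrec.snd.comp Primrec.snd))))))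
  · exact (sdtabf_cons (sdtabf_F Primrec.fst) (Primrec.const 2) (sdtabf_cons (sdtabf_C Primrec.fst) (sdtabf_enc3 (Primrec.fst.comp Primrec.snd) (Primrec.fst.comp (Primrec.snd.comp Primrec.snd)) (Primrec.fst.comp (Primrec.snd.comp (Primrec.snd.comp Primrec.snd)))) (sdtabf_cons (sdtabf_LT (Primrec.fst.comp (Primrec.snd.comp (Primrec.snd.comp (Primrec.snd.comp Primrec.snd)))) Primrec.fst) (Primrec.const 0) (sdtabf_cons (sdtabf_U Primrec.fst (Primrec.fst.comp (Primrec.snd.comp (Primrec.snd.comp (Primrec.snd.comp Primrec.snd))))) (sdtabf_encu (Primrec.fst.comp (Primrec.snd.comp (Primrec.snd.comp (Primrec.snd.comp (Primrec.snd.comp Primrec.snd)))))) (sdtabf_cons (sdtabf_R (Primrec.fst.comp Primrec.snd) (Primrec.fst.comp (Primrec.snd.comp Primrec.snd)) (Primrec.fst.comp (Primrec.snd.comp (Primrec.snd.comp Primrec.snd))) (Primrec.fst.comp (Primrec.snd.comp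 (Primrec.snd.comp (Primrec.snd.comp (Primrec.snd.comp Primrec.snd))))) (Primrec.fst.comp (Primrec.snd.comp (Primrec.snd.comp (Primrec.snd.comp Primrec.snd))))) (Primrec.snd.comp (Primrec.snd.comp (Primrec.snd.comp (Primrec.snd.comp (Primrec.snd.comp Primrec.snd))))) sdtabf_nil)))))

theorem sdtabf_tabF_f2m : SD fun L : List (ℕ × ℕ) => ∃ t : ℕ × ℕ × ℕ × ℕ × ℕ × NPos × ℕ, (True) ∧ L = [(iF t.1, 2), (iC t.1, encode (t.2.1, t.2.2.1, t.2.2.2.1)), (iLT t.2.2.2.2.1 t.1, 0), (iU t.1 t.2.2.2.2.1, encode t.2.2.2.2.2.1), (iLT t.2.2.2.2.2.2 t.2.2.2.2.1, 0), (iR t.2.1 t.2.2.1 t.2.2.2.1 t.2.2.2.2.2.1 t.2.2.2.2.2.2, 0)] := by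
  refine sdtabf_ex (side := fun t : ℕ × ℕ × ℕ × ℕ × ℕ × NPos × ℕ => True) ?_ (f := fun t : ℕ × ℕ × ℕ × ℕ × ℕ × NPos × ℕ => [(iF t.1, 2), (iC t.1, encode (t.2.1, t.2.2.1, t.2.2.2.1)), (iLT t.2.2.2.2.1 t.1, 0), (iU t.1 t.2.2.2.2.1, encode t.2.2.2.2.2.1), (iLT t.2.2.2.2.2.2 t.2.2.2.2.1, 0), (iR t.2.1 t.2.2.1 t.2.2.2.1 t.2.2.2.2.2.1 t.2.2.2.2.2.2, 0)]) ?_
  · exact SD.const True
  · exact (sdtabf_cons (sdtabf_F Primrec.fst) (Primrec.const 2) (sdtabf_cons (sdtabf_C Primrec.fst) (sdtabf_enc3 (Primrec.fst.comp Primrec.snd) (Primrec.fst.comp (Primrec.snd.comp Primrec.snd)) (Primrec.fst.comp (Primrec.snd.comp (Primrec.snd.comp Primrec.snd)))) (sdtabf_cons (sdtabf_LT (Primrec.fst.comp (Primrec.snd.comp (Primrec.snd.comp (Primrec.snd.comp Primrec.snd)))) Primrec.fst) (Primrec.const 0) (sdtabf_cons (sdtabf_U Primrec.fst (Primrec.fst.comp (Primrec.snd.comp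 (Primrec.snd.comp (Primrec.snd.comp Primrec.snd))))) (sdtabf_encu (Primrec.fst.comp (Primrec.snd.comp (Primrec.snd.comp (Primrec.snd.comp (Primrec.snd.comp Primrec.snd)))))) (sdtabf_cons (sdtabf_LT (Primrec.snd.comp (Primrec.snd.comp (Primrec.snd.comp (Primrec.snd.comp (Primrec.snd.comp Primrec.snd))))) (Primrec.fst.comp (Primrec.snd.comp (Primrec.snd.comp (Primrec.snd.comp Primrec.snd))))) (Primrec.const 0) (sdtabf_cons (sdtabf_R (Primrec.fst.comp Primrec.snd) (Primrec.fst.comp (Primrec.snd.comp Primrec.snd)) (Primrec.fst.comp (Primrec.snd.comp (Primrec.snd.comp Primrec.snd))) (Primrec.fst.comp (Primrec.snd.comp (Primrec.snd.comp (Primrec.snd.comp (Primrec.snd.comp Primrec.snd))))) (Primrec.snd.comp (Primrec.snd.comp (Primrec.snd.comp (Primrec.snd.comp (Primrec.snd.comp Primrec.snd)))))) (Primrec.const 0) sdtabf_nil))))))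

theorem sdtabf_tabF_f4 : SD fun L : List (ℕ × ℕ) => ∃ t : ℕ × ℕ, (4 ≤ t.2) ∧ L = [(iF t.1, t.2)] := by
  refine sdtabf_ex (side := fun t : ℕ × ℕ => 4 ≤ t.2) ?_ (f := fun t : ℕ × ℕ => [(iF t.1, t.2)]) ?_
  · exact SD.of_primrecPred (Primrec.nat_le.comp (Primrec.const 4) Primrec.snd)
  · exact (sdtabf_cons (sdtabf_F Primrec.fst) Primrec.snd sdtabf_nil)

theorem sd_tabF : SD TabF := by
  refine SD.of_eq (sdtabf_tabF_f0.or (sdtabf_tabF_f1.or (sdtabf_tabF_f1p.or (sdtabf_tabF_f2.or (sdtabf_tabF_f2a.or (sdtabf_tabF_f2b.or (sdtabf_tabF_f2u.or (sdtabf_tabF_f2v.or (sdtabf_tabF_f2r.or (sdtabf_tabF_f2m.or sdtabf_tabF_f4)))))))))) fun L => ?_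
  constructor
  · rintro (⟨⟨κ, b⟩, _, rfl⟩ | ⟨⟨κ, a, v⟩, h1, rfl⟩ | ⟨⟨κ, a, b⟩, _, rfl⟩ | ⟨⟨κ, c⟩, h1, rfl⟩ | ⟨⟨κ, e, a, b, v⟩, h1, rfl⟩ | ⟨⟨κ, e, a, b, v⟩, h1, rfl⟩ | ⟨⟨κ, ξ, w⟩, h1, rfl⟩ | ⟨⟨κ, e, a, b, ξ, u, t, v⟩, ⟨h1, h2⟩, rfl⟩ | ⟨⟨κ, e, a, b, ξ, u, v⟩, h1, rfl⟩ | ⟨⟨κ, e, a, b, ξ, u, ξ'⟩, _, rfl⟩ | ⟨⟨κ, f⟩, h1, rfl⟩)
    · exact TabF.f0 κ b
    · exact TabF.f1 κ a v h1
    · exact TabF.f1' κ a b
    · exact TabF.f2 κ c h1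
    · exact TabF.f2a κ e a b v h1
    · exact TabF.f2b κ e a b v h1
    · exact TabF.f2u κ ξ w h1
    · exact TabF.f2v κ e a b ξ u t v h1 h2
    · exact TabF.f2r κ e a b ξ u v h1
    · exact TabF.f2m κ e a b ξ u ξ'
    · exact TabF.f4 κ f h1
  · intro h
    cases h with
    | f0 κ b  => exact Or.inl ⟨(κ, b), trivial, rfl⟩
    | f1 κ a v h1 => exact Or.inr (Or.inl ⟨(κ, a, v), h1, rfl⟩)
    | f1' κ a b  => exact Or.inr (Or.inr (Or.inl ⟨(κ, a, b), trivial, rfl⟩))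
    | f2 κ c h1 => exact Or.inr (Or.inr (Or.inr (Or.inl ⟨(κ, c), h1, rfl⟩)))
    | f2a κ e a b v h1 => exact Or.inr (Or.inr (Or.inr (Or.inr (Or.inl ⟨(κ, e, a, b, v), h1, rfl⟩))))
    | f2b κ e a b v h1 => exact Or.inr (Or.inr (Or.inr (Or.inr (Or.inr (Or.inl ⟨(κ, e, a, b, v), h1, rfl⟩)))))
    | f2u κ ξ w h1 => exact Or.inr (Or.inr (Or.inr (Or.inr (Or.inr (Or.inr (Or.inl ⟨(κ, ξ, w), h1, rfl⟩))))))
    | f2v κ e a b ξ u t v h1 h2 => exact Or.inr (Or.inr (Or.inr (Or.inr (Or.inr (Or.inr (Or.inr (Or.inl ⟨(κ, e, a, b, ξ, u, t, v), ⟨h1, h2⟩, rfl⟩)))))))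
    | f2r κ e a b ξ u v h1 => exact Or.inr (Or.inr (Or.inr (Or.inr (Or.inr (Or.inr (Or.inr (Or.inr (Or.inl ⟨(κ, e, a, b, ξ, u, v), h1, rfl⟩))))))))
    | f2m κ e a b ξ u ξ'  => exact Or.inr (Or.inr (Or.inr (Or.inr (Or.inr (Or.inr (Or.inr (Or.inr (Or.inr (Or.inl ⟨(κ, e, a, b, ξ, u, ξ'), trivial, rfl⟩)))))))))
    | f4 κ f h1 => exact Or.inr (Or.inr (Or.inr (Or.inr (Or.inr (Or.inr (Or.inr (Or.inr (Or.inr (Or.inr (⟨(κ, f), h1, rfl⟩))))))))))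

theorem sdtabf_tabG_f3s : SD fun L : List (ℕ × ℕ) => ∃ t : ℕ × ℕ × ℕ × ℕ × NPos × ℕ × ℕ, (t.2.2.2.2.2.2 ≠ 0) ∧ L = [(iF t.1, 3), (iLT t.2.2.1 t.1, 0), (iS t.1 t.2.1 t.2.2.1, t.2.2.2.1), (iR t.2.1 t.1 t.2.2.1 t.2.2.2.2.1 t.2.2.2.1, 0), (iT t.1 t.2.1 t.2.2.1 t.2.2.2.2.1, t.2.2.2.2.2.1), (iLT t.2.2.2.2.2.1 t.2.2.2.1, t.2.2.2.2.2.2)] ++ valReq t.1 t.2.2.1 t.2.2.2.2.1 := by
  refine sdtabf_ex (side := fun t : ℕ × ℕ × ℕ × ℕ × NPos × ℕ × ℕ => t.2.2.2.2.2.2 ≠ 0) ?_ (f := fun t : ℕ × ℕ × ℕ × ℕ × NPos × ℕ × ℕ => [(iF t.1, 3), (iLT t.2.2.1 t.1, 0), (iS t.1 t.2.1 t.2.2.1, t.2.2.2.1), (iR t.2.1 t.1 t.2.2.1 t.2.2.2.2.1 t.2.2.2.1, 0), (iT t.1 t.2.1 t.2.2.1 t.2.2.2.2.1, t.2.2.2.2.2.1), (iLT t.2.2.2.2.2.1 t.2.2.2.1, t.2.2.2.2.2.2)] ++ valReq t.1 t.2.2.1 t.2.2.2.2.1) ?_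
  · exact SD.of_primrecPred (sdtabf_ne (Primrec.snd.comp (Primrec.snd.comp (Primrec.snd.comp (Primrec.snd.comp (Primrec.snd.comp Primrec.snd))))))
  · exact sdtabf_append (sdtabf_cons (sdtabf_F Primrec.fst) (Primrec.const 3) (sdtabf_cons (sdtabf_LT (Primrec.fst.comp (Primrec.snd.comp Primrec.snd)) Primrec.fst) (Primrec.const 0) (sdtabf_cons (sdtabf_S Primrec.fst (Primrec.fst.comp Primrec.snd) (Primrec.fst.comp (Primrec.snd.comp Primrec.snd))) (Primrec.fst.comp (Primrec.snd.comp (Primrec.snd.comp Primrec.snd))) (sdtabf_cons (sdtabf_R (Primrec.fst.comp Primrec.snd) Primrec.fst (Primrec.fst.comp (Primrec.snd.comp Primrec.snd)) (Primrec.fst.comp (Primrec.snd.comp (Primrec.snd.comp (Primrec.snd.comp Primrec.snd)))) (Primrec.fst.comp (Primrec.snd.comp (Primrec.snd.comp Primrec.snd)))) (Primrec.const 0) (sdtabf_cons (sdtabf_T Primrec.fst (Primrec.fst.comp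 Primrec.snd) (Primrec.fst.comp (Primrec.snd.comp Primrec.snd)) (Primrec.fst.comp (Primrec.snd.comp (Primrec.snd.comp (Primrec.snd.comp Primrec.snd))))) (Primrec.fst.comp (Primrec.snd.comp (Primrec.snd.comp (Primrec.snd.comp (Primrec.snd.comp Primrec.snd))))) (sdtabf_cons (sdtabf_LT (Primrec.fst.comp (Primrec.snd.comp (Primrec.snd.comp (Primrec.snd.comp (Primrec.snd.comp Primrec.snd))))) (Primrec.fst.comp (Primrec.snd.comp (Primrec.snd.comp Primrec.snd)))) (Primrec.snd.comp (Primrec.snd.comp (Primrec.snd.comp (Primrec.snd.comp (Primrec.snd.comp Primrec.snd))))) sdtabf_nil))))))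
      (sdtabf_valReq Primrec.fst (Primrec.fst.comp (Primrec.snd.comp Primrec.snd)) (Primrec.fst.comp (Primrec.snd.comp (Primrec.snd.comp (Primrec.snd.comp Primrec.snd)))))

theorem sdtabf_tabG_f3r : SD fun L : List (ℕ × ℕ) => ∃ t : ℕ × ℕ × ℕ × ℕ × NPos × ℕ × ℕ, (t.2.2.2.2.2.2 ≠ 0) ∧ L = [(iF t.1, 3), (iLT t.2.2.1 t.1, 0), (iS t.1 t.2.1 t.2.2.1, t.2.2.2.1), (iR t.2.1 t.1 t.2.2.1 t.2.2.2.2.1 t.2.2.2.1, 0), (iT t.1 t.2.1 t.2.2.1 t.2.2.2.2.1, t.2.2.2.2.2.1), (iR t.2.1 t.1 t.2.2.1 t.2.2.2.2.1 t.2.2.2.2.2.1, t.2.2.2.2.2.2)] ++ valReq t.1 t.2.2.1 t.2.2.2.2.1 := by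
  refine sdtabf_ex (side := fun t : ℕ × ℕ × ℕ × ℕ × NPos × ℕ × ℕ => t.2.2.2.2.2.2 ≠ 0) ?_ (f := fun t : ℕ × ℕ × ℕ × ℕ × NPos × ℕ × ℕ => [(iF t.1, 3), (iLT t.2.2.1 t.1, 0), (iS t.1 t.2.1 t.2.2.1, t.2.2.2.1), (iR t.2.1 t.1 t.2.2.1 t.2.2.2.2.1 t.2.2.2.1, 0), (iT t.1 t.2.1 t.2.2.1 t.2.2.2.2.1, t.2.2.2.2.2.1), (iR t.2.1 t.1 t.2.2.1 t.2.2.2.2.1 t.2.2.2.2.2.1, t.2.2.2.2.2.2)] ++ valReq t.1 t.2.2.1 t.2.2.2.2.1) ?_
  · exact SD.of_primrecPred (sdtabf_ne (Primrec.snd.comp (Primrec.snd.comp (Primrec.snd.comp (Primrec.snd.comp (Primrec.snd.comp Primrec.snd))))))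
  · exact sdtabf_append (sdtabf_cons (sdtabf_F Primrec.fst) (Primrec.const 3) (sdtabf_cons (sdtabf_LT (Primrec.fst.comp (Primrec.snd.comp Primrec.snd)) Primrec.fst) (Primrec.const 0) (sdtabf_cons (sdtabf_S Primrec.fst (Primrec.fst.comp Primrec.snd) (Primrec.fst.comp (Primrec.snd.comp Primrec.snd))) (Primrec.fst.comp (Primrec.snd.comp (Primrec.snd.comp Primrec.snd))) (sdtabf_cons (sdtabf_R (Primrec.fst.comp Primrec.snd) Primrec.fst (Primrec.fst.comp (Primrec.snd.comp Primrec.snd)) (Primrec.fst.comp (Primrec.snd.comp (Primrec.snd.comp (Primrec.snd.comp Primrec.snd)))) (Primrec.fst.comp (Primrec.snd.comp (Primrec.snd.comp Primrec.snd)))) (Primrec.const 0) (sdtabf_cons (sdtabf_T Primrec.fst (Primrec.fst.comp Primrec.snd) (Primrec.fst.comp (Primrec.snd.comp Primrec.snd)) (Primrec.fst.comp (Primrec.snd.comp (Primrec.snd.comp (Primrec.snd.comp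 Primrec.snd))))) (Primrec.fst.comp (Primrec.snd.comp (Primrec.snd.comp (Primrec.snd.comp (Primrec.snd.comp Primrec.snd))))) (sdtabf_cons (sdtabf_R (Primrec.fst.comp Primrec.snd) Primrec.fst (Primrec.fst.comp (Primrec.snd.comp Primrec.snd)) (Primrec.fst.comp (Primrec.snd.comp (Primrec.snd.comp (Primrec.snd.comp Primrec.snd)))) (Primrec.fst.comp (Primrec.snd.comp (Primrec.snd.comp (Primrec.snd.comp (Primrec.snd.comp Primrec.snd)))))) (Primrec.snd.comp (Primrec.snd.comp (Primrec.snd.comp (Primrec.snd.comp (Primrec.snd.comp Primrec.snd))))) sdtabf_nil))))))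
      (sdtabf_valReq Primrec.fst (Primrec.fst.comp (Primrec.snd.comp Primrec.snd)) (Primrec.fst.comp (Primrec.snd.comp (Primrec.snd.comp (Primrec.snd.comp Primrec.snd)))))

theorem sdtabf_tabG_f3n : SD fun L : List (ℕ × ℕ) => ∃ t : ℕ × ℕ × ℕ, (decode (α := ℕ × ℕ × ℕ) t.2.2 = none) ∧ L = [(iF t.1, 3), (iLT t.2.1 t.1, 0), (iN t.1 t.2.1, t.2.2)] := by
  refine sdtabf_ex (side := fun t : ℕ × ℕ × ℕ => decode (α := ℕ × ℕ × ℕ) t.2.2 = none) ?_ (f := fun t : ℕ × ℕ × ℕ => [(iF t.1, 3), (iLT t.2.1 t.1, 0), (iN t.1 t.2.1, t.2.2)]) ?_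
  · exact SD.of_primrecPred (sdtabf_none (Primrec.snd.comp Primrec.snd))
  · exact (sdtabf_cons (sdtabf_F Primrec.fst) (Primrec.const 3) (sdtabf_cons (sdtabf_LT (Primrec.fst.comp Primrec.snd) Primrec.fst) (Primrec.const 0) (sdtabf_cons (sdtabf_N Primrec.fst (Primrec.fst.comp Primrec.snd)) (Primrec.snd.comp Primrec.snd) sdtabf_nil)))

theorem sdtabf_tabG_f3a : SD fun L : List (ℕ × ℕ) => ∃ t : ℕ × ℕ × ℕ × ℕ × ℕ, (True) ∧ L = [(iF t.1, 3), (iLT t.2.1 t.1, 0), (iN t.1 t.2.1, encode (t.2.2.1, t.2.2.2.1, t.2.2.2.2)), (iLT t.2.2.2.1 t.2.1, 0)] := by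
  refine sdtabf_ex (side := fun t : ℕ × ℕ × ℕ × ℕ × ℕ => True) ?_ (f := fun t : ℕ × ℕ × ℕ × ℕ × ℕ => [(iF t.1, 3), (iLT t.2.1 t.1, 0), (iN t.1 t.2.1, encode (t.2.2.1, t.2.2.2.1, t.2.2.2.2)), (iLT t.2.2.2.1 t.2.1, 0)]) ?_
  · exact SD.const True
  · exact (sdtabf_cons (sdtabf_F Primrec.fst) (Primrec.const 3) (sdtabf_cons (sdtabf_LT (Primrec.fst.comp Primrec.snd) Primrec.fst) (Primrec.const 0) (sdtabf_cons (sdtabf_N Primrec.fst (Primrec.fst.comp Primrec.snd)) (sdtabf_enc3 (Primrec.fst.comp (Primrec.snd.comp Primrec.snd)) (Primrec.fst.comp (Primrec.snd.comp (Primrec.snd.comp Primrec.snd))) (Primrec.snd.comp (Primrec.snd.comp (Primrec.snd.comp Primrec.snd)))) (sdtabf_cons (sdtabf_LT (Primrec.fst.comp (Primrec.snd.comp (Primrec.snd.comp Primrec.snd))) (Primrec.fst.comp Primrec.snd)) (Primrec.const 0) sdtabf_nil))))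

theorem sdtabf_tabG_f3b : SD fun L : List (ℕ × ℕ) => ∃ t : ℕ × ℕ × ℕ × ℕ × ℕ × ℕ, (t.2.2.2.2.2 ≠ 0) ∧ L = [(iF t.1, 3), (iLT t.2.1 t.1, 0), (iN t.1 t.2.1, encode (t.2.2.1, t.2.2.2.1, t.2.2.2.2.1)), (iLT t.2.2.2.1 t.1, t.2.2.2.2.2)] := by
  refine sdtabf_ex (side := fun t : ℕ × ℕ × ℕ × ℕ × ℕ × ℕ => t.2.2.2.2.2 ≠ 0) ?_ (f := fun t : ℕ × ℕ × ℕ × ℕ × ℕ × ℕ => [(iF t.1, 3), (iLT t.2.1 t.1, 0), (iN t.1 t.2.1, encode (t.2.2.1, t.2.2.2.1, t.2.2.2.2.1)), (iLT t.2.2.2.1 t.1, t.2.2.2.2.2)]) ?_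
  · exact SD.of_primrecPred (sdtabf_ne (Primrec.snd.comp (Primrec.snd.comp (Primrec.snd.comp (Primrec.snd.comp Primrec.snd)))))
  · exact (sdtabf_cons (sdtabf_F Primrec.fst) (Primrec.const 3) (sdtabf_cons (sdtabf_LT (Primrec.fst.comp Primrec.snd) Primrec.fst) (Primrec.const 0) (sdtabf_cons (sdtabf_N Primrec.fst (Primrec.fst.comp Primrec.snd)) (sdtabf_enc3 (Primrec.fst.comp (Primrec.snd.comp Primrec.snd)) (Primrec.fst.comp (Primrec.snd.comp (Primrec.snd.comp Primrec.snd))) (Primrec.fst.comp (Primrec.snd.comp (Primrec.snd.comp (Primrec.snd.comp Primrec.snd))))) (sdtabf_cons (sdtabf_LT (Primrec.fst.comp (Primrec.snd.comp (Primrec.snd.comp Primrec.snd))) Primrec.fst) (Primrec.snd.comp (Primrec.snd.comp (Primrec.snd.comp (Primrec.snd.comp Primrec.snd)))) sdtabf_nil))))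

theorem sdtabf_tabG_f3c : SD fun L : List (ℕ × ℕ) => ∃ t : ℕ × ℕ × ℕ × ℕ × ℕ × ℕ, (t.2.2.2.2.2 ≠ 0) ∧ L = [(iF t.1, 3), (iLT t.2.1 t.1, 0), (iN t.1 t.2.1, encode (t.2.2.1, t.2.2.2.1, t.2.2.2.2.1)), (iLT t.2.2.2.2.1 t.1, t.2.2.2.2.2)] := by
  refine sdtabf_ex (side := fun t : ℕ × ℕ × ℕ × ℕ × ℕ × ℕ => t.2.2.2.2.2 ≠ 0) ?_ (f := fun t : ℕ × ℕ × ℕ × ℕ × ℕ × ℕ => [(iF t.1, 3), (iLT t.2.1 t.1, 0), (iN t.1 t.2.1, encode (t.2.2.1, t.2.2.2.1, t.2.2.2.2.1)), (iLT t.2.2.2.2.1 t.1, t.2.2.2.2.2)]) ?_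
  · exact SD.of_primrecPred (sdtabf_ne (Primrec.snd.comp (Primrec.snd.comp (Primrec.snd.comp (Primrec.snd.comp Primrec.snd)))))
  · exact (sdtabf_cons (sdtabf_F Primrec.fst) (Primrec.const 3) (sdtabf_cons (sdtabf_LT (Primrec.fst.comp Primrec.snd) Primrec.fst) (Primrec.const 0) (sdtabf_cons (sdtabf_N Primrec.fst (Primrec.fst.comp Primrec.snd)) (sdtabf_enc3 (Primrec.fst.comp (Primrec.snd.comp Primrec.snd)) (Primrec.fst.comp (Primrec.snd.comp (Primrec.snd.comp Primrec.snd))) (Primrec.fst.comp (Primrec.snd.comp (Primrec.snd.comp (Primrec.snd.comp Primrec.snd))))) (sdtabf_cons (sdtabf_LT (Primrec.fst.comp (Primrec.snd.comp (Primrec.snd.comp (Primrec.snd.comp Primrec.snd)))) Primrec.fst) (Primrec.snd.comp (Primrec.snd.comp (Primrec.snd.comp (Primrec.snd.comp Primrec.snd)))) sdtabf_nil))))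

theorem sdtabf_tabG_f3d : SD fun L : List (ℕ × ℕ) => ∃ t : ℕ × ℕ × ℕ × ℕ × ℕ × ℕ, (True) ∧ L = [(iF t.1, 3), (iLT t.2.1 t.1, 0), (iN t.1 t.2.1, encode (t.2.2.1, t.2.2.2.1, t.2.2.2.2.1)), (iR t.2.2.1 t.1 t.2.2.2.1 [] t.2.2.2.2.2, 0)] := by
  refine sdtabf_ex (side := fun t : ℕ × ℕ × ℕ × ℕ × ℕ × ℕ => True) ?_ (f := fun t : ℕ × ℕ × ℕ × ℕ × ℕ × ℕ => [(iF t.1, 3), (iLT t.2.1 t.1, 0), (iN t.1 t.2.1, encode (t.2.2.1, t.2.2.2.1, t.2.2.2.2.1)), (iR t.2.2.1 t.1 t.2.2.2.1 [] t.2.2.2.2.2, 0)]) ?_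
  · exact SD.const True
  · exact (sdtabf_cons (sdtabf_F Primrec.fst) (Primrec.const 3) (sdtabf_cons (sdtabf_LT (Primrec.fst.comp Primrec.snd) Primrec.fst) (Primrec.const 0) (sdtabf_cons (sdtabf_N Primrec.fst (Primrec.fst.comp Primrec.snd)) (sdtabf_enc3 (Primrec.fst.comp (Primrec.snd.comp Primrec.snd)) (Primrec.fst.comp (Primrec.snd.comp (Primrec.snd.comp Primrec.snd))) (Primrec.fst.comp (Primrec.snd.comp (Primrec.snd.comp (Primrec.snd.comp Primrec.snd))))) (sdtabf_cons (sdtabf_R (Primrec.fst.comp (Primrec.snd.comp Primrec.snd)) Primrec.fst (Primrec.fst.comp (Primrec.snd.comp (Primrec.snd.comp Primrec.snd))) (Primrec.const []) (Primrec.snd.comp (Primrec.snd.comp (Primrec.snd.comp (Primrec.snd.comp Primrec.snd))))) (Primrec.const 0) sdtabf_nil))))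

theorem sdtabf_tabG_f3e : SD fun L : List (ℕ × ℕ) => ∃ t : ℕ × ℕ × ℕ × ℕ × ℕ × ℕ × ℕ × ℕ × ℕ, (t.2.2.2.2.2.2.1 ≠ 0 ∧ t.2.2.2.2.2.2.2.2 ≠ 0) ∧ L = [(iF t.1, 3), (iLT t.2.1 t.1, 0), (iN t.1 t.2.1, encode (t.2.2.1, t.2.2.2.1, t.2.2.2.2.1)), (iLT t.2.2.2.2.2.1 t.1, 0), (iLT t.2.2.2.2.2.1 t.2.2.2.2.1, t.2.2.2.2.2.2.1), (iO t.1 t.2.1 t.2.2.2.2.2.1, t.2.2.2.2.2.2.2.1), (iR t.2.2.1 t.1 t.2.2.2.2.2.1 [] t.2.2.2.2.2.2.2.1, t.2.2.2.2.2.2.2.2)] := by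
  refine sdtabf_ex (side := fun t : ℕ × ℕ × ℕ × ℕ × ℕ × ℕ × ℕ × ℕ × ℕ => t.2.2.2.2.2.2.1 ≠ 0 ∧ t.2.2.2.2.2.2.2.2 ≠ 0) ?_ (f := fun t : ℕ × ℕ × ℕ × ℕ × ℕ × ℕ × ℕ × ℕ × ℕ => [(iF t.1, 3), (iLT t.2.1 t.1, 0), (iN t.1 t.2.1, encode (t.2.2.1, t.2.2.2.1, t.2.2.2.2.1)), (iLT t.2.2.2.2.2.1 t.1, 0), (iLT t.2.2.2.2.2.1 t.2.2.2.2.1, t.2.2.2.2.2.2.1), (iO t.1 t.2.1 t.2.2.2.2.2.1, t.2.2.2.2.2.2.2.1), (iR t.2.2.1 t.1 t.2.2.2.2.2.1 [] t.2.2.2.2.2.2.2.1, t.2.2.2.2.2.2.2.2)]) ?_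
  · exact SD.of_primrecPred (PrimrecPred.and (sdtabf_ne (Primrec.fst.comp (Primrec.snd.comp (Primrec.snd.comp (Primrec.snd.comp (Primrec.snd.comp (Primrec.snd.comp Primrec.snd))))))) (sdtabf_ne (Primrec.snd.comp (Primrec.snd.comp (Primrec.snd.comp (Primrec.snd.comp (Primrec.snd.comp (Primrec.snd.comp (Primrec.snd.comp Primrec.snd)))))))))
  · exact (sdtabf_cons (sdtabf_F Primrec.fst) (Primrec.const 3) (sdtabf_cons (sdtabf_LT (Primrec.fst.comp Primrec.snd) Primrec.fst) (Primrec.const 0) (sdtabf_cons (sdtabf_N Primrec.fst (Primrec.fst.comp Primrec.snd)) (sdtabf_enc3 (Primrec.fst.comp (Primrec.snd.comp Primrec.snd)) (Primrec.fst.comp (Primrec.snd.comp (Primrec.snd.comp Primrec.snd))) (Primrec.fst.comp (Primrec.snd.comp (Primrec.snd.comp (Primrec.snd.comp Primrec.snd))))) (sdtabf_cons (sdtabf_LT (Primrec.fst.comp (Primrec.snd.comp (Primrec.snd.comp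 (Primrec.snd.comp (Primrec.snd.comp Primrec.snd))))) Primrec.fst) (Primrec.const 0) (sdtabf_cons (sdtabf_LT (Primrec.fst.comp (Primrec.snd.comp (Primrec.snd.comp (Primrec.snd.comp (Primrec.snd.comp Primrec.snd))))) (Primrec.fst.comp (Primrec.snd.comp (Primrec.snd.comp (Primrec.snd.comp Primrec.snd))))) (Primrec.fst.comp (Primrec.snd.comp (Primrec.snd.comp (Primrec.snd.comp (Primrec.snd.comp (Primrec.snd.comp Primrec.snd)))))) (sdtabf_cons (sdtabf_O Primrec.fst (Primrec.fst.comp Primrec.snd) (Primrec.fst.comp (Primrec.snd.comp (Primrec.snd.comp (Primrec.snd.comp (Primrec.snd.comp Primrec.snd)))))) (Primrec.fst.comp (Primrec.snd.comp (Primrec.snd.comp (Primrec.snd.comp (Primrec.snd.comp (Primrec.snd.comp (Primrec.snd.comp Primrec.snd))))))) (sdtabf_cons (sdtabf_R (Primrec.fst.comp (Primrec.snd.comp Primrec.snd)) Primrec.fst (Primrec.fst.comp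 (Primrec.snd.comp (Primrec.snd.comp (Primrec.snd.comp (Primrec.snd.comp Primrec.snd))))) (Primrec.const []) (Primrec.fst.comp (Primrec.snd.comp (Primrec.snd.comp (Primrec.snd.comp (Primrec.snd.comp (Primrec.snd.comp (Primrec.snd.comp Primrec.snd)))))))) (Primrec.snd.comp (Primrec.snd.comp (Primrec.snd.comp (Primrec.snd.comp (Primrec.snd.comp (Primrec.snd.comp (Primrec.snd.comp Primrec.snd))))))) sdtabf_nil)))))))

theorem sd_tabG : SD TabG := by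
  refine SD.of_eq (sdtabf_tabG_f3s.or (sdtabf_tabG_f3r.or (sdtabf_tabG_f3n.or (sdtabf_tabG_f3a.or (sdtabf_tabG_f3b.or (sdtabf_tabG_f3c.or (sdtabf_tabG_f3d.or sdtabf_tabG_f3e))))))) fun L => ?_
  constructor
  · rintro (⟨⟨κ, e, γ, ξ, u, ξ', v⟩, h1, rfl⟩ | ⟨⟨κ, e, γ, ξ, u, ξ', v⟩, h1, rfl⟩ | ⟨⟨κ, γ, c⟩, h1, rfl⟩ | ⟨⟨κ, γ, e, γ₁, δ⟩, _, rfl⟩ | ⟨⟨κ, γ, e, γ₁, δ, v⟩, h1, rfl⟩ | ⟨⟨κ, γ, e, γ₁, δ, v⟩, h1, rfl⟩ | ⟨⟨κ, γ, e, γ₁, δ, ξ⟩, _, rfl⟩ | ⟨⟨κ, γ, e, γ₁, δ, γ', w, ξ, v⟩, ⟨h1, h2⟩, rfl⟩)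
    · exact TabG.f3s κ e γ ξ u ξ' v h1
    · exact TabG.f3r κ e γ ξ u ξ' v h1
    · exact TabG.f3n κ γ c h1
    · exact TabG.f3a κ γ e γ₁ δ
    · exact TabG.f3b κ γ e γ₁ δ v h1
    · exact TabG.f3c κ γ e γ₁ δ v h1
    · exact TabG.f3d κ γ e γ₁ δ ξ
    · exact TabG.f3e κ γ e γ₁ δ γ' w ξ v h1 h2
  · intro h
    cases h with
    | f3s κ e γ ξ u ξ' v h1 => exact Or.inl ⟨(κ, e, γ, ξ, u, ξ', v), h1, rfl⟩
    | f3r κ e γ ξ u ξ' v h1 => exact Or.inr (Or.inl ⟨(κ, e, γ, ξ, u, ξ', v), h1, rfl⟩)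
    | f3n κ γ c h1 => exact Or.inr (Or.inr (Or.inl ⟨(κ, γ, c), h1, rfl⟩))
    | f3a κ γ e γ₁ δ  => exact Or.inr (Or.inr (Or.inr (Or.inl ⟨(κ, γ, e, γ₁, δ), trivial, rfl⟩)))
    | f3b κ γ e γ₁ δ v h1 => exact Or.inr (Or.inr (Or.inr (Or.inr (Or.inl ⟨(κ, γ, e, γ₁, δ, v), h1, rfl⟩))))
    | f3c κ γ e γ₁ δ v h1 => exact Or.inr (Or.inr (Or.inr (Or.inr (Or.inr (Or.inl ⟨(κ, γ, e, γ₁, δ, v), h1, rfl⟩)))))
    | f3d κ γ e γ₁ δ ξ  => exact Or.inr (Or.inr (Or.inr (Or.inr (Or.inr (Or.inr (Or.inl ⟨(κ, γ, e, γ₁, δ, ξ), trivial, rfl⟩))))))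
    | f3e κ γ e γ₁ δ γ' w ξ v h1 h2 => exact Or.inr (Or.inr (Or.inr (Or.inr (Or.inr (Or.inr (Or.inr (⟨(κ, γ, e, γ₁, δ, γ', w, ξ, v), ⟨h1, h2⟩, rfl⟩)))))))

end Pool.Agent.MPa662fc
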