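import Mathlib
import Pool.Agent.Lib.MP_a662fc_lc.Fam

/-!
# The universal family of semidecidable theories

`thA` is primitive recursive and every semidecidable theory is some `Th e`.
-/

namespace Pool.Agent.MPa662fc

open Ordinal Pool.Agent.MP752584 Encodable

theorem primrec_thA : Primrec fun t : ℕ × Pattern × ℕ => thA t.1 t.2.1 t.2.2 := by
  unfold thA
  have h1 : Primrec fun t : ℕ × Pattern × ℕ =>
      Nat.Partrec.Code.evaln t.2.2 (Denumerable.ofNat Nat.Partrec.Code t.1)
        (Encodable.encode t.2.1) :=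
    Nat.Partrec.Code.primrec_evaln.comp
      (Primrec.pair
        (Primrec.pair (Primrec.snd.comp Primrec.snd)
          ((Primrec.ofNat Nat.Partrec.Code).comp Primrec.fst))
        (Primrec.encode.comp (Primrec.fst.comp Primrec.snd)))
  exact Primrec.option_isSome.comp h1

theorem exists_th {P : Pattern → Prop} (hP : SD P) : ∃ e, Th e = P := by
  have hre : REPred P := hP.to_re
  have h2 : Nat.Partrec fun n =>
      Part.bind (decode (α := Pattern) n) fun a =>
        ((Part.assert (P a) fun _ => Part.some ()).map encode) := hre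
  obtain ⟨c, hc⟩ := Nat.Partrec.Code.exists_code.1 h2
  refine ⟨encode c, ?_⟩
  funext π
  apply propext
  unfold Th thA
  rw [Denumerable.ofNat_encode]
  have h3 : (c.eval (encode π)).Dom ↔ P π := by
    rw [hc]
    simp [Part.assert]
  rw [← h3, Part.dom_iff_mem]
  constructor
  · rintro ⟨n, hn⟩
    obtain ⟨x, hx⟩ := Option.isSome_iff_exists.1 hn
    exact ⟨x, Nat.Partrec.Code.evaln_complete.2 ⟨n, hx⟩⟩
  · rintro ⟨x, hx⟩
    obtain ⟨n, hn⟩ := Nat.Partrec.Code.evaln_complete.1 hx
    exact ⟨n, Option.isSome_iff_exists.2 ⟨x, hn⟩⟩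

end Pool.Agent.MPa662fc
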