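import Mathlib
import Pool.Agent.Lib.MP_a662fc_lc.Tab
import Pool.Agent.Lib.MP_a662fc_lc.ThFam
import Pool.Agent.Lib.MP_a662fc_lc.TabPrim

/-!
# The theory of the rank tables is semidecidable
-/

namespace Pool.Agent.MPa662fc

open Ordinal Pool.Agent.MP752584 Encodable


section Prim

variable {τ : Type*} [Primcodable τ]

theorem sdtabr_nil : Primrec fun _ : τ => ([] : List (ℕ × ℕ)) := Primrec.const _

theorem sdtabr_cons {i v : τ → ℕ} {l : τ → List (ℕ × ℕ)} (hi : Primrec i) (hv : Primrec v)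
    (hl : Primrec l) : Primrec fun t => (i t, v t) :: l t :=
  Primrec.list_cons.comp (hi.pair hv) hl

theorem sdtabr_npair {i v : τ → ℕ} (hi : Primrec i) (hv : Primrec v) :
    Primrec fun t => Nat.pair (i t) (v t) := Primrec₂.natPair.comp hi hv

theorem sdtabr_enc {σ : Type*} [Primcodable σ] {i : τ → σ} (hi : Primrec i) :
    Primrec fun t => encode (i t) := Primrec.encode.comp hi

theorem sdtabr_iLT {m n : τ → ℕ} (hm : Primrec m) (hn : Primrec n) :
    Primrec fun t => iLT (m t) (n t) := by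
  unfold iLT
  exact sdtabr_npair (Primrec.const 0) (sdtabr_npair hm hn)

theorem sdtabr_iR {e a b ξ : τ → ℕ} {u : τ → NPos} (he : Primrec e) (ha : Primrec a)
    (hb : Primrec b) (hu : Primrec u) (hξ : Primrec ξ) :
    Primrec fun t => iR (e t) (a t) (b t) (u t) (ξ t) := by
  unfold iR
  exact sdtabr_npair (Primrec.const 1) (sdtabr_enc (he.pair (ha.pair (hb.pair (hu.pair hξ)))))

theorem sdtabr_iJ {e a b ξ : τ → ℕ} {u : τ → NPos} (he : Primrec e) (ha : Primrec a)
    (hb : Primrec b) (hu : Primrec u) (hξ : Primrec ξ) :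
    Primrec fun t => iJ (e t) (a t) (b t) (u t) (ξ t) := by
  unfold iJ
  exact sdtabr_npair (Primrec.const 2) (sdtabr_enc (he.pair (ha.pair (hb.pair (hu.pair hξ)))))

theorem sdtabr_iK {e a b ξ v c : τ → ℕ} {u : τ → NPos} (he : Primrec e) (ha : Primrec a)
    (hb : Primrec b) (hu : Primrec u) (hξ : Primrec ξ) (hv : Primrec v) (hc : Primrec c) :
    Primrec fun t => iK (e t) (a t) (b t) (u t) (ξ t) (v t) (c t) := by
  unfold iK
  exact sdtabr_npair (Primrec.const 3)
    (sdtabr_enc (he.pair (ha.pair (hb.pair (hu.pair (hξ.pair (hv.pair hc)))))))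

theorem sdtabr_iA {e a b ξ i s t : τ → ℕ} {u : τ → NPos} (he : Primrec e) (ha : Primrec a)
    (hb : Primrec b) (hu : Primrec u) (hξ : Primrec ξ) (hi : Primrec i) (hs : Primrec s)
    (ht : Primrec t) :
    Primrec fun x => iA (e x) (a x) (b x) (u x) (ξ x) (i x) (s x) (t x) := by
  unfold iA
  exact sdtabr_npair (Primrec.const 4)
    (sdtabr_enc (he.pair (ha.pair (hb.pair (hu.pair (hξ.pair (hi.pair (hs.pair ht))))))))

theorem sdtabr_iV {a b t : τ → ℕ} (ha : Primrec a) (hb : Primrec b) (ht : Primrec t) :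
    Primrec fun x => iV (a x) (b x) (t x) := by
  unfold iV
  refine sdtabr_iLT (Primrec.nat_div.comp ht (Primrec.const 2)) ?_
  exact Primrec.ite (Primrec.eq.comp (Primrec.nat_mod.comp ht (Primrec.const 2))
    (Primrec.const 0)) ha hb

theorem sdtabr_fact {i s t v c : τ → ℕ} (hi : Primrec i) (hs : Primrec s) (ht : Primrec t)
    (hv : Primrec v) (hc : Primrec c) :
    Primrec fun x => ((i x, s x, t x, v x, c x) : NFact) :=
  hi.pair (hs.pair (ht.pair (hv.pair hc)))

theorem sdtabr_ncons {f : τ → NFact} {u : τ → NPos} (hf : Primrec f) (hu : Primrec u) :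
    Primrec fun x => f x :: u x := Primrec.list_cons.comp hf hu

theorem sdtabr_enc3 {i s t : τ → ℕ} (hi : Primrec i) (hs : Primrec s) (ht : Primrec t) :
    Primrec fun x => encode (i x, s x, t x) := sdtabr_enc (hi.pair (hs.pair ht))

theorem sdtabr_encP {π : τ → Pattern} {n : τ → ℕ} {L : τ → List ℕ} (hπ : Primrec π)
    (hn : Primrec n) (hL : Primrec L) :
    Primrec fun x => encode (π x, n x, L x) := sdtabr_enc (hπ.pair (hn.pair hL))

/-- Membership in a computable list. -/
theorem sdtabr_mem {σ : Type*} [Primcodable σ] {x : τ → σ} {l : τ → List σ} (hx : Primrec x)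
    (hl : Primrec l) : SD fun t => x t ∈ l t := by
  have h1 : SD fun t => ∃ k : ℕ, (l t)[k]? = some (x t) := by
    refine SD.ex (p := fun t (k : ℕ) => (l t)[k]? = some (x t)) ?_
    refine SD.eq ?_ ?_
    · exact Computable.list_getElem?.comp (hl.to_comp.comp Computable.fst) Computable.snd
    · exact Computable.option_some.comp (hx.to_comp.comp Computable.fst)
  exact h1.of_eq fun t => List.mem_iff_getElem?.symm

/-- The image of a semidecidable set under a computable function. -/
theorem sdtabr_img {side : τ → Prop} {f : τ → List (ℕ × ℕ)} (hs : SD side) (hf : Primrec f) :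
    SD fun L : List (ℕ × ℕ) => ∃ t, side t ∧ L = f t := by
  refine SD.ex (p := fun (L : List (ℕ × ℕ)) t => side t ∧ L = f t) ?_
  exact (hs.comp Computable.snd).and (SD.eq Computable.fst (hf.to_comp.comp Computable.snd))

end Prim

theorem sdtabr_ne {τ : Type*} [Primcodable τ] {f : τ → ℕ} (hf : Primrec f) :
    SD fun t => f t ≠ 0 := SD.ne hf.to_comp (Computable.const 0)

theorem sdtabr_irrefl : SD fun L : List (ℕ × ℕ) => ∃ n : ℕ, True ∧ L = [(iLT n n, 0)] := by
  refine sdtabr_img (τ := ℕ) (SD.const True) ?_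
  exact sdtabr_cons (sdtabr_iLT Primrec.id Primrec.id) (Primrec.const 0) sdtabr_nil

theorem sdtabr_trans : SD fun L : List (ℕ × ℕ) => ∃ x : ℕ × ℕ × ℕ × ℕ, x.2.2.2 ≠ 0 ∧
    L = [(iLT x.1 x.2.1, 0), (iLT x.2.1 x.2.2.1, 0), (iLT x.1 x.2.2.1, x.2.2.2)] := by
  refine sdtabr_img (sdtabr_ne ?_) ?_
  all_goals
    repeat (first
      | with_reducible exact Primrec.const _ | with_reducible exact Primrec.id
      | with_reducible exact Primrec.fst | with_reducible exact Primrec.snd
      | with_reducible exact sdtabr_nil | with_reducible apply sdtabr_cons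
      | with_reducible apply sdtabr_iLT | with_reducible apply sdtabr_iR
      | with_reducible apply sdtabr_iJ | with_reducible apply sdtabr_iK
      | with_reducible apply sdtabr_iA | with_reducible apply sdtabr_iV
      | with_reducible apply sdtabr_encP | with_reducible apply sdtabr_enc3
      | with_reducible apply sdtabr_npair | with_reducible apply sdtabr_ncons
      | with_reducible apply sdtabr_fact | with_reducible apply Primrec.fst.comp
      | with_reducible apply Primrec.snd.comp)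

theorem sdtabr_total : SD fun L : List (ℕ × ℕ) => ∃ x : ℕ × ℕ × ℕ × ℕ,
    (x.1 ≠ x.2.1 ∧ x.2.2.1 ≠ 0 ∧ x.2.2.2 ≠ 0) ∧
    L = [(iLT x.1 x.2.1, x.2.2.1), (iLT x.2.1 x.1, x.2.2.2)] := by
  refine sdtabr_img (SD.and (SD.ne ?_ ?_) (SD.and (sdtabr_ne ?_) (sdtabr_ne ?_))) ?_
  · exact Computable.fst
  · exact Computable.fst.comp Computable.snd
  · repeat (first
      | with_reducible exact Primrec.const _ | with_reducible exact Primrec.id
      | with_reducible exact Primrec.fst | with_reducible exact Primrec.snd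
      | with_reducible exact sdtabr_nil | with_reducible apply sdtabr_cons
      | with_reducible apply sdtabr_iLT | with_reducible apply sdtabr_iR
      | with_reducible apply sdtabr_iJ | with_reducible apply sdtabr_iK
      | with_reducible apply sdtabr_iA | with_reducible apply sdtabr_iV
      | with_reducible apply sdtabr_encP | with_reducible apply sdtabr_enc3
      | with_reducible apply sdtabr_npair | with_reducible apply sdtabr_ncons
      | with_reducible apply sdtabr_fact | with_reducible apply Primrec.fst.comp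
      | with_reducible apply Primrec.snd.comp)
  · repeat (first
      | with_reducible exact Primrec.const _ | with_reducible exact Primrec.id
      | with_reducible exact Primrec.fst | with_reducible exact Primrec.snd
      | with_reducible exact sdtabr_nil | with_reducible apply sdtabr_cons
      | with_reducible apply sdtabr_iLT | with_reducible apply sdtabr_iR
      | with_reducible apply sdtabr_iJ | with_reducible apply sdtabr_iK
      | with_reducible apply sdtabr_iA | with_reducible apply sdtabr_iV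
      | with_reducible apply sdtabr_encP | with_reducible apply sdtabr_enc3
      | with_reducible apply sdtabr_npair | with_reducible apply sdtabr_ncons
      | with_reducible apply sdtabr_fact | with_reducible apply Primrec.fst.comp
      | with_reducible apply Primrec.snd.comp)
  · repeat (first
      | with_reducible exact Primrec.const _ | with_reducible exact Primrec.id
      | with_reducible exact Primrec.fst | with_reducible exact Primrec.snd
      | with_reducible exact sdtabr_nil | with_reducible apply sdtabr_cons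
      | with_reducible apply sdtabr_iLT | with_reducible apply sdtabr_iR
      | with_reducible apply sdtabr_iJ | with_reducible apply sdtabr_iK
      | with_reducible apply sdtabr_iA | with_reducible apply sdtabr_iV
      | with_reducible apply sdtabr_encP | with_reducible apply sdtabr_enc3
      | with_reducible apply sdtabr_npair | with_reducible apply sdtabr_ncons
      | with_reducible apply sdtabr_fact | with_reducible apply Primrec.fst.comp
      | with_reducible apply Primrec.snd.comp)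

theorem sdtabr_badC : SD fun L : List (ℕ × ℕ) => ∃ x : ℕ × ℕ × ℕ × NPos × ℕ × ℕ,
    (x.2.2.2.2.2 ≠ 0 ∧ Contra x.2.2.2.1) ∧
    L = [(iR x.1 x.2.1 x.2.2.1 x.2.2.2.1 x.2.2.2.2.1, x.2.2.2.2.2)] := by
  refine sdtabr_img (SD.and (sdtabr_ne ?_)
    ((SD.of_primrecPred primrecPred_contra).comp (Primrec.to_comp ?_))) ?_
  all_goals
    repeat (first
      | with_reducible exact Primrec.const _ | with_reducible exact Primrec.id
      | with_reducible exact Primrec.fst | with_reducible exact Primrec.snd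
      | with_reducible exact sdtabr_nil | with_reducible apply sdtabr_cons
      | with_reducible apply sdtabr_iLT | with_reducible apply sdtabr_iR
      | with_reducible apply sdtabr_iJ | with_reducible apply sdtabr_iK
      | with_reducible apply sdtabr_iA | with_reducible apply sdtabr_iV
      | with_reducible apply sdtabr_encP | with_reducible apply sdtabr_enc3
      | with_reducible apply sdtabr_npair | with_reducible apply sdtabr_ncons
      | with_reducible apply sdtabr_fact | with_reducible apply Primrec.fst.comp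
      | with_reducible apply Primrec.snd.comp)

/-- the condition `thA e π n = true ∧ RealN π u L` -/
theorem sdtabr_side {τ : Type*} [Primcodable τ] {e n : τ → ℕ} {π : τ → Pattern} {u : τ → NPos}
    {L : τ → List ℕ} (he : Primrec e) (hπ : Primrec π) (hn : Primrec n) (hu : Primrec u)
    (hL : Primrec L) :
    PrimrecPred fun t => thA (e t) (π t) (n t) = true ∧ RealN (π t) (u t) (L t) := by
  refine PrimrecPred.and ?_ ?_
  · exact Primrec.eq.comp (primrec_thA.comp (he.pair (hπ.pair hn))) (Primrec.const true)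
  · exact primrecPred_realN.comp (hπ.pair (hu.pair hL))

theorem sdtabr_badP : SD fun L : List (ℕ × ℕ) =>
    ∃ x : ℕ × ℕ × ℕ × NPos × ℕ × ℕ × Pattern × ℕ × List ℕ,
    (x.2.2.2.2.2.1 ≠ 0 ∧ thA x.1 x.2.2.2.2.2.2.1 x.2.2.2.2.2.2.2.1 = true ∧
      RealN x.2.2.2.2.2.2.1 x.2.2.2.1 x.2.2.2.2.2.2.2.2) ∧
    L = (iR x.1 x.2.1 x.2.2.1 x.2.2.2.1 x.2.2.2.2.1, x.2.2.2.2.2.1) ::
      ltReq x.2.2.2.2.2.2.1 x.2.2.2.2.2.2.2.2 := by
  refine sdtabr_img (SD.and (sdtabr_ne ?_) (SD.of_primrecPred (sdtabr_side ?_ ?_ ?_ ?_ ?_)))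
    (sdtabr_cons ?_ ?_ (primrec_ltReq.comp ?_ ?_))
  all_goals
    repeat (first
      | with_reducible exact Primrec.const _ | with_reducible exact Primrec.id
      | with_reducible exact Primrec.fst | with_reducible exact Primrec.snd
      | with_reducible exact sdtabr_nil | with_reducible apply sdtabr_cons
      | with_reducible apply sdtabr_iLT | with_reducible apply sdtabr_iR
      | with_reducible apply sdtabr_iJ | with_reducible apply sdtabr_iK
      | with_reducible apply sdtabr_iA | with_reducible apply sdtabr_iV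
      | with_reducible apply sdtabr_encP | with_reducible apply sdtabr_enc3
      | with_reducible apply sdtabr_npair | with_reducible apply sdtabr_ncons
      | with_reducible apply sdtabr_fact | with_reducible apply Primrec.fst.comp
      | with_reducible apply Primrec.snd.comp)

theorem sdtabr_j0 : SD fun L : List (ℕ × ℕ) => ∃ x : ℕ × ℕ × ℕ × NPos × ℕ × ℕ,
    decode (α := Pattern × ℕ × List ℕ) x.2.2.2.2.2 = none ∧
    L = [(iR x.1 x.2.1 x.2.2.1 x.2.2.2.1 x.2.2.2.2.1, 0),
      (iJ x.1 x.2.1 x.2.2.1 x.2.2.2.1 x.2.2.2.2.1, Nat.pair 0 x.2.2.2.2.2)] := by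
  refine sdtabr_img (SD.eq (Computable.decode.comp (Primrec.to_comp ?_)) (Computable.const none))
    ?_
  all_goals
    repeat (first
      | with_reducible exact Primrec.const _ | with_reducible exact Primrec.id
      | with_reducible exact Primrec.fst | with_reducible exact Primrec.snd
      | with_reducible exact sdtabr_nil | with_reducible apply sdtabr_cons
      | with_reducible apply sdtabr_iLT | with_reducible apply sdtabr_iR
      | with_reducible apply sdtabr_iJ | with_reducible apply sdtabr_iK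
      | with_reducible apply sdtabr_iA | with_reducible apply sdtabr_iV
      | with_reducible apply sdtabr_encP | with_reducible apply sdtabr_enc3
      | with_reducible apply sdtabr_npair | with_reducible apply sdtabr_ncons
      | with_reducible apply sdtabr_fact | with_reducible apply Primrec.fst.comp
      | with_reducible apply Primrec.snd.comp)

theorem sdtabr_j0' : SD fun L : List (ℕ × ℕ) =>
    ∃ x : ℕ × ℕ × ℕ × NPos × ℕ × Pattern × ℕ × List ℕ,
    (¬ (thA x.1 x.2.2.2.2.2.1 x.2.2.2.2.2.2.1 = true ∧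
      RealN x.2.2.2.2.2.1 x.2.2.2.1 x.2.2.2.2.2.2.2)) ∧
    L = [(iR x.1 x.2.1 x.2.2.1 x.2.2.2.1 x.2.2.2.2.1, 0),
      (iJ x.1 x.2.1 x.2.2.1 x.2.2.2.1 x.2.2.2.2.1,
        Nat.pair 0 (encode (x.2.2.2.2.2.1, x.2.2.2.2.2.2.1, x.2.2.2.2.2.2.2)))] := by
  refine sdtabr_img (SD.of_primrecPred (PrimrecPred.not (sdtabr_side ?_ ?_ ?_ ?_ ?_))) ?_
  all_goals
    repeat (first
      | with_reducible exact Primrec.const _ | with_reducible exact Primrec.id
      | with_reducible exact Primrec.fst | with_reducible exact Primrec.snd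
      | with_reducible exact sdtabr_nil | with_reducible apply sdtabr_cons
      | with_reducible apply sdtabr_iLT | with_reducible apply sdtabr_iR
      | with_reducible apply sdtabr_iJ | with_reducible apply sdtabr_iK
      | with_reducible apply sdtabr_iA | with_reducible apply sdtabr_iV
      | with_reducible apply sdtabr_encP | with_reducible apply sdtabr_enc3
      | with_reducible apply sdtabr_npair | with_reducible apply sdtabr_ncons
      | with_reducible apply sdtabr_fact | with_reducible apply Primrec.fst.comp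
      | with_reducible apply Primrec.snd.comp)

theorem sdtabr_j0'' : SD fun L : List (ℕ × ℕ) =>
    ∃ x : ℕ × ℕ × ℕ × NPos × ℕ × Pattern × ℕ × List ℕ × ℕ × ℕ,
    (x.2.2.2.2.2.2.2.2.2 ≠ 0 ∧
      (x.2.2.2.2.2.2.2.2.1, 0) ∈ ltReq x.2.2.2.2.2.1 x.2.2.2.2.2.2.2.1) ∧
    L = [(iR x.1 x.2.1 x.2.2.1 x.2.2.2.1 x.2.2.2.2.1, 0),
      (iJ x.1 x.2.1 x.2.2.1 x.2.2.2.1 x.2.2.2.2.1,
        Nat.pair 0 (encode (x.2.2.2.2.2.1, x.2.2.2.2.2.2.1, x.2.2.2.2.2.2.2.1))),
      (x.2.2.2.2.2.2.2.2.1, x.2.2.2.2.2.2.2.2.2)] := by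
  refine sdtabr_img (SD.and (sdtabr_ne ?_)
    (sdtabr_mem (Primrec.pair ?_ ?_) (primrec_ltReq.comp ?_ ?_))) ?_
  all_goals
    repeat (first
      | with_reducible exact Primrec.const _ | with_reducible exact Primrec.id
      | with_reducible exact Primrec.fst | with_reducible exact Primrec.snd
      | with_reducible exact sdtabr_nil | with_reducible apply sdtabr_cons
      | with_reducible apply sdtabr_iLT | with_reducible apply sdtabr_iR
      | with_reducible apply sdtabr_iJ | with_reducible apply sdtabr_iK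
      | with_reducible apply sdtabr_iA | with_reducible apply sdtabr_iV
      | with_reducible apply sdtabr_encP | with_reducible apply sdtabr_enc3
      | with_reducible apply sdtabr_npair | with_reducible apply sdtabr_ncons
      | with_reducible apply sdtabr_fact | with_reducible apply Primrec.fst.comp
      | with_reducible apply Primrec.snd.comp)

theorem sdtabr_j1 : SD fun L : List (ℕ × ℕ) => ∃ x : ℕ × ℕ × ℕ × NPos × ℕ × ℕ,
    (¬ Contra x.2.2.2.1) ∧
    L = [(iR x.1 x.2.1 x.2.2.1 x.2.2.2.1 x.2.2.2.2.1, 0),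
      (iJ x.1 x.2.1 x.2.2.1 x.2.2.2.1 x.2.2.2.2.1, Nat.pair 1 x.2.2.2.2.2)] := by
  refine sdtabr_img ((SD.of_primrecPred (PrimrecPred.not primrecPred_contra)).comp
    (Primrec.to_comp ?_)) ?_
  all_goals
    repeat (first
      | with_reducible exact Primrec.const _ | with_reducible exact Primrec.id
      | with_reducible exact Primrec.fst | with_reducible exact Primrec.snd
      | with_reducible exact sdtabr_nil | with_reducible apply sdtabr_cons
      | with_reducible apply sdtabr_iLT | with_reducible apply sdtabr_iR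
      | with_reducible apply sdtabr_iJ | with_reducible apply sdtabr_iK
      | with_reducible apply sdtabr_iA | with_reducible apply sdtabr_iV
      | with_reducible apply sdtabr_encP | with_reducible apply sdtabr_enc3
      | with_reducible apply sdtabr_npair | with_reducible apply sdtabr_ncons
      | with_reducible apply sdtabr_fact | with_reducible apply Primrec.fst.comp
      | with_reducible apply Primrec.snd.comp)

theorem sdtabr_j2 : SD fun L : List (ℕ × ℕ) => ∃ x : ℕ × ℕ × ℕ × NPos × ℕ × ℕ,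
    decode (α := ℕ × ℕ × ℕ) x.2.2.2.2.2 = none ∧
    L = [(iR x.1 x.2.1 x.2.2.1 x.2.2.2.1 x.2.2.2.2.1, 0),
      (iJ x.1 x.2.1 x.2.2.1 x.2.2.2.1 x.2.2.2.2.1, Nat.pair 2 x.2.2.2.2.2)] := by
  refine sdtabr_img (SD.eq (Computable.decode.comp (Primrec.to_comp ?_)) (Computable.const none))
    ?_
  all_goals
    repeat (first
      | with_reducible exact Primrec.const _ | with_reducible exact Primrec.id
      | with_reducible exact Primrec.fst | with_reducible exact Primrec.snd
      | with_reducible exact sdtabr_nil | with_reducible apply sdtabr_cons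
      | with_reducible apply sdtabr_iLT | with_reducible apply sdtabr_iR
      | with_reducible apply sdtabr_iJ | with_reducible apply sdtabr_iK
      | with_reducible apply sdtabr_iA | with_reducible apply sdtabr_iV
      | with_reducible apply sdtabr_encP | with_reducible apply sdtabr_enc3
      | with_reducible apply sdtabr_npair | with_reducible apply sdtabr_ncons
      | with_reducible apply sdtabr_fact | with_reducible apply Primrec.fst.comp
      | with_reducible apply Primrec.snd.comp)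

theorem sdtabr_j2s : SD fun L : List (ℕ × ℕ) =>
    ∃ x : ℕ × ℕ × ℕ × NPos × ℕ × (ℕ × ℕ × ℕ) × ℕ, x.2.2.2.2.2.2 ≠ 0 ∧
    L = [(iR x.1 x.2.1 x.2.2.1 x.2.2.2.1 x.2.2.2.2.1, 0),
      (iJ x.1 x.2.1 x.2.2.1 x.2.2.2.1 x.2.2.2.2.1,
        Nat.pair 2 (encode (x.2.2.2.2.2.1.1, x.2.2.2.2.2.1.2.1, x.2.2.2.2.2.1.2.2))),
      (iV x.2.1 x.2.2.1 x.2.2.2.2.2.1.2.1, x.2.2.2.2.2.2)] := by
  refine sdtabr_img (sdtabr_ne ?_) ?_
  all_goals
    repeat (first
      | with_reducible exact Primrec.const _ | with_reducible exact Primrec.id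
      | with_reducible exact Primrec.fst | with_reducible exact Primrec.snd
      | with_reducible exact sdtabr_nil | with_reducible apply sdtabr_cons
      | with_reducible apply sdtabr_iLT | with_reducible apply sdtabr_iR
      | with_reducible apply sdtabr_iJ | with_reducible apply sdtabr_iK
      | with_reducible apply sdtabr_iA | with_reducible apply sdtabr_iV
      | with_reducible apply sdtabr_encP | with_reducible apply sdtabr_enc3
      | with_reducible apply sdtabr_npair | with_reducible apply sdtabr_ncons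
      | with_reducible apply sdtabr_fact | with_reducible apply Primrec.fst.comp
      | with_reducible apply Primrec.snd.comp)

theorem sdtabr_j2t : SD fun L : List (ℕ × ℕ) =>
    ∃ x : ℕ × ℕ × ℕ × NPos × ℕ × (ℕ × ℕ × ℕ) × ℕ, x.2.2.2.2.2.2 ≠ 0 ∧
    L = [(iR x.1 x.2.1 x.2.2.1 x.2.2.2.1 x.2.2.2.2.1, 0),
      (iJ x.1 x.2.1 x.2.2.1 x.2.2.2.1 x.2.2.2.2.1,
        Nat.pair 2 (encode (x.2.2.2.2.2.1.1, x.2.2.2.2.2.1.2.1, x.2.2.2.2.2.1.2.2))),
      (iV x.2.1 x.2.2.1 x.2.2.2.2.2.1.2.2, x.2.2.2.2.2.2)] := by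
  refine sdtabr_img (sdtabr_ne ?_) ?_
  all_goals
    repeat (first
      | with_reducible exact Primrec.const _ | with_reducible exact Primrec.id
      | with_reducible exact Primrec.fst | with_reducible exact Primrec.snd
      | with_reducible exact sdtabr_nil | with_reducible apply sdtabr_cons
      | with_reducible apply sdtabr_iLT | with_reducible apply sdtabr_iR
      | with_reducible apply sdtabr_iJ | with_reducible apply sdtabr_iK
      | with_reducible apply sdtabr_iA | with_reducible apply sdtabr_iV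
      | with_reducible apply sdtabr_encP | with_reducible apply sdtabr_enc3
      | with_reducible apply sdtabr_npair | with_reducible apply sdtabr_ncons
      | with_reducible apply sdtabr_fact | with_reducible apply Primrec.fst.comp
      | with_reducible apply Primrec.snd.comp)

theorem sdtabr_j2k : SD fun L : List (ℕ × ℕ) =>
    ∃ x : ℕ × ℕ × ℕ × NPos × ℕ × (ℕ × ℕ × ℕ) × ℕ × ℕ × ℕ × ℕ, x.2.2.2.2.2.2.2.2.2 ≠ 0 ∧
    L = [(iR x.1 x.2.1 x.2.2.1 x.2.2.2.1 x.2.2.2.2.1, 0),
      (iJ x.1 x.2.1 x.2.2.1 x.2.2.2.1 x.2.2.2.2.1,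
        Nat.pair 2 (encode (x.2.2.2.2.2.1.1, x.2.2.2.2.2.1.2.1, x.2.2.2.2.2.1.2.2))),
      (iV x.2.1 x.2.2.1 x.2.2.2.2.2.2.2.1, 0),
      (iK x.1 x.2.1 x.2.2.1 x.2.2.2.1 x.2.2.2.2.1 x.2.2.2.2.2.2.1 x.2.2.2.2.2.2.2.1,
        x.2.2.2.2.2.2.2.2.1),
      (iLT x.2.2.2.2.2.2.2.2.1 x.2.2.2.2.1, x.2.2.2.2.2.2.2.2.2)] := by
  refine sdtabr_img (sdtabr_ne ?_) ?_
  all_goals
    repeat (first
      | with_reducible exact Primrec.const _ | with_reducible exact Primrec.id
      | with_reducible exact Primrec.fst | with_reducible exact Primrec.snd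
      | with_reducible exact sdtabr_nil | with_reducible apply sdtabr_cons
      | with_reducible apply sdtabr_iLT | with_reducible apply sdtabr_iR
      | with_reducible apply sdtabr_iJ | with_reducible apply sdtabr_iK
      | with_reducible apply sdtabr_iA | with_reducible apply sdtabr_iV
      | with_reducible apply sdtabr_encP | with_reducible apply sdtabr_enc3
      | with_reducible apply sdtabr_npair | with_reducible apply sdtabr_ncons
      | with_reducible apply sdtabr_fact | with_reducible apply Primrec.fst.comp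
      | with_reducible apply Primrec.snd.comp)

theorem sdtabr_j2r : SD fun L : List (ℕ × ℕ) =>
    ∃ x : ℕ × ℕ × ℕ × NPos × ℕ × (ℕ × ℕ × ℕ) × ℕ × ℕ × ℕ × ℕ, x.2.2.2.2.2.2.2.2.2 ≠ 0 ∧
    L = [(iR x.1 x.2.1 x.2.2.1 x.2.2.2.1 x.2.2.2.2.1, 0),
      (iJ x.1 x.2.1 x.2.2.1 x.2.2.2.1 x.2.2.2.2.1,
        Nat.pair 2 (encode (x.2.2.2.2.2.1.1, x.2.2.2.2.2.1.2.1, x.2.2.2.2.2.1.2.2))),
      (iV x.2.1 x.2.2.1 x.2.2.2.2.2.2.2.1, 0),
      (iK x.1 x.2.1 x.2.2.1 x.2.2.2.1 x.2.2.2.2.1 x.2.2.2.2.2.2.1 x.2.2.2.2.2.2.2.1,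
        x.2.2.2.2.2.2.2.2.1),
      (iR x.1 x.2.1 x.2.2.1 ((x.2.2.2.2.2.1.1, x.2.2.2.2.2.1.2.1, x.2.2.2.2.2.1.2.2,
        x.2.2.2.2.2.2.1, x.2.2.2.2.2.2.2.1) :: x.2.2.2.1) x.2.2.2.2.2.2.2.2.1,
        x.2.2.2.2.2.2.2.2.2)] := by
  refine sdtabr_img (sdtabr_ne ?_) ?_
  all_goals
    repeat (first
      | with_reducible exact Primrec.const _ | with_reducible exact Primrec.id
      | with_reducible exact Primrec.fst | with_reducible exact Primrec.snd
      | with_reducible exact sdtabr_nil | with_reducible apply sdtabr_cons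
      | with_reducible apply sdtabr_iLT | with_reducible apply sdtabr_iR
      | with_reducible apply sdtabr_iJ | with_reducible apply sdtabr_iK
      | with_reducible apply sdtabr_iA | with_reducible apply sdtabr_iV
      | with_reducible apply sdtabr_encP | with_reducible apply sdtabr_enc3
      | with_reducible apply sdtabr_npair | with_reducible apply sdtabr_ncons
      | with_reducible apply sdtabr_fact | with_reducible apply Primrec.fst.comp
      | with_reducible apply Primrec.snd.comp)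

theorem sdtabr_j3 : SD fun L : List (ℕ × ℕ) => ∃ x : ℕ × ℕ × ℕ × NPos × ℕ × ℕ × ℕ,
    3 ≤ x.2.2.2.2.2.1 ∧
    L = [(iR x.1 x.2.1 x.2.2.1 x.2.2.2.1 x.2.2.2.2.1, 0),
      (iJ x.1 x.2.1 x.2.2.1 x.2.2.2.1 x.2.2.2.2.1,
        Nat.pair x.2.2.2.2.2.1 x.2.2.2.2.2.2)] := by
  refine sdtabr_img (SD.le (Computable.const 3) (Primrec.to_comp ?_)) ?_
  all_goals
    repeat (first
      | with_reducible exact Primrec.const _ | with_reducible exact Primrec.id
      | with_reducible exact Primrec.fst | with_reducible exact Primrec.snd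
      | with_reducible exact sdtabr_nil | with_reducible apply sdtabr_cons
      | with_reducible apply sdtabr_iLT | with_reducible apply sdtabr_iR
      | with_reducible apply sdtabr_iJ | with_reducible apply sdtabr_iK
      | with_reducible apply sdtabr_iA | with_reducible apply sdtabr_iV
      | with_reducible apply sdtabr_encP | with_reducible apply sdtabr_enc3
      | with_reducible apply sdtabr_npair | with_reducible apply sdtabr_ncons
      | with_reducible apply sdtabr_fact | with_reducible apply Primrec.fst.comp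
      | with_reducible apply Primrec.snd.comp)

theorem sdtabr_a1 : SD fun L : List (ℕ × ℕ) =>
    ∃ x : ℕ × ℕ × ℕ × NPos × ℕ × ℕ × (ℕ × ℕ × ℕ) × ℕ × ℕ × ℕ,
    (x.2.2.2.2.2.1 ≠ 0 ∧ x.2.2.2.2.2.2.2.2.2 ≠ 0) ∧
    L = [(iR x.1 x.2.1 x.2.2.1 x.2.2.2.1 x.2.2.2.2.1, x.2.2.2.2.2.1),
      (iV x.2.1 x.2.2.1 x.2.2.2.2.2.2.1.2.1, 0),
      (iV x.2.1 x.2.2.1 x.2.2.2.2.2.2.1.2.2, 0),
      (iA x.1 x.2.1 x.2.2.1 x.2.2.2.1 x.2.2.2.2.1 x.2.2.2.2.2.2.1.1 x.2.2.2.2.2.2.1.2.1
        x.2.2.2.2.2.2.1.2.2, Nat.pair x.2.2.2.2.2.2.2.1 x.2.2.2.2.2.2.2.2.1),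
      (iV x.2.1 x.2.2.1 x.2.2.2.2.2.2.2.2.1, x.2.2.2.2.2.2.2.2.2)] := by
  refine sdtabr_img (SD.and (sdtabr_ne ?_) (sdtabr_ne ?_)) ?_
  all_goals
    repeat (first
      | with_reducible exact Primrec.const _ | with_reducible exact Primrec.id
      | with_reducible exact Primrec.fst | with_reducible exact Primrec.snd
      | with_reducible exact sdtabr_nil | with_reducible apply sdtabr_cons
      | with_reducible apply sdtabr_iLT | with_reducible apply sdtabr_iR
      | with_reducible apply sdtabr_iJ | with_reducible apply sdtabr_iK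
      | with_reducible apply sdtabr_iA | with_reducible apply sdtabr_iV
      | with_reducible apply sdtabr_encP | with_reducible apply sdtabr_enc3
      | with_reducible apply sdtabr_npair | with_reducible apply sdtabr_ncons
      | with_reducible apply sdtabr_fact | with_reducible apply Primrec.fst.comp
      | with_reducible apply Primrec.snd.comp)

theorem sdtabr_a2 : SD fun L : List (ℕ × ℕ) =>
    ∃ x : ℕ × ℕ × ℕ × NPos × ℕ × ℕ × (ℕ × ℕ × ℕ) × ℕ × ℕ × ℕ,
    x.2.2.2.2.2.1 ≠ 0 ∧
    L = [(iR x.1 x.2.1 x.2.2.1 x.2.2.2.1 x.2.2.2.2.1, x.2.2.2.2.2.1),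
      (iV x.2.1 x.2.2.1 x.2.2.2.2.2.2.1.2.1, 0),
      (iV x.2.1 x.2.2.1 x.2.2.2.2.2.2.1.2.2, 0),
      (iA x.1 x.2.1 x.2.2.1 x.2.2.2.1 x.2.2.2.2.1 x.2.2.2.2.2.2.1.1 x.2.2.2.2.2.2.1.2.1
        x.2.2.2.2.2.2.1.2.2, Nat.pair x.2.2.2.2.2.2.2.1 x.2.2.2.2.2.2.2.2.1),
      (iLT x.2.2.2.2.2.2.2.2.2 x.2.2.2.2.1, 0),
      (iR x.1 x.2.1 x.2.2.1 ((x.2.2.2.2.2.2.1.1, x.2.2.2.2.2.2.1.2.1, x.2.2.2.2.2.2.1.2.2,
        x.2.2.2.2.2.2.2.1, x.2.2.2.2.2.2.2.2.1) :: x.2.2.2.1) x.2.2.2.2.2.2.2.2.2, 0)] := by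
  refine sdtabr_img (sdtabr_ne ?_) ?_
  all_goals
    repeat (first
      | with_reducible exact Primrec.const _ | with_reducible exact Primrec.id
      | with_reducible exact Primrec.fst | with_reducible exact Primrec.snd
      | with_reducible exact sdtabr_nil | with_reducible apply sdtabr_cons
      | with_reducible apply sdtabr_iLT | with_reducible apply sdtabr_iR
      | with_reducible apply sdtabr_iJ | with_reducible apply sdtabr_iK
      | with_reducible apply sdtabr_iA | with_reducible apply sdtabr_iV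
      | with_reducible apply sdtabr_encP | with_reducible apply sdtabr_enc3
      | with_reducible apply sdtabr_npair | with_reducible apply sdtabr_ncons
      | with_reducible apply sdtabr_fact | with_reducible apply Primrec.fst.comp
      | with_reducible apply Primrec.snd.comp)

theorem sd_tabR : SD TabR := by
  refine SD.of_eq (sdtabr_irrefl.or (sdtabr_trans.or (sdtabr_total.or (sdtabr_badC.or
    (sdtabr_badP.or (sdtabr_j0.or (sdtabr_j0'.or (sdtabr_j0''.or (sdtabr_j1.or (sdtabr_j2.or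
    (sdtabr_j2s.or (sdtabr_j2t.or (sdtabr_j2k.or (sdtabr_j2r.or (sdtabr_j3.or
    (sdtabr_a1.or sdtabr_a2)))))))))))))))) fun L => ⟨?_, ?_⟩
  · rintro (⟨n, -, rfl⟩ | ⟨⟨l, m, n, v⟩, h, rfl⟩ | ⟨⟨m, n, v, w⟩, ⟨h, hv, hw⟩, rfl⟩ |
      ⟨⟨e, a, b, u, ξ, v⟩, ⟨hv, h⟩, rfl⟩ | ⟨⟨e, a, b, u, ξ, v, π, n, L'⟩, ⟨hv, h, h'⟩, rfl⟩ |
      ⟨⟨e, a, b, u, ξ, w⟩, h, rfl⟩ | ⟨⟨e, a, b, u, ξ, π, n, L'⟩, h, rfl⟩ |
      ⟨⟨e, a, b, u, ξ, π, n, L', i, v⟩, ⟨hv, h⟩, rfl⟩ | ⟨⟨e, a, b, u, ξ, w⟩, h, rfl⟩ |
      ⟨⟨e, a, b, u, ξ, w⟩, h, rfl⟩ | ⟨⟨e, a, b, u, ξ, ⟨i, s, t⟩, v⟩, hv, rfl⟩ |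
      ⟨⟨e, a, b, u, ξ, ⟨i, s, t⟩, v⟩, hv, rfl⟩ |
      ⟨⟨e, a, b, u, ξ, ⟨i, s, t⟩, v, c, ξ', w⟩, hw, rfl⟩ |
      ⟨⟨e, a, b, u, ξ, ⟨i, s, t⟩, v, c, ξ', w⟩, hw, rfl⟩ |
      ⟨⟨e, a, b, u, ξ, k, w⟩, h, rfl⟩ |
      ⟨⟨e, a, b, u, ξ, r, ⟨i, s, t⟩, v, c, w⟩, ⟨hr, hw⟩, rfl⟩ |
      ⟨⟨e, a, b, u, ξ, r, ⟨i, s, t⟩, v, c, ξ'⟩, hr, rfl⟩)
    · exact TabR.irrefl n
    · exact TabR.trans l m n v h
    · exact TabR.total m n v w h hv hw
    · exact TabR.badC e a b u ξ v hv h
    · exact TabR.badP e a b u ξ v hv π n L' h h'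
    · exact TabR.j0 e a b u ξ w h
    · exact TabR.j0' e a b u ξ π n L' h
    · exact TabR.j0'' e a b u ξ π n L' i v hv h
    · exact TabR.j1 e a b u ξ w h
    · exact TabR.j2 e a b u ξ w h
    · exact TabR.j2s e a b u ξ i s t v hv
    · exact TabR.j2t e a b u ξ i s t v hv
    · exact TabR.j2k e a b u ξ i s t v c ξ' w hw
    · exact TabR.j2r e a b u ξ i s t v c ξ' w hw
    · exact TabR.j3 e a b u ξ k w h
    · exact TabR.a1 e a b u ξ r i s t v c w hr hw
    · exact TabR.a2 e a b u ξ r i s t v c ξ' hr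
  · intro h
    cases h with
    | irrefl n => exact Or.inl ⟨n, trivial, rfl⟩
    | trans l m n v h => exact Or.inr <| Or.inl ⟨(l, m, n, v), h, rfl⟩
    | total m n v w h hv hw => exact Or.inr <| Or.inr <| Or.inl ⟨(m, n, v, w), ⟨h, hv, hw⟩, rfl⟩
    | badC e a b u ξ v hv h =>
      exact Or.inr <| Or.inr <| Or.inr <| Or.inl ⟨(e, a, b, u, ξ, v), ⟨hv, h⟩, rfl⟩
    | badP e a b u ξ v hv π n L' h h' =>
      exact Or.inr <| Or.inr <| Or.inr <| Or.inr <| Or.inl
        ⟨(e, a, b, u, ξ, v, π, n, L'), ⟨hv, h, h'⟩, rfl⟩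
    | j0 e a b u ξ w h =>
      exact Or.inr <| Or.inr <| Or.inr <| Or.inr <| Or.inr <| Or.inl
        ⟨(e, a, b, u, ξ, w), h, rfl⟩
    | j0' e a b u ξ π n L' h =>
      exact Or.inr <| Or.inr <| Or.inr <| Or.inr <| Or.inr <| Or.inr <| Or.inl
        ⟨(e, a, b, u, ξ, π, n, L'), h, rfl⟩
    | j0'' e a b u ξ π n L' i v hv h =>
      exact Or.inr <| Or.inr <| Or.inr <| Or.inr <| Or.inr <| Or.inr <| Or.inr <| Or.inl
        ⟨(e, a, b, u, ξ, π, n, L', i, v), ⟨hv, h⟩, rfl⟩
    | j1 e a b u ξ w h =>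
      exact Or.inr <| Or.inr <| Or.inr <| Or.inr <| Or.inr <| Or.inr <| Or.inr <| Or.inr <|
        Or.inl ⟨(e, a, b, u, ξ, w), h, rfl⟩
    | j2 e a b u ξ w h =>
      exact Or.inr <| Or.inr <| Or.inr <| Or.inr <| Or.inr <| Or.inr <| Or.inr <| Or.inr <|
        Or.inr <| Or.inl ⟨(e, a, b, u, ξ, w), h, rfl⟩
    | j2s e a b u ξ i s t v hv =>
      exact Or.inr <| Or.inr <| Or.inr <| Or.inr <| Or.inr <| Or.inr <| Or.inr <| Or.inr <|
        Or.inr <| Or.inr <| Or.inl ⟨(e, a, b, u, ξ, (i, s, t), v), hv, rfl⟩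
    | j2t e a b u ξ i s t v hv =>
      exact Or.inr <| Or.inr <| Or.inr <| Or.inr <| Or.inr <| Or.inr <| Or.inr <| Or.inr <|
        Or.inr <| Or.inr <| Or.inr <| Or.inl ⟨(e, a, b, u, ξ, (i, s, t), v), hv, rfl⟩
    | j2k e a b u ξ i s t v c ξ' w hw =>
      exact Or.inr <| Or.inr <| Or.inr <| Or.inr <| Or.inr <| Or.inr <| Or.inr <| Or.inr <|
        Or.inr <| Or.inr <| Or.inr <| Or.inr <| Or.inl
        ⟨(e, a, b, u, ξ, (i, s, t), v, c, ξ', w), hw, rfl⟩
    | j2r e a b u ξ i s t v c ξ' w hw =>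
      exact Or.inr <| Or.inr <| Or.inr <| Or.inr <| Or.inr <| Or.inr <| Or.inr <| Or.inr <|
        Or.inr <| Or.inr <| Or.inr <| Or.inr <| Or.inr <| Or.inl
        ⟨(e, a, b, u, ξ, (i, s, t), v, c, ξ', w), hw, rfl⟩
    | j3 e a b u ξ k w h =>
      exact Or.inr <| Or.inr <| Or.inr <| Or.inr <| Or.inr <| Or.inr <| Or.inr <| Or.inr <|
        Or.inr <| Or.inr <| Or.inr <| Or.inr <| Or.inr <| Or.inr <| Or.inl
        ⟨(e, a, b, u, ξ, k, w), h, rfl⟩
    | a1 e a b u ξ r i s t v c w hr hw =>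
      exact Or.inr <| Or.inr <| Or.inr <| Or.inr <| Or.inr <| Or.inr <| Or.inr <| Or.inr <|
        Or.inr <| Or.inr <| Or.inr <| Or.inr <| Or.inr <| Or.inr <| Or.inr <| Or.inl
        ⟨(e, a, b, u, ξ, r, (i, s, t), v, c, w), ⟨hr, hw⟩, rfl⟩
    | a2 e a b u ξ r i s t v c ξ' hr =>
      exact Or.inr <| Or.inr <| Or.inr <| Or.inr <| Or.inr <| Or.inr <| Or.inr <| Or.inr <|
        Or.inr <| Or.inr <| Or.inr <| Or.inr <| Or.inr <| Or.inr <| Or.inr <| Or.inr
        ⟨(e, a, b, u, ξ, r, (i, s, t), v, c, ξ'), hr, rfl⟩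

end Pool.Agent.MPa662fc
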