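import Mathlib
import Pool.Agent.Lib.MP_a662fc_lc.Names
import Pool.Agent.Lib.MP_a662fc_lc.StabM

/-!
# There is a table of type `κ`
-/

namespace Pool.Agent.MPa662fc

open Ordinal Pool.Agent.MP752584 Encodable

theorem tabex_enum {τ : Ordinal.{0}} (h1 : ω ≤ τ) (h2 : τ < ω₁) :
    ∃ o : ℕ → Ordinal.{0}, Function.Injective o ∧ (∀ n, o n < τ) ∧ ∀ ζ < τ, ∃ n, o n = ζ := by
  have : Countable (Set.Iio τ) := by
    rw [← Cardinal.mk_le_aleph0_iff, Cardinal.mk_Iio_ordinal, Cardinal.lift_le_aleph0,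
      ← Order.lt_succ_iff, Cardinal.succ_aleph0]
    exact Cardinal.lt_omega_iff_card_lt.1 h2
  have : Infinite (Set.Iio τ) := by
    refine Infinite.of_injective (fun n : ℕ => (⟨n, lt_of_lt_of_le (Ordinal.natCast_lt_omega0 n) h1⟩ :
      Set.Iio τ)) ?_
    intro m n hmn
    have := congrArg Subtype.val hmn
    simpa using this
  obtain ⟨f⟩ := nonempty_equiv_of_countable (α := ℕ) (β := Set.Iio τ)
  refine ⟨fun n => (f n).1, fun m n hmn => f.injective (Subtype.ext hmn), fun n => (f n).2,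
    fun ζ hζ => ⟨f.symm ⟨ζ, hζ⟩, by simp⟩⟩

/-- The rank statement. -/
def tabex_R (o : ℕ → Ordinal.{0}) (e a b : ℕ) (u : NPos) (ξ : ℕ) : Prop :=
  W (Th e) (o a) (o b) (o ξ) (trn o u)

/-- The tagged name `t` is valid. -/
def tabex_val (o : ℕ → Ordinal.{0}) (a b t : ℕ) : Prop := nm o t ∈ D (o a) (o b)

/-- Specification of the justification of a true rank statement. -/
def tabex_JSpec (o : ℕ → Ordinal.{0}) (e a b : ℕ) (u : NPos) (ξ j : ℕ) (K : ℕ → ℕ → ℕ) : Prop :=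
  (∃ w, j = Nat.pair 1 w ∧ Contra u) ∨
  (∃ (π : Pattern) (n : ℕ) (L : List ℕ), j = Nat.pair 0 (encode (π, n, L)) ∧ thA e π n = true ∧
    RealN π u L ∧ LtTrue o π L) ∨
  (∃ i s t : ℕ, j = Nat.pair 2 (encode (i, s, t)) ∧ tabex_val o a b s ∧ tabex_val o a b t ∧
    ∀ v c, tabex_val o a b c → o (K v c) < o ξ ∧ tabex_R o e a b ((i, s, t, v, c) :: u) (K v c))

section

variable {o : ℕ → Ordinal.{0}} {κ : Ordinal.{0}}

theorem tabex_bad (ho : Function.Injective o) {e a b : ℕ} {u : NPos} {ξ : ℕ}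
    (h : Contra u ∨ ∃ π, Th e π ∧ ∃ L, RealN π u L ∧ LtTrue o π L) : tabex_R o e a b u ξ :=
  .bad ((bad_trn_iff ho).2 h)

theorem tabex_true (ho : Function.Injective o) (hlt : ∀ n, o n < κ) (hsur : ∀ ζ < κ, ∃ n, o n = ζ)
    {e a b : ℕ} {u : NPos} {ξ : ℕ} (h : tabex_R o e a b u ξ) :
    ∃ j K, tabex_JSpec o e a b u ξ j K := by
  have hseg : ∀ n, ∀ ζ < o n, ∃ m, o m = ζ := fun n ζ hζ => hsur ζ (hζ.trans (hlt n))
  rcases W.cases_iff.1 h with h | ⟨i, s, hs, t, ht, H⟩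
  · rcases (bad_trn_iff ho).1 h with h | ⟨π, ⟨n, hn⟩, L, h1, h2⟩
    · exact ⟨Nat.pair 1 0, fun _ _ => 0, Or.inl ⟨0, rfl, h⟩⟩
    · exact ⟨Nat.pair 0 (encode (π, n, L)), fun _ _ => 0, Or.inr (Or.inl ⟨π, n, L, rfl, hn, h1, h2⟩)⟩
  · obtain ⟨s', rfl⟩ := exists_nm (hseg a) (hseg b) hs
    obtain ⟨t', rfl⟩ := exists_nm (hseg a) (hseg b) ht
    have H' : ∀ v c, ∃ k, tabex_val o a b c →
        o k < o ξ ∧ tabex_R o e a b ((i, s', t', v, c) :: u) k := by
      intro v c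
      by_cases hc : tabex_val o a b c
      · obtain ⟨ξ', h1, h2⟩ := H v _ hc
        obtain ⟨k, rfl⟩ := hseg ξ ξ' h1
        exact ⟨k, fun _ => ⟨h1, h2⟩⟩
      · exact ⟨0, fun h => absurd h hc⟩
    choose K hK using H'
    exact ⟨_, K, Or.inr (Or.inr ⟨i, s', t', rfl, hs, ht, hK⟩)⟩

theorem tabex_false (hlt : ∀ n, o n < κ) (hsur : ∀ ζ < κ, ∃ n, o n = ζ)
    {e a b : ℕ} {u : NPos} {ξ : ℕ} (h : ¬ tabex_R o e a b u ξ) {i s t : ℕ}
    (hs : tabex_val o a b s) (ht : tabex_val o a b t) :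
    ∃ v c, tabex_val o a b c ∧ ∀ ξ', o ξ' < o ξ →
      ¬ tabex_R o e a b ((i, s, t, v, c) :: u) ξ' := by
  have hseg : ∀ n, ∀ ζ < o n, ∃ m, o m = ζ := fun n ζ hζ => hsur ζ (hζ.trans (hlt n))
  by_contra hcon
  push Not at hcon
  refine h (W.cases_iff.2 (Or.inr ⟨i, nm o s, hs, nm o t, ht, fun v c hc => ?_⟩))
  obtain ⟨c', rfl⟩ := exists_nm (hseg a) (hseg b) hc
  obtain ⟨ξ', h1, h2⟩ := hcon v c' hc
  exact ⟨o ξ', h1, h2⟩

/-- Specification of the kind of an ordinal and the witnesses. -/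
def tabex_KSpec (o : ℕ → Ordinal.{0}) (k F P C : ℕ) (U : ℕ → ℕ) (S : ℕ → ℕ → ℕ)
    (T : ℕ → ℕ → NPos → ℕ) (N : ℕ → ℕ) (O : ℕ → ℕ → ℕ) : Prop :=
  (F = 0 ∧ o k = 0) ∨ (F = 1 ∧ o k = o P + 1) ∨
  (F = 2 ∧ ∃ e a b : ℕ, C = encode (e, a, b) ∧ o a < o k ∧ o b < o k ∧
    ∀ ξ, o ξ < o k → ∃ u : NPos, U ξ = encode u ∧ (∀ t ∈ nelems u, tabex_val o a b t) ∧
      tabex_R o e a b u ξ ∧ ∀ ξ', o ξ' < o ξ → ¬ tabex_R o e a b u ξ') ∨
  (F = 3 ∧ (∀ e γ, o γ < o k → ∀ u, (∀ t ∈ nelems u, tabex_val o k γ t) →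
      tabex_R o e k γ u (S e γ) → o (T e γ u) < o (S e γ) ∧ tabex_R o e k γ u (T e γ u)) ∧
    ∀ γ, o γ < o k → ∃ e γ₁ δ : ℕ, N γ = encode (e, γ₁, δ) ∧ ¬ o γ₁ < o γ ∧ o γ₁ < o k ∧
      o δ < o k ∧ (∀ ξ, ¬ tabex_R o e k γ₁ [] ξ) ∧
      ∀ γ', o γ' < o k → ¬ o γ' < o δ → tabex_R o e k γ' [] (O γ γ'))

theorem tabex_kind (hlt : ∀ n, o n < κ) (hsur : ∀ ζ < κ, ∃ n, o n = ζ)
    (hc : Clos κ) (hmin : ∀ κ' < κ, ¬ Good κ') (k : ℕ) :
    ∃ F P C U S T N O, tabex_KSpec o k F P C U S T N O := by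
  have hseg : ∀ n, ∀ ζ < o n, ∃ m, o m = ζ := fun n ζ hζ => hsur ζ (hζ.trans (hlt n))
  by_cases h0 : o k = 0
  · exact ⟨0, 0, 0, fun _ => 0, fun _ _ => 0, fun _ _ _ => 0, fun _ => 0, fun _ _ => 0,
      Or.inl ⟨rfl, h0⟩⟩
  by_cases h1 : ∃ a, o k = a + 1
  · obtain ⟨a, ha⟩ := h1
    obtain ⟨p, rfl⟩ := hseg k a (by rw [ha]; exact lt_add_one a)
    exact ⟨1, p, 0, fun _ => 0, fun _ _ => 0, fun _ _ _ => 0, fun _ => 0, fun _ _ => 0,
      Or.inr (Or.inl ⟨rfl, ha⟩)⟩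
  have hsucc : ∀ a < o k, a + 1 < o k := fun a ha =>
    lt_of_le_of_ne (Order.add_one_le_of_lt ha) fun h => h1 ⟨a, h.symm⟩
  by_cases h2 : Clos (o k)
  · -- kind 3
    have h3 : ¬ Bdd (o k) := fun h3 =>
      hmin _ (hlt k) ⟨pos_iff_ne_zero.2 h0, hsucc, h2, h3⟩
    -- the stages
    have hS : ∀ e γ : ℕ, ∃ s, Stab (Th e) (o k) (o γ) (o s) := by
      intro e γ
      obtain ⟨ξ, hξ, hst⟩ := hc e (o k) (hlt k) (o γ) (hlt γ)
      obtain ⟨s, rfl⟩ := hsur ξ hξ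
      exact ⟨s, hst⟩
    choose S hS using hS
    have hT : ∀ (e γ : ℕ) (u : NPos), ∃ t, (∀ t ∈ nelems u, tabex_val o k γ t) →
        tabex_R o e k γ u (S e γ) → o t < o (S e γ) ∧ tabex_R o e k γ u t := by
      intro e γ u
      by_cases h : (∀ t ∈ nelems u, tabex_val o k γ t) ∧ tabex_R o e k γ u (S e γ)
      · obtain ⟨ξ', h4, h5⟩ := hS e γ (trn o u) (valid_trn.2 h.1) h.2
        obtain ⟨t, rfl⟩ := hseg _ ξ' h4
        exact ⟨t, fun _ _ => ⟨h4, h5⟩⟩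
      · exact ⟨0, fun h' h'' => absurd ⟨h', h''⟩ h⟩
    choose T hT using hT
    have hN : ∀ γ, ∃ (e γ₁ δ : ℕ) (O : ℕ → ℕ), o γ < o k → ¬ o γ₁ < o γ ∧ o γ₁ < o k ∧
        o δ < o k ∧ (∀ ξ, ¬ tabex_R o e k γ₁ [] ξ) ∧
        ∀ γ', o γ' < o k → ¬ o γ' < o δ → tabex_R o e k γ' [] (O γ') := by
      intro γ
      by_cases hγ : o γ < o k
      · unfold Bdd at h3
        push Not at h3
        obtain ⟨e, ⟨γ₁, h4, h5, h6⟩, δ, h7, h8⟩ := h3 (o γ) hγ
        obtain ⟨γ₁, rfl⟩ := hseg k γ₁ h5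
        obtain ⟨δ, rfl⟩ := hseg k δ h7
        have h9 : ∀ γ', ∃ r, o γ' < o k → ¬ o γ' < o δ → tabex_R o e k γ' [] r := by
          intro γ'
          by_cases h : o γ' < o k ∧ ¬ o γ' < o δ
          · obtain ⟨ξ, hξ⟩ := h8 (o γ') (not_lt.1 h.2) h.1
            obtain ⟨ξ', h10, h11⟩ := (hS e γ').le (u := []) (fun f hf => by simp at hf) hξ
            obtain ⟨r, rfl⟩ := hseg _ ξ' h10
            exact ⟨r, fun _ _ => h11⟩
          · exact ⟨0, fun h' h'' => absurd ⟨h', h''⟩ h⟩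
        choose O hO using h9
        exact ⟨e, γ₁, δ, O, fun _ => ⟨not_lt.2 h4, h5, h7, fun ξ => h6 (o ξ), hO⟩⟩
      · exact ⟨0, 0, 0, fun _ => 0, fun h => absurd h hγ⟩
    choose e γ₁ δ O hN using hN
    exact ⟨3, 0, 0, fun _ => 0, S, T, fun γ => encode (e γ, γ₁ γ, δ γ), O,
      Or.inr (Or.inr (Or.inr ⟨rfl, fun e γ _ u => hT e γ u,
        fun γ hγ => ⟨e γ, γ₁ γ, δ γ, rfl, hN γ hγ⟩⟩))⟩
  · -- kind 2
    unfold Clos at h2
    push Not at h2
    obtain ⟨e, a, ha, b, hb, h2⟩ := h2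
    obtain ⟨a, rfl⟩ := hseg k a ha
    obtain ⟨b, rfl⟩ := hseg k b hb
    have hU : ∀ ξ, ∃ u : NPos, o ξ < o k → (∀ t ∈ nelems u, tabex_val o a b t) ∧
        tabex_R o e a b u ξ ∧ ∀ ξ', o ξ' < o ξ → ¬ tabex_R o e a b u ξ' := by
      intro ξ
      by_cases hξ : o ξ < o k
      · have := h2 (o ξ) hξ
        unfold Stab at this
        push Not at this
        obtain ⟨u, hu, h3, h4⟩ := this
        obtain ⟨u', rfl⟩ := exists_trn (hseg a) (hseg b) hu
        exact ⟨u', fun _ => ⟨valid_trn.1 hu, h3, fun ξ' hξ' => h4 (o ξ') hξ'⟩⟩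
      · exact ⟨[], fun h => absurd h hξ⟩
    choose U hU using hU
    exact ⟨2, 0, encode (e, a, b), fun ξ => encode (U ξ), fun _ _ => 0, fun _ _ _ => 0, fun _ => 0,
      fun _ _ => 0, Or.inr (Or.inr (Or.inl ⟨rfl, e, a, b, rfl, ha, hb,
        fun ξ hξ => ⟨U ξ, rfl, hU ξ hξ⟩⟩))⟩

end

/-- The specification of a table. -/
structure tabex_Spec (o : ℕ → Ordinal.{0}) (y : ℕ → ℕ) : Prop where
  inj : Function.Injective o
  lt : ∀ m n, y (iLT m n) = 0 ↔ o m < o n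
  R : ∀ e a b u ξ, y (iR e a b u ξ) = 0 ↔ tabex_R o e a b u ξ
  J : ∀ e a b u ξ, tabex_R o e a b u ξ →
    tabex_JSpec o e a b u ξ (y (iJ e a b u ξ)) fun v c => y (iK e a b u ξ v c)
  A : ∀ e a b u ξ i s t, ¬ tabex_R o e a b u ξ → tabex_val o a b s → tabex_val o a b t →
    ∃ v c, y (iA e a b u ξ i s t) = Nat.pair v c ∧ tabex_val o a b c ∧ ∀ ξ', o ξ' < o ξ →
      ¬ tabex_R o e a b ((i, s, t, v, c) :: u) ξ'
  K : ∀ k, tabex_KSpec o k (y (iF k)) (y (iP k)) (y (iC k)) (fun ξ => y (iU k ξ))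
    (fun e γ => y (iS k e γ)) (fun e γ u => y (iT k e γ u)) (fun γ => y (iN k γ))
    (fun γ γ' => y (iO k γ γ'))

theorem tabex_spec {κ : Ordinal.{0}} {o : ℕ → Ordinal.{0}} (ho : Function.Injective o)
    (hlt : ∀ n, o n < κ) (hsur : ∀ ζ < κ, ∃ n, o n = ζ) (hc : Clos κ)
    (hmin : ∀ κ' < κ, ¬ Good κ') : ∃ y, tabex_Spec o y := by
  classical
  have hJ : ∀ (e a b : ℕ) (u : NPos) (ξ : ℕ), ∃ j K, tabex_R o e a b u ξ →
      tabex_JSpec o e a b u ξ j K := by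
    intro e a b u ξ
    by_cases h : tabex_R o e a b u ξ
    · obtain ⟨j, K, h'⟩ := tabex_true ho hlt hsur h
      exact ⟨j, K, fun _ => h'⟩
    · exact ⟨0, fun _ _ => 0, fun h' => absurd h' h⟩
  choose J K hJ using hJ
  have hA : ∀ (e a b : ℕ) (u : NPos) (ξ i s t : ℕ), ∃ v c, ¬ tabex_R o e a b u ξ →
      tabex_val o a b s → tabex_val o a b t → tabex_val o a b c ∧ ∀ ξ', o ξ' < o ξ →
      ¬ tabex_R o e a b ((i, s, t, v, c) :: u) ξ' := by
    intro e a b u ξ i s t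
    by_cases h : ¬ tabex_R o e a b u ξ ∧ tabex_val o a b s ∧ tabex_val o a b t
    · obtain ⟨v, c, h'⟩ := tabex_false (i := i) hlt hsur h.1 h.2.1 h.2.2
      exact ⟨v, c, fun _ _ _ => h'⟩
    · exact ⟨0, 0, fun h1 h2 h3 => absurd ⟨h1, h2, h3⟩ h⟩
  choose Av Ac hA using hA
  choose F P C U S T N O hK using tabex_kind hlt hsur hc hmin
  let y : ℕ → ℕ := fun i =>
    match i.unpair.1 with
    | 0 => if o i.unpair.2.unpair.1 < o i.unpair.2.unpair.2 then 0 else 1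
    | 1 => match decode (α := ℕ × ℕ × ℕ × NPos × ℕ) i.unpair.2 with
      | none => 0
      | some (e, a, b, u, ξ) => if tabex_R o e a b u ξ then 0 else 1
    | 2 => match decode (α := ℕ × ℕ × ℕ × NPos × ℕ) i.unpair.2 with
      | none => 0
      | some (e, a, b, u, ξ) => J e a b u ξ
    | 3 => match decode (α := ℕ × ℕ × ℕ × NPos × ℕ × ℕ × ℕ) i.unpair.2 with
      | none => 0
      | some (e, a, b, u, ξ, v, c) => K e a b u ξ v c
    | 4 => match decode (α := ℕ × ℕ × ℕ × NPos × ℕ × ℕ × ℕ × ℕ) i.unpair.2 with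
      | none => 0
      | some (e, a, b, u, ξ, i, s, t) => Nat.pair (Av e a b u ξ i s t) (Ac e a b u ξ i s t)
    | 5 => F i.unpair.2
    | 6 => P i.unpair.2
    | 7 => C i.unpair.2
    | 8 => U i.unpair.2.unpair.1 i.unpair.2.unpair.2
    | 9 => match decode (α := ℕ × ℕ × ℕ) i.unpair.2 with
      | none => 0
      | some (k, e, γ) => S k e γ
    | 10 => match decode (α := ℕ × ℕ × ℕ × NPos) i.unpair.2 with
      | none => 0
      | some (k, e, γ, u) => T k e γ u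
    | 11 => N i.unpair.2.unpair.1 i.unpair.2.unpair.2
    | 12 => match decode (α := ℕ × ℕ × ℕ) i.unpair.2 with
      | none => 0
      | some (k, γ, γ') => O k γ γ'
    | _ => 0
  have yLT : ∀ m n, y (iLT m n) = if o m < o n then 0 else 1 := by
    intro m n
    simp [y, iLT]
  have yR : ∀ e a b u ξ, y (iR e a b u ξ) = if tabex_R o e a b u ξ then 0 else 1 := by
    intro e a b u ξ
    simp only [y, iR, Nat.unpair_pair, encodek]
  have yJ : ∀ e a b u ξ, y (iJ e a b u ξ) = J e a b u ξ := by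
    intro e a b u ξ
    simp only [y, iJ, Nat.unpair_pair, encodek]
  have yK : ∀ e a b u ξ v c, y (iK e a b u ξ v c) = K e a b u ξ v c := by
    intro e a b u ξ v c
    simp only [y, iK, Nat.unpair_pair, encodek]
  have yA : ∀ e a b u ξ i s t, y (iA e a b u ξ i s t) =
      Nat.pair (Av e a b u ξ i s t) (Ac e a b u ξ i s t) := by
    intro e a b u ξ i s t
    simp only [y, iA, Nat.unpair_pair, encodek]
  have yF : ∀ k, y (iF k) = F k := by
    intro k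
    simp only [y, iF, Nat.unpair_pair]
  have yP : ∀ k, y (iP k) = P k := by
    intro k
    simp only [y, iP, Nat.unpair_pair]
  have yC : ∀ k, y (iC k) = C k := by
    intro k
    simp only [y, iC, Nat.unpair_pair]
  have yU : ∀ k ξ, y (iU k ξ) = U k ξ := by
    intro k ξ
    simp only [y, iU, Nat.unpair_pair]
  have yS : ∀ k e γ, y (iS k e γ) = S k e γ := by
    intro k e γ
    simp only [y, iS, Nat.unpair_pair, encodek]
  have yT : ∀ k e γ u, y (iT k e γ u) = T k e γ u := by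
    intro k e γ u
    simp only [y, iT, Nat.unpair_pair, encodek]
  have yN : ∀ k γ, y (iN k γ) = N k γ := by
    intro k γ
    simp only [y, iN, Nat.unpair_pair]
  have yO : ∀ k γ γ', y (iO k γ γ') = O k γ γ' := by
    intro k γ γ'
    simp only [y, iO, Nat.unpair_pair, encodek]
  clear_value y
  refine ⟨y, ho, fun m n => ?_, fun e a b u ξ => ?_, fun e a b u ξ h => ?_,
    fun e a b u ξ i s t h1 h2 h3 => ?_, fun k => ?_⟩
  · rw [yLT]
    split_ifs with h <;> simp [h]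
  · rw [yR]
    split_ifs with h <;> simp [h]
  · simp only [yJ, yK]
    exact hJ e a b u ξ h
  · exact ⟨_, _, yA e a b u ξ i s t, hA e a b u ξ i s t h1 h2 h3⟩
  · simp only [yF, yP, yC, yU, yS, yT, yN, yO]
    exact hK k

section

variable {o : ℕ → Ordinal.{0}} {y : ℕ → ℕ}

theorem tabex_Spec.V (h : tabex_Spec o y) (a b t : ℕ) : y (iV a b t) = 0 ↔ tabex_val o a b t :=
  iV_eq_zero h.lt a b t

/-- The justification of a true rank statement. -/
theorem tabex_Spec.just (h : tabex_Spec o y) {e a b : ℕ} {u : NPos} {ξ k w : ℕ}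
    (h1 : y (iR e a b u ξ) = 0) (h2 : y (iJ e a b u ξ) = Nat.pair k w) :
    (k = 1 ∧ Contra u) ∨
    (k = 0 ∧ ∃ (π : Pattern) (n : ℕ) (L : List ℕ), w = encode (π, n, L) ∧ thA e π n = true ∧
      RealN π u L ∧ LtTrue o π L) ∨
    (k = 2 ∧ ∃ i s t : ℕ, w = encode (i, s, t) ∧ tabex_val o a b s ∧ tabex_val o a b t ∧
      ∀ v c, tabex_val o a b c → o (y (iK e a b u ξ v c)) < o ξ ∧
        tabex_R o e a b ((i, s, t, v, c) :: u) (y (iK e a b u ξ v c))) := by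
  rcases h.J e a b u ξ ((h.R e a b u ξ).1 h1) with ⟨w', h3, h4⟩ | ⟨π, n, L, h3, h4⟩ |
    ⟨i, s, t, h3, h4⟩
  · rw [h2, Nat.pair_eq_pair] at h3
    exact Or.inl ⟨h3.1, h4⟩
  · rw [h2, Nat.pair_eq_pair] at h3
    exact Or.inr (Or.inl ⟨h3.1, π, n, L, h3.2, h4⟩)
  · rw [h2, Nat.pair_eq_pair] at h3
    exact Or.inr (Or.inr ⟨h3.1, i, s, t, h3.2, h4⟩)

theorem tabex_avoidR (h : tabex_Spec o y) {L : List (ℕ × ℕ)} (hL : TabR L)
    (H : ∀ c ∈ L, y c.1 = c.2) : False := by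
  cases hL with
  | irrefl n =>
    simp only [List.mem_cons, List.not_mem_nil, or_false, forall_eq] at H
    exact lt_irrefl _ ((h.lt n n).1 H)
  | trans l m n v hv =>
    simp only [List.mem_cons, List.not_mem_nil, forall_eq_or_imp, or_false, forall_eq] at H
    obtain ⟨h1, h2, h3⟩ := H
    exact hv (h3 ▸ (h.lt l n).2 (((h.lt l m).1 h1).trans ((h.lt m n).1 h2)))
  | total m n v w hmn hv hw =>
    simp only [List.mem_cons, List.not_mem_nil, forall_eq_or_imp, or_false, forall_eq] at H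
    obtain ⟨h1, h2⟩ := H
    rcases lt_trichotomy (o m) (o n) with hlt | heq | hlt
    · exact hv (h1 ▸ (h.lt m n).2 hlt)
    · exact hmn (h.inj heq)
    · exact hw (h2 ▸ (h.lt n m).2 hlt)
  | badC e a b u ξ v hv hC =>
    simp only [List.mem_cons, List.not_mem_nil, or_false, forall_eq] at H
    exact hv (H ▸ (h.R e a b u ξ).2 (tabex_bad h.inj (Or.inl hC)))
  | badP e a b u ξ v hv π n L h1 h2 =>
    rw [List.forall_mem_cons] at H
    obtain ⟨h3, h4⟩ := H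
    have h3 : y (iR e a b u ξ) = v := h3
    exact hv (h3 ▸ (h.R e a b u ξ).2 (tabex_bad h.inj
      (Or.inr ⟨π, ⟨n, h1⟩, _, h2, (ltTrue_iff h.lt).2 h4⟩)))
  | j0 e a b u ξ w hw =>
    simp only [List.mem_cons, List.not_mem_nil, forall_eq_or_imp, or_false, forall_eq] at H
    obtain ⟨h1, h2⟩ := H
    rcases h.just h1 h2 with ⟨h3, _⟩ | ⟨_, π, n, L, h3, _⟩ | ⟨h3, _⟩
    · omega
    · rw [h3, encodek] at hw
      exact absurd hw (by simp)
    · omega
  | j0' e a b u ξ π n L hw =>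
    simp only [List.mem_cons, List.not_mem_nil, forall_eq_or_imp, or_false, forall_eq] at H
    obtain ⟨h1, h2⟩ := H
    rcases h.just h1 h2 with ⟨h3, _⟩ | ⟨_, π', n', L', h3, h4, h5, _⟩ | ⟨h3, _⟩
    · omega
    · have h6 := encode_injective h3
      simp only [Prod.mk.injEq] at h6
      obtain ⟨rfl, rfl, rfl⟩ := h6
      exact hw ⟨h4, h5⟩
    · omega
  | j0'' e a b u ξ π n L i v hv hi =>
    simp only [List.mem_cons, List.not_mem_nil, forall_eq_or_imp, or_false, forall_eq] at H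
    obtain ⟨h1, h2, h0⟩ := H
    rcases h.just h1 h2 with ⟨h3, _⟩ | ⟨_, π', n', L', h3, h4, h5, h6⟩ | ⟨h3, _⟩
    · omega
    · have h7 := encode_injective h3
      simp only [Prod.mk.injEq] at h7
      obtain ⟨rfl, rfl, rfl⟩ := h7
      exact hv (h0 ▸ (ltTrue_iff h.lt).1 h6 _ hi)
    · omega
  | j1 e a b u ξ w hC =>
    simp only [List.mem_cons, List.not_mem_nil, forall_eq_or_imp, or_false, forall_eq] at H
    obtain ⟨h1, h2⟩ := H
    rcases h.just h1 h2 with ⟨_, h3⟩ | ⟨h3, _⟩ | ⟨h3, _⟩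
    · exact hC h3
    · omega
    · omega
  | j2 e a b u ξ w hw =>
    simp only [List.mem_cons, List.not_mem_nil, forall_eq_or_imp, or_false, forall_eq] at H
    obtain ⟨h1, h2⟩ := H
    rcases h.just h1 h2 with ⟨h3, _⟩ | ⟨h3, _⟩ | ⟨_, i, s, t, h3, _⟩
    · omega
    · omega
    · rw [h3, encodek] at hw
      exact absurd hw (by simp)
  | j2s e a b u ξ i s t v hv =>
    simp only [List.mem_cons, List.not_mem_nil, forall_eq_or_imp, or_false, forall_eq] at H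
    obtain ⟨h1, h2, h0⟩ := H
    rcases h.just h1 h2 with ⟨h3, _⟩ | ⟨h3, _⟩ | ⟨_, i', s', t', h3, h4, h5, h6⟩
    · omega
    · omega
    · have h7 := encode_injective h3
      simp only [Prod.mk.injEq] at h7
      obtain ⟨rfl, rfl, rfl⟩ := h7
      exact hv (h0 ▸ (h.V a b s).2 h4)
  | j2t e a b u ξ i s t v hv =>
    simp only [List.mem_cons, List.not_mem_nil, forall_eq_or_imp, or_false, forall_eq] at H
    obtain ⟨h1, h2, h0⟩ := H
    rcases h.just h1 h2 with ⟨h3, _⟩ | ⟨h3, _⟩ | ⟨_, i', s', t', h3, h4, h5, h6⟩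
    · omega
    · omega
    · have h7 := encode_injective h3
      simp only [Prod.mk.injEq] at h7
      obtain ⟨rfl, rfl, rfl⟩ := h7
      exact hv (h0 ▸ (h.V a b t).2 h5)
  | j2k e a b u ξ i s t v c ξ' w hw =>
    simp only [List.mem_cons, List.not_mem_nil, forall_eq_or_imp, or_false, forall_eq] at H
    obtain ⟨h1, h2, h8, h9, h0⟩ := H
    rcases h.just h1 h2 with ⟨h3, _⟩ | ⟨h3, _⟩ | ⟨_, i', s', t', h3, h4, h5, h6⟩
    · omega
    · omega
    · have h7 := encode_injective h3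
      simp only [Prod.mk.injEq] at h7
      obtain ⟨rfl, rfl, rfl⟩ := h7
      have := (h6 v c ((h.V a b c).1 h8)).1
      rw [h9] at this
      exact hw (h0 ▸ (h.lt _ _).2 this)
  | j2r e a b u ξ i s t v c ξ' w hw =>
    simp only [List.mem_cons, List.not_mem_nil, forall_eq_or_imp, or_false, forall_eq] at H
    obtain ⟨h1, h2, h8, h9, h0⟩ := H
    rcases h.just h1 h2 with ⟨h3, _⟩ | ⟨h3, _⟩ | ⟨_, i', s', t', h3, h4, h5, h6⟩
    · omega
    · omega
    · have h7 := encode_injective h3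
      simp only [Prod.mk.injEq] at h7
      obtain ⟨rfl, rfl, rfl⟩ := h7
      have := (h6 v c ((h.V a b c).1 h8)).2
      rw [h9] at this
      exact hw (h0 ▸ (h.R _ _ _ _ _).2 this)
  | j3 e a b u ξ k w hk =>
    simp only [List.mem_cons, List.not_mem_nil, forall_eq_or_imp, or_false, forall_eq] at H
    obtain ⟨h1, h2⟩ := H
    rcases h.just h1 h2 with ⟨h3, _⟩ | ⟨h3, _⟩ | ⟨h3, _⟩ <;> omega
  | a1 e a b u ξ r i s t v c w hr hw =>
    simp only [List.mem_cons, List.not_mem_nil, forall_eq_or_imp, or_false, forall_eq] at H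
    obtain ⟨h1, h2, h3, h4, h5⟩ := H
    have hR : ¬ tabex_R o e a b u ξ := fun h' => hr (h1 ▸ (h.R _ _ _ _ _).2 h')
    obtain ⟨v', c', h6, h7, h8⟩ := h.A e a b u ξ i s t hR ((h.V _ _ _).1 h2) ((h.V _ _ _).1 h3)
    rw [h4, Nat.pair_eq_pair] at h6
    obtain ⟨rfl, rfl⟩ := h6
    exact hw (h5 ▸ (h.V _ _ _).2 h7)
  | a2 e a b u ξ r i s t v c ξ' hr =>
    simp only [List.mem_cons, List.not_mem_nil, forall_eq_or_imp, or_false, forall_eq] at H
    obtain ⟨h1, h2, h3, h4, h5, h9⟩ := H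
    have hR : ¬ tabex_R o e a b u ξ := fun h' => hr (h1 ▸ (h.R _ _ _ _ _).2 h')
    obtain ⟨v', c', h6, h7, h8⟩ := h.A e a b u ξ i s t hR ((h.V _ _ _).1 h2) ((h.V _ _ _).1 h3)
    rw [h4, Nat.pair_eq_pair] at h6
    obtain ⟨rfl, rfl⟩ := h6
    exact h8 ξ' ((h.lt _ _).1 h5) ((h.R _ _ _ _ _).1 h9)

/-- The kinds. -/
theorem tabex_Spec.k0 (h : tabex_Spec o y) {k : ℕ} (hk : y (iF k) = 0) : o k = 0 := by
  rcases h.K k with h' | h' | h' | h'
  · exact h'.2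
  · have := h'.1
    omega
  · have := h'.1
    omega
  · have := h'.1
    omega

theorem tabex_Spec.k1 (h : tabex_Spec o y) {k : ℕ} (hk : y (iF k) = 1) :
    o k = o (y (iP k)) + 1 := by
  rcases h.K k with h' | h' | h' | h'
  · have := h'.1
    omega
  · exact h'.2
  · have := h'.1
    omega
  · have := h'.1
    omega

theorem tabex_Spec.k2 (h : tabex_Spec o y) {k : ℕ} (hk : y (iF k) = 2) :
    ∃ e a b : ℕ, y (iC k) = encode (e, a, b) ∧ o a < o k ∧ o b < o k ∧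
    ∀ ξ, o ξ < o k → ∃ u : NPos, y (iU k ξ) = encode u ∧ (∀ t ∈ nelems u, tabex_val o a b t) ∧
      tabex_R o e a b u ξ ∧ ∀ ξ', o ξ' < o ξ → ¬ tabex_R o e a b u ξ' := by
  rcases h.K k with h' | h' | h' | h'
  · have := h'.1
    omega
  · have := h'.1
    omega
  · exact h'.2
  · have := h'.1
    omega

theorem tabex_Spec.k3 (h : tabex_Spec o y) {k : ℕ} (hk : y (iF k) = 3) :
    (∀ e γ, o γ < o k → ∀ u, (∀ t ∈ nelems u, tabex_val o k γ t) →
      tabex_R o e k γ u (y (iS k e γ)) → o (y (iT k e γ u)) < o (y (iS k e γ)) ∧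
        tabex_R o e k γ u (y (iT k e γ u))) ∧
    ∀ γ, o γ < o k → ∃ e γ₁ δ : ℕ, y (iN k γ) = encode (e, γ₁, δ) ∧ ¬ o γ₁ < o γ ∧ o γ₁ < o k ∧
      o δ < o k ∧ (∀ ξ, ¬ tabex_R o e k γ₁ [] ξ) ∧
      ∀ γ', o γ' < o k → ¬ o γ' < o δ → tabex_R o e k γ' [] (y (iO k γ γ')) := by
  rcases h.K k with h' | h' | h' | h'
  · have := h'.1
    omega
  · have := h'.1
    omega
  · have := h'.1
    omega
  · exact h'.2

theorem tabex_avoidF (h : tabex_Spec o y) {L : List (ℕ × ℕ)} (hL : TabF L)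
    (H : ∀ c ∈ L, y c.1 = c.2) : False := by
  cases hL with
  | f0 κ b =>
    simp only [List.mem_cons, List.not_mem_nil, forall_eq_or_imp, or_false, forall_eq] at H
    obtain ⟨h1, h2⟩ := H
    have := (h.lt _ _).1 h2
    rw [h.k0 h1] at this
    exact absurd this not_lt_zero
  | f1 κ a v hv =>
    simp only [List.mem_cons, List.not_mem_nil, forall_eq_or_imp, or_false, forall_eq] at H
    obtain ⟨h1, h2, h3⟩ := H
    have := h.k1 h1
    rw [h2] at this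
    refine hv (h3 ▸ (h.lt _ _).2 ?_)
    rw [this]
    exact lt_add_one _
  | f1' κ a b =>
    simp only [List.mem_cons, List.not_mem_nil, forall_eq_or_imp, or_false, forall_eq] at H
    obtain ⟨h1, h2, h3, h4⟩ := H
    have := h.k1 h1
    rw [h2] at this
    have h5 := (h.lt _ _).1 h3
    have h6 := (h.lt _ _).1 h4
    rw [this, Order.lt_add_one_iff] at h6
    exact absurd h5 (not_lt.2 h6)
  | f2 κ c hc =>
    simp only [List.mem_cons, List.not_mem_nil, forall_eq_or_imp, or_false, forall_eq] at H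
    obtain ⟨h1, h2⟩ := H
    obtain ⟨e, a, b, h3, _⟩ := h.k2 h1
    rw [← h2, h3, encodek] at hc
    exact absurd hc (by simp)
  | f2a κ e a b v hv =>
    simp only [List.mem_cons, List.not_mem_nil, forall_eq_or_imp, or_false, forall_eq] at H
    obtain ⟨h1, h2, h0⟩ := H
    obtain ⟨e', a', b', h3, h4, h5, h6⟩ := h.k2 h1
    have h7 := encode_injective (h2.symm.trans h3)
    simp only [Prod.mk.injEq] at h7
    obtain ⟨rfl, rfl, rfl⟩ := h7
    exact hv (h0 ▸ (h.lt _ _).2 h4)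
  | f2b κ e a b v hv =>
    simp only [List.mem_cons, List.not_mem_nil, forall_eq_or_imp, or_false, forall_eq] at H
    obtain ⟨h1, h2, h0⟩ := H
    obtain ⟨e', a', b', h3, h4, h5, h6⟩ := h.k2 h1
    have h7 := encode_injective (h2.symm.trans h3)
    simp only [Prod.mk.injEq] at h7
    obtain ⟨rfl, rfl, rfl⟩ := h7
    exact hv (h0 ▸ (h.lt _ _).2 h5)
  | f2u κ ξ w hw =>
    simp only [List.mem_cons, List.not_mem_nil, forall_eq_or_imp, or_false, forall_eq] at H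
    obtain ⟨h1, h2, h0⟩ := H
    obtain ⟨e', a', b', h3, h4, h5, h6⟩ := h.k2 h1
    obtain ⟨u, h7, _⟩ := h6 ξ ((h.lt _ _).1 h2)
    rw [← h0, h7, encodek] at hw
    exact absurd hw (by simp)
  | f2v κ e a b ξ u t v ht hv =>
    simp only [List.mem_cons, List.not_mem_nil, forall_eq_or_imp, or_false, forall_eq] at H
    obtain ⟨h1, h2, h0, h8, h9⟩ := H
    obtain ⟨e', a', b', h3, h4, h5, h6⟩ := h.k2 h1
    have h7 := encode_injective (h2.symm.trans h3)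
    simp only [Prod.mk.injEq] at h7
    obtain ⟨rfl, rfl, rfl⟩ := h7
    obtain ⟨u', h7, h10, h11, h12⟩ := h6 ξ ((h.lt _ _).1 h0)
    obtain rfl := encode_injective (h8.symm.trans h7)
    exact hv (h9 ▸ (h.V _ _ _).2 (h10 t ht))
  | f2r κ e a b ξ u v hv =>
    simp only [List.mem_cons, List.not_mem_nil, forall_eq_or_imp, or_false, forall_eq] at H
    obtain ⟨h1, h2, h0, h8, h9⟩ := H
    obtain ⟨e', a', b', h3, h4, h5, h6⟩ := h.k2 h1
    have h7 := encode_injective (h2.symm.trans h3)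
    simp only [Prod.mk.injEq] at h7
    obtain ⟨rfl, rfl, rfl⟩ := h7
    obtain ⟨u', h7, h10, h11, h12⟩ := h6 ξ ((h.lt _ _).1 h0)
    obtain rfl := encode_injective (h8.symm.trans h7)
    exact hv (h9 ▸ (h.R _ _ _ _ _).2 h11)
  | f2m κ e a b ξ u ξ' =>
    simp only [List.mem_cons, List.not_mem_nil, forall_eq_or_imp, or_false, forall_eq] at H
    obtain ⟨h1, h2, h0, h8, h9, h13⟩ := H
    obtain ⟨e', a', b', h3, h4, h5, h6⟩ := h.k2 h1
    have h7 := encode_injective (h2.symm.trans h3)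
    simp only [Prod.mk.injEq] at h7
    obtain ⟨rfl, rfl, rfl⟩ := h7
    obtain ⟨u', h7, h10, h11, h12⟩ := h6 ξ ((h.lt _ _).1 h0)
    obtain rfl := encode_injective (h8.symm.trans h7)
    exact h12 ξ' ((h.lt _ _).1 h9) ((h.R _ _ _ _ _).1 h13)
  | f4 κ f hf =>
    simp only [List.mem_cons, List.not_mem_nil, or_false, forall_eq] at H
    rcases h.K κ with h' | h' | h' | h'
    · have := h'.1
      omega
    · have := h'.1
      omega
    · have := h'.1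
      omega
    · have := h'.1
      omega

theorem tabex_Spec.valReq (h : tabex_Spec o y) {a b : ℕ} {u : NPos}
    (H : ∀ c ∈ valReq a b u, y c.1 = c.2) : ∀ t ∈ nelems u, tabex_val o a b t := by
  intro t ht
  exact (h.V a b t).1 (H _ (List.mem_map.2 ⟨t, ht, rfl⟩))

theorem tabex_avoidG (h : tabex_Spec o y) {L : List (ℕ × ℕ)} (hL : TabG L)
    (H : ∀ c ∈ L, y c.1 = c.2) : False := by
  cases hL with
  | f3s κ e γ ξ u ξ' v hv =>
    rw [List.forall_mem_append] at H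
    obtain ⟨H, Hv⟩ := H
    simp only [List.mem_cons, List.not_mem_nil, forall_eq_or_imp, or_false, forall_eq] at H
    obtain ⟨h1, h2, h3, h4, h5, h6⟩ := H
    have h7 := (h.k3 h1).1 e γ ((h.lt _ _).1 h2) u (h.valReq Hv)
      (by rw [h3]; exact (h.R _ _ _ _ _).1 h4)
    rw [h3, h5] at h7
    exact hv (h6 ▸ (h.lt _ _).2 h7.1)
  | f3r κ e γ ξ u ξ' v hv =>
    rw [List.forall_mem_append] at H
    obtain ⟨H, Hv⟩ := H
    simp only [List.mem_cons, List.not_mem_nil, forall_eq_or_imp, or_false, forall_eq] at H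
    obtain ⟨h1, h2, h3, h4, h5, h6⟩ := H
    have h7 := (h.k3 h1).1 e γ ((h.lt _ _).1 h2) u (h.valReq Hv)
      (by rw [h3]; exact (h.R _ _ _ _ _).1 h4)
    rw [h3, h5] at h7
    exact hv (h6 ▸ (h.R _ _ _ _ _).2 h7.2)
  | f3n κ γ c hc =>
    simp only [List.mem_cons, List.not_mem_nil, forall_eq_or_imp, or_false, forall_eq] at H
    obtain ⟨h1, h2, h3⟩ := H
    obtain ⟨e, γ₁, δ, h4, _⟩ := (h.k3 h1).2 γ ((h.lt _ _).1 h2)
    rw [← h3, h4, encodek] at hc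
    exact absurd hc (by simp)
  | f3a κ γ e γ₁ δ =>
    simp only [List.mem_cons, List.not_mem_nil, forall_eq_or_imp, or_false, forall_eq] at H
    obtain ⟨h1, h2, h3, h0⟩ := H
    obtain ⟨e', γ₁', δ', h4, h5, h6, h7, h8, h9⟩ := (h.k3 h1).2 γ ((h.lt _ _).1 h2)
    have h10 := encode_injective (h3.symm.trans h4)
    simp only [Prod.mk.injEq] at h10
    obtain ⟨rfl, rfl, rfl⟩ := h10
    exact h5 ((h.lt _ _).1 h0)
  | f3b κ γ e γ₁ δ v hv =>
    simp only [List.mem_cons, List.not_mem_nil, forall_eq_or_imp, or_false, forall_eq] at H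
    obtain ⟨h1, h2, h3, h0⟩ := H
    obtain ⟨e', γ₁', δ', h4, h5, h6, h7, h8, h9⟩ := (h.k3 h1).2 γ ((h.lt _ _).1 h2)
    have h10 := encode_injective (h3.symm.trans h4)
    simp only [Prod.mk.injEq] at h10
    obtain ⟨rfl, rfl, rfl⟩ := h10
    exact hv (h0 ▸ (h.lt _ _).2 h6)
  | f3c κ γ e γ₁ δ v hv =>
    simp only [List.mem_cons, List.not_mem_nil, forall_eq_or_imp, or_false, forall_eq] at H
    obtain ⟨h1, h2, h3, h0⟩ := H
    obtain ⟨e', γ₁', δ', h4, h5, h6, h7, h8, h9⟩ := (h.k3 h1).2 γ ((h.lt _ _).1 h2)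
    have h10 := encode_injective (h3.symm.trans h4)
    simp only [Prod.mk.injEq] at h10
    obtain ⟨rfl, rfl, rfl⟩ := h10
    exact hv (h0 ▸ (h.lt _ _).2 h7)
  | f3d κ γ e γ₁ δ ξ =>
    simp only [List.mem_cons, List.not_mem_nil, forall_eq_or_imp, or_false, forall_eq] at H
    obtain ⟨h1, h2, h3, h0⟩ := H
    obtain ⟨e', γ₁', δ', h4, h5, h6, h7, h8, h9⟩ := (h.k3 h1).2 γ ((h.lt _ _).1 h2)
    have h10 := encode_injective (h3.symm.trans h4)
    simp only [Prod.mk.injEq] at h10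
    obtain ⟨rfl, rfl, rfl⟩ := h10
    exact h8 ξ ((h.R _ _ _ _ _).1 h0)
  | f3e κ γ e γ₁ δ γ' w ξ v hw hv =>
    simp only [List.mem_cons, List.not_mem_nil, forall_eq_or_imp, or_false, forall_eq] at H
    obtain ⟨h1, h2, h3, h0, h11, h12, h13⟩ := H
    obtain ⟨e', γ₁', δ', h4, h5, h6, h7, h8, h9⟩ := (h.k3 h1).2 γ ((h.lt _ _).1 h2)
    have h10 := encode_injective (h3.symm.trans h4)
    simp only [Prod.mk.injEq] at h10
    obtain ⟨rfl, rfl, rfl⟩ := h10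
    have h14 := h9 γ' ((h.lt _ _).1 h0) (fun h' => hw (h11 ▸ (h.lt _ _).2 h'))
    rw [h12] at h14
    exact hv (h13 ▸ (h.R _ _ _ _ _).2 h14)

end

theorem table_exists {κ : Ordinal.{0}} (hω : ω ≤ κ) (hκ : κ < ω₁) (hc : Clos κ)
    (hs : ∀ a < κ, a + 1 < κ) (hmin : ∀ κ' < κ, ¬ Good κ') :
    ∃ (y : ℕ → ℕ) (o : ℕ → Ordinal.{0}), Avoids TabV y ∧ Names y o ∧ (∀ n, o n < κ) ∧
      ∀ ζ < κ, ∃ n, o n = ζ := by
  have _ := hs
  obtain ⟨o, ho, hlt, hsur⟩ := tabex_enum hω hκ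
  obtain ⟨y, hy⟩ := tabex_spec ho hlt hsur hc hmin
  refine ⟨y, o, ?_, ⟨ho, hy.lt, fun n ζ hζ => hsur ζ (hζ.trans (hlt n))⟩, hlt, hsur⟩
  rintro L (hL | hL | hL) H
  · exact tabex_avoidR hy hL H
  · exact tabex_avoidF hy hL H
  · exact tabex_avoidG hy hL H

end Pool.Agent.MPa662fc
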