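import Mathlib
import Pool.Agent.Lib.MP_a662fc_lc.Fam
import Pool.Agent.Lib.MP_a662fc_lc.Tab
import Pool.Agent.Lib.MP_a662fc_lc.Basic
import Pool.Agent.Lib.MP_a662fc_lc.Names

/-!
# No name of a table names a good ordinal
-/

namespace Pool.Agent.MPa662fc

open Ordinal Pool.Agent.MP752584 Encodable

theorem tabnotgood_stab_le {P : Pattern → Prop} {a b ξ : Ordinal.{0}} (h : Stab P a b ξ)
    {η : Ordinal.{0}} {u : Pos} (hu : Valid a b u) (hw : W P a b η u) :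
    ∃ ξ' < ξ, W P a b ξ' u := by
  induction hw with
  | bad hb => exact h _ hu (.bad hb)
  | ask i s t hs ht r hr hW ih =>
    refine h _ hu (W.cases_iff.2 (Or.inr ⟨i, s, hs, t, ht, fun v c hc => ?_⟩))
    refine ih v c hc ?_
    intro f hf
    rcases List.mem_cons.1 hf with rfl | hf
    · exact ⟨hs, ht, hc⟩
    · exact hu f hf

theorem tabnotgood_nm_mem {y : ℕ → ℕ} {o : ℕ → Ordinal.{0}} (ho : Names y o) (a b t : ℕ) :
    nm o t ∈ D (o a) (o b) ↔ y (iV a b t) = 0 := by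
  unfold iV nm D
  rw [ho.lt]
  rcases Nat.mod_two_eq_zero_or_one t with h | h
  · simp [h]
  · simp [h]

theorem tabnotgood_exists_nm {y : ℕ → ℕ} {o : ℕ → Ordinal.{0}} (ho : Names y o) {a b : ℕ}
    {s : DD} (hs : s ∈ D (o a) (o b)) : ∃ t, nm o t = s := by
  obtain ⟨tag, ζ⟩ := s
  cases tag with
  | false =>
    obtain ⟨m, rfl⟩ := ho.seg a ζ (hs.1 rfl)
    refine ⟨2 * m, ?_⟩
    unfold nm
    simp
  | true =>
    obtain ⟨m, rfl⟩ := ho.seg b ζ (hs.2 rfl)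
    refine ⟨2 * m + 1, ?_⟩
    unfold nm
    have h1 : (2 * m + 1) % 2 = 1 := by omega
    have h2 : (2 * m + 1) / 2 = m := by omega
    simp [h1, h2]

theorem tabnotgood_exists_trn {y : ℕ → ℕ} {o : ℕ → Ordinal.{0}} (ho : Names y o) {a b : ℕ}
    {u : Pos} (hu : Valid (o a) (o b) u) :
    ∃ u' : NPos, trn o u' = u ∧ ∀ t ∈ nelems u', y (iV a b t) = 0 := by
  induction u with
  | nil => exact ⟨[], rfl, by simp [nelems]⟩
  | cons f u ih =>
    obtain ⟨u', h1, h2⟩ := ih fun g hg => hu g (List.mem_cons_of_mem _ hg)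
    obtain ⟨hs, ht, hc⟩ := hu f List.mem_cons_self
    obtain ⟨i, s, t, v, c⟩ := f
    obtain ⟨s', rfl⟩ := tabnotgood_exists_nm ho hs
    obtain ⟨t', rfl⟩ := tabnotgood_exists_nm ho ht
    obtain ⟨c', rfl⟩ := tabnotgood_exists_nm ho hc
    refine ⟨(i, s', t', v, c') :: u', ?_, ?_⟩
    · rw [← h1]
      rfl
    · intro r hr
      simp only [nelems, List.flatMap_cons, List.mem_append, List.mem_cons, List.not_mem_nil,
        or_false] at hr
      rcases hr with (rfl | rfl | rfl) | hr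
      · exact (tabnotgood_nm_mem ho a b _).1 hs
      · exact (tabnotgood_nm_mem ho a b _).1 ht
      · exact (tabnotgood_nm_mem ho a b _).1 hc
      · exact h2 r hr

theorem tabnotgood_valid {y : ℕ → ℕ} {o : ℕ → Ordinal.{0}} (ho : Names y o) {a b : ℕ}
    {u : NPos} (hu : ∀ t ∈ nelems u, y (iV a b t) = 0) : Valid (o a) (o b) (trn o u) := by
  intro f hf
  obtain ⟨g, hg, rfl⟩ := List.mem_map.1 hf
  have key : ∀ t, t = g.2.1 ∨ t = g.2.2.1 ∨ t = g.2.2.2.2 → nm o t ∈ D (o a) (o b) := by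
    intro t ht
    refine (tabnotgood_nm_mem ho a b t).2 (hu t ?_)
    exact List.mem_flatMap.2 ⟨g, hg, by simpa using ht⟩
  exact ⟨key _ (Or.inl rfl), key _ (Or.inr (Or.inl rfl)), key _ (Or.inr (Or.inr rfl))⟩

theorem table_not_good {y : ℕ → ℕ} {o : ℕ → Ordinal.{0}} (hy : Avoids TabV y) (ho : Names y o)
    (hR : ∀ e a b u ξ, y (iR e a b u ξ) = 0 ↔ W (Th e) (o a) (o b) (o ξ) (trn o u)) (n : ℕ) :
    ¬ Good (o n) := by
  intro hg
  have hF : ∀ L, TabF L → ¬ ∀ c ∈ L, y c.1 = c.2 := fun L hL => hy L (Or.inr (Or.inl hL))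
  have hG : ∀ L, TabG L → ¬ ∀ c ∈ L, y c.1 = c.2 := fun L hL => hy L (Or.inr (Or.inr hL))
  set κ := n with hκ
  have h4 : y (iF κ) < 4 := by
    by_contra h
    exact hF _ (.f4 κ (y (iF κ)) (not_lt.1 h)) (by simp)
  have hcases : y (iF κ) = 0 ∨ y (iF κ) = 1 ∨ y (iF κ) = 2 ∨ y (iF κ) = 3 := by omega
  rcases hcases with h | h | h | h
  · -- zero
    obtain ⟨b, hb⟩ := ho.seg κ 0 hg.pos
    have h1 : y (iLT b κ) = 0 := (ho.lt b κ).2 (by rw [hb]; exact hg.pos)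
    exact hF _ (.f0 κ b) (by simp [h, h1])
  · -- successor
    have h1 : y (iLT (y (iP κ)) κ) = 0 := by
      by_contra hv
      exact hF _ (.f1 κ (y (iP κ)) _ hv) (by simp [h])
    have h2 := hg.succ _ ((ho.lt _ _).1 h1)
    obtain ⟨b, hb⟩ := ho.seg κ _ h2
    have h3 : y (iLT (y (iP κ)) b) = 0 := (ho.lt _ _).2 (by rw [hb]; exact lt_add_one _)
    have h5 : y (iLT b κ) = 0 := (ho.lt _ _).2 (by rw [hb]; exact h2)
    exact hF _ (.f1' κ (y (iP κ)) b) (by simp [h, h3, h5])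
  · -- not closed
    obtain ⟨⟨e, a, b⟩, hc⟩ : ∃ t : ℕ × ℕ × ℕ, y (iC κ) = encode t :=
      ⟨Denumerable.ofNat _ (y (iC κ)), (Denumerable.encode_ofNat _).symm⟩
    have ha : y (iLT a κ) = 0 := by
      by_contra hv
      exact hF _ (.f2a κ e a b _ hv) (by simp [h, hc])
    have hb : y (iLT b κ) = 0 := by
      by_contra hv
      exact hF _ (.f2b κ e a b _ hv) (by simp [h, hc])
    obtain ⟨ξ₀, hξ₀, hst⟩ := hg.clos e _ ((ho.lt _ _).1 ha) _ ((ho.lt _ _).1 hb)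
    obtain ⟨ξ, rfl⟩ := ho.seg κ ξ₀ hξ₀
    have hξ : y (iLT ξ κ) = 0 := (ho.lt _ _).2 hξ₀
    obtain ⟨u, hu⟩ : ∃ u : NPos, y (iU κ ξ) = encode u :=
      ⟨Denumerable.ofNat _ (y (iU κ ξ)), (Denumerable.encode_ofNat _).symm⟩
    have hval : ∀ t ∈ nelems u, y (iV a b t) = 0 := by
      intro t ht
      by_contra hv
      exact hF _ (.f2v κ e a b ξ u t _ ht hv) (by simp [h, hc, hξ, hu])
    have hr : y (iR e a b u ξ) = 0 := by
      by_contra hv
      exact hF _ (.f2r κ e a b ξ u _ hv) (by simp [h, hc, hξ, hu])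
    obtain ⟨ξ', hξ', hW⟩ := hst _ (tabnotgood_valid ho hval) ((hR _ _ _ _ _).1 hr)
    obtain ⟨m, rfl⟩ := ho.seg ξ ξ' hξ'
    have h1 : y (iLT m ξ) = 0 := (ho.lt _ _).2 hξ'
    have h2 : y (iR e a b u m) = 0 := (hR _ _ _ _ _).2 hW
    exact hF _ (.f2m κ e a b ξ u m) (by simp [h, hc, hξ, hu, h1, h2])
  · -- not bounded
    obtain ⟨γ₀, hγ₀, hb⟩ := hg.bdd
    obtain ⟨γ, rfl⟩ := ho.seg κ γ₀ hγ₀
    have hγ : y (iLT γ κ) = 0 := (ho.lt _ _).2 hγ₀
    obtain ⟨⟨e, γ₁, δ⟩, hc⟩ : ∃ t : ℕ × ℕ × ℕ, y (iN κ γ) = encode t :=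
      ⟨Denumerable.ofNat _ (y (iN κ γ)), (Denumerable.encode_ofNat _).symm⟩
    have ha : ¬ y (iLT γ₁ γ) = 0 := by
      intro hv
      exact hG _ (.f3a κ γ e γ₁ δ) (by simp [h, hγ, hc, hv])
    have hγ₁ : y (iLT γ₁ κ) = 0 := by
      by_contra hv
      exact hG _ (.f3b κ γ e γ₁ δ _ hv) (by simp [h, hγ, hc])
    have hδ : y (iLT δ κ) = 0 := by
      by_contra hv
      exact hG _ (.f3c κ γ e γ₁ δ _ hv) (by simp [h, hγ, hc])
    rcases hb e with hA | hB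
    · obtain ⟨ξ, hξ⟩ := hA (o γ₁) (not_lt.1 fun hlt => ha ((ho.lt _ _).2 hlt))
        ((ho.lt _ _).1 hγ₁)
      have hst : Stab (Th e) (o κ) (o γ₁) (o (y (iS κ e γ₁))) := by
        intro u' hu' hW
        obtain ⟨u, rfl, hu⟩ := tabnotgood_exists_trn ho hu'
        have hr : y (iR e κ γ₁ u (y (iS κ e γ₁))) = 0 := (hR _ _ _ _ _).2 hW
        have hvr : ∀ c ∈ valReq κ γ₁ u, y c.1 = c.2 := by
          intro c hc'
          obtain ⟨t, ht, rfl⟩ := List.mem_map.1 hc'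
          exact hu t ht
        have h1 : y (iLT (y (iT κ e γ₁ u)) (y (iS κ e γ₁))) = 0 := by
          by_contra hv
          refine hG _ (.f3s κ e γ₁ (y (iS κ e γ₁)) u (y (iT κ e γ₁ u)) _ hv) ?_
          intro c hc'
          rcases List.mem_append.1 hc' with hc' | hc'
          · simp only [List.mem_cons, List.not_mem_nil, or_false] at hc'
            rcases hc' with rfl | rfl | rfl | rfl | rfl | rfl <;> simp [h, hγ₁, hr]
          · exact hvr c hc'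
        have h2 : y (iR e κ γ₁ u (y (iT κ e γ₁ u))) = 0 := by
          by_contra hv
          refine hG _ (.f3r κ e γ₁ (y (iS κ e γ₁)) u (y (iT κ e γ₁ u)) _ hv) ?_
          intro c hc'
          rcases List.mem_append.1 hc' with hc' | hc'
          · simp only [List.mem_cons, List.not_mem_nil, or_false] at hc'
            rcases hc' with rfl | rfl | rfl | rfl | rfl | rfl <;> simp [h, hγ₁, hr]
          · exact hvr c hc'
        exact ⟨_, (ho.lt _ _).1 h1, (hR _ _ _ _ _).1 h2⟩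
      obtain ⟨ξ', hξ', hW⟩ := tabnotgood_stab_le hst (fun f hf => by simp at hf) hξ
      obtain ⟨m, rfl⟩ := ho.seg _ ξ' hξ'
      have h2 : y (iR e κ γ₁ [] m) = 0 := (hR _ _ _ _ _).2 hW
      exact hG _ (.f3d κ γ e γ₁ δ m) (by simp [h, hγ, hc, h2])
    · obtain ⟨γ', h1, h2, h3⟩ := hB (o δ) ((ho.lt _ _).1 hδ)
      obtain ⟨g, rfl⟩ := ho.seg κ γ' h2
      have h5 : y (iLT g κ) = 0 := (ho.lt _ _).2 h2
      have h6 : y (iLT g δ) ≠ 0 := fun hv => absurd ((ho.lt _ _).1 hv) (not_lt.2 h1)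
      have h7 : y (iR e κ g [] (y (iO κ γ g))) = 0 := by
        by_contra hv
        exact hG _ (.f3e κ γ e γ₁ δ g _ (y (iO κ γ g)) _ h6 hv) (by simp [h, hγ, hc, h5])
      exact h3 _ ((hR _ _ _ _ _).1 h7)

end Pool.Agent.MPa662fc
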