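import Mathlib
import Pool.Agent.Lib.MP_a662fc_lc.Defs
import Pool.Agent.Lib.MP_a662fc_lc.Fam
import Pool.Agent.Lib.MP_a662fc_lc.MDefs
import Pool.Agent.Lib.MP_a662fc_lc.Basic

/-!
# Simulation of a wide machine by an infinite time Turing machine

Cell `n` of the wide machine is represented by the cells `K n, …, K n + K - 1`, `K = k + 1`: the
bit of `x` is at `K n` on the input tape, the bit of the array at `K n` on the output tape, and
the mark `i` at `K n + i + 1` on the work tape. A step of the wide machine is simulated by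
`3 K + 2` steps.
-/

namespace Pool.Agent.MPa662fc

open Ordinal Pool.Agent.MP752584 Encodable

/-- There are finitely many moves. -/
@[reducible] noncomputable def wide_finMove : Fintype Move := by
  classical
  exact Fintype.ofList [Move.left, Move.right, Move.stay] (by intro x; cases x <;> simp)

theorem wide_ad_inj {K n n' i i' : ℕ} (hi : i < K) (hi' : i' < K)
    (h : K * n + i = K * n' + i') : n = n' ∧ i = i' := by
  have h1 : n = n' := by
    rcases lt_trichotomy n n' with hlt | h1 | hlt
    · have := Nat.mul_le_mul_left K (Nat.succ_le_of_lt hlt)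
      rw [Nat.mul_succ] at this
      omega
    · exact h1
    · have := Nat.mul_le_mul_left K (Nat.succ_le_of_lt hlt)
      rw [Nat.mul_succ] at this
      omega
  subst h1
  exact ⟨rfl, by omega⟩

/-- The states of the simulation: `none` is the halt state, `some none` the limit state, otherwise
a counter, the state of the wide machine, a bit of `x`, a bit of the array, marks and a move. -/
abbrev wide_St (w : WProg) : Type :=
  Option (Option (Fin (3 * w.k + 4 + 1) × w.Q × Bool × Bool × (Fin w.k → Bool) × Move))

/-- The state with counter `t`. -/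
def wide_pk (w : WProg) (t : ℕ) (q : w.Q) (xb ab : Bool) (mk : Fin w.k → Bool) (mv : Move) :
    wide_St w :=
  some (some (Fin.ofNat (3 * w.k + 4 + 1) t, q, xb, ab, mk, mv))

/-- The transition when the counter is `t`. -/
def wide_core (w : WProg) (t : ℕ) (q : w.Q) (xb ab : Bool) (mk : Fin w.k → Bool) (mv : Move)
    (b : Fin 3 → Bool) : wide_St w × (Fin 3 → Bool) × Move :=
  if t < w.k + 1 then
    (wide_pk w (t + 1) q (if t = 0 then b 0 else xb) (if t = 0 then b 2 else ab)
      (fun i => if i.val + 1 = t then b 1 else mk i) mv, b, .right)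
  else if t = w.k + 1 then
    (wide_pk w (t + 1) (w.tr q xb ab mk).1 xb (w.tr q xb ab mk).2.1 (w.tr q xb ab mk).2.2.1
      (w.tr q xb ab mk).2.2.2, b, .stay)
  else if t < 2 * w.k + 3 then
    (wide_pk w (t + 1) q xb ab mk mv, (fun j => if j = 1 then
      (if h : 2 * w.k + 2 - t < w.k then mk ⟨2 * w.k + 2 - t, h⟩ else b 1) else b j), .left)
  else if t = 2 * w.k + 3 then
    (wide_pk w (t + 1) q xb ab mk mv, (fun j => if j = 2 then ab else b j), .stay)
  else (wide_pk w (t + 1) q xb ab mk mv, b, mv)

/-- The transition table of the simulation. -/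
def wide_tr (w : WProg) : wide_St w → (Fin 3 → Bool) → wide_St w × (Fin 3 → Bool) × Move
  | none, b => (none, b, .stay)
  | some none, b =>
    if b 2 = true then (none, b, .stay)
    else wide_core w 0 w.lim false false (fun _ => false) .stay b
  | some (some s), b => wide_core w s.1.val s.2.1 s.2.2.1 s.2.2.2.1 s.2.2.2.2.1 s.2.2.2.2.2 b

/-- The simulation. -/
noncomputable def wide_prog (w : WProg) : Prog where
  Q := wide_St w
  fin := by
    haveI := w.fin
    haveI := wide_finMove
    classical
    infer_instance
  start := some none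
  lim := some none
  halt := none
  start_ne := by simp
  lim_ne := by simp
  tr := wide_tr w

/-- One step of the simulation. -/
def wide_stp (w : WProg) (c : Snap (wide_St w)) : Snap (wide_St w) where
  state := (wide_tr w c.state (fun i => c.tape i c.head)).1
  head := (wide_tr w c.state (fun i => c.tape i c.head)).2.2.app c.head
  tape := fun i n =>
    if n = c.head then (wide_tr w c.state (fun i => c.tape i c.head)).2.1 i else c.tape i n

theorem wide_prog_step (w : WProg) (S : Snap (wide_prog w).Q) :
    (wide_prog w).step S = wide_stp w S := rfl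

theorem wide_step_eq (w : WProg) (S : Snap (wide_St w)) {s' : wide_St w} {b' : Fin 3 → Bool}
    {mv : Move} (h : wide_tr w S.state (fun i => S.tape i S.head) = (s', b', mv)) :
    wide_stp w S = { state := s', head := mv.app S.head,
                     tape := fun i n => if n = S.head then b' i else S.tape i n } := by
  simp only [wide_stp, h]

theorem wide_tr_pk (w : WProg) {t : ℕ} (ht : t < 3 * w.k + 4 + 1) (q : w.Q) (xb ab : Bool)
    (mk : Fin w.k → Bool) (mv : Move) (b : Fin 3 → Bool) :
    wide_tr w (wide_pk w t q xb ab mk mv) b = wide_core w t q xb ab mk mv b := by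
  show wide_core w (Fin.ofNat (3 * w.k + 4 + 1) t).val q xb ab mk mv b = _
  have : (Fin.ofNat (3 * w.k + 4 + 1) t).val = t := by
    simp only [Fin.ofNat]
    exact Nat.mod_eq_of_lt ht
  rw [this]

theorem wide_pk_zero (w : WProg) (q : w.Q) (xb ab : Bool) (mk : Fin w.k → Bool) (mv : Move) :
    wide_pk w (3 * w.k + 4 + 1) q xb ab mk mv = wide_pk w 0 q xb ab mk mv := by
  unfold wide_pk
  have : Fin.ofNat (3 * w.k + 4 + 1) (3 * w.k + 4 + 1) = Fin.ofNat (3 * w.k + 4 + 1) 0 := by
    apply Fin.ext
    simp [Fin.ofNat]
  rw [this]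

/-- The tapes represent the array `a` and the marks `m`. -/
structure wide_T (w : WProg) (X : ℕ → Bool) (T : Fin 3 → ℕ → Bool) (a : ℕ → Bool)
    (m : ℕ → Fin w.k → Bool) : Prop where
  x0 : T 0 = X
  arr : ∀ n, T 2 ((w.k + 1) * n) = a n
  mark : ∀ n (i : Fin w.k), T 1 ((w.k + 1) * n + (i.val + 1)) = m n i

theorem wide_tape_same {T : Fin 3 → ℕ → Bool} {h : ℕ} :
    (fun (i : Fin 3) (n : ℕ) => if n = h then T i h else T i n) = T := by
  funext i n
  by_cases hn : n = h
  · subst hn; simp
  · simp [hn]

/-- The snapshot `S` is reached after `t` steps of the simulation of the step from `W`. -/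
inductive wide_Inv (w : WProg) (X : ℕ → Bool) (W : WSnap w.k w.Q) :
    ℕ → Snap (wide_St w) → Prop
  | rd {t : ℕ} {S : Snap (wide_St w)} {xb ab : Bool} {mk : Fin w.k → Bool} {mv : Move}
      (ht : t ≤ w.k + 1) (hs : S.state = wide_pk w t W.state xb ab mk mv)
      (hb : 0 < t → xb = X ((w.k + 1) * W.head) ∧ ab = W.arr W.head)
      (hm : ∀ i : Fin w.k, i.val + 1 < t → mk i = W.mark W.head i)
      (hh : S.head = (w.k + 1) * W.head + t)
      (hT : wide_T w X S.tape W.arr W.mark) : wide_Inv w X W t S
  | wr {t : ℕ} {S : Snap (wide_St w)} {xb : Bool}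
      (ht : w.k + 2 ≤ t) (ht' : t ≤ 2 * w.k + 3)
      (hs : S.state = wide_pk w t (w.step (fun n => X ((w.k + 1) * n)) W).state xb
        (w.tr W.state (X ((w.k + 1) * W.head)) (W.arr W.head) (W.mark W.head)).2.1
        (w.tr W.state (X ((w.k + 1) * W.head)) (W.arr W.head) (W.mark W.head)).2.2.1
        (w.tr W.state (X ((w.k + 1) * W.head)) (W.arr W.head) (W.mark W.head)).2.2.2)
      (hh : S.head = (w.k + 1) * W.head + (2 * w.k + 3 - t))
      (hT : wide_T w X S.tape W.arr (fun n i => if n = W.head ∧ 2 * w.k + 2 < i.val + t then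
        (w.tr W.state (X ((w.k + 1) * W.head)) (W.arr W.head) (W.mark W.head)).2.2.1 i
        else W.mark n i)) : wide_Inv w X W t S
  | go {t : ℕ} {S : Snap (wide_St w)} {xb ab : Bool} {mk : Fin w.k → Bool}
      (ht : 2 * w.k + 4 ≤ t) (ht' : t ≤ 3 * w.k + 5)
      (hs : S.state = wide_pk w t (w.step (fun n => X ((w.k + 1) * n)) W).state xb ab mk
        (w.tr W.state (X ((w.k + 1) * W.head)) (W.arr W.head) (W.mark W.head)).2.2.2)
      (hh : S.head = (w.tr W.state (X ((w.k + 1) * W.head)) (W.arr W.head)
        (W.mark W.head)).2.2.2.app^[t - (2 * w.k + 4)] ((w.k + 1) * W.head))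
      (hT : wide_T w X S.tape (w.step (fun n => X ((w.k + 1) * n)) W).arr
        (w.step (fun n => X ((w.k + 1) * n)) W).mark) : wide_Inv w X W t S

/-- One step of the simulation. -/
theorem wide_inv_step (w : WProg) (X : ℕ → Bool) (W : WSnap w.k w.Q) {t : ℕ}
    {S : Snap (wide_St w)} (ht : t < 3 * w.k + 5) (h : wide_Inv w X W t S) :
    wide_Inv w X W (t + 1) (wide_stp w S) := by
  cases h with
  | @rd xb ab mk mv ht1 hs hb hm hh hT =>
    rcases Nat.lt_or_ge t (w.k + 1) with h1 | h1
    · have e := wide_step_eq w S
        (by rw [hs, wide_tr_pk w ht, wide_core, if_pos h1])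
      rw [wide_tape_same] at e
      rw [e]
      refine .rd h1 rfl ?_ ?_ ?_ hT
      · intro _
        by_cases h0 : t = 0
        · subst h0
          simp only [if_true, hh, hT.x0, add_zero, hT.arr, and_self]
        · simp only [h0, if_false]
          exact hb (Nat.pos_of_ne_zero h0)
      · intro i hi
        by_cases hi' : i.val + 1 = t
        · simp only [hi', if_true]
          rw [hh, ← hi', hT.mark]
        · simp only [hi', if_false]
          exact hm i (by omega)
      · show S.head + 1 = _
        omega
    · have h2 : t = w.k + 1 := by omega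
      subst h2
      have e := wide_step_eq w S
        (by rw [hs, wide_tr_pk w ht, wide_core, if_neg (lt_irrefl _), if_pos rfl])
      rw [wide_tape_same] at e
      rw [e]
      have hb' := hb (Nat.succ_pos _)
      have hm' : mk = W.mark W.head := by
        funext i
        exact hm i (by have := i.isLt; omega)
      rw [hb'.1, hb'.2, hm']
      refine .wr (by omega) (by omega) rfl ?_ ?_
      · show S.head = _
        omega
      · refine ⟨hT.x0, hT.arr, fun n i => ?_⟩
        rw [if_neg (by have := i.isLt; omega)]
        exact hT.mark n i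
  | @wr xb ht1 ht2 hs hh hT =>
    rcases Nat.lt_or_ge t (2 * w.k + 3) with h1 | h1
    · have e := wide_step_eq w S
        (by rw [hs, wide_tr_pk w ht, wide_core, if_neg (by omega), if_neg (by omega), if_pos h1])
      rw [e]
      refine .wr (by omega) (by omega) rfl ?_ ?_
      · show S.head - 1 = _
        omega
      · refine ⟨?_, fun n => ?_, fun n i => ?_⟩
        · rw [← hT.x0]
          funext n
          by_cases hn : n = S.head
          · subst hn; simp
          · simp [hn]
        · rw [← hT.arr n]
          by_cases hn : (w.k + 1) * n = S.head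
          · simp [hn]
          · simp [hn]
        · have hi := i.isLt
          show (if (w.k + 1) * n + (i.val + 1) = S.head then (if (1 : Fin 3) = 1 then
            (if h : 2 * w.k + 2 - t < w.k then _ else S.tape 1 S.head) else S.tape 1 S.head)
            else S.tape 1 ((w.k + 1) * n + (i.val + 1))) = _
          by_cases hn : (w.k + 1) * n + (i.val + 1) = S.head
          · rw [hh] at hn
            rcases Nat.lt_or_ge (w.k + 2) t with h3 | h3
            · obtain ⟨h4, h5⟩ := wide_ad_inj (by omega) (by omega) hn
              subst h4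
              have h6 : 2 * w.k + 2 - t = i.val := by omega
              have h7 : 2 * w.k + 2 - t < w.k := by omega
              have h8 : (⟨2 * w.k + 2 - t, h7⟩ : Fin w.k) = i := Fin.ext h6
              rw [if_pos (by rw [hh, h5]), if_pos rfl, dif_pos h7, if_pos ⟨rfl, by omega⟩, h8]
            · exfalso
              have h3' : t = w.k + 2 := by omega
              have h9 : (w.k + 1) * W.head + (2 * w.k + 3 - t) = (w.k + 1) * (W.head + 1) + 0 := by
                rw [Nat.mul_succ]; omega
              rw [h9] at hn
              obtain ⟨-, h5⟩ := wide_ad_inj (by omega) (by omega) hn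
              omega
          · rw [if_neg hn, hT.mark n i]
            by_cases hw : n = W.head
            · subst hw
              by_cases h3 : 2 * w.k + 2 < i.val + t
              · rw [if_pos ⟨rfl, h3⟩, if_pos ⟨rfl, by omega⟩]
              · have h4 : ¬ 2 * w.k + 2 < i.val + (t + 1) := by
                  intro h5
                  apply hn
                  rw [hh]
                  omega
                rw [if_neg (fun h => h3 h.2), if_neg (fun h => h4 h.2)]
            · rw [if_neg (fun h => hw h.1), if_neg (fun h => hw h.1)]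
    · have h2 : t = 2 * w.k + 3 := by omega
      subst h2
      have e := wide_step_eq w S
        (by rw [hs, wide_tr_pk w ht, wide_core, if_neg (by omega), if_neg (by omega),
              if_neg (by omega), if_pos rfl])
      rw [e]
      refine .go (by omega) (by omega) rfl ?_ ?_
      · show S.head = _
        rw [hh, show 2 * w.k + 3 + 1 - (2 * w.k + 4) = 0 by omega, Function.iterate_zero, id]
        omega
      · refine ⟨?_, fun n => ?_, fun n i => ?_⟩
        · rw [← hT.x0]
          funext n
          by_cases hn : n = S.head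
          · subst hn; simp
          · simp [hn]
        · show (if (w.k + 1) * n = S.head then _ else S.tape 2 ((w.k + 1) * n)) =
            if n = W.head then _ else W.arr n
          by_cases hn : n = W.head
          · rw [if_pos hn, if_pos (by rw [hh, hn]; omega)]
            simp
          · rw [if_neg hn, if_neg, hT.arr]
            intro h3
            rw [hh] at h3
            obtain ⟨h4, -⟩ := wide_ad_inj (n := n) (n' := W.head) (i := 0) (i' := 0)
              (K := w.k + 1) (by omega) (by omega) (by omega)
            exact hn h4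
        · show (if (w.k + 1) * n + (i.val + 1) = S.head then _
            else S.tape 1 ((w.k + 1) * n + (i.val + 1))) = (if n = W.head then _ else W.mark n) i
          have hi := i.isLt
          have h3 : (w.k + 1) * n + (i.val + 1) ≠ S.head := by
            intro h4
            rw [hh] at h4
            obtain ⟨-, h5⟩ := wide_ad_inj (n := n) (n' := W.head) (i := i.val + 1) (i' := 0)
              (K := w.k + 1) (by omega) (by omega) (by omega)
            omega
          rw [if_neg h3, hT.mark]
          by_cases hn : n = W.head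
          · rw [if_pos hn, if_pos ⟨hn, by omega⟩]
          · rw [if_neg hn, if_neg (fun h => hn h.1)]
  | @go xb ab mk ht1 ht2 hs hh hT =>
    have e := wide_step_eq w S
      (by rw [hs, wide_tr_pk w ht, wide_core, if_neg (by omega), if_neg (by omega),
            if_neg (by omega), if_neg (by omega)])
    rw [wide_tape_same] at e
    rw [e]
    refine .go (by omega) (by omega) rfl ?_ hT
    show Move.app _ S.head = _
    rw [hh, show t + 1 - (2 * w.k + 4) = (t - (2 * w.k + 4)) + 1 by omega,
      Function.iterate_succ_apply']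

theorem wide_app_iter (mv : Move) (K n : ℕ) : mv.app^[K] (K * n) = K * mv.app n := by
  have h : ∀ j m : ℕ, (Move.left.app^[j] m = m - j) ∧ (Move.right.app^[j] m = m + j) ∧
      (Move.stay.app^[j] m = m) := by
    intro j
    induction j with
    | zero => intro m; simp
    | succ j ih =>
      intro m
      obtain ⟨h1, h2, h3⟩ := ih m
      rw [Function.iterate_succ_apply', Function.iterate_succ_apply',
        Function.iterate_succ_apply', h1, h2, h3]
      refine ⟨?_, ?_, ?_⟩
      · show m - j - 1 = _
        omega
      · show m + j + 1 = _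
        omega
      · rfl
  cases mv with
  | left =>
    rw [(h _ _).1]
    show _ = K * (n - 1)
    rw [Nat.mul_sub, mul_one]
  | right =>
    rw [(h _ _).2.1]
    show _ = K * (n + 1)
    rw [Nat.mul_succ]
  | stay =>
    rw [(h _ _).2.2]
    rfl

/-- After `3 K + 2` steps one step of the wide machine has been simulated. -/
theorem wide_inv_next (w : WProg) (X : ℕ → Bool) (W : WSnap w.k w.Q)
    {S : Snap (wide_St w)} (h : wide_Inv w X W (3 * w.k + 5) S) :
    wide_Inv w X (w.step (fun n => X ((w.k + 1) * n)) W) 0 S := by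
  cases h with
  | rd ht1 hs hb hm hh hT => omega
  | wr ht1 ht2 hs hh hT => omega
  | @go xb ab mk ht1 ht2 hs hh hT =>
    refine .rd (by omega) (hs.trans (wide_pk_zero w _ _ _ _ _))
      (fun h => absurd h (lt_irrefl _)) (fun i hi => absurd hi (by omega)) ?_ hT
    · rw [hh, show 3 * w.k + 5 - (2 * w.k + 4) = w.k + 1 by omega, wide_app_iter]
      rfl

/-- At every stage of the simulation each cell has the old value or the new one. -/
theorem wide_inv_tape (w : WProg) (X : ℕ → Bool) (W : WSnap w.k w.Q) {t : ℕ}
    {S : Snap (wide_St w)} (h : wide_Inv w X W t S) :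
    S.tape 0 = X ∧
    (∀ n, S.tape 2 ((w.k + 1) * n) = W.arr n ∨
      S.tape 2 ((w.k + 1) * n) = (w.step (fun n => X ((w.k + 1) * n)) W).arr n) ∧
    (∀ n (i : Fin w.k), S.tape 1 ((w.k + 1) * n + (i.val + 1)) = W.mark n i ∨
      S.tape 1 ((w.k + 1) * n + (i.val + 1)) =
        (w.step (fun n => X ((w.k + 1) * n)) W).mark n i) ∧
    S.state ≠ none := by
  cases h with
  | rd ht1 hs hb hm hh hT =>
    refine ⟨hT.x0, fun n => Or.inl (hT.arr n), fun n i => Or.inl (hT.mark n i), ?_⟩
    rw [hs]
    simp [wide_pk]
  | wr ht1 ht2 hs hh hT =>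
    refine ⟨hT.x0, fun n => Or.inl (hT.arr n), fun n i => ?_, ?_⟩
    · rw [hT.mark n i]
      by_cases hn : n = W.head ∧ 2 * w.k + 2 < i.val + t
      · right
        rw [if_pos hn]
        show _ = (if n = W.head then _ else W.mark n) i
        rw [if_pos hn.1]
      · left
        rw [if_neg hn]
    · rw [hs]
      simp [wide_pk]
  | go ht1 ht2 hs hh hT =>
    refine ⟨hT.x0, fun n => Or.inr (hT.arr n), fun n i => Or.inr (hT.mark n i), ?_⟩
    rw [hs]
    simp [wide_pk]

theorem wide_inv_zero_tape (w : WProg) (X : ℕ → Bool) (W : WSnap w.k w.Q)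
    {S : Snap (wide_St w)} (h : wide_Inv w X W 0 S) : wide_T w X S.tape W.arr W.mark := by
  cases h with
  | rd ht1 hs hb hm hh hT => exact hT
  | wr ht1 ht2 hs hh hT => omega
  | go ht1 ht2 hs hh hT => omega

/-- What is true at the beginning of a block. -/
structure wide_Start (w : WProg) (x : ℕ → Bool) (α : Ordinal.{0}) : Prop where
  state : ((wide_prog w).run x (ω * α)).state = some none
  head : ((wide_prog w).run x (ω * α)).head = 0
  tape : wide_T w x ((wide_prog w).run x (ω * α)).tape
    (w.run (fun n => x ((w.k + 1) * n)) (ω * α)).arr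
    (w.run (fun n => x ((w.k + 1) * n)) (ω * α)).mark

theorem wide_run_state (w : WProg) (x : ℕ → Bool) (α : Ordinal.{0}) :
    (w.run x (ω * α)).state = w.lim ∧ (w.run x (ω * α)).head = 0 := by
  rcases eq_or_ne α 0 with rfl | h
  · rw [mul_zero, WProg.run_zero]
    exact ⟨rfl, rfl⟩
  · obtain ⟨h1, h2, -⟩ := w.run_block_limit x (pos_iff_ne_zero.2 h)
    exact ⟨h1, h2⟩

/-- The first step after a snapshot in the limit state without flag. -/
theorem wide_first_aux (w : WProg) (X : ℕ → Bool) (W : WSnap w.k w.Q) (S : Snap (wide_St w))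
    (hs : S.state = some none) (hh : S.head = 0) (hT : wide_T w X S.tape W.arr W.mark)
    (hq : W.state = w.lim) (hh' : W.head = 0) (hf : W.arr 0 = false) :
    wide_Inv w X W 1 (wide_stp w S) := by
  have h2 : wide_Inv w X W 0
      { state := wide_pk w 0 W.state false false (fun _ => false) .stay
        head := S.head
        tape := S.tape } := by
    refine .rd (by omega) rfl (fun h => absurd h (lt_irrefl _))
      (fun i hi => absurd hi (by omega)) ?_ hT
    show S.head = _
    rw [hh, hh']
    rfl
  have h3 := wide_inv_step w X W (by omega) h2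
  have hb : (fun i => S.tape i S.head) (2 : Fin 3) ≠ true := by
    have := hT.arr 0
    rw [Nat.mul_zero, hf] at this
    show S.tape 2 S.head ≠ true
    rw [hh, this]
    simp
  have e1 : wide_tr w S.state (fun i => S.tape i S.head) =
      wide_core w 0 w.lim false false (fun _ => false) .stay (fun i => S.tape i S.head) := by
    rw [hs, wide_tr, if_neg hb]
  have e2 : wide_tr w (wide_pk w 0 W.state false false (fun _ => false) .stay)
      (fun i => S.tape i S.head) =
      wide_core w 0 w.lim false false (fun _ => false) .stay (fun i => S.tape i S.head) := by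
    rw [hq]
    exact wide_tr_pk w (by omega) _ _ _ _ _ _
  have h4 : wide_stp w S = wide_stp w
      { state := wide_pk w 0 W.state false false (fun _ => false) .stay
        head := S.head
        tape := S.tape } := by
    simp only [wide_stp, e1, e2]
  rw [h4]
  exact h3

/-- The first step of a block. -/
theorem wide_first (w : WProg) (x : ℕ → Bool) (α : Ordinal.{0}) (h : wide_Start w x α)
    (hf : (w.run (fun n => x ((w.k + 1) * n)) (ω * α)).arr 0 = false) :
    wide_Inv w x (w.run (fun n => x ((w.k + 1) * n)) (ω * α)) 1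
      ((wide_prog w).run x (ω * α + ((1 : ℕ) : Ordinal.{0}))) := by
  have h1 := (wide_prog w).run_block_succ x α 0
  rw [Nat.cast_zero, add_zero, zero_add] at h1
  rw [h1]
  obtain ⟨hq, hh⟩ := wide_run_state w (fun n => x ((w.k + 1) * n)) α
  exact wide_first_aux w x _ _ h.state h.head h.tape hq hh hf

/-- The simulation inside a block. -/
theorem wide_block (w : WProg) (x : ℕ → Bool) (α : Ordinal.{0}) (h : wide_Start w x α)
    (hf : (w.run (fun n => x ((w.k + 1) * n)) (ω * α)).arr 0 = false) (m j : ℕ)
    (hj : j ≤ 3 * w.k + 5) (hmj : 0 < m ∨ 0 < j) :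
    wide_Inv w x (w.run (fun n => x ((w.k + 1) * n)) (ω * α + m)) j
      ((wide_prog w).run x (ω * α + (((3 * w.k + 5) * m + j : ℕ) : Ordinal.{0}))) := by
  -- inside a step
  have key : ∀ m : ℕ, ∀ j₀ : ℕ,
      wide_Inv w x (w.run (fun n => x ((w.k + 1) * n)) (ω * α + m)) j₀
        ((wide_prog w).run x (ω * α + (((3 * w.k + 5) * m + j₀ : ℕ) : Ordinal.{0}))) →
      ∀ i, j₀ + i ≤ 3 * w.k + 5 →
      wide_Inv w x (w.run (fun n => x ((w.k + 1) * n)) (ω * α + m)) (j₀ + i)
        ((wide_prog w).run x (ω * α + (((3 * w.k + 5) * m + (j₀ + i) : ℕ) : Ordinal.{0}))) := by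
    intro m j₀ h0 i
    induction i with
    | zero => intro _; exact h0
    | succ i ih =>
      intro hi
      have h1 := wide_inv_step w x _ (by omega) (ih (by omega))
      rw [← wide_prog_step, ← Prog.run_block_succ] at h1
      exact h1
  have hfirst : wide_Inv w x (w.run (fun n => x ((w.k + 1) * n)) (ω * α + (0 : ℕ))) 1
      ((wide_prog w).run x (ω * α + (((3 * w.k + 5) * 0 + 1 : ℕ) : Ordinal.{0}))) := by
    rw [Nat.cast_zero, add_zero, Nat.mul_zero, zero_add]
    exact wide_first w x α h hf
  have h0 : ∀ m : ℕ, wide_Inv w x (w.run (fun n => x ((w.k + 1) * n)) (ω * α + (m + 1 : ℕ))) 0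
        ((wide_prog w).run x (ω * α + (((3 * w.k + 5) * (m + 1) + 0 : ℕ) : Ordinal.{0}))) := by
    have last : ∀ m : ℕ, wide_Inv w x (w.run (fun n => x ((w.k + 1) * n)) (ω * α + m)) (3 * w.k + 5)
        ((wide_prog w).run x (ω * α + (((3 * w.k + 5) * m + (3 * w.k + 5) : ℕ) : Ordinal.{0}))) →
        wide_Inv w x (w.run (fun n => x ((w.k + 1) * n)) (ω * α + (m + 1 : ℕ))) 0
        ((wide_prog w).run x (ω * α + (((3 * w.k + 5) * (m + 1) + 0 : ℕ) : Ordinal.{0}))) := by
      intro m h1
      have h2 := wide_inv_next w x _ h1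
      rw [← WProg.run_block_succ] at h2
      rw [add_zero, Nat.mul_succ]
      exact h2
    intro m
    induction m with
    | zero =>
      apply last
      have := key 0 1 hfirst (3 * w.k + 4) (by omega)
      rw [show 1 + (3 * w.k + 4) = 3 * w.k + 5 by omega] at this
      exact this
    | succ m ih =>
      apply last
      have := key (m + 1) 0 (by exact_mod_cast ih) (3 * w.k + 5) (by omega)
      rw [zero_add] at this
      exact this
  rcases m with _ | m
  · have hj0 : 0 < j := by omega
    have := key 0 1 hfirst (j - 1) (by omega)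
    rw [show 1 + (j - 1) = j by omega] at this
    exact this
  · have := key (m + 1) 0 (by exact_mod_cast h0 m) j (by omega)
    rw [zero_add] at this
    exact this

/-- The relevant facts about all stages of a block. -/
theorem wide_block_tape (w : WProg) (x : ℕ → Bool) (α : Ordinal.{0}) (h : wide_Start w x α)
    (hf : (w.run (fun n => x ((w.k + 1) * n)) (ω * α)).arr 0 = false) (m : ℕ) :
    (wide_T w x ((wide_prog w).run x (ω * α + (((3 * w.k + 5) * m : ℕ) : Ordinal.{0}))).tape
      (w.run (fun n => x ((w.k + 1) * n)) (ω * α + m)).arr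
      (w.run (fun n => x ((w.k + 1) * n)) (ω * α + m)).mark) ∧
    ∀ j ≤ 3 * w.k + 5,
      ((wide_prog w).run x (ω * α + (((3 * w.k + 5) * m + j : ℕ) : Ordinal.{0}))).tape 0 = x ∧
      (∀ n, ((wide_prog w).run x
          (ω * α + (((3 * w.k + 5) * m + j : ℕ) : Ordinal.{0}))).tape 2 ((w.k + 1) * n) =
          (w.run (fun n => x ((w.k + 1) * n)) (ω * α + m)).arr n ∨
        ((wide_prog w).run x
          (ω * α + (((3 * w.k + 5) * m + j : ℕ) : Ordinal.{0}))).tape 2 ((w.k + 1) * n) =
          (w.run (fun n => x ((w.k + 1) * n)) (ω * α + ((m + 1 : ℕ) : Ordinal.{0}))).arr n) ∧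
      (∀ n (i : Fin w.k), ((wide_prog w).run x
          (ω * α + (((3 * w.k + 5) * m + j : ℕ) : Ordinal.{0}))).tape 1
            ((w.k + 1) * n + (i.val + 1)) =
          (w.run (fun n => x ((w.k + 1) * n)) (ω * α + m)).mark n i ∨
        ((wide_prog w).run x
          (ω * α + (((3 * w.k + 5) * m + j : ℕ) : Ordinal.{0}))).tape 1
            ((w.k + 1) * n + (i.val + 1)) =
          (w.run (fun n => x ((w.k + 1) * n)) (ω * α + ((m + 1 : ℕ) : Ordinal.{0}))).mark n i) ∧
      ((wide_prog w).run x
        (ω * α + (((3 * w.k + 5) * m + j : ℕ) : Ordinal.{0}))).state ≠ (wide_prog w).halt := by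
  have h0 : wide_T w x
      ((wide_prog w).run x (ω * α + (((3 * w.k + 5) * m : ℕ) : Ordinal.{0}))).tape
      (w.run (fun n => x ((w.k + 1) * n)) (ω * α + m)).arr
      (w.run (fun n => x ((w.k + 1) * n)) (ω * α + m)).mark := by
    rcases m with _ | m
    · rw [Nat.mul_zero, Nat.cast_zero, add_zero]
      exact h.tape
    · exact wide_inv_zero_tape w x _ (wide_block w x α h hf (m + 1) 0 (by omega) (by omega))
  refine ⟨h0, fun j hj => ?_⟩
  by_cases hmj : 0 < m ∨ 0 < j
  · have h1 := wide_inv_tape w x _ (wide_block w x α h hf m j hj hmj)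
    rw [← WProg.run_block_succ] at h1
    exact h1
  · have hm0 : m = 0 := by omega
    have hj0 : j = 0 := by omega
    subst hm0 hj0
    refine ⟨h0.x0, fun n => Or.inl (h0.arr n), fun n i => Or.inl (h0.mark n i), ?_⟩
    rw [add_zero, Nat.mul_zero, Nat.cast_zero, add_zero, h.state]
    exact (wide_prog w).lim_ne

/-- At the beginning of every block before the first flag the machines agree. -/
theorem wide_start (w : WProg) (x : ℕ → Bool) (α : Ordinal.{0})
    (hf : ∀ β < α, (w.run (fun n => x ((w.k + 1) * n)) (ω * β)).arr 0 = false) :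
    wide_Start w x α := by
  induction α using WellFoundedLT.induction with
  | ind α ih =>
    rcases eq_or_ne α 0 with rfl | hα
    · refine ⟨?_, ?_, ?_⟩
      · rw [mul_zero, Prog.run_zero]; rfl
      · rw [mul_zero, Prog.run_zero]; rfl
      · rw [mul_zero, Prog.run_zero, WProg.run_zero]
        refine ⟨?_, fun n => ?_, fun n i => ?_⟩
        · funext n; rfl
        · rfl
        · rfl
    · have hpos : 0 < α := pos_iff_ne_zero.2 hα
      have hst : ∀ β < α, wide_Start w x β := fun β hβ =>
        ih β hβ (fun γ hγ => hf γ (hγ.trans hβ))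
      obtain ⟨h1, h2, h3⟩ := (wide_prog w).run_block_limit x hpos
      obtain ⟨-, -, h4, h5⟩ := w.run_block_limit (fun n => x ((w.k + 1) * n)) hpos
      refine ⟨h1, h2, ?_, fun n => ?_, fun n i => ?_⟩
      · funext n
        rw [Bool.eq_iff_iff, h3]
        constructor
        · rintro ⟨β, hβ, m, H⟩
          have := H β hβ ((3 * w.k + 5) * m + 0)
            (Or.inr ⟨rfl, by rw [add_zero]; exact Nat.le_mul_of_pos_left m (by omega)⟩)
          rw [((wide_block_tape w x β (hst β hβ) (hf β hβ) m).2 0 (by omega)).1] at this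
          exact this
        · intro hx
          refine ⟨0, hpos, 0, fun β' hβ' m' _ => ?_⟩
          have h6 : (3 * w.k + 5) * (m' / (3 * w.k + 5)) + m' % (3 * w.k + 5) = m' :=
            Nat.div_add_mod _ _
          have h7 := (wide_block_tape w x β' (hst β' hβ') (hf β' hβ') (m' / (3 * w.k + 5))).2
            (m' % (3 * w.k + 5)) (Nat.mod_lt _ (by omega)).le
          rw [h6] at h7
          rw [h7.1]
          exact hx
      · rw [Bool.eq_iff_iff, h3, h4]
        constructor
        · rintro ⟨β, hβ, m, H⟩
          refine ⟨β, hβ, m, fun β' hβ' m' hle => ?_⟩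
          rw [← ((wide_block_tape w x β' (hst β' hβ') (hf β' hβ') m').1).arr n]
          refine H β' hβ' _ ?_
          rcases hle with h | ⟨h, h'⟩
          · exact Or.inl h
          · exact Or.inr ⟨h, h'.trans (Nat.le_mul_of_pos_left m' (by omega))⟩
        · rintro ⟨β, hβ, m, H⟩
          refine ⟨β, hβ, (3 * w.k + 5) * m, fun β' hβ' m' hle => ?_⟩
          have h6 : (3 * w.k + 5) * (m' / (3 * w.k + 5)) + m' % (3 * w.k + 5) = m' :=
            Nat.div_add_mod _ _
          have h7 := (wide_block_tape w x β' (hst β' hβ') (hf β' hβ') (m' / (3 * w.k + 5))).2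
            (m' % (3 * w.k + 5)) (Nat.mod_lt _ (by omega)).le
          rw [h6] at h7
          have h8 : β < β' ∨ (β = β' ∧ m ≤ m' / (3 * w.k + 5)) := by
            rcases hle with h | ⟨h, h'⟩
            · exact Or.inl h
            · refine Or.inr ⟨h, ?_⟩
              rw [Nat.le_div_iff_mul_le (by omega), mul_comm]
              exact h'
          rcases h7.2.1 n with h9 | h9
          · rw [h9]
            exact H β' hβ' _ h8
          · rw [h9]
            refine H β' hβ' _ ?_
            rcases h8 with h | ⟨h, h'⟩
            · exact Or.inl h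
            · exact Or.inr ⟨h, h'.trans (Nat.le_succ _)⟩
      · rw [Bool.eq_iff_iff, h3, h5]
        constructor
        · rintro ⟨β, hβ, m, H⟩
          refine ⟨β, hβ, m, fun β' hβ' m' hle => ?_⟩
          rw [← ((wide_block_tape w x β' (hst β' hβ') (hf β' hβ') m').1).mark n i]
          refine H β' hβ' _ ?_
          rcases hle with h | ⟨h, h'⟩
          · exact Or.inl h
          · exact Or.inr ⟨h, h'.trans (Nat.le_mul_of_pos_left m' (by omega))⟩
        · rintro ⟨β, hβ, m, H⟩
          refine ⟨β, hβ, (3 * w.k + 5) * m, fun β' hβ' m' hle => ?_⟩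
          have h6 : (3 * w.k + 5) * (m' / (3 * w.k + 5)) + m' % (3 * w.k + 5) = m' :=
            Nat.div_add_mod _ _
          have h7 := (wide_block_tape w x β' (hst β' hβ') (hf β' hβ') (m' / (3 * w.k + 5))).2
            (m' % (3 * w.k + 5)) (Nat.mod_lt _ (by omega)).le
          rw [h6] at h7
          have h8 : β < β' ∨ (β = β' ∧ m ≤ m' / (3 * w.k + 5)) := by
            rcases hle with h | ⟨h, h'⟩
            · exact Or.inl h
            · refine Or.inr ⟨h, ?_⟩
              rw [Nat.le_div_iff_mul_le (by omega), mul_comm]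
              exact h'
          rcases h7.2.2.1 n i with h9 | h9
          · rw [h9]
            exact H β' hβ' _ h8
          · rw [h9]
            refine H β' hβ' _ ?_
            rcases h8 with h | ⟨h, h'⟩
            · exact Or.inl h
            · exact Or.inr ⟨h, h'.trans (Nat.le_succ _)⟩

/-- No halting in a block without flag. -/
theorem wide_no_halt (w : WProg) (x : ℕ → Bool) (α : Ordinal.{0})
    (hf : ∀ β ≤ α, (w.run (fun n => x ((w.k + 1) * n)) (ω * β)).arr 0 = false) (m : ℕ) :
    ((wide_prog w).run x (ω * α + m)).state ≠ (wide_prog w).halt := by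
  have h6 : (3 * w.k + 5) * (m / (3 * w.k + 5)) + m % (3 * w.k + 5) = m := Nat.div_add_mod _ _
  have h7 := (wide_block_tape w x α (wide_start w x α (fun β hβ => hf β hβ.le)) (hf α le_rfl)
    (m / (3 * w.k + 5))).2 (m % (3 * w.k + 5)) (Nat.mod_lt _ (by omega)).le
  rw [h6] at h7
  exact h7.2.2.2

theorem wide_halts (w : WProg) (x : ℕ → Bool) (α : Ordinal.{0})
    (h1 : (w.run (fun n => x ((w.k + 1) * n)) (ω * α)).arr 0 = true)
    (hf : ∀ β < α, (w.run (fun n => x ((w.k + 1) * n)) (ω * β)).arr 0 = false) :
    (wide_prog w).HaltsAt x (ω * α) := by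
  have hs := wide_start w x α hf
  refine ⟨fun δ hδ => ?_, ?_⟩
  · rcases hδ.lt_or_eq with hlt | rfl
    · obtain ⟨β, m, hβ, rfl⟩ := lt_omega_mul hlt
      exact wide_no_halt w x β (fun γ hγ => hf γ (hγ.trans_lt hβ)) m
    · rw [hs.state]
      exact (wide_prog w).lim_ne
  · rw [Prog.run_add_one]
    have h2 := hs.tape.arr 0
    rw [Nat.mul_zero, h1] at h2
    show ((wide_prog w).tr _ _).1 = _
    rw [hs.state, hs.head]
    show (wide_tr w (some none) _).1 = _
    rw [wide_tr, if_pos h2]
    rfl

theorem wide_to_prog (w : WProg) : ∃ (p : Prog) (K : ℕ), 0 < K ∧ ∀ (x : ℕ → Bool) (δ : Ordinal.{0}),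
    p.HaltsAt x δ ↔ ∃ α, δ = ω * α ∧ (w.run (fun n => x (K * n)) (ω * α)).arr 0 = true ∧
      ∀ β < α, (w.run (fun n => x (K * n)) (ω * β)).arr 0 = false := by
  refine ⟨wide_prog w, w.k + 1, Nat.succ_pos _, fun x δ => ⟨fun h => ?_, ?_⟩⟩
  · by_cases hex : ∃ α : Ordinal.{0}, (w.run (fun n => x ((w.k + 1) * n)) (ω * α)).arr 0 = true
    · have hmin : ∃ α : Ordinal.{0},
          (w.run (fun n => x ((w.k + 1) * n)) (ω * α)).arr 0 = true ∧
          ∀ β < α, (w.run (fun n => x ((w.k + 1) * n)) (ω * β)).arr 0 = false := by
        let s : Set Ordinal.{0} := {α | (w.run (fun n => x ((w.k + 1) * n)) (ω * α)).arr 0 = true}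
        have hs : s.Nonempty := hex
        refine ⟨sInf s, csInf_mem hs, fun β hβ => ?_⟩
        have := notMem_of_lt_csInf' hβ
        simpa [s] using this
      obtain ⟨α, h1, h2⟩ := hmin
      exact ⟨α, h.unique (wide_halts w x α h1 h2), h1, h2⟩
    · exfalso
      have hall : ∀ β : Ordinal.{0},
          (w.run (fun n => x ((w.k + 1) * n)) (ω * β)).arr 0 = false := by
        intro β
        by_contra hne
        exact hex ⟨β, by simpa using hne⟩
      obtain ⟨α, m, hm⟩ := split (δ + 1)
      have h3 := h.2
      rw [hm] at h3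
      exact wide_no_halt w x α (fun β _ => hall β) m h3
  · rintro ⟨α, rfl, h1, h2⟩
    exact wide_halts w x α h1 h2

end Pool.Agent.MPa662fc
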