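import Mathlib
import Pool.Agent.Lib.MP_a662fc_lc.Defs
import Pool.Agent.Lib.MP_a662fc_lc.Fam
import Pool.Agent.Lib.MP_a662fc_lc.MDefs
import Pool.Agent.Lib.MP_a662fc_lc.Tab
import Pool.Agent.Lib.MP_a662fc_lc.Pat
import Pool.Agent.Lib.MP_a662fc_lc.Basic
import Pool.Agent.Lib.MP_a662fc_lc.Names
import Pool.Agent.Lib.MP_a662fc_lc.NonAdm
import Pool.Agent.Lib.MP_a662fc_lc.Wide
import Pool.Agent.Lib.MP_a662fc_lc.Compile
import Pool.Agent.Lib.MP_a662fc_lc.Loop
import Pool.Agent.Lib.MP_a662fc_lc.CmdComp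
import Pool.Agent.Lib.MP_a662fc_lc.OpCmd
import Pool.Agent.Lib.MP_a662fc_lc.AlgSound
import Pool.Agent.Lib.MP_a662fc_lc.AlgComplete
import Pool.Agent.Lib.MP_a662fc_lc.OpComp
import Pool.Agent.Lib.MP_a662fc_lc.ThFam
import Pool.Agent.Lib.MP_a662fc_lc.ModelIff
import Pool.Agent.Lib.MP_a662fc_lc.StabM
import Pool.Agent.Lib.MP_a662fc_lc.Closed
import Pool.Agent.Lib.MP_a662fc_lc.Transfer
import Pool.Agent.Lib.MP_a662fc_lc.GoodEx
import Pool.Agent.Lib.MP_a662fc_lc.SdRunA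
import Pool.Agent.Lib.MP_a662fc_lc.SdRunB
import Pool.Agent.Lib.MP_a662fc_lc.RunSound
import Pool.Agent.Lib.MP_a662fc_lc.RunComplete
import Pool.Agent.Lib.MP_a662fc_lc.DescSound
import Pool.Agent.Lib.MP_a662fc_lc.DescSurvive
import Pool.Agent.Lib.MP_a662fc_lc.TabPrim
import Pool.Agent.Lib.MP_a662fc_lc.SdTabR
import Pool.Agent.Lib.MP_a662fc_lc.SdTabF
import Pool.Agent.Lib.MP_a662fc_lc.ExRel
import Pool.Agent.Lib.MP_a662fc_lc.ExNames
import Pool.Agent.Lib.MP_a662fc_lc.TabRank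
import Pool.Agent.Lib.MP_a662fc_lc.TabNotGood
import Pool.Agent.Lib.MP_a662fc_lc.TabEx

/-!
# The final assembly: a gap in the semidecision times that begins with a non-admissible ordinal
-/

namespace Pool.Agent.MPa662fc

open Ordinal Pool.Agent.MP752584 Encodable

/-! ### T1: machine -/

theorem machine (Q : ℕ × ℕ × List (ℕ × Bool) → Prop) (hQ : SD Q) :
    ∃ (p : Prog) (K : ℕ), 0 < K ∧ ∀ x : ℕ → Bool,
      (∀ α, p.HaltsAt x α → WellFounded (Rel Q fun n => x (K * n))) ∧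
      (∀ ρ, Ranked (Rel Q fun n => x (K * n)) ρ → ∃ α ≤ ω * (ρ + 3), p.HaltsAt x α) := by
  obtain ⟨inst, hi1, hi2⟩ := exists_inst hQ
  have hrel : ∀ x, InstRel inst x = Rel Q x := fun x => by
    funext m n
    exact propext (hi2 x m n)
  obtain ⟨k, c, mid, h1, h2, h3⟩ := op_cmd (opOf inst) (opOf_computable hi1)
  obtain ⟨w, hw⟩ := loop_machine c mid h1 h2
  obtain ⟨p, K, hK, hp⟩ := wide_to_prog w
  have hst : ∀ x α, (w.run x (ω * α)).arr = startArr (opF (opOf inst) x) α := by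
    intro x α
    rw [hw]
    congr 1
    funext s a
    exact h3 x a s
  refine ⟨p, K, hK, fun x => ⟨fun δ hδ => ?_, fun ρ hρ => ?_⟩⟩
  · obtain ⟨α, _, h4, _⟩ := (hp x δ).1 hδ
    rw [hst] at h4
    rw [← hrel]
    exact alg_sound inst _ h4
  · rw [← hrel] at hρ
    obtain ⟨α, hα, h4⟩ := alg_complete inst _ hρ
    set S : Set Ordinal.{0} := {α | startArr (opF (opOf inst) fun n => x (K * n)) α 0 = true}
    have hne : S.Nonempty := ⟨α, h4⟩
    refine ⟨ω * sInf S, mul_le_mul_right ((csInf_le' (show α ∈ S from h4)).trans hα) ω, (hp x _).2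
      ⟨sInf S, rfl, ?_, fun β hβ => ?_⟩⟩
    · rw [hst]
      exact csInf_mem hne
    · rw [hst]
      by_contra hcon
      rw [Bool.not_eq_false] at hcon
      exact absurd (csInf_le' (show β ∈ S from hcon)) (not_le.2 hβ)

/-! ### T2-T4: games -/

/-! ### T5, T6: runs -/

theorem sd_runPat (p : Prog) : SD (RunPat p) := (sd_runA p).or (sd_runB p)

theorem runTheory (p : Prog) : ∃ e, ∀ a b, 0 < a → (Model (Th e) a b ↔
    ∃ α, a + b = α + 1 ∧ ∃ (x : ℕ → Bool) (m : ℕ), p.HaltsAt x (ω * α + m)) := by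
  obtain ⟨e, he⟩ := exists_th (sd_runPat p)
  refine ⟨e, fun a b ha => ?_⟩
  rw [he]
  constructor
  · rintro ⟨Y, hY⟩
    obtain ⟨α, x, m, _, h1, h2, _⟩ := run_sound p ha hY
    exact ⟨α, h1, x, m, h2⟩
  · rintro ⟨α, h1, x, m, h2⟩
    obtain ⟨Y, hY, _⟩ := run_complete p h1 h2
    exact ⟨Y, hY⟩

theorem descTheory (p : Prog) (K : ℕ) : ∃ e, ∀ α,
    (Model (Th e) (α + 1) 0 → ∃ (x : ℕ → Bool) (m : ℕ), p.HaltsAt x (ω * α + m) ∧
      ¬ WellFounded fun m n => x (K * ltb m n) = true) ∧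
    (∀ (x : ℕ → Bool) (m : ℕ) (τ : Ordinal.{0}) (o : ℕ → Ordinal.{0}),
      p.HaltsAt x (ω * α + m) → (∀ m n, x (K * ltb m n) = true ↔ o m < o n) →
      (∀ ζ < τ, ∃ n, o n = ζ) → ∀ ξ < τ, ¬ W (Th e) (α + 1) 0 ξ []) := by
  obtain ⟨e, he⟩ := exists_th (sd_descPat p K (sd_runPat p))
  refine ⟨e, fun α => ?_⟩
  rw [he]
  exact ⟨fun ⟨Y, hY⟩ => descsound_of p K (run_sound p (lt_of_le_of_lt zero_le (lt_add_one α))) hY, fun x m τ o h1 h2 h3 => desc_survive p K h1 h2 h3⟩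

/-! ### T7: tables -/

theorem sd_tabV : SD TabV := sd_tabR.or (sd_tabF.or sd_tabG)

theorem tableTheory : ∃ Q : ℕ × ℕ × List (ℕ × Bool) → Prop, SD Q ∧
    (∀ x, WellFounded (Rel Q x) → WellFounded fun m n => x (ltb m n) = true) ∧
    ∀ κ, Good κ → (∀ κ' < κ, ¬ Good κ') → κ < ω₁ →
      (∀ x, WellFounded (Rel Q x) → Ranked (Rel Q x) κ) ∧
      ∃ x, WellFounded (Rel Q x) ∧ ∃ o : ℕ → Ordinal.{0},
        (∀ m n, x (ltb m n) = true ↔ o m < o n) ∧ ∀ ζ < κ, ∃ n, o n = ζ := by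
  obtain ⟨Q, hQ, h1, h2⟩ := exists_rel sd_tabV
  have hlt : ∀ (x : ℕ → Bool) (y : ℕ → ℕ), (∀ i v, x (Nat.pair i v) = true ↔ y i = v) →
      (fun m n => x (ltb m n) = true) = fun m n => y (iLT m n) = 0 := by
    intro x y hxy
    funext m n
    exact propext (hxy _ _)
  refine ⟨Q, hQ, fun x hx => ?_, fun κ hκ hmin hω => ?_⟩
  · obtain ⟨y, hy1, _, hy3⟩ := h1 x hx
    rw [hlt x y hy1]
    exact hy3
  · have hκω : ω ≤ κ := by
      rw [Ordinal.omega0_le]
      intro n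
      have : ∀ n : ℕ, (n : Ordinal.{0}) < κ := by
        intro n
        induction n with
        | zero => simpa using hκ.pos
        | succ n ih => simpa using hκ.succ _ ih
      exact (this n).le
    constructor
    · intro x hx
      obtain ⟨y, hy1, hy2, hy3⟩ := h1 x hx
      obtain ⟨o, ho⟩ := exists_names hy2 hy3
      refine h2 x y hy1 hy2 κ hκω ⟨o, fun m n h => (ho.lt m n).1 h, fun n => ?_⟩
      by_contra hcon
      rw [not_lt] at hcon
      obtain ⟨m, hm⟩ : ∃ m, o m = κ := by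
        rcases hcon.lt_or_eq with h | h
        · exact ho.seg n κ h
        · exact ⟨n, h.symm⟩
      exact table_not_good hy2 ho (table_rank hy2 ho) m (hm ▸ hκ)
    · obtain ⟨y, o, hy, ho, ho1, ho2⟩ := table_exists hκω hω hκ.clos hκ.succ hmin
      classical
      let x : ℕ → Bool := fun i => decide (y i.unpair.1 = i.unpair.2)
      have hxy : ∀ i v, x (Nat.pair i v) = true ↔ y i = v := by
        intro i v
        simp [x]
      have hr : Ranked (Rel Q x) κ := h2 x y hxy hy κ hκω ⟨o, fun m n h => (ho.lt m n).1 h, ho1⟩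
      refine ⟨x, ?_, o, ?_, ho2⟩
      · obtain ⟨rk, hrk, _⟩ := hr
        exact Subrelation.wf (fun {m n} h => hrk m n h) (InvImage.wf rk Ordinal.lt_wf)
      · intro m n
        exact (hxy _ _).trans (ho.lt m n)

/-! ### T8: admissible ordinals -/

/-! ### Assembly -/

theorem Prog.bddAbove (p : Prog) : BddAbove {α | ∃ x, p.HaltsAt x α} := by
  have : {α | ∃ x, p.HaltsAt x α} ⊆ Set.range (fun x : ℕ → Bool =>
      sSup {α | p.HaltsAt x α}) := by
    rintro α ⟨x, hx⟩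
    refine ⟨x, ?_⟩
    have : {α | p.HaltsAt x α} = {α} := by
      ext β
      exact ⟨fun h => h.unique hx, fun h => h ▸ hx⟩
    simp [this]
  exact Ordinal.bddAbove_of_small.mono this

theorem Prog.HaltsAt.le {p : Prog} {x : ℕ → Bool} {α : Ordinal.{0}} (h : p.HaltsAt x α) :
    α ≤ p.decisionTime := le_csSup p.bddAbove ⟨x, h⟩

theorem exists_time (p : Prog) : ∃ q : Prog, q.dom = p.dom ∧
    IsSemidecisionTime p.dom q.decisionTime ∧ q.decisionTime ≤ p.decisionTime := by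
  have hne : {t | ∃ q : Prog, q.dom = p.dom ∧ q.decisionTime = t}.Nonempty := ⟨_, p, rfl, rfl⟩
  obtain ⟨q, h1, h2⟩ := csInf_mem hne
  refine ⟨q, h1, ?_, ?_⟩
  · refine ⟨⟨q, h1, rfl⟩, fun t ht => ?_⟩
    rw [h2]
    exact csInf_le' ht
  · rw [h2]
    exact csInf_le' ⟨p, rfl, rfl⟩

/-- The abstract gap lemma. -/
theorem beginsGap_of {X : Set Ordinal.{0}} {θ η μ : Ordinal.{0}} (h1 : ∃ s ∈ X, θ ≤ s ∧ s < η)
    (h2 : ∀ s ∈ X, s < η → s ≤ μ) (hμ : μ + 1 < η) (h3 : ∃ s ∈ X, η ≤ s) :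
    ∃ β, BeginsGap X β ∧ θ < β ∧ β ≤ μ + 1 ∧ ∀ s ∈ X, β ≤ s → η ≤ s := by
  classical
  set T : Set Ordinal.{0} := {s | s ∈ X ∧ s < η} with hT
  set β : Ordinal.{0} := sSup (Order.succ '' T) with hβ
  have hbdd : BddAbove (Order.succ '' T) := by
    refine ⟨μ + 1, ?_⟩
    rintro _ ⟨s, hs, rfl⟩
    rw [Order.succ_eq_add_one]
    exact add_le_add_left (h2 s hs.1 hs.2) 1
  have hle : ∀ s ∈ X, s < η → s < β := fun s hs hlt =>
    lt_of_lt_of_le (Order.lt_succ s) (le_csSup hbdd ⟨s, ⟨hs, hlt⟩, rfl⟩)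
  obtain ⟨s₀, hs₀, hθ, hη⟩ := h1
  have hβle : β ≤ μ + 1 := by
    refine csSup_le ⟨_, s₀, ⟨hs₀, hη⟩, rfl⟩ ?_
    rintro _ ⟨s, hs, rfl⟩
    rw [Order.succ_eq_add_one]
    exact add_le_add_left (h2 s hs.1 hs.2) 1
  have habove : ∀ s ∈ X, β ≤ s → η ≤ s := by
    intro s hs hle'
    by_contra hlt
    exact absurd (hle s hs (not_le.1 hlt)) (not_lt.2 hle')
  obtain ⟨s₁, hs₁, hs₁'⟩ := h3
  have hne : {s | s ∈ X ∧ β ≤ s}.Nonempty :=
    ⟨s₁, hs₁, (hβle.trans hμ.le).trans hs₁'⟩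
  set s' := sInf {s | s ∈ X ∧ β ≤ s} with hs'
  have hs'mem : s' ∈ X ∧ β ≤ s' := csInf_mem hne
  have hs'le : ∀ s ∈ X, β ≤ s → s' ≤ s := fun s h h' => csInf_le' ⟨h, h'⟩
  have hβs' : β < s' := lt_of_le_of_lt hβle (lt_of_lt_of_le hμ (habove _ hs'mem.1 hs'mem.2))
  refine ⟨β, ⟨Set.Ico β s', ⟨⟨Set.ordConnected_Ico, ?_, s', hs'mem.1, fun a ha => ha.2.le⟩, ?_⟩,
    ⟨le_rfl, hβs'⟩, fun a ha => ha.1⟩, lt_of_le_of_lt hθ (hle _ hs₀ hη), hβle, habove⟩
  · intro a ha hX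
    exact absurd (hs'le a hX ha.1) (not_le.2 ha.2)
  · rintro J ⟨hJ1, hJ2, b, hb, hJb⟩ hIJ a ha
    refine ⟨?_, ?_⟩
    · by_contra hlt
      rw [not_le] at hlt
      obtain ⟨_, ⟨s, hs, rfl⟩, has⟩ :=
        exists_lt_of_lt_csSup (s := Order.succ '' T) ⟨_, s₀, ⟨hs₀, hη⟩, rfl⟩ hlt
      rw [Order.lt_succ_iff] at has
      have : s ∈ J := hJ1.out ha (hIJ ⟨le_rfl, hβs'⟩) ⟨has, (hle s hs.1 hs.2).le⟩
      exact hJ2 s this hs.1
    · by_contra hlt
      rw [not_lt] at hlt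
      have : s' ∈ J := hJ1.out (hIJ ⟨le_rfl, hβs'⟩) ha ⟨hβs'.le, hlt⟩
      exact hJ2 s' this hs'mem.1

/-- A set whose programs halt only on inputs coding a well-founded order, and which contains an
input coding the order `τ`, is not semidecided before the games over the blocks reach `τ`. -/
theorem lower_bound {q : Prog} {K : ℕ} {x : ℕ → Bool} {o : ℕ → Ordinal.{0}} {τ α : Ordinal.{0}}
    {m : ℕ} (hdom : ∀ x ∈ q.dom, WellFounded fun m n => x (K * ltb m n) = true)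
    (hx : q.HaltsAt x (ω * α + m)) (ho : ∀ m n, x (K * ltb m n) = true ↔ o m < o n)
    (hτ : ∀ ζ < τ, ∃ n, o n = ζ) (hα : α < ω₁) {e : ℕ}
    (he1 : Model (Th e) (α + 1) 0 → ∃ (x : ℕ → Bool) (m : ℕ), q.HaltsAt x (ω * α + m) ∧
      ¬ WellFounded fun m n => x (K * ltb m n) = true)
    (he2 : ∀ (x : ℕ → Bool) (m : ℕ) (τ : Ordinal.{0}) (o : ℕ → Ordinal.{0}),
      q.HaltsAt x (ω * α + m) → (∀ m n, x (K * ltb m n) = true ↔ o m < o n) →
      (∀ ζ < τ, ∃ n, o n = ζ) → ∀ ξ < τ, ¬ W (Th e) (α + 1) 0 ξ []) {ξ : Ordinal.{0}}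
    (hξ : Stab (Th e) (α + 1) 0 ξ) : τ < ξ := by
  have hα1 : α + 1 < ω₁ := by
    rw [← Order.succ_eq_add_one]
    exact (Cardinal.isSuccLimit_omega 1).succ_lt hα
  have h0 : (0 : Ordinal.{0}) < ω₁ := lt_of_le_of_lt bot_le hα
  have hno : ¬ Model (Th e) (α + 1) 0 := by
    intro hm
    obtain ⟨x', m', h1, h2⟩ := he1 hm
    exact h2 (hdom x' ⟨_, h1⟩)
  rw [model_iff hα1 h0] at hno
  push Not at hno
  obtain ⟨η, hη⟩ := hno
  obtain ⟨ξ', h1, h2⟩ := hξ.le (by intro f hf; simp at hf) hη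
  by_contra hlt
  rw [not_lt] at hlt
  exact he2 x m τ o hx ho hτ ξ' (lt_of_lt_of_le h1 hlt) h2

theorem mul_lt_omega_one {a b : Ordinal.{0}} (ha : a < ω₁) (hb : b < ω₁) : a * b < ω₁ := by
  rw [Cardinal.lt_omega_iff_card_lt] at *
  rw [card_mul]
  exact Cardinal.mul_lt_of_lt (Cardinal.aleph0_le_aleph 1) ha hb

theorem add_lt_omega_one {a b : Ordinal.{0}} (ha : a < ω₁) (hb : b < ω₁) : a + b < ω₁ := by
  rw [Cardinal.lt_omega_iff_card_lt] at *
  rw [card_add]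
  exact Cardinal.add_lt_of_lt (Cardinal.aleph0_le_aleph 1) ha hb

theorem countable_Iio {a : Ordinal.{0}} (ha : a < ω₁) : Countable (Set.Iio a) := by
  rw [← Cardinal.mk_le_aleph0_iff, Cardinal.mk_Iio_ordinal, Cardinal.lift_le_aleph0,
    ← Order.lt_succ_iff, Cardinal.succ_aleph0]
  exact Cardinal.lt_omega_iff_card_lt.1 ha

theorem exists_enum {τ : Ordinal.{0}} (h1 : ω ≤ τ) (h2 : τ < ω₁) :
    ∃ o : ℕ → Ordinal.{0}, Function.Injective o ∧ (∀ n, o n < τ) ∧ ∀ ζ < τ, ∃ n, o n = ζ := by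
  have := countable_Iio h2
  have : Infinite (Set.Iio τ) := by
    refine Infinite.of_injective (fun n : ℕ => (⟨n, lt_of_lt_of_le (Ordinal.natCast_lt_omega0 n) h1⟩ :
      Set.Iio τ)) ?_
    intro m n hmn
    have := congrArg Subtype.val hmn
    simpa using this
  obtain ⟨f⟩ := nonempty_equiv_of_countable (α := ℕ) (β := Set.Iio τ)
  refine ⟨fun n => (f n).1, fun m n hmn => f.injective (Subtype.ext hmn), fun n => (f n).2,
    fun ζ hζ => ⟨f.symm ⟨ζ, hζ⟩, by simp⟩⟩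

/-- There are semidecision times above `ω (κ + κ)`. -/
theorem exists_large (κ : Ordinal.{0}) (hω : κ < ω₁) :
    ∃ s ∈ SemidecisionTimes, ω * (κ + κ) ≤ s := by
  classical
  let Q : ℕ × ℕ × List (ℕ × Bool) → Prop := fun t => t.2.2 = [(ltb t.1 t.2.1, true)]
  have hltb : Computable fun t : ℕ × ℕ × List (ℕ × Bool) => ltb t.1 t.2.1 := by
    refine (Primrec₂.natPair.comp (Primrec₂.natPair.comp (Primrec.const 0)
      (Primrec₂.natPair.comp Primrec.fst (Primrec.fst.comp Primrec.snd))) (Primrec.const 0)).to_comp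
  have hQ : SD Q := by
    refine SD.eq (Computable.snd.comp Computable.snd) ?_
    exact Computable.list_cons.comp (Computable.pair hltb (Computable.const true))
      (Computable.const [])
  have hRel : ∀ x m n, Rel Q x m n ↔ x (ltb m n) = true := by
    intro x m n
    constructor
    · rintro ⟨l, hl, h⟩
      have hl' : l = [(ltb m n, true)] := hl
      subst hl'
      exact h (ltb m n, true) (by simp)
    · intro h
      exact ⟨[(ltb m n, true)], rfl, by simpa using h⟩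
  obtain ⟨p, K, hK, hp⟩ := machine Q hQ
  obtain ⟨q, hq1, hq2, hq3⟩ := exists_time p
  refine ⟨q.decisionTime, ⟨_, hq2⟩, ?_⟩
  by_contra hlt
  rw [not_le] at hlt
  obtain ⟨e, he⟩ := descTheory q K
  have hκκ : κ + κ < ω₁ := add_lt_omega_one hω hω
  have h0 : (0 : Ordinal.{0}) < ω₁ := lt_of_le_of_lt bot_le hω
  have hst : ∀ α : Set.Iio (κ + κ), ∃ ξ < ω₁, Stab (Th e) (α.1 + 1) 0 ξ := by
    intro α
    refine exists_stab (Th e) ?_ h0
    have : α.1 < ω₁ := lt_trans α.2 hκκ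
    rw [← Order.succ_eq_add_one]
    exact (Cardinal.isSuccLimit_omega 1).succ_lt this
  choose ξ hξ1 hξ2 using hst
  have := countable_Iio hκκ
  have hsup : ⨆ α, ξ α < ω₁ := Ordinal.iSup_lt_omega_one hξ1
  obtain ⟨o, ho1, ho2, ho3⟩ := exists_enum (τ := max ω (⨆ α, ξ α)) (le_max_left _ _)
    (max_lt Ordinal.omega0_lt_omega_one hsup)
  let z : ℕ → Bool := fun i => decide (∃ m n, i = ltb m n ∧ o m < o n)
  have hz : ∀ m n, z (ltb m n) = true ↔ o m < o n := by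
    intro m n
    simp only [z, decide_eq_true_eq]
    constructor
    · rintro ⟨m', n', h, h'⟩
      simp only [ltb, Nat.pair_eq_pair, true_and, and_true] at h
      rw [h.1, h.2]
      exact h'
    · exact fun h => ⟨m, n, rfl, h⟩
  let x : ℕ → Bool := fun n => if K ∣ n then z (n / K) else false
  have hxz : ∀ n, x (K * n) = z n := by
    intro n
    simp [x, Nat.mul_div_cancel_left _ hK]
  have hwf : ∀ x ∈ q.dom, WellFounded fun m n => x (K * ltb m n) = true := by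
    intro x hx
    rw [hq1] at hx
    obtain ⟨α, hα⟩ := hx
    have := (hp x).1 α hα
    have e1 : (Rel Q fun n => x (K * n)) = fun m n => x (K * ltb m n) = true := by
      funext m n
      exact propext (hRel _ _ _)
    rwa [e1] at this
  have hxp : x ∈ p.dom := by
    have := (hp x).2 (max ω (⨆ α, ξ α)) ⟨o, fun m n h => ?_, ho2⟩
    · obtain ⟨α, _, h⟩ := this
      exact ⟨α, h⟩
    · rw [hRel, hxz, hz] at h
      exact h
  rw [← hq1] at hxp
  obtain ⟨δ, hδ⟩ := hxp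
  obtain ⟨α, m, hα, rfl⟩ := lt_omega_mul (lt_of_le_of_lt hδ.le hlt)
  have h5 := lower_bound (o := o) hwf hδ (fun m n => by rw [hxz]; exact hz m n) ho3
    (hα.trans hκκ) (he α).1 (he α).2 (hξ2 ⟨α, hα⟩)
  have h6 : ξ ⟨α, hα⟩ ≤ ⨆ α, ξ α := Ordinal.le_iSup ξ ⟨α, hα⟩
  exact absurd (lt_of_lt_of_le h5 h6) (not_lt.2 (le_max_right _ _))

theorem result_aux (κ : Ordinal.{0}) (hκ : Good κ) (hmin : ∀ κ' < κ, ¬ Good κ') (hω : κ < ω₁) :
    ∃ β, BeginsGap SemidecisionTimes β ∧ ω * κ < β ∧ β < ω * κ + ω * κ ∧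
      ∀ s ∈ SemidecisionTimes, β ≤ s → β + ω * ω ≤ s := by
  have hlim : ∀ a < κ, a + 1 < κ := hκ.succ
  have hκω : ω ≤ κ := by
    rw [Ordinal.omega0_le]
    intro n
    have : ∀ n : ℕ, (n : Ordinal.{0}) < κ := by
      intro n
      induction n with
      | zero => simpa using hκ.pos
      | succ n ih => simpa using hlim _ ih
    exact (this n).le
  have hsum : ∀ δ < κ + κ, ∃ γ < κ, δ < κ + γ := by
    intro δ hδ
    rcases lt_or_ge δ κ with h | h
    · exact ⟨1, lt_of_lt_of_le Ordinal.one_lt_omega0 hκω, lt_of_lt_of_le h le_self_add⟩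
    · obtain ⟨γ, rfl⟩ := exists_add_of_le h
      have hγ : γ < κ := (add_lt_add_iff_left κ).1 hδ
      refine ⟨γ + 1, hlim _ hγ, ?_⟩
      rw [← add_assoc]
      exact lt_add_one _
  obtain ⟨Q, hQ, hQ0, hQ1⟩ := tableTheory
  obtain ⟨hQ2, z, hz1, o, hz2, hz3⟩ := hQ1 κ hκ hmin hω
  obtain ⟨p, K, hK, hp⟩ := machine Q hQ
  -- the set `A`
  have hpd : p.decisionTime ≤ ω * (κ + 3) := by
    refine csSup_le' ?_
    rintro α ⟨x, hx⟩
    obtain ⟨α', h1, h2⟩ := (hp x).2 κ (hQ2 _ ((hp x).1 α hx))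
    rw [hx.unique h2]
    exact h1
  have hlt3 : κ + 3 < κ + κ := by
    refine add_lt_add_right ?_ κ
    refine lt_of_lt_of_le ?_ hκω
    exact_mod_cast Ordinal.natCast_lt_omega0 3
  have hωpos : (0 : Ordinal.{0}) < ω := Ordinal.omega0_pos
  have h1 : ∃ s ∈ SemidecisionTimes, ω * κ ≤ s ∧ s < ω * (κ + κ) := by
    obtain ⟨q, hq1, hq2, hq3⟩ := exists_time p
    refine ⟨q.decisionTime, ⟨_, hq2⟩, ?_, ?_⟩
    · by_contra hlt
      rw [not_le] at hlt
      -- the input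
      let x : ℕ → Bool := fun n => if K ∣ n then z (n / K) else false
      have hxz : (fun n => x (K * n)) = z := by
        funext n
        simp [x, Nat.mul_div_cancel_left _ hK]
      have hxp : x ∈ p.dom := by
        have := (hp x).2 κ (by rw [hxz]; exact hQ2 _ hz1)
        obtain ⟨α, _, h⟩ := this
        exact ⟨α, h⟩
      rw [← hq1] at hxp
      obtain ⟨δ, hδ⟩ := hxp
      obtain ⟨α, m, hα, rfl⟩ := lt_omega_mul (lt_of_le_of_lt hδ.le hlt)
      obtain ⟨e, he⟩ := descTheory q K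
      obtain ⟨ξ, hξ1, hξ2⟩ := hκ.clos e (α + 1) (hlim _ hα) 0 hκ.pos
      refine absurd (lower_bound (τ := κ) (o := o) ?_ hδ ?_ hz3 (hα.trans hω) (he α).1 (he α).2 hξ2)
        (not_lt.2 hξ1.le)
      · intro x hx
        rw [hq1] at hx
        obtain ⟨α, hα⟩ := hx
        exact hQ0 _ ((hp x).1 α hα)
      · intro m n
        have := congrFun hxz (ltb m n)
        rw [show x (K * ltb m n) = z (ltb m n) from this]
        exact hz2 m n
    · exact lt_of_le_of_lt (hq3.trans hpd) (mul_lt_mul_of_pos_left hlt3 hωpos)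
  obtain ⟨γ₀, hγ₀, hb⟩ := hκ.bdd
  have h2 : ∀ s ∈ SemidecisionTimes, s < ω * (κ + κ) → s ≤ ω * (κ + γ₀) := by
    rintro s ⟨A, ⟨q, hq1, rfl⟩, _⟩ hs
    obtain ⟨e, he⟩ := runTheory q
    rcases hb e with hb | hb
    · refine csSup_le' ?_
      rintro δ ⟨x, hx⟩
      by_contra hlt
      rw [not_le] at hlt
      obtain ⟨α, m, hα, rfl⟩ := lt_omega_mul (lt_of_le_of_lt hx.le hs)
      have hge : κ + γ₀ ≤ α := by
        by_contra hlt'
        rw [not_le, ← Order.add_one_le_iff] at hlt'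
        have : ω * α + m < ω * (κ + γ₀) := by
          refine lt_of_lt_of_le ?_ (mul_le_mul_right hlt' ω)
          rw [mul_add_one]
          exact add_lt_add_right (Ordinal.natCast_lt_omega0 m) _
        exact absurd hlt (not_lt.2 this.le)
      obtain ⟨γ, rfl⟩ := exists_add_of_le (le_self_add.trans hge)
      have hγ1 : γ₀ ≤ γ := (add_le_add_iff_left κ).1 hge
      have hγ2 : γ < κ := (add_lt_add_iff_left κ).1 hα
      obtain ⟨ξ, hξ⟩ := hb (γ + 1) (hγ1.trans le_self_add) (hlim _ hγ2)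
      refine (model_iff hω ((hlim _ hγ2).trans hω)).1 ((he κ (γ + 1) hκ.pos).2 ?_) ξ hξ
      exact ⟨κ + γ, by rw [add_assoc], x, m, hx⟩
    · exfalso
      obtain ⟨α, m, hα, hαm⟩ := lt_omega_mul hs
      obtain ⟨γ, hγ, hγ'⟩ := hsum α hα
      obtain ⟨γ', h1, h2, h3⟩ := hb (γ + 1) (hlim _ hγ)
      have := (model_iff hω (h2.trans hω)).2 h3
      obtain ⟨α', h4, x, m', h5⟩ := (he κ γ' hκ.pos).1 this
      have h6 : κ + γ ≤ α' := by
        have : κ + γ + 1 ≤ α' + 1 := by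
          rw [← h4, add_assoc]
          exact add_le_add_right h1 κ
        have h' := this
        rw [Order.add_one_le_iff, Order.lt_add_one_iff] at h'
        exact h'
      have h7 : q.decisionTime < ω * α' + m' := by
        rw [hαm]
        refine lt_of_lt_of_le ?_ (le_self_add)
        refine lt_of_lt_of_le ?_ (mul_le_mul_right (Order.add_one_le_of_lt (lt_of_lt_of_le hγ' h6)) ω)
        rw [mul_add_one]
        exact add_lt_add_right (Ordinal.natCast_lt_omega0 m) _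
      exact absurd h5.le (not_le.2 h7)
  have h3 : ∃ s ∈ SemidecisionTimes, ω * (κ + κ) ≤ s := exists_large κ hω
  have hμ : ω * (κ + γ₀) + 1 < ω * (κ + κ) := by
    refine lt_of_lt_of_le ?_ (mul_le_mul_right (add_le_add_right (hlim _ hγ₀).le κ) ω)
    rw [← add_assoc, mul_add_one]
    exact add_lt_add_right Ordinal.one_lt_omega0 _
  obtain ⟨β, hβ1, hβ2, hβ3, hβ4⟩ := beginsGap_of h1 h2 hμ h3
  refine ⟨β, hβ1, hβ2, ?_, ?_⟩
  · rw [← mul_add]
    exact lt_of_le_of_lt hβ3 hμ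
  · intro s hs hle
    refine le_trans ?_ (hβ4 s hs hle)
    have e1 : β + ω * ω ≤ ω * (κ + γ₀) + ω * ω := by
      refine (add_le_add_left hβ3 _).trans ?_
      rw [add_assoc, Ordinal.one_add_of_omega0_le]
      exact Ordinal.le_mul_left ω Ordinal.omega0_pos
    refine e1.trans ?_
    rw [← mul_add]
    refine mul_le_mul_right ?_ ω
    rw [add_assoc]
    refine add_le_add_right ?_ κ
    by_contra hcon
    rw [not_le] at hcon
    obtain ⟨d, hd⟩ := exists_add_of_le hγ₀.le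
    rw [hd] at hcon
    have hdω : d < ω := (add_lt_add_iff_left γ₀).1 hcon
    obtain ⟨n, rfl⟩ := Ordinal.lt_omega0.1 hdω
    have : ∀ n : ℕ, γ₀ + n < κ := by
      intro n
      induction n with
      | zero => simpa using hγ₀
      | succ n ih => simpa [← add_assoc] using hlim _ ih
    exact absurd (this n) (by rw [← hd]; exact lt_irrefl _)

/-- **Main theorem.** -/
theorem main : ∃ β : Ordinal.{0}, BeginsGap SemidecisionTimes β ∧ ¬ Admissible β ∧
    ∀ s ∈ SemidecisionTimes, β ≤ s → β + ω * ω ≤ s := by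
  obtain ⟨κ₀, h0, h1⟩ := exists_good
  have hne : {κ | Good κ}.Nonempty := ⟨κ₀, h1⟩
  have hmem : Good (sInf {κ | Good κ}) := csInf_mem hne
  have hle : sInf {κ | Good κ} ≤ κ₀ := csInf_le' h1
  obtain ⟨β, hβ1, hβ2, hβ3, hβ4⟩ := result_aux (sInf {κ | Good κ}) hmem
    (fun κ' h h' => absurd (csInf_le' h') (not_le.2 h)) (lt_of_le_of_lt hle h0)
  exact ⟨β, hβ1, not_admissible hβ2 hβ3, hβ4⟩

end Pool.Agent.MPa662fc
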