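import Mathlib
import Pool.Agent.Lib.MP_752584_lc.SD
import Pool.Agent.Lib.MP_a662fc_lc.Defs
import Pool.Agent.Lib.MP_a662fc_lc.Fam
import Pool.Agent.Lib.MP_a662fc_lc.Pat

set_option autoImplicit false

/-!
The theory `RunA p` is semidecidable.
-/

namespace Pool.Agent.MPa662fc

open Ordinal Pool.Agent.MP752584 Encodable

section

variable {τ : Type*} [Primcodable τ]

lemma sdruna_fa {i p q v s : τ → ℕ} (hi : Computable i) (hp : Computable p) (hq : Computable q)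
    (hv : Computable v) (hs : Computable s) :
    Computable fun t => (fa (i t) (p t) (q t) (v t) (s t) : Lit) :=
  Computable.pair (Computable.const 0) (Computable.pair hi (Computable.pair hp
    (Computable.pair hq (Computable.pair hv hs))))

lemma sdruna_lo {p q : τ → ℕ} (hp : Computable p) (hq : Computable q) :
    Computable fun t => (lo (p t) (q t) : Lit) :=
  Computable.pair (Computable.const 1) (Computable.pair (Computable.const 0)
    (Computable.pair hp (Computable.pair hq (Computable.pair (Computable.const 0)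
      (Computable.const 0)))))

lemma sdruna_cons {a : τ → Lit} {l : τ → List Lit} (ha : Computable a) (hl : Computable l) :
    Computable fun t => a t :: l t :=
  Primrec.list_cons.to_comp.comp ha hl

lemma sdruna_nil : Computable fun _ : τ => ([] : List Lit) := Computable.const []

lemma sdruna_pair {f g : τ → ℕ} (hf : Computable f) (hg : Computable g) :
    Computable fun t => Nat.pair (f t) (g t) :=
  Primrec₂.natPair.to_comp.comp hf hg

lemma sdruna_St {m : τ → ℕ} (hm : Computable m) : Computable fun t => iSt (m t) :=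
  sdruna_pair (Computable.const 0) hm

lemma sdruna_Hd {m : τ → ℕ} (hm : Computable m) : Computable fun t => iHd (m t) :=
  sdruna_pair (Computable.const 1) hm

lemma sdruna_Cl {j n m : τ → ℕ} (hj : Computable j) (hn : Computable n) (hm : Computable m) :
    Computable fun t => iCl (j t) (n t) (m t) :=
  sdruna_pair (Computable.const 2)
    (Computable.encode.comp (Computable.pair hj (Computable.pair hn hm)))

lemma sdruna_app (mv : Move) {h : τ → ℕ} (hh : Computable h) :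
    Computable fun t => mv.app (h t) := by
  cases mv with
  | left => exact Primrec.pred.to_comp.comp hh
  | right => exact Computable.succ.comp hh
  | stay => exact hh

lemma sdruna_ex {c : τ → Prop} {F : τ → Pattern} (hc : SD c) (hF : Computable F) :
    SD (fun π : Pattern => ∃ t, c t ∧ π = F t) :=
  SD.ex (p := fun (π : Pattern) t => c t ∧ π = F t)
    (SD.and (hc.comp Computable.snd) (SD.eq Computable.fst (hF.comp Computable.snd)))

lemma sdruna_ex' {F : τ → Pattern} (hF : Computable F) :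
    SD (fun π : Pattern => ∃ t, π = F t) :=
  SD.ex (p := fun (π : Pattern) t => π = F t)
    (SD.eq Computable.fst (hF.comp Computable.snd))

lemma sdruna_sit (p : Prog) (q : p.Q) (b : Fin 3 → Bool) {h m : τ → ℕ} (hh : Computable h)
    (hm : Computable m) : Computable fun t => sit p q (h t) b (m t) := by
  have c : ∀ n : ℕ, Computable fun _ : τ => n := fun n => Computable.const n
  unfold sit
  refine sdruna_cons (sdruna_fa (sdruna_St hm) (c _) (c _) (c _) (c _)) ?_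
  refine sdruna_cons (sdruna_fa (sdruna_Hd hm) (c _) (c _) hh (c _)) ?_
  refine sdruna_cons (sdruna_fa (sdruna_Cl (c _) hh hm) (c _) (c _) (c _) (c _)) ?_
  refine sdruna_cons (sdruna_fa (sdruna_Cl (c _) hh hm) (c _) (c _) (c _) (c _)) ?_
  exact sdruna_cons (sdruna_fa (sdruna_Cl (c _) hh hm) (c _) (c _) (c _) (c _)) sdruna_nil

end

lemma sdruna_st (p : Prog) : SD (fun π : Pattern => ∃ t : ℕ × ℕ, (∀ q, t.2 ≠ p.code q) ∧
    π = [fa (iSt t.1) 0 0 t.2 1]) := by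
  letI := p.fin
  have c : ∀ n : ℕ, Computable fun _ : ℕ × ℕ => n := fun n => Computable.const n
  refine sdruna_ex ?_ ?_
  · have h1 : SD (fun t : ℕ × ℕ => ∀ q ∈ (Finset.univ : Finset p.Q), t.2 ≠ p.code q) :=
      SD.all_finset Finset.univ fun q _ => SD.ne Computable.snd (c _)
    exact h1.of_eq fun t => by simp
  · exact sdruna_cons (sdruna_fa (sdruna_St Computable.fst) (c _) (c _) Computable.snd (c _))
      sdruna_nil

lemma sdruna_cl (j : ℕ) : SD (fun π : Pattern => ∃ t : ℕ × ℕ × ℕ, 2 ≤ t.2.2 ∧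
    π = [fa (iCl j t.1 t.2.1) 0 0 t.2.2 1]) := by
  have c : ∀ n : ℕ, Computable fun _ : ℕ × ℕ × ℕ => n := fun n => Computable.const n
  have x1 : Computable fun t : ℕ × ℕ × ℕ => t.1 := Computable.fst
  have x2 : Computable fun t : ℕ × ℕ × ℕ => t.2.1 := Computable.fst.comp Computable.snd
  have x3 : Computable fun t : ℕ × ℕ × ℕ => t.2.2 := Computable.snd.comp Computable.snd
  exact sdruna_ex (SD.le (c 2) x3)
    (sdruna_cons (sdruna_fa (sdruna_Cl (c _) x1 x2) (c _) (c _) x3 (c _)) sdruna_nil)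

lemma sdruna_stepS (p : Prog) (q : p.Q) (b : Fin 3 → Bool) :
    SD (fun π : Pattern => ∃ t : ℕ × ℕ × ℕ, t.2.2 ≠ p.code (p.tr q b).1 ∧
    π = fa (iSt (t.2.1 + 1)) 0 0 t.2.2 6 :: sit p q t.1 b t.2.1) := by
  have c : ∀ n : ℕ, Computable fun _ : ℕ × ℕ × ℕ => n := fun n => Computable.const n
  have x1 : Computable fun t : ℕ × ℕ × ℕ => t.1 := Computable.fst
  have x2 : Computable fun t : ℕ × ℕ × ℕ => t.2.1 := Computable.fst.comp Computable.snd
  have x3 : Computable fun t : ℕ × ℕ × ℕ => t.2.2 := Computable.snd.comp Computable.snd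
  have x2' : Computable fun t : ℕ × ℕ × ℕ => t.2.1 + 1 := Computable.succ.comp x2
  exact sdruna_ex (SD.ne x3 (c _))
    (sdruna_cons (sdruna_fa (sdruna_St x2') (c _) (c _) x3 (c _)) (sdruna_sit p q b x1 x2))

lemma sdruna_stepH (p : Prog) (q : p.Q) (b : Fin 3 → Bool) :
    SD (fun π : Pattern => ∃ t : ℕ × ℕ × ℕ, t.2.2 ≠ (p.tr q b).2.2.app t.1 ∧
    π = fa (iHd (t.2.1 + 1)) 0 0 t.2.2 6 :: sit p q t.1 b t.2.1) := by
  have c : ∀ n : ℕ, Computable fun _ : ℕ × ℕ × ℕ => n := fun n => Computable.const n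
  have x1 : Computable fun t : ℕ × ℕ × ℕ => t.1 := Computable.fst
  have x2 : Computable fun t : ℕ × ℕ × ℕ => t.2.1 := Computable.fst.comp Computable.snd
  have x3 : Computable fun t : ℕ × ℕ × ℕ => t.2.2 := Computable.snd.comp Computable.snd
  have x2' : Computable fun t : ℕ × ℕ × ℕ => t.2.1 + 1 := Computable.succ.comp x2
  exact sdruna_ex (SD.ne x3 (sdruna_app _ x1))
    (sdruna_cons (sdruna_fa (sdruna_Hd x2') (c _) (c _) x3 (c _)) (sdruna_sit p q b x1 x2))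

lemma sdruna_stepC (p : Prog) (q : p.Q) (b : Fin 3 → Bool) (j : Fin 3) :
    SD (fun π : Pattern => ∃ t : ℕ × ℕ × ℕ, t.2.2 ≠ bc ((p.tr q b).2.1 j) ∧
    π = fa (iCl j t.1 (t.2.1 + 1)) 0 0 t.2.2 6 :: sit p q t.1 b t.2.1) := by
  have c : ∀ n : ℕ, Computable fun _ : ℕ × ℕ × ℕ => n := fun n => Computable.const n
  have x1 : Computable fun t : ℕ × ℕ × ℕ => t.1 := Computable.fst
  have x2 : Computable fun t : ℕ × ℕ × ℕ => t.2.1 := Computable.fst.comp Computable.snd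
  have x3 : Computable fun t : ℕ × ℕ × ℕ => t.2.2 := Computable.snd.comp Computable.snd
  have x2' : Computable fun t : ℕ × ℕ × ℕ => t.2.1 + 1 := Computable.succ.comp x2
  exact sdruna_ex (SD.ne x3 (c _))
    (sdruna_cons (sdruna_fa (sdruna_Cl (c _) x1 x2') (c _) (c _) x3 (c _))
      (sdruna_sit p q b x1 x2))

lemma sdruna_stepN (p : Prog) (q : p.Q) (j : Fin 3) :
    SD (fun π : Pattern => ∃ t : ℕ × ℕ × ℕ × ℕ × ℕ,
    (t.2.2.1 ≠ t.1 ∧ t.2.2.2.1 ≠ t.2.2.2.2) ∧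
    π = [fa (iSt t.2.1) 0 0 (p.code q) 1, fa (iHd t.2.1) 0 0 t.1 2,
      fa (iCl j t.2.2.1 t.2.1) 0 0 t.2.2.2.1 3,
      fa (iCl j t.2.2.1 (t.2.1 + 1)) 0 0 t.2.2.2.2 4]) := by
  have c : ∀ n : ℕ, Computable fun _ : ℕ × ℕ × ℕ × ℕ × ℕ => n := fun n => Computable.const n
  have y2 : Computable fun t : ℕ × ℕ × ℕ × ℕ × ℕ => t.2.2 := Computable.snd.comp Computable.snd
  have x1 : Computable fun t : ℕ × ℕ × ℕ × ℕ × ℕ => t.1 := Computable.fst
  have x2 : Computable fun t : ℕ × ℕ × ℕ × ℕ × ℕ => t.2.1 := Computable.fst.comp Computable.snd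
  have x3 : Computable fun t : ℕ × ℕ × ℕ × ℕ × ℕ => t.2.2.1 := Computable.fst.comp y2
  have x4 : Computable fun t : ℕ × ℕ × ℕ × ℕ × ℕ => t.2.2.2.1 :=
    (Computable.fst.comp Computable.snd).comp y2
  have x5 : Computable fun t : ℕ × ℕ × ℕ × ℕ × ℕ => t.2.2.2.2 :=
    (Computable.snd.comp Computable.snd).comp y2
  have x2' : Computable fun t : ℕ × ℕ × ℕ × ℕ × ℕ => t.2.1 + 1 := Computable.succ.comp x2
  refine sdruna_ex (SD.and (SD.ne x3 x1) (SD.ne x4 x5)) ?_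
  refine sdruna_cons (sdruna_fa (sdruna_St x2) (c _) (c _) (c _) (c _)) ?_
  refine sdruna_cons (sdruna_fa (sdruna_Hd x2) (c _) (c _) x1 (c _)) ?_
  refine sdruna_cons (sdruna_fa (sdruna_Cl (c _) x3 x2) (c _) (c _) x4 (c _)) ?_
  exact sdruna_cons (sdruna_fa (sdruna_Cl (c _) x3 x2') (c _) (c _) x5 (c _)) sdruna_nil

lemma sdruna_z : SD (fun π : Pattern => ∃ v : ℕ, π = [fa iZ 0 0 v 1, lo 2 1]) := by
  have c : ∀ n : ℕ, Computable fun _ : ℕ => n := fun n => Computable.const n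
  exact sdruna_ex' (sdruna_cons (sdruna_fa (c _) (c _) (c _) Computable.id (c _))
    (sdruna_cons (sdruna_lo (c _) (c _)) sdruna_nil))

lemma sdruna_zS (k : ℕ) : SD (fun π : Pattern => ∃ t : ℕ × ℕ, t.2 ≠ k ∧
    π = [fa iZ 0 0 t.1 1, fa (iSt 0) 1 1 t.2 2]) := by
  have c : ∀ n : ℕ, Computable fun _ : ℕ × ℕ => n := fun n => Computable.const n
  exact sdruna_ex (SD.ne Computable.snd (c _))
    (sdruna_cons (sdruna_fa (c _) (c _) (c _) Computable.fst (c _))
      (sdruna_cons (sdruna_fa (c _) (c _) (c _) Computable.snd (c _)) sdruna_nil))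

lemma sdruna_zH : SD (fun π : Pattern => ∃ t : ℕ × ℕ, t.2 ≠ 0 ∧
    π = [fa iZ 0 0 t.1 1, fa (iHd 0) 1 1 t.2 2]) := by
  have c : ∀ n : ℕ, Computable fun _ : ℕ × ℕ => n := fun n => Computable.const n
  exact sdruna_ex (SD.ne Computable.snd (c _))
    (sdruna_cons (sdruna_fa (c _) (c _) (c _) Computable.fst (c _))
      (sdruna_cons (sdruna_fa (c _) (c _) (c _) Computable.snd (c _)) sdruna_nil))

lemma sdruna_zC (j : Fin 3) : SD (fun π : Pattern => ∃ t : ℕ × ℕ × ℕ, t.2.2 ≠ 0 ∧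
    π = [fa iZ 0 0 t.1 1, fa (iCl j t.2.1 0) 1 1 t.2.2 2]) := by
  have c : ∀ n : ℕ, Computable fun _ : ℕ × ℕ × ℕ => n := fun n => Computable.const n
  have x1 : Computable fun t : ℕ × ℕ × ℕ => t.1 := Computable.fst
  have x2 : Computable fun t : ℕ × ℕ × ℕ => t.2.1 := Computable.fst.comp Computable.snd
  have x3 : Computable fun t : ℕ × ℕ × ℕ => t.2.2 := Computable.snd.comp Computable.snd
  exact sdruna_ex (SD.ne x3 (c _))
    (sdruna_cons (sdruna_fa (c _) (c _) (c _) x1 (c _))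
      (sdruna_cons (sdruna_fa (sdruna_Cl (c _) x2 (c _)) (c _) (c _) x3 (c _)) sdruna_nil))

theorem sd_runA (p : Prog) : SD (RunA p) := by
  letI := p.fin
  classical
  have h2 : SD (fun π : Pattern => ∃ j ∈ (Finset.univ : Finset (Fin 3)),
      ∃ t : ℕ × ℕ × ℕ, 2 ≤ t.2.2 ∧ π = [fa (iCl j t.1 t.2.1) 0 0 t.2.2 1]) :=
    SD.ex_finset _ fun j _ => sdruna_cl j
  have h3 : SD (fun π : Pattern => ∃ q ∈ Finset.univ.filter (fun q : p.Q => q ≠ p.halt),
      ∃ b ∈ (Finset.univ : Finset (Fin 3 → Bool)),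
      ∃ t : ℕ × ℕ × ℕ, t.2.2 ≠ p.code (p.tr q b).1 ∧
        π = fa (iSt (t.2.1 + 1)) 0 0 t.2.2 6 :: sit p q t.1 b t.2.1) :=
    SD.ex_finset _ fun q _ => SD.ex_finset _ fun b _ => sdruna_stepS p q b
  have h4 : SD (fun π : Pattern => ∃ q ∈ Finset.univ.filter (fun q : p.Q => q ≠ p.halt),
      ∃ b ∈ (Finset.univ : Finset (Fin 3 → Bool)),
      ∃ t : ℕ × ℕ × ℕ, t.2.2 ≠ (p.tr q b).2.2.app t.1 ∧
        π = fa (iHd (t.2.1 + 1)) 0 0 t.2.2 6 :: sit p q t.1 b t.2.1) :=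
    SD.ex_finset _ fun q _ => SD.ex_finset _ fun b _ => sdruna_stepH p q b
  have h5 : SD (fun π : Pattern => ∃ q ∈ Finset.univ.filter (fun q : p.Q => q ≠ p.halt),
      ∃ b ∈ (Finset.univ : Finset (Fin 3 → Bool)), ∃ j ∈ (Finset.univ : Finset (Fin 3)),
      ∃ t : ℕ × ℕ × ℕ, t.2.2 ≠ bc ((p.tr q b).2.1 j) ∧
        π = fa (iCl j t.1 (t.2.1 + 1)) 0 0 t.2.2 6 :: sit p q t.1 b t.2.1) :=
    SD.ex_finset _ fun q _ => SD.ex_finset _ fun b _ => SD.ex_finset _ fun j _ =>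
      sdruna_stepC p q b j
  have h6 : SD (fun π : Pattern => ∃ q ∈ Finset.univ.filter (fun q : p.Q => q ≠ p.halt),
      ∃ j ∈ (Finset.univ : Finset (Fin 3)),
      ∃ t : ℕ × ℕ × ℕ × ℕ × ℕ, (t.2.2.1 ≠ t.1 ∧ t.2.2.2.1 ≠ t.2.2.2.2) ∧
        π = [fa (iSt t.2.1) 0 0 (p.code q) 1, fa (iHd t.2.1) 0 0 t.1 2,
          fa (iCl j t.2.2.1 t.2.1) 0 0 t.2.2.2.1 3,
          fa (iCl j t.2.2.1 (t.2.1 + 1)) 0 0 t.2.2.2.2 4]) :=
    SD.ex_finset _ fun q _ => SD.ex_finset _ fun j _ => sdruna_stepN p q j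
  have h10 : SD (fun π : Pattern => ∃ j ∈ Finset.univ.filter (fun j : Fin 3 => j ≠ 0),
      ∃ t : ℕ × ℕ × ℕ, t.2.2 ≠ 0 ∧ π = [fa iZ 0 0 t.1 1, fa (iCl j t.2.1 0) 1 1 t.2.2 2]) :=
    SD.ex_finset _ fun j _ => sdruna_zC j
  refine ((sdruna_st p).or (h2.or (h3.or (h4.or (h5.or (h6.or (sdruna_z.or
    ((sdruna_zS (p.code p.start)).or (sdruna_zH.or h10))))))))).of_eq fun π => ?_
  simp only [Finset.mem_univ, Finset.mem_filter, true_and]
  constructor
  · rintro (⟨t, h, rfl⟩ | ⟨j, t, h, rfl⟩ | ⟨q, hq, b, t, h, rfl⟩ | ⟨q, hq, b, t, h, rfl⟩ |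
      ⟨q, hq, b, j, t, h, rfl⟩ | ⟨q, hq, j, t, ⟨h, h'⟩, rfl⟩ | ⟨v, rfl⟩ | ⟨t, h, rfl⟩ |
      ⟨t, h, rfl⟩ | ⟨j, hj, t, h, rfl⟩)
    · exact RunA.st _ _ h
    · exact RunA.cl _ _ _ _ h
    · exact RunA.stepS q hq _ b _ _ h
    · exact RunA.stepH q hq _ b _ _ h
    · exact RunA.stepC q hq _ b _ _ j h
    · exact RunA.stepN q hq _ _ _ _ _ j h h'
    · exact RunA.z _
    · exact RunA.zS _ _ h
    · exact RunA.zH _ _ h
    · exact RunA.zC _ _ _ j hj h
  · intro h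
    cases h with
    | st m v h => exact Or.inl ⟨(m, v), h, rfl⟩
    | cl j n m v h => exact Or.inr (Or.inl ⟨j, (n, m, v), h, rfl⟩)
    | stepS q hq h b m v hv => exact Or.inr (Or.inr (Or.inl ⟨q, hq, b, (h, m, v), hv, rfl⟩))
    | stepH q hq h b m v hv =>
      exact Or.inr (Or.inr (Or.inr (Or.inl ⟨q, hq, b, (h, m, v), hv, rfl⟩)))
    | stepC q hq h b m v j hv =>
      exact Or.inr (Or.inr (Or.inr (Or.inr (Or.inl ⟨q, hq, b, j, (h, m, v), hv, rfl⟩))))
    | stepN q hq h m n v v' j hn hv =>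
      exact Or.inr (Or.inr (Or.inr (Or.inr (Or.inr (Or.inl
        ⟨q, hq, j, (h, m, n, v, v'), ⟨hn, hv⟩, rfl⟩)))))
    | z v =>
      exact Or.inr (Or.inr (Or.inr (Or.inr (Or.inr (Or.inr (Or.inl ⟨v, rfl⟩))))))
    | zS v w hw =>
      exact Or.inr (Or.inr (Or.inr (Or.inr (Or.inr (Or.inr (Or.inr (Or.inl
        ⟨(v, w), hw, rfl⟩)))))))
    | zH v w hw =>
      exact Or.inr (Or.inr (Or.inr (Or.inr (Or.inr (Or.inr (Or.inr (Or.inr (Or.inl
        ⟨(v, w), hw, rfl⟩))))))))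
    | zC v n w j hj hw =>
      exact Or.inr (Or.inr (Or.inr (Or.inr (Or.inr (Or.inr (Or.inr (Or.inr (Or.inr
        ⟨j, hj, (v, n, w), hw, rfl⟩))))))))

end Pool.Agent.MPa662fc
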