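import Mathlib
import Pool.Agent.Lib.MP_a662fc_lc.Names

/-!
# The rank tables are correct
-/

namespace Pool.Agent.MPa662fc

open Ordinal Pool.Agent.MP752584 Encodable

theorem tabrank_decode {α : Type} [Denumerable α] {w : ℕ} {x : α} (h : decode (α := α) w = some x) :
    w = encode x := by
  obtain ⟨a, ha, hw⟩ := Denumerable.decode_inv (α := α) w
  rw [Option.mem_def, h, Option.some.injEq] at ha
  rw [ha, hw]

theorem tabrank_bad {y : ℕ → ℕ} {o : ℕ → Ordinal.{0}} (hy : Avoids TabV y) (ho : Names y o)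
    (e a b : ℕ) (u : NPos) (ξ : ℕ) (h : Bad (Th e) (trn o u)) : y (iR e a b u ξ) = 0 := by
  by_contra hr
  rcases (bad_trn_iff ho.inj).1 h with hC | ⟨π, ⟨n, hn⟩, L, hL, hlt⟩
  · refine hy _ (Or.inl (TabR.badC e a b u ξ _ hr hC)) ?_
    intro c hc
    rw [List.mem_singleton] at hc
    rw [hc]
  · refine hy _ (Or.inl (TabR.badP e a b u ξ _ hr π n L hn hL)) ?_
    intro c hc
    rcases List.mem_cons.1 hc with rfl | hc
    · rfl
    · exact (ltTrue_iff ho.lt).1 hlt c hc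

theorem tabrank_just {y : ℕ → ℕ} {o : ℕ → Ordinal.{0}} (hy : Avoids TabV y) (ho : Names y o)
    (e a b : ℕ) (u : NPos) (ξ : ℕ) (h : y (iR e a b u ξ) = 0) :
    Bad (Th e) (trn o u) ∨ ∃ i s t, y (iV a b s) = 0 ∧ y (iV a b t) = 0 ∧ ∀ v c, y (iV a b c) = 0 →
      ∃ ξ', y (iLT ξ' ξ) = 0 ∧ y (iR e a b ((i, s, t, v, c) :: u) ξ') = 0 := by
  obtain ⟨k, w, hkw⟩ : ∃ k w, y (iJ e a b u ξ) = Nat.pair k w :=
    ⟨_, _, (Nat.pair_unpair _).symm⟩
  have hV : ∀ L, TabR L → ¬ ∀ c ∈ L, y c.1 = c.2 := fun L hL => hy L (Or.inl hL)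
  rcases Nat.lt_or_ge k 3 with hk | hk
  · interval_cases k
    · left
      cases hd : decode (α := Pattern × ℕ × List ℕ) w with
      | none =>
        exfalso
        refine hV _ (TabR.j0 e a b u ξ w hd) ?_
        simp [h, hkw]
      | some x =>
        obtain ⟨π, n, L⟩ := x
        obtain rfl := tabrank_decode hd
        by_cases hc : thA e π n = true ∧ RealN π u L
        · refine (bad_trn_iff ho.inj).2 (Or.inr ⟨π, ⟨n, hc.1⟩, L, hc.2, (ltTrue_iff ho.lt).2 ?_⟩)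
          intro c hcl
          obtain ⟨m, n', rfl⟩ := mem_ltReq hcl
          by_contra hv
          refine hV _ (TabR.j0'' e a b u ξ π n L _ _ hv hcl) ?_
          simp [h, hkw]
        · exfalso
          refine hV _ (TabR.j0' e a b u ξ π n L hc) ?_
          simp [h, hkw]
    · left
      by_cases hc : Contra u
      · exact (bad_trn_iff ho.inj).2 (Or.inl hc)
      · exfalso
        refine hV _ (TabR.j1 e a b u ξ w hc) ?_
        simp [h, hkw]
    · right
      cases hd : decode (α := ℕ × ℕ × ℕ) w with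
      | none =>
        exfalso
        refine hV _ (TabR.j2 e a b u ξ w hd) ?_
        simp [h, hkw]
      | some x =>
        obtain ⟨i, s, t⟩ := x
        obtain rfl := tabrank_decode hd
        refine ⟨i, s, t, ?_, ?_, fun v c hc => ⟨y (iK e a b u ξ v c), ?_, ?_⟩⟩
        · by_contra hv
          refine hV _ (TabR.j2s e a b u ξ i s t _ hv) ?_
          simp [h, hkw]
        · by_contra hv
          refine hV _ (TabR.j2t e a b u ξ i s t _ hv) ?_
          simp [h, hkw]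
        · by_contra hv
          refine hV _ (TabR.j2k e a b u ξ i s t v c (y (iK e a b u ξ v c)) _ hv) ?_
          simp [h, hkw, hc]
        · by_contra hv
          refine hV _ (TabR.j2r e a b u ξ i s t v c (y (iK e a b u ξ v c)) _ hv) ?_
          simp [h, hkw, hc]
  · exfalso
    refine hV _ (TabR.j3 e a b u ξ k w hk) ?_
    simp [h, hkw]

theorem tabrank_ans {y : ℕ → ℕ} (hy : Avoids TabV y)
    (e a b : ℕ) (u : NPos) (ξ : ℕ) (h : y (iR e a b u ξ) ≠ 0) (i s t : ℕ)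
    (hs : y (iV a b s) = 0) (ht : y (iV a b t) = 0) : ∃ v c, y (iV a b c) = 0 ∧
      ∀ ξ', y (iLT ξ' ξ) = 0 → y (iR e a b ((i, s, t, v, c) :: u) ξ') ≠ 0 := by
  obtain ⟨v, c, hvc⟩ : ∃ v c, y (iA e a b u ξ i s t) = Nat.pair v c :=
    ⟨_, _, (Nat.pair_unpair _).symm⟩
  have hV : ∀ L, TabR L → ¬ ∀ c ∈ L, y c.1 = c.2 := fun L hL => hy L (Or.inl hL)
  refine ⟨v, c, ?_, fun ξ' h1 h2 => ?_⟩
  · by_contra hv
    refine hV _ (TabR.a1 e a b u ξ _ i s t v c _ h hv) ?_
    simp [hs, ht, hvc]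
  · refine hV _ (TabR.a2 e a b u ξ _ i s t v c ξ' h) ?_
    simp [hs, ht, hvc, h1, h2]

theorem table_rank {y : ℕ → ℕ} {o : ℕ → Ordinal.{0}} (hy : Avoids TabV y) (ho : Names y o)
    (e a b : ℕ) (u : NPos) (ξ : ℕ) :
    y (iR e a b u ξ) = 0 ↔ W (Th e) (o a) (o b) (o ξ) (trn o u) := by
  have key : ∀ ζ : Ordinal.{0}, ∀ (u : NPos) (ξ : ℕ), o ξ = ζ →
      (y (iR e a b u ξ) = 0 ↔ W (Th e) (o a) (o b) (o ξ) (trn o u)) := by
    intro ζ
    induction ζ using WellFoundedLT.induction with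
    | ind ζ ih =>
      rintro u ξ rfl
      constructor
      · intro h
        rcases tabrank_just hy ho e a b u ξ h with hB | ⟨i, s, t, hs, ht, hq⟩
        · exact W.bad hB
        · refine W.cases_iff.2 (Or.inr ⟨i, nm o s, (iV_eq_zero ho.lt a b s).1 hs, nm o t,
            (iV_eq_zero ho.lt a b t).1 ht, fun v c hc => ?_⟩)
          obtain ⟨c', rfl⟩ := exists_nm (ho.seg a) (ho.seg b) hc
          obtain ⟨ξ', h1, h2⟩ := hq v c' ((iV_eq_zero ho.lt a b c').2 hc)
          have h1' := (ho.lt _ _).1 h1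
          exact ⟨o ξ', h1', (ih (o ξ') h1' _ ξ' rfl).1 h2⟩
      · intro h
        rcases W.cases_iff.1 h with hB | ⟨i, s, hs, t, ht, hq⟩
        · exact tabrank_bad hy ho e a b u ξ hB
        · by_contra hr
          obtain ⟨s', rfl⟩ := exists_nm (ho.seg a) (ho.seg b) hs
          obtain ⟨t', rfl⟩ := exists_nm (ho.seg a) (ho.seg b) ht
          obtain ⟨v, c, h1, h2⟩ := tabrank_ans hy e a b u ξ hr i s' t'
            ((iV_eq_zero ho.lt a b s').2 hs) ((iV_eq_zero ho.lt a b t').2 ht)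
          obtain ⟨ζ', hζ', h3⟩ := hq v (nm o c) ((iV_eq_zero ho.lt a b c).1 h1)
          obtain ⟨ξ', rfl⟩ := ho.seg ξ ζ' hζ'
          exact h2 ξ' ((ho.lt _ _).2 hζ') ((ih (o ξ') hζ' _ ξ' rfl).2 h3)
  exact key _ u ξ rfl

end Pool.Agent.MPa662fc
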